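import Pool.Agent.TH246.PR.Defs

/-!
# Basic facts on sets of faces
-/

set_option autoImplicit false

namespace Pool.Agent.TH246.PR

open Finset

variable {V : Type} [DecidableEq V]

theorem mem_verts {T : Finset (Finset V)} {v : V} : v ∈ verts T ↔ ∃ f ∈ T, v ∈ f := by
  simp [verts]

theorem mem_star {T : Finset (Finset V)} {v : V} {f : Finset V} :
    f ∈ star T v ↔ f ∈ T ∧ v ∈ f := by simp [star]

theorem mem_ef {T : Finset (Finset V)} {u v : V} {f : Finset V} :
    f ∈ ef T u v ↔ f ∈ T ∧ u ∈ f ∧ v ∈ f := by simp [ef]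

theorem ef_comm (T : Finset (Finset V)) (u v : V) : ef T u v = ef T v u := by
  ext f; simp only [mem_ef]; tauto

theorem Adj.symm {T : Finset (Finset V)} {u v : V} (h : Adj T u v) : Adj T v u :=
  ⟨h.1.symm, by obtain ⟨f, hf, h1, h2⟩ := h.2; exact ⟨f, hf, h2, h1⟩⟩

theorem adj_comm {T : Finset (Finset V)} {u v : V} : Adj T u v ↔ Adj T v u := ⟨Adj.symm, Adj.symm⟩

theorem Adj.ne {T : Finset (Finset V)} {u v : V} (h : Adj T u v) : u ≠ v := h.1

theorem adj_of_mem {T : Finset (Finset V)} {f : Finset V} (hf : f ∈ T) {u v : V} (hu : u ∈ f)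
    (hv : v ∈ f) (huv : u ≠ v) : Adj T u v := ⟨huv, f, hf, hu, hv⟩

theorem Adj.left_mem {T : Finset (Finset V)} {u v : V} (h : Adj T u v) : u ∈ verts T := by
  obtain ⟨f, hf, h1, h2⟩ := h.2; exact mem_verts.2 ⟨f, hf, h1⟩

theorem Adj.right_mem {T : Finset (Finset V)} {u v : V} (h : Adj T u v) : v ∈ verts T :=
  h.symm.left_mem

theorem Adj.mono {T X : Finset (Finset V)} (hX : X ⊆ T) {u v : V} (h : Adj X u v) : Adj T u v :=
  ⟨h.1, by obtain ⟨f, hf, h1, h2⟩ := h.2; exact ⟨f, hX hf, h1, h2⟩⟩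

theorem not_adj_self {T : Finset (Finset V)} {u : V} : ¬ Adj T u u := fun h => h.1 rfl

/-- a face of card 3 with two given vertices has a third one -/
theorem third {f : Finset V} (hf : f.card = 3) {u v : V} (hu : u ∈ f) (hv : v ∈ f) (huv : u ≠ v) :
    ∃ x, x ≠ u ∧ x ≠ v ∧ f = {u, v, x} := by
  have h1 : ({u, v} : Finset V) ⊆ f := by
    intro y hy
    simp only [mem_insert, mem_singleton] at hy
    rcases hy with rfl | rfl <;> assumption
  have h2 : (f \ {u, v}).card = 1 := by
    rw [card_sdiff_of_subset h1, hf, card_pair huv]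
  obtain ⟨x, hx⟩ := card_eq_one.1 h2
  have hx' : x ∈ f \ {u, v} := by rw [hx]; exact mem_singleton_self x
  simp only [mem_sdiff, mem_insert, mem_singleton, not_or] at hx'
  refine ⟨x, hx'.2.1, hx'.2.2, ?_⟩
  have : f = {u, v} ∪ (f \ {u, v}) := (union_sdiff_of_subset h1).symm
  rw [this, hx]
  ext y
  simp only [mem_union, mem_insert, mem_singleton]
  tauto

/-- a face of card 3 with a given vertex -/
theorem other_two {f : Finset V} (hf : f.card = 3) {u : V} (hu : u ∈ f) :
    ∃ x y, x ≠ u ∧ y ≠ u ∧ x ≠ y ∧ f = {u, x, y} := by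
  have h1 : (f.erase u).card = 2 := by rw [card_erase_of_mem hu, hf]
  obtain ⟨x, y, hxy, h⟩ := card_eq_two.1 h1
  have hx : x ∈ f.erase u := by rw [h]; simp
  have hy : y ∈ f.erase u := by rw [h]; simp
  refine ⟨x, y, (mem_erase.1 hx).1, (mem_erase.1 hy).1, hxy, ?_⟩
  rw [← insert_erase hu, h]

theorem card_three {a b c : V} (hab : a ≠ b) (hac : a ≠ c) (hbc : b ≠ c) :
    ({a, b, c} : Finset V).card = 3 := by
  rw [card_insert_of_notMem (by simp [hab, hac]), card_pair hbc]

/-- from a 3-element face written with three names, the names are different -/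
theorem ne_of_card {a b c : V} (h : ({a, b, c} : Finset V).card = 3) :
    a ≠ b ∧ a ≠ c ∧ b ≠ c := by
  refine ⟨?_, ?_, ?_⟩ <;> rintro rfl
  · have : ({a, a, c} : Finset V).card ≤ 2 := by
      rw [insert_eq_of_mem (by simp)]; exact card_le_two
    omega
  · have : ({a, b, a} : Finset V).card ≤ 2 := by
      rw [insert_eq_of_mem (by simp)]; exact card_le_two
    omega
  · have : ({a, b, b} : Finset V).card ≤ 2 := by
      have h' : ({a, b, b} : Finset V) = {a, b} := by ext; simp
      rw [h']; exact card_le_two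
    omega

theorem Pre.ne {T : Finset (Finset V)} (h : Pre T) {a b c : V} (hf : ({a, b, c} : Finset V) ∈ T) :
    a ≠ b ∧ a ≠ c ∧ b ≠ c := ne_of_card (h.card3 _ hf)

/-- the three edges of a face -/
theorem Pre.adj {T : Finset (Finset V)} (h : Pre T) {a b c : V}
    (hf : ({a, b, c} : Finset V) ∈ T) : Adj T a b ∧ Adj T a c ∧ Adj T b c := by
  obtain ⟨h1, h2, h3⟩ := h.ne hf
  exact ⟨adj_of_mem hf (by simp) (by simp) h1, adj_of_mem hf (by simp) (by simp) h2,
    adj_of_mem hf (by simp) (by simp) h3⟩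

/-- the two faces at an edge -/
theorem Pre.faces {T : Finset (Finset V)} (h : Pre T) {u v : V} (huv : Adj T u v) :
    ∃ x y, x ≠ y ∧ x ≠ u ∧ x ≠ v ∧ y ≠ u ∧ y ≠ v ∧ ({u, v, x} : Finset V) ∈ T ∧
      ({u, v, y} : Finset V) ∈ T ∧ ef T u v = {{u, v, x}, {u, v, y}} ∧
      ∀ z, ({u, v, z} : Finset V) ∈ T → z = x ∨ z = y := by
  obtain ⟨f, g, hfg, he⟩ := card_eq_two.1 (h.two u v huv)
  have hf : f ∈ ef T u v := by rw [he]; simp
  have hg : g ∈ ef T u v := by rw [he]; simp
  rw [mem_ef] at hf hg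
  obtain ⟨x, hxu, hxv, rfl⟩ := third (h.card3 _ hf.1) hf.2.1 hf.2.2 huv.1
  obtain ⟨y, hyu, hyv, rfl⟩ := third (h.card3 _ hg.1) hg.2.1 hg.2.2 huv.1
  have hxy : x ≠ y := by rintro rfl; exact hfg rfl
  refine ⟨x, y, hxy, hxu, hxv, hyu, hyv, hf.1, hg.1, he, ?_⟩
  intro z hz
  have hzn := h.ne hz
  have : ({u, v, z} : Finset V) ∈ ef T u v := mem_ef.2 ⟨hz, by simp, by simp⟩
  rw [he, mem_insert, mem_singleton] at this
  rcases this with h1 | h1
  · left
    have : z ∈ ({u, v, x} : Finset V) := by rw [← h1]; simp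
    simp only [mem_insert, mem_singleton] at this
    rcases this with h2 | h2 | h2
    · exact absurd h2.symm hzn.2.1
    · exact absurd h2.symm hzn.2.2
    · exact h2
  · right
    have : z ∈ ({u, v, y} : Finset V) := by rw [← h1]; simp
    simp only [mem_insert, mem_singleton] at this
    rcases this with h2 | h2 | h2
    · exact absurd h2.symm hzn.2.1
    · exact absurd h2.symm hzn.2.2
    · exact h2

/-- at most two faces at an edge -/
theorem Pre.three {T : Finset (Finset V)} (h : Pre T) {u v x y z : V}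
    (hx : ({u, v, x} : Finset V) ∈ T) (hy : ({u, v, y} : Finset V) ∈ T)
    (hz : ({u, v, z} : Finset V) ∈ T) : x = y ∨ x = z ∨ y = z := by
  obtain ⟨a, b, -, -, -, -, -, -, -, -, hab⟩ := h.faces (h.adj hx).1
  rcases hab x hx with rfl | rfl <;> rcases hab y hy with rfl | rfl <;>
    rcases hab z hz with rfl | rfl <;> simp

/-- reordering the names in a face -/
theorem face_perm (a b c : V) : ({a, b, c} : Finset V) = {a, c, b} ∧ ({a, b, c} : Finset V) =
    {b, a, c} ∧ ({a, b, c} : Finset V) = {b, c, a} ∧ ({a, b, c} : Finset V) = {c, a, b} ∧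
    ({a, b, c} : Finset V) = {c, b, a} := by
  refine ⟨?_, ?_, ?_, ?_, ?_⟩ <;> (ext x; simp only [mem_insert, mem_singleton]; tauto)

/-- two different faces with two common vertices meet exactly in them -/
theorem inter_card {f g : Finset V} (hf : f.card = 3) (hg : g.card = 3) (hfg : f ≠ g) {u v : V}
    (huv : u ≠ v) (h1 : u ∈ f) (h2 : v ∈ f) (h3 : u ∈ g) (h4 : v ∈ g) :
    f ∩ g = {u, v} ∧ (f ∩ g).card = 2 := by
  have hsub : ({u, v} : Finset V) ⊆ f ∩ g := by
    intro y hy
    simp only [mem_insert, mem_singleton] at hy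
    rcases hy with rfl | rfl
    · exact mem_inter.2 ⟨h1, h3⟩
    · exact mem_inter.2 ⟨h2, h4⟩
  have hlt : (f ∩ g).card < 3 := by
    by_contra hc
    push Not at hc
    have e1 : f ∩ g = f := eq_of_subset_of_card_le inter_subset_left (by omega)
    have e2 : f ∩ g = g := eq_of_subset_of_card_le inter_subset_right (by omega)
    exact hfg (e1.symm.trans e2)
  have h2' : ({u, v} : Finset V).card = 2 := card_pair huv
  have : ({u, v} : Finset V) = f ∩ g := eq_of_subset_of_card_le hsub (by omega)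
  exact ⟨this.symm, by rw [← this]; exact h2'⟩

/-- faces meeting in two vertices: the common edge -/
theorem edge_of_inter {T : Finset (Finset V)} {f g : Finset V} (hf : f ∈ T) (h : (f ∩ g).card = 2) :
    ∃ u v, Adj T u v ∧ u ∈ f ∧ v ∈ f ∧ u ∈ g ∧ v ∈ g ∧ f ∩ g = {u, v} := by
  obtain ⟨u, v, huv, he⟩ := card_eq_two.1 h
  have hu : u ∈ f ∩ g := by rw [he]; simp
  have hv : v ∈ f ∩ g := by rw [he]; simp
  rw [mem_inter] at hu hv
  exact ⟨u, v, adj_of_mem hf hu.1 hv.1 huv, hu.1, hv.1, hu.2, hv.2, he⟩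

/-- `conn` in terms of edges -/
theorem Pre.conn' {T : Finset (Finset V)} (h : Pre T) {X : Finset (Finset V)} (hX : X ⊆ T)
    (hne : X.Nonempty)
    (hcl : ∀ u v, Adj T u v → (ef X u v).card ≠ 1) : X = T := by
  refine h.conn X hX hne ?_
  intro f hf g hg hfg
  obtain ⟨u, v, huv, h1, h2, h3, h4, -⟩ := edge_of_inter (hX hf) hfg
  by_contra hgX
  apply hcl u v huv
  have hfg' : f ≠ g := by rintro rfl; exact hgX hf
  have hT : ef T u v = {f, g} := by
    symm
    apply eq_of_subset_of_card_le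
    · intro y hy
      simp only [mem_insert, mem_singleton] at hy
      rcases hy with rfl | rfl
      · exact mem_ef.2 ⟨hX hf, h1, h2⟩
      · exact mem_ef.2 ⟨hg, h3, h4⟩
    · rw [h.two u v huv, card_pair hfg']
  have : ef X u v = {f} := by
    ext y
    rw [mem_singleton]
    constructor
    · intro hy
      have hy' := mem_ef.1 hy
      have : y ∈ ef T u v := mem_ef.2 ⟨hX hy'.1, hy'.2⟩
      rw [hT, mem_insert, mem_singleton] at this
      rcases this with rfl | rfl
      · rfl
      · exact absurd hy'.1 hgX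
    · rintro rfl
      exact mem_ef.2 ⟨hf, h1, h2⟩
  rw [this, card_singleton]

/-- the number of faces of `X` at an edge of `T` is 0, 1 or 2 -/
theorem Pre.ef_le {T : Finset (Finset V)} (h : Pre T) {X : Finset (Finset V)} (hX : X ⊆ T)
    {u v : V} (huv : Adj T u v) : (ef X u v).card ≤ 2 := by
  rw [← h.two u v huv]
  exact card_le_card (filter_subset_filter _ hX)

theorem Pre.ef_sdiff {T : Finset (Finset V)} (h : Pre T) {X : Finset (Finset V)} (hX : X ⊆ T)
    {u v : V} (huv : Adj T u v) : (ef X u v).card + (ef (T \ X) u v).card = 2 := by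
  rw [← h.two u v huv, ← card_union_of_disjoint]
  · congr 1
    ext f
    simp only [mem_union, mem_ef, mem_sdiff]
    constructor
    · rintro (h1 | h1)
      · exact ⟨hX h1.1, h1.2⟩
      · exact ⟨h1.1.1, h1.2⟩
    · rintro ⟨h1, h2⟩
      by_cases hf : f ∈ X
      · exact Or.inl ⟨hf, h2⟩
      · exact Or.inr ⟨⟨h1, hf⟩, h2⟩
  · rw [disjoint_left]
    intro f h1 h2
    exact (mem_sdiff.1 (mem_ef.1 h2).1).2 (mem_ef.1 h1).1

/-- handshake: the degrees sum up to three times the number of faces -/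
theorem sum_deg {T X : Finset (Finset V)} (h3 : ∀ f ∈ X, f.card = 3) :
    ∑ v ∈ verts X, (star X v).card = 3 * X.card := by
  have h1 : ∀ v, (star X v).card = ∑ f ∈ X, if v ∈ f then 1 else 0 := by
    intro v; simp [star]
  simp_rw [h1]
  rw [sum_comm]
  have h2 : ∀ f ∈ X, (∑ v ∈ verts X, if v ∈ f then 1 else 0) = 3 := by
    intro f hf
    rw [← h3 f hf, ← sum_filter, sum_const, smul_eq_mul, mul_one]
    congr 1
    ext v
    simp only [mem_filter, mem_verts]
    exact ⟨fun h => h.2, fun h => ⟨⟨f, hf, h⟩, h⟩⟩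
  rw [sum_congr rfl h2]
  simp [mul_comm]

/-- not consecutive in the link: not adjacent -/
theorem Fac.not_adj {T : Finset (Finset V)} (hF : Fac T) {v p q : V} (h1 : Adj T v p)
    (h2 : Adj T v q) (h3 : ({v, p, q} : Finset V) ∉ T) : ¬ Adj T p q :=
  fun h => h3 (hF v p q h1 h h2)

end Pool.Agent.TH246.PR
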