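import Pool.Agent.TH246.PR.Defs

set_option autoImplicit false
set_option linter.unusedVariables false

namespace Pool.Agent.TH246.PR

open Finset

variable {V : Type} [DecidableEq V]

lemma Col1_two : (2 : ZMod 2) = 0 := by decide

lemma Col1_add_self (x : ZMod 2) : x + x = 0 := by
  revert x; decide

lemma Col1_self (x : F8) : x + x = 0 := by
  funext i
  exact Col1_add_self (x i)

theorem solve3 (a b c : F8) (h : det3 a b c = 1) (i j k : ZMod 2) :
    ∃ s : F8, dot a s = i ∧ dot b s = j ∧ dot c s = k := by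
  refine ⟨fun t => ![i * (b 1 * c 2 + b 2 * c 1) + j * (c 1 * a 2 + c 2 * a 1) +
      k * (a 1 * b 2 + a 2 * b 1),
    i * (b 0 * c 2 + b 2 * c 0) + j * (c 0 * a 2 + c 2 * a 0) + k * (a 0 * b 2 + a 2 * b 0),
    i * (b 0 * c 1 + b 1 * c 0) + j * (c 0 * a 1 + c 1 * a 0) + k * (a 0 * b 1 + a 1 * b 0)] t,
    ?_, ?_, ?_⟩
  · simp only [dot, det3] at h ⊢
    simp only [Matrix.cons_val_zero, Matrix.cons_val_one, Matrix.cons_val]
    linear_combination i * h + (j * (a 0 * c 1 * a 2 + a 0 * c 2 * a 1 + a 1 * c 0 * a 2) +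
      k * (a 0 * a 1 * b 2 + a 0 * a 2 * b 1 + a 1 * a 2 * b 0)) * Col1_two
  · simp only [dot, det3] at h ⊢
    simp only [Matrix.cons_val_zero, Matrix.cons_val_one, Matrix.cons_val]
    linear_combination j * h + (i * (b 0 * b 1 * c 2 + b 0 * b 2 * c 1 + b 1 * b 2 * c 0) +
      k * (b 0 * a 1 * b 2 + b 0 * a 2 * b 1 + b 1 * a 0 * b 2)) * Col1_two
  · simp only [dot, det3] at h ⊢
    simp only [Matrix.cons_val_zero, Matrix.cons_val_one, Matrix.cons_val]
    linear_combination k * h + (i * (c 0 * b 1 * c 2 + c 0 * b 2 * c 1 + c 1 * b 0 * c 2) +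
      j * (c 0 * c 1 * a 2 + c 0 * c 2 * a 1 + c 1 * c 2 * a 0)) * Col1_two

theorem good_ne {T : Finset (Finset V)} {w : V → F8} (hw : Good T w) {x y : V}
    (h : Adj T x y) : w x ≠ w y := by
  intro he
  obtain ⟨s, hs⟩ := hw (fun _ _ => 1) (fun _ _ => rfl)
  have h1 := hs x y h
  rw [he, Col1_self] at h1
  simp [dot] at h1

/-- the normal vector -/
def Col1_nor (u v : F8) : F8 := fun t => ![u 1 * v 2 + u 2 * v 1, u 0 * v 2 + u 2 * v 0,
  u 0 * v 1 + u 1 * v 0] t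

lemma Col1_aff (z a b c : F8) :
    Aff z a b c ↔ dot (z + a) (Col1_nor (b + a) (c + a)) = 1 := by
  have h1 : z + c = (z + a) + (c + a) := by
    have := Col1_self a
    calc z + c = z + c + (a + a) := by rw [this, add_zero]
      _ = _ := by abel
  have h2 : b + c = (b + a) + (c + a) := by
    have := Col1_self a
    calc b + c = b + c + (a + a) := by rw [this, add_zero]
      _ = _ := by abel
  have h3 : a + c = c + a := add_comm _ _
  unfold Aff
  rw [h1, h2, h3]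
  generalize z + a = z'
  generalize b + a = b'
  generalize c + a = c'
  have : det3 (z' + c') c' (b' + c') = dot z' (Col1_nor b' c') := by
    simp only [det3, dot, Col1_nor, Pi.add_apply, Matrix.cons_val_zero, Matrix.cons_val_one,
      Matrix.cons_val]
    linear_combination ((z' 0 * c' 1 * c' 2 + z' 1 * c' 0 * c' 2 + z' 2 * c' 0 * c' 1) +
      (b' 0 * c' 1 * c' 2 + b' 1 * c' 0 * c' 2 + b' 2 * c' 0 * c' 1) +
      3 * c' 0 * c' 1 * c' 2) * Col1_two
  rw [this]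

lemma Col1_nor_ne {u v : F8} (hu : u ≠ 0) (hv : v ≠ 0) (huv : u ≠ v) : Col1_nor u v ≠ 0 := by
  have key : ∀ u0 u1 u2 v0 v1 v2 : ZMod 2, ¬ (u0 = 0 ∧ u1 = 0 ∧ u2 = 0) →
      ¬ (v0 = 0 ∧ v1 = 0 ∧ v2 = 0) → ¬ (u0 = v0 ∧ u1 = v1 ∧ u2 = v2) →
      ¬ (u1 * v2 + u2 * v1 = 0 ∧ u0 * v2 + u2 * v0 = 0 ∧ u0 * v1 + u1 * v0 = 0) := by decide
  intro h
  refine key (u 0) (u 1) (u 2) (v 0) (v 1) (v 2) ?_ ?_ ?_
    ⟨congrFun h 0, congrFun h 1, congrFun h 2⟩
  · rintro ⟨h0, h1, h2⟩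
    apply hu
    funext i
    fin_cases i
    · exact h0
    · exact h1
    · exact h2
  · rintro ⟨h0, h1, h2⟩
    apply hv
    funext i
    fin_cases i
    · exact h0
    · exact h1
    · exact h2
  · rintro ⟨h0, h1, h2⟩
    apply huv
    funext i
    fin_cases i
    · exact h0
    · exact h1
    · exact h2

lemma Col1_ne_coord {n : F8} (hn : n ≠ 0) : ¬ (n 0 = 0 ∧ n 1 = 0 ∧ n 2 = 0) := by
  rintro ⟨h0, h1, h2⟩
  apply hn
  funext i
  fin_cases i
  · exact h0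
  · exact h1
  · exact h2

lemma Col1_add_ne {a b : F8} (h : a ≠ b) : a + b ≠ 0 := by
  intro h1
  apply h
  calc a = a + (b + b) := by rw [Col1_self, add_zero]
    _ = (a + b) + b := by abel
    _ = b := by rw [h1, zero_add]

lemma Col1_shift (z a : F8) : z + a + a = z := by
  rw [add_assoc, Col1_self, add_zero]

set_option maxRecDepth 20000 in
lemma Col1_dec1 : ∀ n0 n1 n2 p0 p1 p2 q0 q1 q2 : ZMod 2, ¬ (n0 = 0 ∧ n1 = 0 ∧ n2 = 0) →
    ∃ z0 z1 z2 : ZMod 2, z0 * n0 + z1 * n1 + z2 * n2 = 1 ∧ ¬ (z0 = p0 ∧ z1 = p1 ∧ z2 = p2) ∧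
      ¬ (z0 = q0 ∧ z1 = q1 ∧ z2 = q2) := by decide

lemma Col1_dec2 : ∀ n0 n1 n2 m0 m1 m2 : ZMod 2, ¬ (n0 = 0 ∧ n1 = 0 ∧ n2 = 0) →
    ¬ (m0 = 0 ∧ m1 = 0 ∧ m2 = 0) →
    ∃ z0 z1 z2 : ZMod 2, z0 * n0 + z1 * n1 + z2 * n2 = 1 ∧ z0 * m0 + z1 * m1 + z2 * m2 = 1 := by
  decide

/-- off one plane and off two forbidden points -/
theorem exists_aff_ne2 (a b c x y : F8) (hab : a ≠ b) (hbc : b ≠ c) (hac : a ≠ c) :
    ∃ z : F8, Aff z a b c ∧ z ≠ x ∧ z ≠ y := by
  have hn : Col1_nor (b + a) (c + a) ≠ 0 :=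
    Col1_nor_ne (Col1_add_ne hab.symm) (Col1_add_ne hac.symm) (fun h => hbc (by
      have := congrArg (fun t => t + a) h
      simpa [Col1_shift] using this))
  obtain ⟨z0, z1, z2, h1, h2, h3⟩ := Col1_dec1 _ _ _ ((x + a) 0) ((x + a) 1) ((x + a) 2)
    ((y + a) 0) ((y + a) 1) ((y + a) 2) (Col1_ne_coord hn)
  refine ⟨(fun t => ![z0, z1, z2] t) + a, ?_, ?_, ?_⟩
  · rw [Col1_aff, Col1_shift]
    exact h1
  · rintro rfl
    apply h2
    rw [Col1_shift]
    exact ⟨rfl, rfl, rfl⟩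
  · rintro rfl
    apply h3
    rw [Col1_shift]
    exact ⟨rfl, rfl, rfl⟩

/-- off two planes with a common point -/
theorem exists_aff_aff (a b c d e : F8) (hab : a ≠ b) (hbc : b ≠ c) (hac : a ≠ c) (had : a ≠ d)
    (hae : a ≠ e) (hde : d ≠ e) : ∃ z : F8, Aff z a b c ∧ Aff z a d e := by
  have hn : Col1_nor (b + a) (c + a) ≠ 0 :=
    Col1_nor_ne (Col1_add_ne hab.symm) (Col1_add_ne hac.symm) (fun h => hbc (by
      have := congrArg (fun t => t + a) h
      simpa [Col1_shift] using this))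
  have hm : Col1_nor (d + a) (e + a) ≠ 0 :=
    Col1_nor_ne (Col1_add_ne had.symm) (Col1_add_ne hae.symm) (fun h => hde (by
      have := congrArg (fun t => t + a) h
      simpa [Col1_shift] using this))
  obtain ⟨z0, z1, z2, h1, h2⟩ := Col1_dec2 _ _ _ _ _ _ (Col1_ne_coord hn) (Col1_ne_coord hm)
  refine ⟨(fun t => ![z0, z1, z2] t) + a, ?_, ?_⟩
  · rw [Col1_aff, Col1_shift]
    exact h1
  · rw [Col1_aff, Col1_shift]
    exact h2

/-- `Aff` does not depend on the order of the three last points -/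
theorem aff_perm (z a b c : F8) : (Aff z a b c ↔ Aff z b a c) ∧ (Aff z a b c ↔ Aff z a c b) := by
  constructor
  · unfold Aff
    have : det3 (z + c) (a + c) (b + c) = det3 (z + c) (b + c) (a + c) := by
      simp only [det3]; ring
    rw [this]
  · rw [Col1_aff, Col1_aff]
    have : dot (z + a) (Col1_nor (b + a) (c + a)) = dot (z + a) (Col1_nor (c + a) (b + a)) := by
      simp only [dot, Col1_nor, Matrix.cons_val_zero, Matrix.cons_val_one, Matrix.cons_val]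
      ring
    rw [this]

end Pool.Agent.TH246.PR
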