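import Pool.Agent.TH246.PR.Defs

/-!
# Rigid colourings: small tools for the colour lemmas
-/

set_option autoImplicit false
set_option linter.unusedVariables false

namespace Pool.Agent.TH246.PR

open Finset

variable {V : Type} [DecidableEq V]

theorem CB_dot_add_left (a b s : F8) : dot (a + b) s = dot a s + dot b s := by
  simp only [dot, Pi.add_apply]; ring

theorem CB_dot_add_right (a s t : F8) : dot a (s + t) = dot a s + dot a t := by
  simp only [dot, Pi.add_apply]; ring

theorem CB_adj_symm {T : Finset (Finset V)} {u v : V} (h : Adj T u v) : Adj T v u := by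
  obtain ⟨hne, f, hf, h1, h2⟩ := h
  exact ⟨hne.symm, f, hf, h2, h1⟩

/-- changing the colour and the vector of one vertex -/
theorem CB_ext0 {R : V → V → Prop} (hR : ∀ x y, R x y → R y x) (hirr : ∀ x, ¬ R x x) {q : V}
    {w : V → F8} {U : F8} {lab : V → V → ZMod 2}
    (hlab : ∀ x y, lab x y = lab y x) (s : V → F8) (su : F8)
    (h1 : ∀ x, R q x → x ≠ q → dot (U + w x) (su + s x) = lab q x)
    (h2 : ∀ x y, x ≠ q → y ≠ q → R x y → dot (w x + w y) (s x + s y) = lab x y) :
    ∀ x y, R x y → dot (Function.update w q U x + Function.update w q U y)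
      (Function.update s q su x + Function.update s q su y) = lab x y := by
  intro x y h
  by_cases hx : x = q
  · subst hx
    have hy : y ≠ x := by rintro rfl; exact hirr _ h
    rw [Function.update_self, Function.update_self, Function.update_of_ne hy,
      Function.update_of_ne hy]
    exact h1 y h hy
  · by_cases hy : y = q
    · subst hy
      rw [Function.update_self, Function.update_self, Function.update_of_ne hx,
        Function.update_of_ne hx, hlab, add_comm (w x), add_comm (s x)]
      exact h1 x (hR _ _ h) hx
    · rw [Function.update_of_ne hx, Function.update_of_ne hx, Function.update_of_ne hy,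
        Function.update_of_ne hy]
      exact h2 x y hx hy h

/-- extension of a solution to one more vertex -/
theorem CB_ext1 {T : Finset (Finset V)} {u : V} {w : V → F8} {U : F8} {lab : V → V → ZMod 2}
    (hlab : ∀ x y, lab x y = lab y x) (s : V → F8) (su : F8)
    (h1 : ∀ x, Adj T u x → dot (U + w x) (su + s x) = lab u x)
    (h2 : ∀ x y, x ≠ u → y ≠ u → Adj T x y → dot (w x + w y) (s x + s y) = lab x y) :
    ∃ S : V → F8, ∀ x y, Adj T x y →
      dot (Function.update w u U x + Function.update w u U y) (S x + S y) = lab x y := by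
  refine ⟨Function.update s u su, fun x y h => ?_⟩
  by_cases hx : x = u
  · subst hx
    have hy : y ≠ x := h.1.symm
    rw [Function.update_self, Function.update_self, Function.update_of_ne hy,
      Function.update_of_ne hy]
    exact h1 y h
  · by_cases hy : y = u
    · subst hy
      rw [Function.update_self, Function.update_self, Function.update_of_ne hx,
        Function.update_of_ne hx, hlab, add_comm (w x), add_comm (s x)]
      exact h1 x (CB_adj_symm h)
    · rw [Function.update_of_ne hx, Function.update_of_ne hx, Function.update_of_ne hy,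
        Function.update_of_ne hy]
      exact h2 x y hx hy h

/-- the plane lemma: `a + b + c` for `v` replaced -/
theorem CB_det_chord (v a c e : F8) (h : Aff v a c e) :
    det3 (a + c + e + a) (a + c + e + c) (a + c + e + v) = 1 := by
  simp only [Aff, det3, Pi.add_apply] at *
  generalize v 0 = v0 at *; generalize v 1 = v1 at *; generalize v 2 = v2 at *
  generalize a 0 = a0 at *; generalize a 1 = a1 at *; generalize a 2 = a2 at *
  generalize c 0 = c0 at *; generalize c 1 = c1 at *; generalize c 2 = c2 at *
  generalize e 0 = e0 at *; generalize e 1 = e1 at *; generalize e 2 = e2 at *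
  grind

/-- labels after the identification of `q` with `p` -/
theorem CB_lab {T T' : Finset (Finset V)} {v p q : V} {w : V → F8} {delta : F8}
    {lab : V → V → ZMod 2} (hlab : ∀ x y, lab x y = lab y x) (hvp : v ≠ p) (hvq : v ≠ q)
    (hpq' : p ≠ q) (hpq : ¬ Adj T p q)
    (h1 : ∀ x y, x ≠ v → y ≠ v → x ≠ q → y ≠ q → Adj T x y → Adj T' x y)
    (h2 : ∀ x, x ≠ v → Adj T q x → Adj T' p x)
    (hw : Good T' w)
    (hd : ∀ x, x ≠ v → Adj T x p → Adj T x q → dot (w p + w x) delta = lab p x + lab q x) :
    ∃ s' : V → F8,
      (∀ x y, x ≠ v → y ≠ v → x ≠ q → y ≠ q → Adj T x y →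
        dot (w x + w y) (s' x + s' y) = lab x y) ∧
      (∀ x, x ≠ v → Adj T q x → dot (w p + w x) (s' p + s' x) =
        lab q x + dot (w p + w x) delta) ∧
      (∀ x y, x ≠ v → y ≠ v → Adj T x y → dot (Function.update w q (w p) x +
        Function.update w q (w p) y) (Function.update s' q (s' p + delta) x +
        Function.update s' q (s' p + delta) y) = lab x y) := by
  classical
  set F : V → ZMod 2 := fun x => if Adj T p x then lab p x else
    lab q x + dot (w p + w x) delta with hF
  set lab' : V → V → ZMod 2 := fun x y => if x = p then F y else if y = p then F x else lab x y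
    with hlab'
  have hsym : ∀ x y, lab' x y = lab' y x := by
    intro x y
    simp only [hlab']
    by_cases hx : x = p
    · by_cases hy : y = p
      · subst hx; subst hy; rfl
      · rw [if_pos hx, if_neg hy, if_pos hx]
    · by_cases hy : y = p
      · rw [if_neg hx, if_pos hy, if_pos hy]
      · rw [if_neg hx, if_neg hy, if_neg hy, if_neg hx, hlab]
  obtain ⟨s, hs⟩ := hw lab' hsym
  have A : ∀ x y, x ≠ v → y ≠ v → x ≠ q → y ≠ q → Adj T x y →
      dot (w x + w y) (s x + s y) = lab x y := by
    intro x y hx hy hxq hyq h
    rw [hs x y (h1 x y hx hy hxq hyq h)]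
    simp only [hlab', hF]
    by_cases hxp : x = p
    · subst hxp
      rw [if_pos rfl, if_pos h]
    · by_cases hyp : y = p
      · subst hyp
        rw [if_neg hxp, if_pos rfl, if_pos (CB_adj_symm h), hlab]
      · rw [if_neg hxp, if_neg hyp]
  have B : ∀ x, x ≠ v → Adj T q x → dot (w p + w x) (s p + s x) =
        lab q x + dot (w p + w x) delta := by
    intro x hx h
    rw [hs p x (h2 x hx h)]
    simp only [hlab', hF, if_true]
    by_cases hpx : Adj T p x
    · rw [if_pos hpx, hd x hx (CB_adj_symm hpx) (CB_adj_symm h)]
      grind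
    · rw [if_neg hpx]
  refine ⟨s, A, B, fun x y hx hy h => ?_⟩
  refine CB_ext0 (R := fun x y => x ≠ v ∧ y ≠ v ∧ Adj T x y)
    (fun x y h => ⟨h.2.1, h.1, CB_adj_symm h.2.2⟩) (fun x h => h.2.2.1 rfl) hlab s (s p + delta)
    ?_ ?_ x y ⟨hx, hy, h⟩
  · rintro z ⟨-, hz, hqz⟩ hzq
    have := B z hz hqz
    have e : s p + delta + s z = (s p + s z) + delta := by abel
    rw [e, CB_dot_add_right, this]
    grind
  · rintro a b ha hb ⟨ha', hb', hab⟩
    exact A a b ha' hb' ha hb hab

end Pool.Agent.TH246.PR
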