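import Pool.Agent.TH246.PR.Col1
import Pool.Agent.TH246.PR.ColBase

/-!
# Chord lemma and recolouring of a vertex of degree 3
-/

set_option autoImplicit false
set_option linter.unusedVariables false

namespace Pool.Agent.TH246.PR

open Finset

variable {V : Type} [DecidableEq V]

theorem chord {T T' : Finset (Finset V)} {u a v c e : V} {w : V → F8}
    (hn : [u, a, v, c, e].Nodup)
    (hnb : ∀ x, Adj T u x ↔ x = a ∨ x = v ∨ x = c ∨ x = e)
    (hac : ¬ Adj T a c) (hae : Adj T a e) (hce : Adj T c e)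
    (h1 : ∀ x y, x ≠ u → y ≠ u → Adj T x y → Adj T' x y) (h2 : Adj T' a c)
    (hw : Good T' w) (hc : Aff (w v) (w a) (w c) (w e)) :
    Good T (Function.update w u (w a + w c + w e)) := by
  intro lab hlab
  have hne : u ≠ a ∧ u ≠ v ∧ u ≠ c ∧ u ≠ e ∧ a ≠ v ∧ a ≠ c ∧ a ≠ e ∧ v ≠ c ∧ v ≠ e ∧ c ≠ e := by
    simp only [List.nodup_cons, List.mem_cons, List.not_mem_nil, not_or, or_false] at hn
    tauto
  obtain ⟨hua, huv, huc, hue, -, hac', hae', -, -, hce'⟩ := hne
  set k : ZMod 2 := lab u a + lab u c + lab u e + lab a e + lab c e with hk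
  set lab' : V → V → ZMod 2 := fun x y => if (x = a ∧ y = c) ∨ (x = c ∧ y = a) then k
    else lab x y with hlab'
  have hsym : ∀ x y, lab' x y = lab' y x := by
    intro x y
    simp only [hlab']
    have e1 : ((x = a ∧ y = c) ∨ (x = c ∧ y = a)) ↔ ((y = a ∧ x = c) ∨ (y = c ∧ x = a)) := by
      tauto
    by_cases h : (x = a ∧ y = c) ∨ (x = c ∧ y = a)
    · rw [if_pos h, if_pos (e1.1 h)]
    · rw [if_neg h, if_neg (fun h' => h (e1.2 h')), hlab]
  obtain ⟨s, hs⟩ := hw lab' hsym
  obtain ⟨t, ht1, ht2, ht3⟩ := solve3 _ _ _ (CB_det_chord _ _ _ _ hc)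
    (lab u a + dot (w a + w c + w e + w a) (s a)) (lab u c + dot (w a + w c + w e + w c) (s c))
    (lab u v + dot (w a + w c + w e + w v) (s v))
  have eac : dot (w a + w c) (s a + s c) = k := by
    rw [hs a c h2]; simp [hlab']
  have eae : dot (w a + w e) (s a + s e) = lab a e := by
    rw [hs a e (h1 a e hua.symm hue.symm hae)]
    simp only [hlab']
    rw [if_neg]
    rintro (⟨-, h⟩ | ⟨h, -⟩)
    · exact hce' h.symm
    · exact hac' h
  have ece : dot (w c + w e) (s c + s e) = lab c e := by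
    rw [hs c e (h1 c e huc.symm hue.symm hce)]
    simp only [hlab']
    rw [if_neg]
    rintro (⟨h, -⟩ | ⟨-, h⟩)
    · exact hac' h.symm
    · exact hae' h.symm
  refine CB_ext1 hlab s t ?_ ?_
  · intro x hx
    rcases (hnb x).1 hx with rfl | rfl | rfl | rfl
    · rw [CB_dot_add_right, ht1]
      grind
    · rw [CB_dot_add_right, ht3]
      grind
    · rw [CB_dot_add_right, ht2]
      grind
    · simp only [CB_dot_add_left, CB_dot_add_right] at *
      grind
  · intro x y hx hy hxy
    rw [hs x y (h1 x y hx hy hxy)]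
    simp only [hlab']
    rw [if_neg]
    rintro (⟨rfl, rfl⟩ | ⟨rfl, rfl⟩)
    · exact hac hxy
    · exact hac (CB_adj_symm hxy)

theorem rec3 {T : Finset (Finset V)} {x a b c : V} {w : V → F8} (hn : [x, a, b, c].Nodup)
    (hnb : ∀ y, Adj T x y ↔ y = a ∨ y = b ∨ y = c) (hw : Good T w) (c0 : F8)
    (hc : Aff c0 (w a) (w b) (w c)) : Good T (Function.update w x c0) := by
  intro lab hlab
  obtain ⟨s, hs⟩ := hw lab hlab
  have hdet : det3 (c0 + w a) (c0 + w b) (c0 + w c) = 1 := by
    simp only [Aff, det3, Pi.add_apply] at *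
    grind
  obtain ⟨t, ht1, ht2, ht3⟩ := solve3 _ _ _ hdet
    (lab x a + dot (c0 + w a) (s a)) (lab x b + dot (c0 + w b) (s b))
    (lab x c + dot (c0 + w c) (s c))
  refine CB_ext1 hlab s t ?_ ?_
  · intro y hy
    rcases (hnb y).1 hy with rfl | rfl | rfl
    · rw [CB_dot_add_right, ht1]
      grind
    · rw [CB_dot_add_right, ht2]
      grind
    · rw [CB_dot_add_right, ht3]
      grind
  · intro y z hy hz hyz
    exact hs y z hyz

end Pool.Agent.TH246.PR
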