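import Pool.Agent.TH246.PR.Col1

set_option autoImplicit false
set_option linter.unusedVariables false

namespace Pool.Agent.TH246.PR

open Finset

variable {V : Type} [DecidableEq V]

theorem Col4_exists_det (p q : F8) (hp : p ≠ 0) (hq : q ≠ 0) (hpq : p ≠ q) :
    ∃ r : F8, det3 p q r = 1 := by
  revert p q; decide +kernel

/-- cross product -/
def Col4_cr (a b : F8) : F8 :=
  ![a 1 * b 2 - a 2 * b 1, a 2 * b 0 - a 0 * b 2, a 0 * b 1 - a 1 * b 0]

theorem Col4_det (a b c : F8) : det3 a b c = a 0 * (b 1 * c 2 - b 2 * c 1) +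
    a 1 * (b 2 * c 0 - b 0 * c 2) + a 2 * (b 0 * c 1 - b 1 * c 0) := by
  simp only [det3, CharTwo.sub_eq_add]; ring

theorem Col4_dot_cr (m x : F8) : dot x (Col4_cr m x) = 0 := by
  simp [dot, Col4_cr]; ring

theorem Col4_two (x : F8) : x + x = 0 := by
  funext i; simp only [Pi.add_apply, Pi.zero_apply]; exact CharTwo.add_self_eq_zero _

/-- data of a linear isometry pair -/
def Col4_Iso (L M : F8 → F8) : Prop :=
  (∀ u v, L (u + v) = L u + L v) ∧ (∀ u v, M (u + v) = M u + M v) ∧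
    (∀ u v, dot (L u) (M v) = dot u v)

theorem Col4_from (p q r : F8) (h : det3 p q r = 1) : ∃ L M : F8 → F8, Col4_Iso L M ∧
    L p = ![1, 0, 0] ∧ L q = ![0, 1, 0] := by
  rw [Col4_det] at h
  refine ⟨fun u => ![dot (Col4_cr q r) u, dot (Col4_cr r p) u, dot (Col4_cr p q) u],
    fun v => ![dot p v, dot q v, dot r v], ⟨?_, ?_, ?_⟩, ?_, ?_⟩
  · intro u v; funext i; fin_cases i <;> simp [dot, Col4_cr] <;> ring
  · intro u v; funext i; fin_cases i <;> simp [dot] <;> ring
  · intro u v; simp [dot, Col4_cr]; linear_combination (u 0 * v 0 + u 1 * v 1 + u 2 * v 2) * h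
  · funext i; fin_cases i <;> simp [dot, Col4_cr]
    · linear_combination h
    · ring
    · ring
  · funext i; fin_cases i <;> simp [dot, Col4_cr]
    · ring
    · linear_combination h
    · ring

theorem Col4_to (p q r : F8) (h : det3 p q r = 1) : ∃ L M : F8 → F8, Col4_Iso L M ∧
    L ![1, 0, 0] = p ∧ L ![0, 1, 0] = q := by
  rw [Col4_det] at h
  refine ⟨fun u => fun i => u 0 * p i + u 1 * q i + u 2 * r i,
    fun v => fun i => v 0 * Col4_cr q r i + v 1 * Col4_cr r p i + v 2 * Col4_cr p q i,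
    ⟨?_, ?_, ?_⟩, ?_, ?_⟩
  · intro u v; funext i; simp; ring
  · intro u v; funext i; simp; ring
  · intro u v; simp [dot, Col4_cr]; linear_combination (u 0 * v 0 + u 1 * v 1 + u 2 * v 2) * h
  · funext i; simp
  · funext i; simp

omit [DecidableEq V] in
theorem Col4_good {T : Finset (Finset V)} {w : V → F8} (hw : Good T w) {L M : F8 → F8}
    (h : Col4_Iso L M) (t : F8) : Good T (fun v => L (w v) + t) := by
  obtain ⟨h1, h2, h3⟩ := h
  intro c hc
  obtain ⟨s, hs⟩ := hw c hc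
  refine ⟨fun v => M (s v), fun u v huv => ?_⟩
  have : (L (w u) + t + (L (w v) + t)) = L (w u + w v) := by
    rw [h1]
    calc L (w u) + t + (L (w v) + t) = L (w u) + L (w v) + (t + t) := by abel
      _ = _ := by rw [Col4_two, add_zero]
  rw [this, ← h2, h3]
  exact hs u v huv

theorem Col4_ne {x y : F8} (h : x ≠ y) : x + y ≠ 0 := by
  intro h'
  apply h
  have : x + y + y = y := by rw [h', zero_add]
  rwa [add_assoc, Col4_two, add_zero] at this

/-- a rigid colouring can be moved to any three distinct colours on three vertices -/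
theorem move {T : Finset (Finset V)} {a b c : V} {w : V → F8} (hw : Good T w) (hab : w a ≠ w b)
    (hbc : w b ≠ w c) (hac : w a ≠ w c) (x y z : F8) (hxy : x ≠ y) (hyz : y ≠ z) (hxz : x ≠ z) :
    ∃ w' : V → F8, Good T w' ∧ w' a = x ∧ w' b = y ∧ w' c = z := by
  obtain ⟨r, hr⟩ := Col4_exists_det (w a + w b) (w a + w c) (Col4_ne hab) (Col4_ne hac)
    (fun h => hbc (add_left_cancel h))
  obtain ⟨r', hr'⟩ := Col4_exists_det (x + y) (x + z) (Col4_ne hxy) (Col4_ne hxz)
    (fun h => hyz (add_left_cancel h))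
  obtain ⟨L, M, hI, h1, h2⟩ := Col4_from _ _ _ hr
  obtain ⟨L', M', hI', h1', h2'⟩ := Col4_to _ _ _ hr'
  have g1 : Good T (fun v => L (w v)) := by
    have := Col4_good hw hI 0
    simpa using this
  have g2 := Col4_good g1 hI' (x + L' (L (w a)))
  refine ⟨_, g2, ?_, ?_, ?_⟩
  · show L' (L (w a)) + (x + L' (L (w a))) = x
    calc L' (L (w a)) + (x + L' (L (w a))) = x + (L' (L (w a)) + L' (L (w a))) := by abel
      _ = x := by rw [Col4_two, add_zero]
  · show L' (L (w b)) + (x + L' (L (w a))) = y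
    calc L' (L (w b)) + (x + L' (L (w a))) = x + (L' (L (w a)) + L' (L (w b))) := by abel
      _ = x + (x + y) := by rw [← hI'.1, ← hI.1, h1, h1']
      _ = y := by rw [← add_assoc, Col4_two, zero_add]
  · show L' (L (w c)) + (x + L' (L (w a))) = z
    calc L' (L (w c)) + (x + L' (L (w a))) = x + (L' (L (w a)) + L' (L (w c))) := by abel
      _ = x + (x + z) := by rw [← hI'.1, ← hI.1, h2, h2']
      _ = z := by rw [← add_assoc, Col4_two, zero_add]

theorem Col4_motion (x y p q : F8) (hx : x ≠ 0) (hy : y ≠ 0) (hxy : x ≠ y) (h1 : dot x p = 0)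
    (h2 : dot y q = 0) (h3 : dot (x + y) (p + q) = 0) : ∃ m, Col4_cr m x = p ∧ Col4_cr m y = q := by
  obtain ⟨r, hr⟩ := Col4_exists_det x y hx hy hxy
  rw [Col4_det] at hr
  have h4 : dot x q + dot y p = 0 := by
    have : dot (x + y) (p + q) = dot x p + dot x q + dot y p + dot y q := by simp [dot]; ring
    rw [this, h1, h2] at h3
    simpa using h3
  refine ⟨fun i => dot r q * x i - dot r p * y i + dot y p * r i, ?_, ?_⟩
  · have key : ∀ i, Col4_cr (fun i => dot r q * x i - dot r p * y i + dot y p * r i) x i = p i := by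
      intro i
      simp only [dot] at h1
      fin_cases i
      · simp [Col4_cr, dot]
        linear_combination (p 0) * hr - (y 1 * r 2 - y 2 * r 1) * h1
      · simp [Col4_cr, dot]
        linear_combination (p 1) * hr - (y 2 * r 0 - y 0 * r 2) * h1
      · simp [Col4_cr, dot]
        linear_combination (p 2) * hr - (y 0 * r 1 - y 1 * r 0) * h1
    funext i; exact key i
  · have key : ∀ i, Col4_cr (fun i => dot r q * x i - dot r p * y i + dot y p * r i) y i = q i := by
      intro i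
      simp only [dot] at h2 h4
      fin_cases i
      · simp [Col4_cr, dot]
        linear_combination (q 0) * hr - (r 1 * x 2 - r 2 * x 1) * h2 - (y 1 * r 2 - y 2 * r 1) * h4
      · simp [Col4_cr, dot]
        linear_combination (q 1) * hr - (r 2 * x 0 - r 0 * x 2) * h2 - (y 2 * r 0 - y 0 * r 2) * h4
      · simp [Col4_cr, dot]
        linear_combination (q 2) * hr - (r 0 * x 1 - r 1 * x 0) * h2 - (y 0 * r 1 - y 1 * r 0) * h4
    funext i; exact key i


theorem sum3 {T T1 T2 : Finset (Finset V)} {a b c : V} (h1 : ({a, b, c} : Finset V) ∈ T1)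
    (h2 : ({a, b, c} : Finset V) ∈ T2) (hab : a ≠ b) (hbc : b ≠ c) (hac : a ≠ c)
    (hadj : ∀ u v, Adj T u v → Adj T1 u v ∨ Adj T2 u v)
    (hv : ∀ x, x ∈ verts T1 → x ∈ verts T2 → x = a ∨ x = b ∨ x = c)
    (g1 : ∃ w : V → F8, Good T1 w) (g2 : ∃ w : V → F8, Good T2 w) : ∃ w : V → F8, Good T w := by
  have adj3 : ∀ T' : Finset (Finset V), ({a, b, c} : Finset V) ∈ T' →
      Adj T' a b ∧ Adj T' b c ∧ Adj T' a c := fun T' h =>
    ⟨⟨hab, _, h, by simp, by simp⟩, ⟨hbc, _, h, by simp, by simp⟩, ⟨hac, _, h, by simp, by simp⟩⟩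
  obtain ⟨ab1, bc1, ac1⟩ := adj3 T1 h1
  obtain ⟨ab2, bc2, ac2⟩ := adj3 T2 h2
  have ve : ∀ T' : Finset (Finset V), ∀ u v, Adj T' u v → u ∈ verts T' ∧ v ∈ verts T' := by
    intro T' u v ⟨_, f, hf, hu, hv⟩
    simp only [verts, mem_biUnion, id]
    exact ⟨⟨f, hf, hu⟩, ⟨f, hf, hv⟩⟩
  obtain ⟨w1, hw1⟩ := g1
  obtain ⟨w20, hw20⟩ := g2
  have n1 := good_ne hw1 ab1
  have n2 := good_ne hw1 bc1
  have n3 := good_ne hw1 ac1
  obtain ⟨w2, hw2, e1, e2, e3⟩ := move hw20 (good_ne hw20 ab2) (good_ne hw20 bc2)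
    (good_ne hw20 ac2) (w1 a) (w1 b) (w1 c) n1 n2 n3
  have agree : ∀ x, x ∈ verts T1 → x ∈ verts T2 → w2 x = w1 x := by
    intro x hx1 hx2
    rcases hv x hx1 hx2 with rfl | rfl | rfl <;> assumption
  refine ⟨fun v => if v ∈ verts T1 then w1 v else w2 v, ?_⟩
  intro lab hlab
  obtain ⟨s1, hs1⟩ := hw1 lab hlab
  obtain ⟨s2, hs2⟩ := hw2 lab hlab
  have key : ∀ x y, Adj T1 x y → Adj T2 x y →
      dot (w1 x + w1 y) ((s1 x + s2 x) + (s1 y + s2 y)) = 0 := by
    intro x y hx1 hx2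
    have k1 := hs1 x y hx1
    have k2 := hs2 x y hx2
    rw [agree x (ve _ _ _ hx1).1 (ve _ _ _ hx2).1, agree y (ve _ _ _ hx1).2 (ve _ _ _ hx2).2] at k2
    have : dot (w1 x + w1 y) ((s1 x + s2 x) + (s1 y + s2 y)) =
        dot (w1 x + w1 y) (s1 x + s1 y) + dot (w1 x + w1 y) (s2 x + s2 y) := by
      simp [dot]; ring
    rw [this, k1, k2]
    exact CharTwo.add_self_eq_zero _
  obtain ⟨m, hm1, hm2⟩ := Col4_motion (w1 a + w1 b) (w1 a + w1 c) ((s1 a + s2 a) + (s1 b + s2 b))
    ((s1 a + s2 a) + (s1 c + s2 c)) (Col4_ne n1) (Col4_ne n3) (fun h => n2 (add_left_cancel h))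
    (key a b ab1 ab2) (key a c ac1 ac2) (by
      have k := key b c bc1 bc2
      have e1 : w1 a + w1 b + (w1 a + w1 c) = w1 b + w1 c := by
        calc w1 a + w1 b + (w1 a + w1 c) = (w1 a + w1 a) + (w1 b + w1 c) := by abel
          _ = _ := by rw [Col4_two, zero_add]
      have e2 : s1 a + s2 a + (s1 b + s2 b) + (s1 a + s2 a + (s1 c + s2 c)) =
          s1 b + s2 b + (s1 c + s2 c) := by
        calc s1 a + s2 a + (s1 b + s2 b) + (s1 a + s2 a + (s1 c + s2 c)) =
            ((s1 a + s2 a) + (s1 a + s2 a)) + (s1 b + s2 b + (s1 c + s2 c)) := by abel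
          _ = _ := by rw [Col4_two, zero_add]
      rw [e1, e2]; exact k)
  have cradd : ∀ u v, Col4_cr m (u + v) = Col4_cr m u + Col4_cr m v := by
    intro u v; funext i; fin_cases i <;> simp [Col4_cr] <;> ring
  -- the moved solution
  have hs2' : ∀ u v, Adj T2 u v → dot (w2 u + w2 v)
      ((s2 u + (Col4_cr m (w2 u) + (Col4_cr m (w1 a) + (s1 a + s2 a)))) +
       (s2 v + (Col4_cr m (w2 v) + (Col4_cr m (w1 a) + (s1 a + s2 a))))) = lab u v := by
    intro u v huv
    have e : ((s2 u + (Col4_cr m (w2 u) + (Col4_cr m (w1 a) + (s1 a + s2 a)))) +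
       (s2 v + (Col4_cr m (w2 v) + (Col4_cr m (w1 a) + (s1 a + s2 a))))) =
       (s2 u + s2 v) + Col4_cr m (w2 u + w2 v) := by
      rw [cradd]
      calc _ = (s2 u + s2 v) + (Col4_cr m (w2 u) + Col4_cr m (w2 v)) +
        ((Col4_cr m (w1 a) + (s1 a + s2 a)) + (Col4_cr m (w1 a) + (s1 a + s2 a))) := by abel
        _ = _ := by rw [Col4_two, add_zero]
    rw [e]
    have e' : dot (w2 u + w2 v) ((s2 u + s2 v) + Col4_cr m (w2 u + w2 v)) =
      dot (w2 u + w2 v) (s2 u + s2 v) + dot (w2 u + w2 v) (Col4_cr m (w2 u + w2 v)) := by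
      simp [dot]; ring
    rw [e', Col4_dot_cr, add_zero]
    exact hs2 u v huv
  have hag : ∀ x, x ∈ verts T1 → x ∈ verts T2 →
      s2 x + (Col4_cr m (w2 x) + (Col4_cr m (w1 a) + (s1 a + s2 a))) = s1 x := by
    intro x hx1 hx2
    have gen : ∀ x, Col4_cr m (w1 a + w1 x) = (s1 a + s2 a) + (s1 x + s2 x) →
        s2 x + (Col4_cr m (w1 x) + (Col4_cr m (w1 a) + (s1 a + s2 a))) = s1 x := by
      intro x hx
      rw [cradd] at hx
      calc s2 x + (Col4_cr m (w1 x) + (Col4_cr m (w1 a) + (s1 a + s2 a))) =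
          s2 x + ((Col4_cr m (w1 a) + Col4_cr m (w1 x)) + (s1 a + s2 a)) := by abel
        _ = s1 x + ((s1 a + s2 a) + (s1 a + s2 a)) + (s2 x + s2 x) := by rw [hx]; abel
        _ = s1 x := by rw [Col4_two, Col4_two, add_zero, add_zero]
    rw [agree x hx1 hx2]
    rcases hv x hx1 hx2 with rfl | rfl | rfl
    · apply gen
      rw [Col4_two, Col4_two]
      funext i; fin_cases i <;> simp [Col4_cr]
    · exact gen _ hm1
    · exact gen _ hm2
  refine ⟨fun v => if v ∈ verts T1 then s1 v else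
    s2 v + (Col4_cr m (w2 v) + (Col4_cr m (w1 a) + (s1 a + s2 a))), ?_⟩
  intro u v huv
  rcases hadj u v huv with h | h
  · simp only [(ve _ _ _ h).1, (ve _ _ _ h).2, if_true]
    exact hs1 u v h
  · have hu2 := (ve _ _ _ h).1
    have hv2 := (ve _ _ _ h).2
    have t1 : ∀ x, x ∈ verts T2 → (if x ∈ verts T1 then w1 x else w2 x) = w2 x := by
      intro x hx; split_ifs with hx1
      · exact (agree x hx1 hx).symm
      · rfl
    have t2 : ∀ x, x ∈ verts T2 → (if x ∈ verts T1 then s1 x else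
        s2 x + (Col4_cr m (w2 x) + (Col4_cr m (w1 a) + (s1 a + s2 a)))) =
        s2 x + (Col4_cr m (w2 x) + (Col4_cr m (w1 a) + (s1 a + s2 a))) := by
      intro x hx; split_ifs with hx1
      · exact (hag x hx1 hx).symm
      · rfl
    simp only [t1 u hu2, t1 v hv2, t2 u hu2, t2 v hv2]
    exact hs2' u v h

theorem base {T : Finset (Finset V)} (h : Sphere T) (h4 : T.card ≤ 4) : ∃ w : V → F8, Good T w := by
  have hc : (verts T).card ≤ 4 := by have := h.euler; omega
  obtain ⟨f0, hf0⟩ := h.nonempty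
  have hf03 := h.card3 f0 hf0
  obtain ⟨x0, hx0⟩ : f0.Nonempty := by rw [← Finset.card_pos]; omega
  -- an injection into Fin 4 with left inverse
  obtain ⟨f, g, hfg⟩ : ∃ (f : V → Fin 4) (g : Fin 4 → V), ∀ x ∈ verts T, g (f x) = x := by
    have e := (verts T).equivFin
    refine ⟨fun x => if hx : x ∈ verts T then Fin.castLE hc (e ⟨x, hx⟩) else 0,
      fun i => if hi : i.1 < (verts T).card then (e.symm ⟨i.1, hi⟩).1 else x0, ?_⟩
    intro x hx
    simp [hx]
  let col : Fin 4 → F8 := ![0, ![1, 0, 0], ![0, 1, 0], ![0, 0, 1]]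
  refine ⟨fun v => col (f v), ?_⟩
  intro lab hlab
  let C : Fin 4 → Fin 4 → ZMod 2 := fun i j => lab (g i) (g j)
  have hC : ∀ i j, C i j = C j i := fun i j => hlab _ _
  let S : Fin 4 → F8 := ![0, ![C 0 1, 0, 0], ![C 1 2 + C 0 1 + C 0 2, C 0 2, 0],
    ![C 1 3 + C 0 1 + C 0 3, C 2 3 + C 0 2 + C 0 3, C 0 3]]
  have key : ∀ i j, i ≠ j → dot (col i + col j) (S i + S j) = C i j := by
    have two : ∀ z : ZMod 2, z + z = 0 := fun z => CharTwo.add_self_eq_zero z
    have t3 : (2 : ZMod 2) = 0 := rfl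
    intro i j hij
    fin_cases i <;> fin_cases j <;> simp [col, S, dot] at hij ⊢
    all_goals first
      | rfl
      | (rw [hC 1 0])
      | (rw [hC 2 0])
      | (rw [hC 3 0])
      | (linear_combination (C 0 1 + C 0 2) * t3)
      | (linear_combination (C 0 1 + C 0 3) * t3)
      | (linear_combination (C 0 2 + C 0 3) * t3)
      | (rw [hC 2 1]; linear_combination (C 0 1 + C 0 2) * t3)
      | (rw [hC 3 1]; linear_combination (C 0 1 + C 0 3) * t3)
      | (rw [hC 3 2]; linear_combination (C 0 2 + C 0 3) * t3)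
  refine ⟨fun v => S (f v), ?_⟩
  intro u v huv
  have hu : u ∈ verts T := by
    obtain ⟨_, k, hk, hu, hv⟩ := huv
    simp only [verts, mem_biUnion, id]; exact ⟨k, hk, hu⟩
  have hv : v ∈ verts T := by
    obtain ⟨_, k, hk, hu, hv⟩ := huv
    simp only [verts, mem_biUnion, id]; exact ⟨k, hk, hv⟩
  have hne : f u ≠ f v := by
    intro e
    apply huv.1
    rw [← hfg u hu, ← hfg v hv, e]
  have := key (f u) (f v) hne
  simp only [C, hfg u hu, hfg v hv] at this
  exact this

end Pool.Agent.TH246.PR
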