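import Pool.Agent.TH246.PR.Defs

set_option autoImplicit false
set_option linter.unusedVariables false

namespace Pool.Agent.TH246.PR

open Finset

variable {V : Type} [DecidableEq V]

theorem Contr_third {f : Finset V} (hf : f.card = 3) {a b : V} (hab : a ≠ b)
    (ha : a ∈ f) (hb : b ∈ f) : ∃ c, c ≠ a ∧ c ≠ b ∧ f = {a, b, c} := by
  have h1 : ((f.erase a).erase b).card = 1 := by
    rw [card_erase_of_mem (mem_erase.2 ⟨hab.symm, hb⟩), card_erase_of_mem ha, hf]
  obtain ⟨c, hc⟩ := card_eq_one.1 h1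
  have hc' : c ∈ (f.erase a).erase b := by rw [hc]; simp
  rw [mem_erase, mem_erase] at hc'
  refine ⟨c, hc'.2.1, hc'.1, ?_⟩
  rw [← hc, insert_erase (mem_erase.2 ⟨hab.symm, hb⟩), insert_erase ha]

theorem Contr_inter {f g : Finset V} {a b c : V} (hf : f = {a, b, c})
    (h2 : (f ∩ g).card = 2) : (a ∈ g ∧ b ∈ g) ∨ (a ∈ g ∧ c ∈ g) ∨ (b ∈ g ∧ c ∈ g) := by
  by_contra hcon
  have hle : (f ∩ g).card ≤ 1 := by
    rw [card_le_one]
    intro p hp q hq
    rw [mem_inter, hf] at hp hq
    simp only [mem_insert, mem_singleton] at hp hq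
    obtain ⟨hp1, hp2⟩ := hp
    obtain ⟨hq1, hq2⟩ := hq
    rcases hp1 with rfl | rfl | rfl <;> rcases hq1 with rfl | rfl | rfl <;> tauto
  omega

theorem Contr_inter2 {f g : Finset V} (hf : f.card = 3) (hg : g.card = 3) (hne : f ≠ g)
    {a b : V} (hab : a ≠ b) (haf : a ∈ f) (hbf : b ∈ f) (hag : a ∈ g) (hbg : b ∈ g) :
    (f ∩ g).card = 2 := by
  have h1 : ({a, b} : Finset V) ⊆ f ∩ g := by
    intro z hz
    simp only [mem_insert, mem_singleton] at hz
    rcases hz with rfl | rfl
    · exact mem_inter.2 ⟨haf, hag⟩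
    · exact mem_inter.2 ⟨hbf, hbg⟩
  have h2 : 2 ≤ (f ∩ g).card := by
    calc 2 = ({a, b} : Finset V).card := (card_pair hab).symm
      _ ≤ _ := card_le_card h1
  have h3 : (f ∩ g).card < 3 := by
    by_contra hcon
    have h4 : f ∩ g = f := eq_of_subset_of_card_le inter_subset_left (by omega)
    have h5 : f ⊆ g := by
      intro z hz
      rw [← h4] at hz
      exact (mem_inter.1 hz).2
    exact hne (eq_of_subset_of_card_le h5 (by omega))
  omega

theorem Contr_two {T : Finset (Finset V)} (h : Pre T) {f g k : Finset V} (hf : f ∈ T)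
    (hg : g ∈ T) (hk : k ∈ T) (hfg : f ≠ g) {a b : V} (hab : a ≠ b) (haf : a ∈ f) (hbf : b ∈ f)
    (hag : a ∈ g) (hbg : b ∈ g) (hak : a ∈ k) (hbk : b ∈ k) : k = f ∨ k = g := by
  by_contra hcon
  push Not at hcon
  have hc := h.two a b ⟨hab, f, hf, haf, hbf⟩
  have hsub : ({f, g, k} : Finset (Finset V)) ⊆ ef T a b := by
    intro z hz
    simp only [mem_insert, mem_singleton] at hz
    unfold ef
    rw [mem_filter]
    rcases hz with rfl | rfl | rfl
    · exact ⟨hf, haf, hbf⟩
    · exact ⟨hg, hag, hbg⟩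
    · exact ⟨hk, hak, hbk⟩
  have h3 : ({f, g, k} : Finset (Finset V)).card = 3 := by
    rw [card_eq_three]
    exact ⟨f, g, k, hfg, Ne.symm hcon.1, Ne.symm hcon.2, rfl⟩
  have := card_le_card hsub
  omega

theorem Contr_other {T : Finset (Finset V)} (h : Pre T) {f : Finset V} (hf : f ∈ T)
    {a b : V} (hab : a ≠ b) (haf : a ∈ f) (hbf : b ∈ f) :
    ∃ g ∈ T, g ≠ f ∧ a ∈ g ∧ b ∈ g := by
  have hc := h.two a b ⟨hab, f, hf, haf, hbf⟩
  have hlt : 1 < (ef T a b).card := by omega
  obtain ⟨g, hg, hgf⟩ := exists_mem_ne hlt f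
  unfold ef at hg
  rw [mem_filter] at hg
  exact ⟨g, hg.1, hgf, hg.2.1, hg.2.2⟩

/-- no face occurs twice in the contraction -/
theorem Contr_nodouble {T : Finset (Finset V)} (h : Pre T) {x y : V} (hxy : x ≠ y)
    (h6 : 6 ≤ T.card) (hl : ∀ z, Adj T z x → Adj T z y → ({x, y, z} : Finset V) ∈ T)
    {u v : V} (huv : u ≠ v) (hux : u ≠ x) (huy : u ≠ y) (hvx : v ≠ x) (hvy : v ≠ y)
    (h1 : ({x, u, v} : Finset V) ∈ T) (h2 : ({y, u, v} : Finset V) ∈ T) : False := by
  have h3 : ({x, y, u} : Finset V) ∈ T :=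
    hl u ⟨hux, _, h1, by simp, by simp⟩ ⟨huy, _, h2, by simp, by simp⟩
  have h4 : ({x, y, v} : Finset V) ∈ T :=
    hl v ⟨hvx, _, h1, by simp, by simp⟩ ⟨hvy, _, h2, by simp, by simp⟩
  have n12 : ({x, u, v} : Finset V) ≠ {y, u, v} := by
    intro he
    have : x ∈ ({y, u, v} : Finset V) := by rw [← he]; simp
    simp only [mem_insert, mem_singleton] at this
    rcases this with e | e | e
    · exact hxy e
    · exact hux e.symm
    · exact hvx e.symm
  have n13 : ({x, u, v} : Finset V) ≠ {x, y, u} := by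
    intro he
    have : y ∈ ({x, u, v} : Finset V) := by rw [he]; simp
    simp only [mem_insert, mem_singleton] at this
    rcases this with e | e | e
    · exact hxy e.symm
    · exact huy e.symm
    · exact hvy e.symm
  have n14 : ({x, u, v} : Finset V) ≠ {x, y, v} := by
    intro he
    have : y ∈ ({x, u, v} : Finset V) := by rw [he]; simp
    simp only [mem_insert, mem_singleton] at this
    rcases this with e | e | e
    · exact hxy e.symm
    · exact huy e.symm
    · exact hvy e.symm
  have n23 : ({y, u, v} : Finset V) ≠ {x, y, u} := by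
    intro he
    have : x ∈ ({y, u, v} : Finset V) := by rw [he]; simp
    simp only [mem_insert, mem_singleton] at this
    rcases this with e | e | e
    · exact hxy e
    · exact hux e.symm
    · exact hvx e.symm
  have n24 : ({y, u, v} : Finset V) ≠ {x, y, v} := by
    intro he
    have : x ∈ ({y, u, v} : Finset V) := by rw [he]; simp
    simp only [mem_insert, mem_singleton] at this
    rcases this with e | e | e
    · exact hxy e
    · exact hux e.symm
    · exact hvx e.symm
  have n34 : ({x, y, u} : Finset V) ≠ {x, y, v} := by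
    intro he
    have : u ∈ ({x, y, v} : Finset V) := by rw [← he]; simp
    simp only [mem_insert, mem_singleton] at this
    rcases this with e | e | e
    · exact hux e
    · exact huy e
    · exact huv e
  have hT : ({{x, u, v}, {y, u, v}, {x, y, u}, {x, y, v}} : Finset (Finset V)) = T := by
    apply h.conn
    · intro z hz
      simp only [mem_insert, mem_singleton] at hz
      rcases hz with rfl | rfl | rfl | rfl <;> assumption
    · exact ⟨{x, u, v}, by simp⟩
    · intro f hf g hg hfg
      simp only [mem_insert, mem_singleton] at hf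
      simp only [mem_insert, mem_singleton]
      rcases hf with rfl | rfl | rfl | rfl
      · rcases Contr_inter rfl hfg with ⟨a, b⟩ | ⟨a, b⟩ | ⟨a, b⟩
        · have := Contr_two h h1 h3 hg n13 hux.symm (by simp) (by simp) (by simp) (by simp) a b
          tauto
        · have := Contr_two h h1 h4 hg n14 hvx.symm (by simp) (by simp) (by simp) (by simp) a b
          tauto
        · have := Contr_two h h1 h2 hg n12 huv (by simp) (by simp) (by simp) (by simp) a b
          tauto
      · rcases Contr_inter rfl hfg with ⟨a, b⟩ | ⟨a, b⟩ | ⟨a, b⟩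
        · have := Contr_two h h2 h3 hg n23 huy.symm (by simp) (by simp) (by simp) (by simp) a b
          tauto
        · have := Contr_two h h2 h4 hg n24 hvy.symm (by simp) (by simp) (by simp) (by simp) a b
          tauto
        · have := Contr_two h h1 h2 hg n12 huv (by simp) (by simp) (by simp) (by simp) a b
          tauto
      · rcases Contr_inter rfl hfg with ⟨a, b⟩ | ⟨a, b⟩ | ⟨a, b⟩
        · have := Contr_two h h3 h4 hg n34 hxy (by simp) (by simp) (by simp) (by simp) a b
          tauto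
        · have := Contr_two h h1 h3 hg n13 hux.symm (by simp) (by simp) (by simp) (by simp) a b
          tauto
        · have := Contr_two h h2 h3 hg n23 huy.symm (by simp) (by simp) (by simp) (by simp) a b
          tauto
      · rcases Contr_inter rfl hfg with ⟨a, b⟩ | ⟨a, b⟩ | ⟨a, b⟩
        · have := Contr_two h h3 h4 hg n34 hxy (by simp) (by simp) (by simp) (by simp) a b
          tauto
        · have := Contr_two h h1 h4 hg n14 hvx.symm (by simp) (by simp) (by simp) (by simp) a b
          tauto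
        · have := Contr_two h h2 h4 hg n24 hvy.symm (by simp) (by simp) (by simp) (by simp) a b
          tauto
  have hle : T.card ≤ 4 := by
    rw [← hT]
    exact card_le_four
  omega

/-- the map on faces -/
def Contr_phi (x y : V) (f : Finset V) : Finset V := if x ∈ f then insert y (f.erase x) else f

theorem Contr_phi_mem {x y : V} {f : Finset V} {z : V} :
    z ∈ Contr_phi x y f ↔ (x ∉ f ∧ z ∈ f) ∨ (x ∈ f ∧ (z = y ∨ (z ≠ x ∧ z ∈ f))) := by
  unfold Contr_phi
  by_cases hx : x ∈ f
  · simp [hx]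
  · simp [hx]

theorem Contr_mem {T : Finset (Finset V)} {x y : V} {f : Finset V} :
    f ∈ contr T x y ↔ ∃ g ∈ T, ¬ (x ∈ g ∧ y ∈ g) ∧ f = Contr_phi x y g := by
  unfold contr Contr_phi
  simp only [mem_union, mem_filter, mem_image]
  constructor
  · rintro (⟨h1, h2⟩ | ⟨g, ⟨h1, h2⟩, rfl⟩)
    · exact ⟨f, h1, fun h => h2 h.1, by rw [if_neg h2]⟩
    · exact ⟨g, h1, fun h => h2.2 h.2, by rw [if_pos h2.1]⟩
  · rintro ⟨g, h1, h2, rfl⟩
    by_cases hx : x ∈ g
    · right
      exact ⟨g, ⟨h1, hx, fun hy => h2 ⟨hx, hy⟩⟩, by rw [if_pos hx]⟩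
    · left
      rw [if_neg hx]
      exact ⟨h1, hx⟩

theorem Contr_phi_inj {T : Finset (Finset V)} (h : Pre T) {x y : V} (hxy : x ≠ y)
    (h6 : 6 ≤ T.card) (hl : ∀ z, Adj T z x → Adj T z y → ({x, y, z} : Finset V) ∈ T)
    {f g : Finset V} (hf : f ∈ T) (hg : g ∈ T) (hf' : ¬ (x ∈ f ∧ y ∈ f))
    (hg' : ¬ (x ∈ g ∧ y ∈ g)) (he : Contr_phi x y f = Contr_phi x y g) : f = g := by
  have key : ∀ f g : Finset V, f ∈ T → g ∈ T → ¬ (x ∈ f ∧ y ∈ f) → x ∈ f → x ∉ g →
      insert y (f.erase x) = g → False := by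
    intro f g hf hg hf' hxf hxg he
    have h2 : (f.erase x).card = 2 := by rw [card_erase_of_mem hxf, h.card3 f hf]
    obtain ⟨u, v, huv, huv'⟩ := card_eq_two.1 h2
    have hu : u ∈ f.erase x := by rw [huv']; simp
    have hv : v ∈ f.erase x := by rw [huv']; simp
    rw [mem_erase] at hu hv
    have hff : f = {x, u, v} := by rw [← huv', insert_erase hxf]
    have hgg : g = {y, u, v} := by rw [← he, huv']
    refine Contr_nodouble h hxy h6 hl huv hu.1 ?_ hv.1 ?_ (hff ▸ hf) (hgg ▸ hg)
    · rintro rfl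
      exact hf' ⟨hxf, hu.2⟩
    · rintro rfl
      exact hf' ⟨hxf, hv.2⟩
  unfold Contr_phi at he
  by_cases hxf : x ∈ f <;> by_cases hxg : x ∈ g
  · rw [if_pos hxf, if_pos hxg] at he
    have hyf : y ∉ f.erase x := fun h => hf' ⟨hxf, (mem_erase.1 h).2⟩
    have hyg : y ∉ g.erase x := fun h => hg' ⟨hxg, (mem_erase.1 h).2⟩
    have : f.erase x = g.erase x := by
      rw [← erase_insert hyf, he, erase_insert hyg]
    rw [← insert_erase hxf, this, insert_erase hxg]
  · rw [if_pos hxf, if_neg hxg] at he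
    exact (key f g hf hg hf' hxf hxg he).elim
  · rw [if_neg hxf, if_pos hxg] at he
    exact (key g f hg hf hg' hxg hxf he.symm).elim
  · rw [if_neg hxf, if_neg hxg] at he
    exact he

theorem Contr_eq_image {T : Finset (Finset V)} {x y : V} :
    contr T x y = (T.filter (fun g => ¬ (x ∈ g ∧ y ∈ g))).image (Contr_phi x y) := by
  ext f
  rw [Contr_mem]
  simp only [mem_image, mem_filter]
  constructor
  · rintro ⟨g, h1, h2, rfl⟩
    exact ⟨g, ⟨h1, h2⟩, rfl⟩
  · rintro ⟨g, ⟨h1, h2⟩, rfl⟩
    exact ⟨g, h1, h2, rfl⟩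

theorem Contr_card3 {T : Finset (Finset V)} (h : Pre T) {x y : V} (hxy : x ≠ y) {f : Finset V}
    (hf : f ∈ contr T x y) : f.card = 3 := by
  rw [Contr_mem] at hf
  obtain ⟨g, hg, hg', rfl⟩ := hf
  unfold Contr_phi
  by_cases hx : x ∈ g
  · rw [if_pos hx, card_insert_of_notMem, card_erase_of_mem hx, h.card3 g hg]
    intro hy
    exact hg' ⟨hx, (mem_erase.1 hy).2⟩
  · rw [if_neg hx]
    exact h.card3 g hg

theorem Contr_adj {T : Finset (Finset V)} (h : Pre T) {x y : V} (hxy : x ≠ y) (u v : V) :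
    Adj (contr T x y) u v ↔ u ≠ x ∧ v ≠ x ∧ u ≠ v ∧
        (Adj T u v ∨ (u = y ∧ Adj T x v) ∨ (v = y ∧ Adj T x u)) := by
  constructor
  · rintro ⟨huv, f, hf, huf, hvf⟩
    rw [Contr_mem] at hf
    obtain ⟨g, hg, hg', rfl⟩ := hf
    rw [Contr_phi_mem] at huf hvf
    rcases huf with ⟨h1, h2⟩ | ⟨h1, h2⟩
    · rcases hvf with ⟨h3, h4⟩ | ⟨h3, h4⟩
      · refine ⟨?_, ?_, huv, Or.inl ⟨huv, g, hg, h2, h4⟩⟩
        · rintro rfl
          exact h1 h2
        · rintro rfl
          exact h1 h4
      · exact absurd h3 h1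
    · rcases hvf with ⟨h3, h4⟩ | ⟨h3, h4⟩
      · exact absurd h1 h3
      · rcases h2 with rfl | ⟨h2, h2'⟩
        · rcases h4 with rfl | ⟨h4, h4'⟩
          · exact absurd rfl huv
          · exact ⟨hxy.symm, h4, huv, Or.inr (Or.inl ⟨rfl, h4.symm, g, hg, h1, h4'⟩)⟩
        · rcases h4 with rfl | ⟨h4, h4'⟩
          · exact ⟨h2, hxy.symm, huv, Or.inr (Or.inr ⟨rfl, h2.symm, g, hg, h1, h2'⟩)⟩
          · exact ⟨h2, h4, huv, Or.inl ⟨huv, g, hg, h2', h4'⟩⟩
  · rintro ⟨hux, hvx, huv, hcase⟩
    -- a face containing x, y, v has a companion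
    have comp : ∀ v g, v ≠ x → v ≠ y → g ∈ T → x ∈ g → y ∈ g → v ∈ g →
        ∃ g' ∈ T, x ∉ g' ∧ y ∈ g' ∧ v ∈ g' := by
      intro v g hvx hvy hg hx hy hv
      obtain ⟨g', hg', hne, hy', hv'⟩ := Contr_other h hg hvy.symm hy hv
      refine ⟨g', hg', ?_, hy', hv'⟩
      intro hx'
      apply hne
      obtain ⟨c, -, -, hc⟩ := Contr_third (h.card3 g hg) hxy hx hy
      obtain ⟨d, -, -, hd⟩ := Contr_third (h.card3 g' hg') hxy hx' hy'
      rw [hc] at hv
      rw [hd] at hv'
      simp only [mem_insert, mem_singleton] at hv hv'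
      rcases hv with e | e | e
      · exact absurd e hvx
      · exact absurd e hvy
      · rcases hv' with e' | e' | e'
        · exact absurd e' hvx
        · exact absurd e' hvy
        · rw [hc, hd, ← e, ← e']
    have half : ∀ v, v ≠ x → v ≠ y → Adj T x v → ∃ f ∈ contr T x y, y ∈ f ∧ v ∈ f := by
      rintro v hvx hvy ⟨-, g, hg, hxg, hvg⟩
      by_cases hyg : y ∈ g
      · obtain ⟨g', hg', hx', hy', hv'⟩ := comp v g hvx hvy hg hxg hyg hvg
        refine ⟨Contr_phi x y g', Contr_mem.2 ⟨g', hg', fun h => hx' h.1, rfl⟩, ?_, ?_⟩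
        · rw [Contr_phi_mem]
          exact Or.inl ⟨hx', hy'⟩
        · rw [Contr_phi_mem]
          exact Or.inl ⟨hx', hv'⟩
      · refine ⟨Contr_phi x y g, Contr_mem.2 ⟨g, hg, fun h => hyg h.2, rfl⟩, ?_, ?_⟩
        · rw [Contr_phi_mem]
          exact Or.inr ⟨hxg, Or.inl rfl⟩
        · rw [Contr_phi_mem]
          exact Or.inr ⟨hxg, Or.inr ⟨hvx, hvg⟩⟩
    refine ⟨huv, ?_⟩
    rcases hcase with ⟨-, g, hg, hug, hvg⟩ | ⟨rfl, hxv⟩ | ⟨rfl, hxu⟩
    · by_cases hxg : x ∈ g
      · by_cases hyg : y ∈ g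
        · -- then one of u, v is y
          obtain ⟨c, hcx, hcy, hc⟩ := Contr_third (h.card3 g hg) hxy hxg hyg
          have hu' := hug
          have hv' := hvg
          rw [hc] at hu' hv'
          simp only [mem_insert, mem_singleton] at hu' hv'
          rcases hu' with e | e | e
          · exact absurd e hux
          · rcases hv' with e' | e' | e'
            · exact absurd e' hvx
            · exact absurd (e.trans e'.symm) huv
            · obtain ⟨f, hf, h1, h2⟩ := half v hvx (e'.trans_ne hcy) ⟨hvx.symm, g, hg, hxg, hvg⟩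
              exact ⟨f, hf, e ▸ h1, h2⟩
          · rcases hv' with e' | e' | e'
            · exact absurd e' hvx
            · obtain ⟨f, hf, h1, h2⟩ := half u hux (e.trans_ne hcy) ⟨hux.symm, g, hg, hxg, hug⟩
              exact ⟨f, hf, h2, e' ▸ h1⟩
            · exact absurd (e.trans e'.symm) huv
        · refine ⟨Contr_phi x y g, Contr_mem.2 ⟨g, hg, fun h => hyg h.2, rfl⟩, ?_, ?_⟩
          · rw [Contr_phi_mem]
            exact Or.inr ⟨hxg, Or.inr ⟨hux, hug⟩⟩
          · rw [Contr_phi_mem]
            exact Or.inr ⟨hxg, Or.inr ⟨hvx, hvg⟩⟩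
      · refine ⟨Contr_phi x y g, Contr_mem.2 ⟨g, hg, fun h => hxg h.1, rfl⟩, ?_, ?_⟩
        · rw [Contr_phi_mem]
          exact Or.inl ⟨hxg, hug⟩
        · rw [Contr_phi_mem]
          exact Or.inl ⟨hxg, hvg⟩
    · obtain ⟨f, hf, h1, h2⟩ := half v hvx huv.symm hxv
      exact ⟨f, hf, h1, h2⟩
    · obtain ⟨f, hf, h1, h2⟩ := half u hux huv hxu
      exact ⟨f, hf, h2, h1⟩

theorem Contr_ef_card {T : Finset (Finset V)} (h : Pre T) {x y : V} (hxy : x ≠ y)
    (h6 : 6 ≤ T.card) (hl : ∀ z, Adj T z x → Adj T z y → ({x, y, z} : Finset V) ∈ T)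
    (u v : V) : (ef (contr T x y) u v).card =
      (T.filter (fun g => ¬ (x ∈ g ∧ y ∈ g) ∧ u ∈ Contr_phi x y g ∧ v ∈ Contr_phi x y g)).card := by
  have : ef (contr T x y) u v = (T.filter (fun g => ¬ (x ∈ g ∧ y ∈ g) ∧ u ∈ Contr_phi x y g ∧
      v ∈ Contr_phi x y g)).image (Contr_phi x y) := by
    ext f
    unfold ef
    rw [mem_filter, Contr_mem, mem_image]
    constructor
    · rintro ⟨⟨g, hg, hg', rfl⟩, h1, h2⟩
      exact ⟨g, mem_filter.2 ⟨hg, hg', h1, h2⟩, rfl⟩
    · rintro ⟨g, hg, rfl⟩
      rw [mem_filter] at hg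
      exact ⟨⟨g, hg.1, hg.2.1, rfl⟩, hg.2.2.1, hg.2.2.2⟩
  rw [this, card_image_of_injOn]
  intro f hf g hg he
  rw [mem_coe, mem_filter] at hf hg
  exact Contr_phi_inj h hxy h6 hl hf.1 hg.1 hf.2.1 hg.2.1 he

theorem Contr_ef_y {T : Finset (Finset V)} (h : Pre T) {x y : V} (hxy : x ≠ y)
    (h6 : 6 ≤ T.card) (hl : ∀ z, Adj T z x → Adj T z y → ({x, y, z} : Finset V) ∈ T)
    {v : V} (hvx : v ≠ x) (hvy : v ≠ y) (hv : Adj T x v ∨ Adj T y v) :
    (ef (contr T x y) y v).card = 2 := by
  rw [Contr_ef_card h hxy h6 hl]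
  have e1 : T.filter (fun g => ¬ (x ∈ g ∧ y ∈ g) ∧ y ∈ Contr_phi x y g ∧ v ∈ Contr_phi x y g) =
      (ef T x v \ ef T y v) ∪ (ef T y v \ ef T x v) := by
    ext g
    unfold ef
    simp only [mem_filter, mem_union, mem_sdiff, Contr_phi_mem]
    constructor
    · rintro ⟨hg, h1, h2, h3⟩
      by_cases hx : x ∈ g <;> by_cases hy : y ∈ g <;> simp_all
    · rintro (⟨⟨hg, h1, h2⟩, h3⟩ | ⟨⟨hg, h1, h2⟩, h3⟩)
      · by_cases hy : y ∈ g <;> simp_all
      · by_cases hx : x ∈ g <;> simp_all
  rw [e1]
  by_cases hx : Adj T x v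
  · by_cases hy : Adj T y v
    · -- both
      have hF : ({x, y, v} : Finset V) ∈ T :=
        hl v ⟨hvx, by obtain ⟨-, f, hf, a, b⟩ := hx; exact ⟨f, hf, b, a⟩⟩
          ⟨hvy, by obtain ⟨-, f, hf, a, b⟩ := hy; exact ⟨f, hf, b, a⟩⟩
      have h1 := h.two x v hx
      have h2 := h.two y v hy
      have h3 : ef T x v ∩ ef T y v = {{x, y, v}} := by
        ext g
        unfold ef
        simp only [mem_inter, mem_filter, mem_singleton]
        constructor
        · rintro ⟨⟨hg, a, b⟩, -, c, -⟩
          obtain ⟨d, -, -, hd⟩ := Contr_third (h.card3 g hg) hxy a c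
          have hb := b
          rw [hd] at hb
          simp only [mem_insert, mem_singleton] at hb
          rcases hb with e | e | e
          · exact absurd e hvx
          · exact absurd e hvy
          · rw [hd, e]
        · rintro rfl
          exact ⟨⟨hF, by simp, by simp⟩, hF, by simp, by simp⟩
      have h4 : (ef T x v ∩ ef T y v).card = 1 := by rw [h3, card_singleton]
      have h5 : (ef T y v ∩ ef T x v).card = 1 := by rw [inter_comm]; exact h4
      have h6 := card_sdiff_add_card_inter (ef T x v) (ef T y v)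
      have h7 := card_sdiff_add_card_inter (ef T y v) (ef T x v)
      rw [card_union_of_disjoint]
      · omega
      · rw [disjoint_left]
        intro g hg hg'
        exact (mem_sdiff.1 hg').2 (mem_sdiff.1 hg).1
    · have h1 : ef T y v = ∅ := by
        unfold ef
        rw [filter_eq_empty_iff]
        rintro g hg ⟨a, b⟩
        exact hy ⟨hvy.symm, g, hg, a, b⟩
      rw [h1]
      simp only [sdiff_empty, empty_sdiff, union_empty]
      exact h.two x v hx
  · have hy : Adj T y v := by tauto
    have h1 : ef T x v = ∅ := by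
      unfold ef
      rw [filter_eq_empty_iff]
      rintro g hg ⟨a, b⟩
      exact hx ⟨hvx.symm, g, hg, a, b⟩
    rw [h1]
    simp only [sdiff_empty, empty_sdiff, empty_union]
    exact h.two y v hy

omit [DecidableEq V] in
theorem Contr_adj_symm {T : Finset (Finset V)} {u v : V} (h : Adj T u v) : Adj T v u := by
  obtain ⟨a, f, b, c, d⟩ := h
  exact ⟨a.symm, f, b, d, c⟩

theorem Contr_ef_symm {T : Finset (Finset V)} {u v : V} : ef T u v = ef T v u := by
  unfold ef
  ext f
  simp only [mem_filter]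
  tauto

theorem Contr_pre_two {T : Finset (Finset V)} (h : Pre T) {x y : V} (hxy : x ≠ y)
    (h6 : 6 ≤ T.card) (hl : ∀ z, Adj T z x → Adj T z y → ({x, y, z} : Finset V) ∈ T)
    (u v : V) (huv : Adj (contr T x y) u v) : (ef (contr T x y) u v).card = 2 := by
  rw [Contr_adj h hxy] at huv
  obtain ⟨hux, hvx, hne, hc⟩ := huv
  by_cases huy : u = y
  · subst huy
    refine Contr_ef_y h hxy h6 hl hvx hne.symm ?_
    rcases hc with hc | ⟨-, hc⟩ | ⟨e, -⟩
    · exact Or.inr hc
    · exact Or.inl hc
    · exact absurd e.symm hne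
  · by_cases hvy : v = y
    · subst hvy
      rw [Contr_ef_symm]
      refine Contr_ef_y h hxy h6 hl hux hne ?_
      rcases hc with hc | ⟨e, -⟩ | ⟨-, hc⟩
      · exact Or.inr (Contr_adj_symm hc)
      · exact absurd e hne
      · exact Or.inl hc
    · have hc' : Adj T u v := by
        rcases hc with hc | ⟨e, -⟩ | ⟨e, -⟩
        · exact hc
        · exact absurd e huy
        · exact absurd e hvy
      rw [Contr_ef_card h hxy h6 hl]
      rw [← h.two u v hc']
      congr 1
      ext g
      unfold ef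
      simp only [mem_filter, Contr_phi_mem]
      constructor
      · rintro ⟨hg, h1, h2, h3⟩
        refine ⟨hg, ?_, ?_⟩
        · rcases h2 with h2 | h2
          · exact h2.2
          · rcases h2.2 with e | e
            · exact absurd e huy
            · exact e.2
        · rcases h3 with h3 | h3
          · exact h3.2
          · rcases h3.2 with e | e
            · exact absurd e hvy
            · exact e.2
      · rintro ⟨hg, h1, h2⟩
        refine ⟨hg, ?_, ?_, ?_⟩
        · rintro ⟨hx, hy⟩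
          obtain ⟨d, -, -, hd⟩ := Contr_third (h.card3 g hg) hxy hx hy
          rw [hd] at h1 h2
          simp only [mem_insert, mem_singleton] at h1 h2
          rcases h1 with e | e | e
          · exact hux e
          · exact huy e
          · rcases h2 with e' | e' | e'
            · exact hvx e'
            · exact hvy e'
            · exact hne (e.trans e'.symm)
        · by_cases hx : x ∈ g
          · exact Or.inr ⟨hx, Or.inr ⟨hux, h1⟩⟩
          · exact Or.inl ⟨hx, h1⟩
        · by_cases hx : x ∈ g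
          · exact Or.inr ⟨hx, Or.inr ⟨hvx, h2⟩⟩
          · exact Or.inl ⟨hx, h2⟩

theorem Contr_card {T : Finset (Finset V)} (h : Pre T) {x y : V} (hxy : Adj T x y)
    (h6 : 6 ≤ T.card) (hl : ∀ z, Adj T z x → Adj T z y → ({x, y, z} : Finset V) ∈ T) :
    (contr T x y).card + 2 = T.card := by
  rw [Contr_eq_image, card_image_of_injOn]
  · have h1 := card_filter_add_card_filter_not (s := T) (fun g => x ∈ g ∧ y ∈ g)
    have h2 := h.two x y hxy
    unfold ef at h2
    omega
  · intro f hf g hg he
    rw [mem_coe, mem_filter] at hf hg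
    exact Contr_phi_inj h hxy.1 h6 hl hf.1 hg.1 hf.2 hg.2 he

theorem Contr_verts {T : Finset (Finset V)} (h : Pre T) {x y : V} (hxy : Adj T x y) :
    verts (contr T x y) = (verts T).erase x := by
  ext z
  unfold verts
  rw [mem_erase]
  simp only [mem_biUnion, id]
  constructor
  · rintro ⟨f, hf, hz⟩
    rw [Contr_mem] at hf
    obtain ⟨g, hg, hg', rfl⟩ := hf
    rw [Contr_phi_mem] at hz
    rcases hz with ⟨h1, h2⟩ | ⟨h1, h2⟩
    · refine ⟨?_, g, hg, h2⟩
      rintro rfl
      exact h1 h2
    · rcases h2 with rfl | ⟨h2, h3⟩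
      · obtain ⟨hne, k, hk, -, hk'⟩ := hxy
        exact ⟨hne.symm, k, hk, hk'⟩
      · exact ⟨h2, g, hg, h3⟩
  · rintro ⟨hzx, g, hg, hz⟩
    -- an element a of g with a ≠ x, a ≠ z
    have hex : ∃ a ∈ g, a ≠ x ∧ a ≠ z := by
      by_contra hcon
      push Not at hcon
      have hsub : g ⊆ {x, z} := by
        intro a ha
        by_cases hax : a = x
        · simp [hax]
        · simp [hcon a ha hax]
      have h1 := card_le_card hsub
      have h2 : ({x, z} : Finset V).card ≤ 2 := card_le_two
      have h3 := h.card3 g hg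
      omega
    obtain ⟨a, ha, hax, haz⟩ := hex
    have : Adj (contr T x y) z a := by
      rw [Contr_adj h hxy.1]
      exact ⟨hzx, hax, haz.symm, Or.inl ⟨haz.symm, g, hg, hz, ha⟩⟩
    obtain ⟨-, f, hf, h1, -⟩ := this
    exact ⟨f, hf, h1⟩

/-- double counting at x -/
theorem Contr_parity {T X : Finset (Finset V)} (h : Pre T) (hX : X ⊆ T) (x : V) :
    ∑ v ∈ (verts T).erase x, (ef X x v).card = 2 * (X.filter (fun f => x ∈ f)).card := by
  have h1 : ∀ v, (ef X x v).card = ∑ f ∈ X.filter (fun f => x ∈ f), if v ∈ f then 1 else 0 := by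
    intro v
    rw [sum_boole, filter_filter]
    rfl
  simp_rw [h1]
  rw [sum_comm]
  have h2 : ∀ f ∈ X.filter (fun f => x ∈ f),
      (∑ v ∈ (verts T).erase x, if v ∈ f then 1 else 0) = 2 := by
    intro f hf
    rw [mem_filter] at hf
    rw [sum_boole]
    have h3 : (((verts T).erase x).filter (fun v => v ∈ f)) = f.erase x := by
      ext v
      rw [mem_filter, mem_erase, mem_erase]
      constructor
      · rintro ⟨⟨a, -⟩, b⟩
        exact ⟨a, b⟩
      · rintro ⟨a, b⟩
        refine ⟨⟨a, ?_⟩, b⟩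
        unfold verts
        rw [mem_biUnion]
        exact ⟨f, hX hf.1, b⟩
    rw [h3, card_erase_of_mem hf.2, h.card3 f (hX hf.1)]
    rfl
  rw [sum_congr rfl h2, sum_const, smul_eq_mul, mul_comm]

theorem Contr_conn {T : Finset (Finset V)} (h : Pre T) {x y : V} (hxy : Adj T x y)
    (h6 : 6 ≤ T.card) (hl : ∀ z, Adj T z x → Adj T z y → ({x, y, z} : Finset V) ∈ T)
    (X' : Finset (Finset V)) (hsub : X' ⊆ contr T x y) (hne : X'.Nonempty)
    (hcl : ∀ f ∈ X', ∀ g ∈ contr T x y, (f ∩ g).card = 2 → g ∈ X') : X' = contr T x y := by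
  -- closure in a convenient form
  have cl : ∀ f g a b, f ∈ X' → g ∈ contr T x y → a ≠ b → a ∈ f → b ∈ f → a ∈ g → b ∈ g →
      g ∈ X' := by
    intro f g a b hf hg hab haf hbf hag hbg
    by_cases hfg : f = g
    · rw [← hfg]
      exact hf
    · exact hcl f hf g hg (Contr_inter2 (Contr_card3 h hxy.1 (hsub hf)) (Contr_card3 h hxy.1 hg)
        hfg hab haf hbf hag hbg)
  classical
  set X : Finset (Finset V) := T.filter (fun f => (¬ (x ∈ f ∧ y ∈ f) ∧ Contr_phi x y f ∈ X') ∨
    ((x ∈ f ∧ y ∈ f) ∧ ∃ g ∈ X', ∃ z ∈ f, z ≠ x ∧ z ≠ y ∧ y ∈ g ∧ z ∈ g)) with hXdef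
  have hXT : X ⊆ T := filter_subset _ _
  have memX : ∀ f, f ∈ X ↔ f ∈ T ∧ ((¬ (x ∈ f ∧ y ∈ f) ∧ Contr_phi x y f ∈ X') ∨
    ((x ∈ f ∧ y ∈ f) ∧ ∃ g ∈ X', ∃ z ∈ f, z ≠ x ∧ z ≠ y ∧ y ∈ g ∧ z ∈ g)) := by
    intro f
    rw [hXdef, mem_filter]
  clear_value X
  -- the image of a face contains the image of a vertex
  have im : ∀ f : Finset V, ∀ a ∈ f, (if a = x then y else a) ∈ Contr_phi x y f := by
    intro f a ha
    rw [Contr_phi_mem]
    by_cases hax : a = x
    · rw [if_pos hax]
      subst hax
      exact Or.inr ⟨ha, Or.inl rfl⟩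
    · rw [if_neg hax]
      by_cases hx : x ∈ f
      · exact Or.inr ⟨hx, Or.inr ⟨hax, ha⟩⟩
      · exact Or.inl ⟨hx, ha⟩
  -- closure of X
  have clX : ∀ f ∈ X, ∀ g ∈ T, ∀ a b, a ≠ b → a ∈ f → b ∈ f → a ∈ g → b ∈ g →
      ¬ (a = x ∧ b = y) → ¬ (a = y ∧ b = x) → g ∈ X := by
    intro f hf g hg a b hab haf hbf hag hbg n1 n2
    rw [memX] at hf ⊢
    refine ⟨hg, ?_⟩
    obtain ⟨hfT, hf⟩ := hf
    have hne' : (if a = x then y else a) ≠ (if b = x then y else b) := by
      by_cases hax : a = x
      · rw [if_pos hax, if_neg (fun e => hab (hax.trans e.symm))]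
        exact fun e => n1 ⟨hax, e.symm⟩
      · rw [if_neg hax]
        by_cases hbx : b = x
        · rw [if_pos hbx]
          exact fun e => n2 ⟨e, hbx⟩
        · rw [if_neg hbx]
          exact hab
    rcases hf with ⟨hf1, hf2⟩ | ⟨⟨hf1, hf2⟩, k, hk, z, hz, hzx, hzy, hyk, hzk⟩
    · by_cases hg' : x ∈ g ∧ y ∈ g
      · right
        refine ⟨hg', Contr_phi x y f, hf2, ?_⟩
        -- one of a, b is x or y, the other one is the third vertex
        obtain ⟨c, hcx, hcy, hc⟩ := Contr_third (h.card3 g hg) hxy.1 hg'.1 hg'.2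
        have ha' := hag
        have hb' := hbg
        rw [hc] at ha' hb'
        simp only [mem_insert, mem_singleton] at ha' hb'
        refine ⟨c, by rw [hc]; simp, hcx, hcy, ?_⟩
        have key : ∀ a b, a = x ∨ a = y → b = c → a ∈ f → b ∈ f →
            y ∈ Contr_phi x y f ∧ c ∈ Contr_phi x y f := by
          intro a b ha hb haf hbf
          have i1 := im f a haf
          have i2 := im f b hbf
          rw [if_neg (fun e => hcx (hb.symm.trans e)), hb] at i2
          refine ⟨?_, i2⟩
          rcases ha with rfl | rfl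
          · rw [if_pos rfl] at i1
            exact i1
          · rw [if_neg hxy.1.symm] at i1
            exact i1
        rcases ha' with e | e | e
        · rcases hb' with e' | e' | e'
          · exact absurd (e.trans e'.symm) hab
          · exact absurd ⟨e, e'⟩ n1
          · exact key a b (Or.inl e) e' haf hbf
        · rcases hb' with e' | e' | e'
          · exact absurd ⟨e, e'⟩ n2
          · exact absurd (e.trans e'.symm) hab
          · exact key a b (Or.inr e) e' haf hbf
        · rcases hb' with e' | e' | e'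
          · exact key b a (Or.inl e') e hbf haf
          · exact key b a (Or.inr e') e hbf haf
          · exact absurd (e.trans e'.symm) hab
      · left
        refine ⟨hg', ?_⟩
        exact cl (Contr_phi x y f) (Contr_phi x y g) _ _ hf2 (Contr_mem.2 ⟨g, hg, hg', rfl⟩) hne'
          (im f a haf) (im f b hbf) (im g a hag) (im g b hbg)
    · -- f contains x and y
      obtain ⟨c, hcx, hcy, hc⟩ := Contr_third (h.card3 f hfT) hxy.1 hf1 hf2
      have hzc : z = c := by
        rw [hc] at hz
        simp only [mem_insert, mem_singleton] at hz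
        rcases hz with e | e | e
        · exact absurd e hzx
        · exact absurd e hzy
        · exact e
      have ha' := haf
      have hb' := hbf
      rw [hc] at ha' hb'
      simp only [mem_insert, mem_singleton] at ha' hb'
      by_cases hg' : x ∈ g ∧ y ∈ g
      · right
        refine ⟨hg', k, hk, z, ?_, hzx, hzy, hyk, hzk⟩
        rw [hzc]
        rcases ha' with e | e | e
        · rcases hb' with e' | e' | e'
          · exact absurd (e.trans e'.symm) hab
          · exact absurd ⟨e, e'⟩ n1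
          · exact e' ▸ hbg
        · rcases hb' with e' | e' | e'
          · exact absurd ⟨e, e'⟩ n2
          · exact absurd (e.trans e'.symm) hab
          · exact e' ▸ hbg
        · exact e ▸ hag
      · left
        refine ⟨hg', ?_⟩
        have key : ∀ a b, a = x ∨ a = y → b = c → a ∈ g → b ∈ g → Contr_phi x y g ∈ X' := by
          intro a b ha hb hag hbg
          have i1 := im g a hag
          have i2 := im g b hbg
          rw [if_neg (fun e => hcx (hb.symm.trans e)), hb] at i2
          have i3 : y ∈ Contr_phi x y g := by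
            rcases ha with rfl | rfl
            · rw [if_pos rfl] at i1
              exact i1
            · rw [if_neg hxy.1.symm] at i1
              exact i1
          exact cl k (Contr_phi x y g) y c hk (Contr_mem.2 ⟨g, hg, hg', rfl⟩) hcy.symm hyk
            (hzc ▸ hzk) i3 i2
        rcases ha' with e | e | e
        · rcases hb' with e' | e' | e'
          · exact absurd (e.trans e'.symm) hab
          · exact absurd ⟨e, e'⟩ n1
          · exact key a b (Or.inl e) e' hag hbg
        · rcases hb' with e' | e' | e'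
          · exact absurd ⟨e, e'⟩ n2
          · exact absurd (e.trans e'.symm) hab
          · exact key a b (Or.inr e) e' hag hbg
        · rcases hb' with e' | e' | e'
          · exact key b a (Or.inl e') e hbg hag
          · exact key b a (Or.inr e') e hbg hag
          · exact absurd (e.trans e'.symm) hab
  -- parity: both faces at x y are in X or none
  have par : ∀ f ∈ X, ∀ g ∈ T, x ∈ f → y ∈ f → x ∈ g → y ∈ g → g ∈ X := by
    intro f hf g hg hxf hyf hxg hyg
    by_contra hgX
    have hfT := hXT hf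
    have hfg : f ≠ g := by
      rintro rfl
      exact hgX hf
    have h1 := Contr_parity h hXT x
    have hy : y ∈ (verts T).erase x := by
      rw [mem_erase]
      refine ⟨hxy.1.symm, ?_⟩
      unfold verts
      rw [mem_biUnion]
      exact ⟨f, hfT, hyf⟩
    rw [← add_sum_erase _ _ hy] at h1
    have h2 : ef X x y = {f} := by
      ext k
      unfold ef
      rw [mem_filter, mem_singleton]
      constructor
      · rintro ⟨hk, h1, h2⟩
        rcases Contr_two h hfT hg (hXT hk) hfg hxy.1 hxf hyf hxg hyg h1 h2 with e | e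
        · exact e
        · rw [e] at hk
          exact absurd hk hgX
      · rintro rfl
        exact ⟨hf, hxf, hyf⟩
    rw [h2, card_singleton] at h1
    have h3 : Even (∑ v ∈ ((verts T).erase x).erase y, (ef X x v).card) := by
      apply even_sum
      intro v hv
      rw [mem_erase, mem_erase] at hv
      by_cases hemp : ef X x v = ∅
      · rw [hemp]
        simp
      · obtain ⟨k, hk⟩ := nonempty_iff_ne_empty.2 hemp
        have hk' := hk
        unfold ef at hk'
        rw [mem_filter] at hk'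
        have hadj : Adj T x v := ⟨hv.2.1.symm, k, hXT hk'.1, hk'.2.1, hk'.2.2⟩
        have heq : ef X x v = ef T x v := by
          ext m
          unfold ef
          rw [mem_filter, mem_filter]
          constructor
          · rintro ⟨a, b⟩
            exact ⟨hXT a, b⟩
          · rintro ⟨a, b, c⟩
            refine ⟨?_, b, c⟩
            exact clX k hk'.1 m a x v hv.2.1.symm hk'.2.1 hk'.2.2 b c (fun e => hv.1 e.2)
              (fun e => hxy.1 e.1)
        rw [heq, h.two x v hadj]
        exact even_two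
    obtain ⟨r, hr⟩ := h3
    omega
  -- X is everything
  have hXne : X.Nonempty := by
    obtain ⟨f', hf'⟩ := hne
    have := hsub hf'
    rw [Contr_mem] at this
    obtain ⟨g, hg, hg', rfl⟩ := this
    exact ⟨g, (memX g).2 ⟨hg, Or.inl ⟨hg', hf'⟩⟩⟩
  have hXeq : X = T := by
    apply h.conn X hXT hXne
    intro f hf g hg hfg
    obtain ⟨a, b, hab, hh⟩ := card_eq_two.1 hfg
    have ha : a ∈ f ∩ g := by rw [hh]; simp
    have hb : b ∈ f ∩ g := by rw [hh]; simp
    rw [mem_inter] at ha hb
    by_cases c1 : a = x ∧ b = y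
    · rw [c1.1] at ha
      rw [c1.2] at hb
      exact par f hf g hg ha.1 hb.1 ha.2 hb.2
    · by_cases c2 : a = y ∧ b = x
      · rw [c2.1] at ha
        rw [c2.2] at hb
        exact par f hf g hg hb.1 ha.1 hb.2 ha.2
      · exact clX f hf g hg a b hab ha.1 hb.1 ha.2 hb.2 c1 c2
  apply Subset.antisymm hsub
  intro f' hf'
  rw [Contr_mem] at hf'
  obtain ⟨g, hg, hg', rfl⟩ := hf'
  have := hg
  rw [← hXeq, memX] at this
  rcases this.2 with h1 | h1
  · exact h1.2
  · exact absurd h1.1 hg'

theorem sphere_contr {T : Finset (Finset V)} (h : Sphere T) {x y : V} (hxy : Adj T x y)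
    (h6 : 6 ≤ T.card) (hl : ∀ z, Adj T z x → Adj T z y → ({x, y, z} : Finset V) ∈ T) :
    Sphere (contr T x y) ∧ (contr T x y).card + 2 = T.card ∧
      (∀ u v, Adj (contr T x y) u v ↔ u ≠ x ∧ v ≠ x ∧ u ≠ v ∧
        (Adj T u v ∨ (u = y ∧ Adj T x v) ∨ (v = y ∧ Adj T x u))) := by
  have hp := h.toPre
  have hcard := Contr_card hp hxy h6 hl
  refine ⟨?_, hcard, fun u v => Contr_adj hp hxy.1 u v⟩
  refine ⟨⟨?_, ?_, ?_, ?_⟩, ?_⟩
  · rw [← card_pos]
    omega
  · intro f hf
    exact Contr_card3 hp hxy.1 hf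
  · exact Contr_pre_two hp hxy.1 h6 hl
  · intro X hX hne hcl
    exact Contr_conn hp hxy h6 hl X hX hne hcl
  · have hx : x ∈ verts T := by
      obtain ⟨-, f, hf, h1, -⟩ := hxy
      unfold verts
      rw [mem_biUnion]
      exact ⟨f, hf, h1⟩
    have h1 := h.euler
    have h2 := card_erase_add_one hx
    rw [Contr_verts hp hxy]
    omega

end Pool.Agent.TH246.PR
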