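import Mathlib

/-!
# Rigid colourings of triangulated spheres: definitions

A triangulated sphere is given by its finite set `T` of faces (3-element sets of vertices).
-/

set_option autoImplicit false

namespace Pool.Agent.TH246.PR

open Finset

variable {V : Type} [DecidableEq V]

/-- the vertices of a set of faces -/
def verts (T : Finset (Finset V)) : Finset V := T.biUnion id

/-- the faces at a vertex -/
def star (T : Finset (Finset V)) (v : V) : Finset (Finset V) := T.filter (fun f => v ∈ f)

/-- the faces containing two given vertices -/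
def ef (T : Finset (Finset V)) (u v : V) : Finset (Finset V) :=
  T.filter (fun f => u ∈ f ∧ v ∈ f)

/-- adjacency in the 1-skeleton -/
def Adj (T : Finset (Finset V)) (u v : V) : Prop := u ≠ v ∧ ∃ f ∈ T, u ∈ f ∧ v ∈ f

/-- the degree of a vertex: the number of faces at it -/
def deg (T : Finset (Finset V)) (v : V) : ℕ := (star T v).card

/-- a closed strongly connected surface-like complex -/
structure Pre (T : Finset (Finset V)) : Prop where
  nonempty : T.Nonempty
  card3 : ∀ f ∈ T, f.card = 3
  two : ∀ u v, Adj T u v → (ef T u v).card = 2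
  conn : ∀ X ⊆ T, X.Nonempty → (∀ f ∈ X, ∀ g ∈ T, (f ∩ g).card = 2 → g ∈ X) → X = T

/-- a triangulated sphere: every edge is in exactly two faces, any two faces are joined by a chain
of faces with consecutive ones sharing an edge, and `V - E + F = 2` (in the form `F + 4 = 2 V`) -/
structure Sphere (T : Finset (Finset V)) : Prop extends Pre T where
  euler : T.card + 4 = 2 * (verts T).card

/-- `X` is a set of faces of `T` with boundary `Z` -/
def Bdry (T X : Finset (Finset V)) (Z : Finset (Sym2 V)) : Prop :=
  X ⊆ T ∧ ∀ u v, Adj T u v → ((ef X u v).card = 1 ↔ s(u, v) ∈ Z)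

/-- every 3-cycle is a face -/
def Fac (T : Finset (Finset V)) : Prop :=
  ∀ a b c, Adj T a b → Adj T b c → Adj T a c → ({a, b, c} : Finset V) ∈ T

/-- contraction of the edge `x y` to `y` -/
def contr (T : Finset (Finset V)) (x y : V) : Finset (Finset V) :=
  (T.filter (fun f => x ∉ f)) ∪ ((T.filter (fun f => x ∈ f ∧ y ∉ f)).image
    (fun f => insert y (f.erase x)))

/-- `X` is a set of faces bounded by the 4-cycle `a b c d` -/
structure Region (T X : Finset (Finset V)) (a b c d : V) : Prop where
  nodup : [a, b, c, d].Nodup
  ab : Adj T a b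
  bc : Adj T b c
  cd : Adj T c d
  da : Adj T d a
  bdry : Bdry T X {s(a, b), s(b, c), s(c, d), s(d, a)}

/-- interior vertices of a region -/
def inn (X : Finset (Finset V)) (a b c d : V) : Finset V := verts X \ {a, b, c, d}

/-- a region bounded by a 4-cycle with at least 6 faces, of minimal size -/
structure MinReg (T X : Finset (Finset V)) (a b c d : V) : Prop where
  reg : Region T X a b c d
  six : 6 ≤ X.card
  min : ∀ Y a' b' c' d', Region T Y a' b' c' d' → 6 ≤ Y.card → X.card ≤ Y.card

/-- two neighbours `p, q` of `v` that are not adjacent have only the expected common neighbours,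
up to vertices `t` of degree 4 in `I` -/
def NoSep (T : Finset (Finset V)) (I : Finset V) (v : V) : Prop :=
  ∀ p q, Adj T v p → Adj T v q → p ≠ q → ¬ Adj T p q → ∀ z, z ≠ v → Adj T z p → Adj T z q →
    ∃ t, ({v, p, t} : Finset V) ∈ T ∧ ({v, t, q} : Finset V) ∈ T ∧ (z = t ∨ (t ∈ I ∧ deg T t = 4))

/-! ### colours -/

/-- the colours: vectors of length 3 over the field with two elements -/
abbrev F8 := Fin 3 → ZMod 2

/-- dot product -/
def dot (a b : F8) : ZMod 2 := a 0 * b 0 + a 1 * b 1 + a 2 * b 2

/-- determinant -/
def det3 (a b c : F8) : ZMod 2 :=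
  a 0 * (b 1 * c 2 + b 2 * c 1) + a 1 * (b 0 * c 2 + b 2 * c 0) + a 2 * (b 0 * c 1 + b 1 * c 0)

/-- four affinely independent points -/
def Aff (a b c d : F8) : Prop := det3 (a + d) (b + d) (c + d) = 1

/-- rigid colourings: every labelling `c` of the edges by 0, 1 has the form
`(w u + w v) . (s u + s v)` -/
def Good (T : Finset (Finset V)) (w : V → F8) : Prop :=
  ∀ c : V → V → ZMod 2, (∀ u v, c u v = c v u) →
    ∃ s : V → F8, ∀ u v, Adj T u v → dot (w u + w v) (s u + s v) = c u v

end Pool.Agent.TH246.PR
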