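import Pool.Agent.TH246.PR.LinkFun

set_option autoImplicit false
set_option linter.unusedVariables false

namespace Pool.Agent.TH246.PR

open Finset

variable {V : Type} [DecidableEq V]

/-- explicit links; in all of them `u` is a given neighbour -/
theorem link3 {T : Finset (Finset V)} (h : Sphere T) {v u : V} (hu : Adj T v u)
    (hd : deg T v = 3) : ∃ a b, [v, u, a, b].Nodup ∧ (∀ x, Adj T v x ↔ x = u ∨ x = a ∨ x = b) ∧
      star T v = {{v, u, a}, {v, a, b}, {v, b, u}} := by
  obtain ⟨l, h0, h3, hper, hinj, hadj, hstar⟩ := link_fun h hu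
  rw [hd] at h3 hper hinj hadj hstar
  subst h0
  have hne : ∀ i, i < 3 → v ≠ l i := fun i hi => ((hadj (l i)).2 ⟨i, hi, rfl⟩).1
  have hij : ∀ i j, i < 3 → j < 3 → i ≠ j → l i ≠ l j :=
    fun i j hi hj hne h => hne (hinj i j hi hj h)
  have hp0 : l 3 = l 0 := hper 0
  refine ⟨l 1, l 2, ?_, ?_, ?_⟩
  · simp only [List.nodup_cons, List.mem_cons, List.not_mem_nil, or_false, not_or, List.nodup_nil,
      and_true, not_false_eq_true]
    refine ⟨⟨hne 0 (by norm_num), hne 1 (by norm_num), hne 2 (by norm_num)⟩, ⟨hij 0 1 (by norm_num) (by norm_num) (by norm_num), hij 0 2 (by norm_num) (by norm_num) (by norm_num)⟩, hij 1 2 (by norm_num) (by norm_num) (by norm_num)⟩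
  · intro x
    rw [hadj]
    constructor
    · rintro ⟨i, hi, rfl⟩
      interval_cases i <;> simp
    · rintro (rfl | rfl | rfl)
      · exact ⟨0, by norm_num, rfl⟩
      · exact ⟨1, by norm_num, rfl⟩
      · exact ⟨2, by norm_num, rfl⟩
  · ext f
    rw [hstar]
    simp only [mem_insert, mem_singleton]
    constructor
    · rintro ⟨i, hi, rfl⟩
      interval_cases i <;> simp [hp0]
    · rintro (rfl | rfl | rfl)
      · exact ⟨0, by norm_num, rfl⟩
      · exact ⟨1, by norm_num, rfl⟩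
      · exact ⟨2, by norm_num, by rw [show 2 + 1 = 3 from rfl, hp0]⟩

theorem link4 {T : Finset (Finset V)} (h : Sphere T) {v u : V} (hu : Adj T v u)
    (hd : deg T v = 4) : ∃ a b c, [v, u, a, b, c].Nodup ∧
      (∀ x, Adj T v x ↔ x = u ∨ x = a ∨ x = b ∨ x = c) ∧
      star T v = {{v, u, a}, {v, a, b}, {v, b, c}, {v, c, u}} := by
  obtain ⟨l, h0, h3, hper, hinj, hadj, hstar⟩ := link_fun h hu
  rw [hd] at h3 hper hinj hadj hstar
  subst h0
  have hne : ∀ i, i < 4 → v ≠ l i := fun i hi => ((hadj (l i)).2 ⟨i, hi, rfl⟩).1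
  have hij : ∀ i j, i < 4 → j < 4 → i ≠ j → l i ≠ l j :=
    fun i j hi hj hne h => hne (hinj i j hi hj h)
  have hp0 : l 4 = l 0 := hper 0
  refine ⟨l 1, l 2, l 3, ?_, ?_, ?_⟩
  · simp only [List.nodup_cons, List.mem_cons, List.not_mem_nil, or_false, not_or, List.nodup_nil,
      and_true, not_false_eq_true]
    refine ⟨⟨hne 0 (by norm_num), hne 1 (by norm_num), hne 2 (by norm_num), hne 3 (by norm_num)⟩, ⟨hij 0 1 (by norm_num) (by norm_num) (by norm_num), hij 0 2 (by norm_num) (by norm_num) (by norm_num), hij 0 3 (by norm_num) (by norm_num) (by norm_num)⟩, ⟨hij 1 2 (by norm_num) (by norm_num) (by norm_num), hij 1 3 (by norm_num) (by norm_num) (by norm_num)⟩, hij 2 3 (by norm_num) (by norm_num) (by norm_num)⟩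
  · intro x
    rw [hadj]
    constructor
    · rintro ⟨i, hi, rfl⟩
      interval_cases i <;> simp
    · rintro (rfl | rfl | rfl | rfl)
      · exact ⟨0, by norm_num, rfl⟩
      · exact ⟨1, by norm_num, rfl⟩
      · exact ⟨2, by norm_num, rfl⟩
      · exact ⟨3, by norm_num, rfl⟩
  · ext f
    rw [hstar]
    simp only [mem_insert, mem_singleton]
    constructor
    · rintro ⟨i, hi, rfl⟩
      interval_cases i <;> simp [hp0]
    · rintro (rfl | rfl | rfl | rfl)
      · exact ⟨0, by norm_num, rfl⟩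
      · exact ⟨1, by norm_num, rfl⟩
      · exact ⟨2, by norm_num, rfl⟩
      · exact ⟨3, by norm_num, by rw [show 3 + 1 = 4 from rfl, hp0]⟩

theorem link5 {T : Finset (Finset V)} (h : Sphere T) {v u : V} (hu : Adj T v u)
    (hd : deg T v = 5) : ∃ a b c d, [v, u, a, b, c, d].Nodup ∧
      (∀ x, Adj T v x ↔ x = u ∨ x = a ∨ x = b ∨ x = c ∨ x = d) ∧
      star T v = {{v, u, a}, {v, a, b}, {v, b, c}, {v, c, d}, {v, d, u}} := by
  obtain ⟨l, h0, h3, hper, hinj, hadj, hstar⟩ := link_fun h hu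
  rw [hd] at h3 hper hinj hadj hstar
  subst h0
  have hne : ∀ i, i < 5 → v ≠ l i := fun i hi => ((hadj (l i)).2 ⟨i, hi, rfl⟩).1
  have hij : ∀ i j, i < 5 → j < 5 → i ≠ j → l i ≠ l j :=
    fun i j hi hj hne h => hne (hinj i j hi hj h)
  have hp0 : l 5 = l 0 := hper 0
  refine ⟨l 1, l 2, l 3, l 4, ?_, ?_, ?_⟩
  · simp only [List.nodup_cons, List.mem_cons, List.not_mem_nil, or_false, not_or, List.nodup_nil,
      and_true, not_false_eq_true]
    refine ⟨⟨hne 0 (by norm_num), hne 1 (by norm_num), hne 2 (by norm_num), hne 3 (by norm_num), hne 4 (by norm_num)⟩, ⟨hij 0 1 (by norm_num) (by norm_num) (by norm_num), hij 0 2 (by norm_num) (by norm_num) (by norm_num), hij 0 3 (by norm_num) (by norm_num) (by norm_num), hij 0 4 (by norm_num) (by norm_num) (by norm_num)⟩, ⟨hij 1 2 (by norm_num) (by norm_num) (by norm_num), hij 1 3 (by norm_num) (by norm_num) (by norm_num), hij 1 4 (by norm_num) (by norm_num) (by norm_num)⟩, ⟨hij 2 3 (by norm_num) (by norm_num) (by norm_num),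 hij 2 4 (by norm_num) (by norm_num) (by norm_num)⟩, hij 3 4 (by norm_num) (by norm_num) (by norm_num)⟩
  · intro x
    rw [hadj]
    constructor
    · rintro ⟨i, hi, rfl⟩
      interval_cases i <;> simp
    · rintro (rfl | rfl | rfl | rfl | rfl)
      · exact ⟨0, by norm_num, rfl⟩
      · exact ⟨1, by norm_num, rfl⟩
      · exact ⟨2, by norm_num, rfl⟩
      · exact ⟨3, by norm_num, rfl⟩
      · exact ⟨4, by norm_num, rfl⟩
  · ext f
    rw [hstar]
    simp only [mem_insert, mem_singleton]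
    constructor
    · rintro ⟨i, hi, rfl⟩
      interval_cases i <;> simp [hp0]
    · rintro (rfl | rfl | rfl | rfl | rfl)
      · exact ⟨0, by norm_num, rfl⟩
      · exact ⟨1, by norm_num, rfl⟩
      · exact ⟨2, by norm_num, rfl⟩
      · exact ⟨3, by norm_num, rfl⟩
      · exact ⟨4, by norm_num, by rw [show 4 + 1 = 5 from rfl, hp0]⟩

theorem link6 {T : Finset (Finset V)} (h : Sphere T) {v u : V} (hu : Adj T v u)
    (hd : deg T v = 6) : ∃ a b c d e, [v, u, a, b, c, d, e].Nodup ∧
      (∀ x, Adj T v x ↔ x = u ∨ x = a ∨ x = b ∨ x = c ∨ x = d ∨ x = e) ∧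
      star T v = {{v, u, a}, {v, a, b}, {v, b, c}, {v, c, d}, {v, d, e}, {v, e, u}} := by
  obtain ⟨l, h0, h3, hper, hinj, hadj, hstar⟩ := link_fun h hu
  rw [hd] at h3 hper hinj hadj hstar
  subst h0
  have hne : ∀ i, i < 6 → v ≠ l i := fun i hi => ((hadj (l i)).2 ⟨i, hi, rfl⟩).1
  have hij : ∀ i j, i < 6 → j < 6 → i ≠ j → l i ≠ l j :=
    fun i j hi hj hne h => hne (hinj i j hi hj h)
  have hp0 : l 6 = l 0 := hper 0
  refine ⟨l 1, l 2, l 3, l 4, l 5, ?_, ?_, ?_⟩
  · simp only [List.nodup_cons, List.mem_cons, List.not_mem_nil, or_false, not_or, List.nodup_nil,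
      and_true, not_false_eq_true]
    refine ⟨⟨hne 0 (by norm_num), hne 1 (by norm_num), hne 2 (by norm_num), hne 3 (by norm_num), hne 4 (by norm_num), hne 5 (by norm_num)⟩, ⟨hij 0 1 (by norm_num) (by norm_num) (by norm_num), hij 0 2 (by norm_num) (by norm_num) (by norm_num), hij 0 3 (by norm_num) (by norm_num) (by norm_num), hij 0 4 (by norm_num) (by norm_num) (by norm_num), hij 0 5 (by norm_num) (by norm_num) (by norm_num)⟩, ⟨hij 1 2 (by norm_num) (by norm_num) (by norm_num), hij 1 3 (by norm_num) (by norm_num) (by norm_num), hij 1 4 (by norm_num) (by norm_num) (by norm_num), hij 1 5 (by norm_num) (by norm_num) (by norm_num)⟩, ⟨hij 2 3 (by norm_num) (by norm_num) (by norm_num), hij 2 4 (by norm_num) (by norm_num) (by norm_num), hij 2 5 (by norm_num) (by norm_num) (by norm_num)⟩, ⟨hij 3 4 (by norm_num) (by norm_num) (by norm_num), hij 3 5 (by norm_num) (by norm_num) (by norm_num)⟩, hij 4 5 (by norm_num) (by norm_num) (by norm_num)⟩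
  · intro x
    rw [hadj]
    constructor
    · rintro ⟨i, hi, rfl⟩
      interval_cases i <;> simp
    · rintro (rfl | rfl | rfl | rfl | rfl | rfl)
      · exact ⟨0, by norm_num, rfl⟩
      · exact ⟨1, by norm_num, rfl⟩
      · exact ⟨2, by norm_num, rfl⟩
      · exact ⟨3, by norm_num, rfl⟩
      · exact ⟨4, by norm_num, rfl⟩
      · exact ⟨5, by norm_num, rfl⟩
  · ext f
    rw [hstar]
    simp only [mem_insert, mem_singleton]
    constructor
    · rintro ⟨i, hi, rfl⟩
      interval_cases i <;> simp [hp0]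
    · rintro (rfl | rfl | rfl | rfl | rfl | rfl)
      · exact ⟨0, by norm_num, rfl⟩
      · exact ⟨1, by norm_num, rfl⟩
      · exact ⟨2, by norm_num, rfl⟩
      · exact ⟨3, by norm_num, rfl⟩
      · exact ⟨4, by norm_num, rfl⟩
      · exact ⟨5, by norm_num, by rw [show 5 + 1 = 6 from rfl, hp0]⟩

theorem link7 {T : Finset (Finset V)} (h : Sphere T) {v u : V} (hu : Adj T v u)
    (hd : deg T v = 7) : ∃ a b c d e f, [v, u, a, b, c, d, e, f].Nodup ∧
      (∀ x, Adj T v x ↔ x = u ∨ x = a ∨ x = b ∨ x = c ∨ x = d ∨ x = e ∨ x = f) ∧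
      star T v = {{v, u, a}, {v, a, b}, {v, b, c}, {v, c, d}, {v, d, e}, {v, e, f}, {v, f, u}} := by
  obtain ⟨l, h0, h3, hper, hinj, hadj, hstar⟩ := link_fun h hu
  rw [hd] at h3 hper hinj hadj hstar
  subst h0
  have hne : ∀ i, i < 7 → v ≠ l i := fun i hi => ((hadj (l i)).2 ⟨i, hi, rfl⟩).1
  have hij : ∀ i j, i < 7 → j < 7 → i ≠ j → l i ≠ l j :=
    fun i j hi hj hne h => hne (hinj i j hi hj h)
  have hp0 : l 7 = l 0 := hper 0
  refine ⟨l 1, l 2, l 3, l 4, l 5, l 6, ?_, ?_, ?_⟩
  · simp only [List.nodup_cons, List.mem_cons, List.not_mem_nil, or_false, not_or, List.nodup_nil,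
      and_true, not_false_eq_true]
    refine ⟨⟨hne 0 (by norm_num), hne 1 (by norm_num), hne 2 (by norm_num), hne 3 (by norm_num), hne 4 (by norm_num), hne 5 (by norm_num), hne 6 (by norm_num)⟩, ⟨hij 0 1 (by norm_num) (by norm_num) (by norm_num), hij 0 2 (by norm_num) (by norm_num) (by norm_num), hij 0 3 (by norm_num) (by norm_num) (by norm_num), hij 0 4 (by norm_num) (by norm_num) (by norm_num), hij 0 5 (by norm_num) (by norm_num) (by norm_num), hij 0 6 (by norm_num) (by norm_num) (by norm_num)⟩, ⟨hij 1 2 (by norm_num) (by norm_num) (by norm_num), hij 1 3 (by norm_num) (by norm_num) (by norm_num), hij 1 4 (by norm_num) (by norm_num) (by norm_num), hij 1 5 (by norm_num) (by norm_num) (by norm_num), hij 1 6 (by norm_num) (by norm_num) (by norm_num)⟩, ⟨hij 2 3 (by norm_num) (by norm_num) (by norm_num), hij 2 4 (by norm_num) (by norm_num) (by norm_num), hij 2 5 (by norm_num) (by norm_num) (by norm_num), hij 2 6 (by norm_num) (by norm_num) (by norm_num)⟩, ⟨hij 3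 4 (by norm_num) (by norm_num) (by norm_num), hij 3 5 (by norm_num) (by norm_num) (by norm_num), hij 3 6 (by norm_num) (by norm_num) (by norm_num)⟩, ⟨hij 4 5 (by norm_num) (by norm_num) (by norm_num), hij 4 6 (by norm_num) (by norm_num) (by norm_num)⟩, hij 5 6 (by norm_num) (by norm_num) (by norm_num)⟩
  · intro x
    rw [hadj]
    constructor
    · rintro ⟨i, hi, rfl⟩
      interval_cases i <;> simp
    · rintro (rfl | rfl | rfl | rfl | rfl | rfl | rfl)
      · exact ⟨0, by norm_num, rfl⟩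
      · exact ⟨1, by norm_num, rfl⟩
      · exact ⟨2, by norm_num, rfl⟩
      · exact ⟨3, by norm_num, rfl⟩
      · exact ⟨4, by norm_num, rfl⟩
      · exact ⟨5, by norm_num, rfl⟩
      · exact ⟨6, by norm_num, rfl⟩
  · ext f
    rw [hstar]
    simp only [mem_insert, mem_singleton]
    constructor
    · rintro ⟨i, hi, rfl⟩
      interval_cases i <;> simp [hp0]
    · rintro (rfl | rfl | rfl | rfl | rfl | rfl | rfl)
      · exact ⟨0, by norm_num, rfl⟩
      · exact ⟨1, by norm_num, rfl⟩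
      · exact ⟨2, by norm_num, rfl⟩
      · exact ⟨3, by norm_num, rfl⟩
      · exact ⟨4, by norm_num, rfl⟩
      · exact ⟨5, by norm_num, rfl⟩
      · exact ⟨6, by norm_num, by rw [show 6 + 1 = 7 from rfl, hp0]⟩

end Pool.Agent.TH246.PR
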