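import Pool.Agent.TH246.PR.RegionEuler
import Pool.Agent.TH246.PR.LinkN

set_option autoImplicit false
set_option linter.unusedVariables false

namespace Pool.Agent.TH246.PR

open Finset

variable {V : Type} [DecidableEq V]

theorem Region2_adj {T : Finset (Finset V)} {x y : V} {f : Finset V} (hf : f ∈ T) (hne : x ≠ y)
    (hx : x ∈ f) (hy : y ∈ f) : Adj T x y := ⟨hne, f, hf, hx, hy⟩

/-- a face at an edge is one of two given ones -/
theorem Region2_ef {T : Finset (Finset V)} (h : Pre T) {x y : V} {f g k : Finset V}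
    (hne : x ≠ y) (hf : f ∈ T) (hxf : x ∈ f) (hyf : y ∈ f) (hg : g ∈ T) (hxg : x ∈ g)
    (hyg : y ∈ g) (hfg : f ≠ g) (hk : k ∈ T) (hxk : x ∈ k) (hyk : y ∈ k) : k = f ∨ k = g := by
  have h2 := h.two x y (Region2_adj hf hne hxf hyf)
  have hsub : ({f, g} : Finset (Finset V)) ⊆ ef T x y := by
    intro m hm
    rcases Finset.mem_insert.1 hm with rfl | hm
    · exact Finset.mem_filter.2 ⟨hf, hxf, hyf⟩
    · rw [Finset.mem_singleton.1 hm]
      exact Finset.mem_filter.2 ⟨hg, hxg, hyg⟩
  have heq : ({f, g} : Finset (Finset V)) = ef T x y :=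
    Finset.eq_of_subset_of_card_le hsub (by rw [h2, Finset.card_pair hfg])
  have : k ∈ ef T x y := Finset.mem_filter.2 ⟨hk, hxk, hyk⟩
  rw [← heq] at this
  simpa using this

/-- every vertex of a sphere without separating triangles has degree at least 4 -/
theorem four_le_deg {T : Finset (Finset V)} (h : Sphere T) (hF : Fac T) (h4 : 4 < T.card)
    {v : V} (hv : v ∈ verts T) : 4 ≤ deg T v := by
  obtain ⟨f, hf, hvf⟩ : ∃ f ∈ T, v ∈ f := by
    simpa [verts] using hv
  obtain ⟨u, huf, huv⟩ : ∃ u ∈ f, u ≠ v := by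
    apply Finset.exists_mem_ne
    rw [h.card3 f hf]; norm_num
  have hadj : Adj T v u := Region2_adj hf huv.symm hvf huf
  obtain ⟨l, -, h3, -⟩ := link_fun h hadj
  by_contra hlt
  have hd : deg T v = 3 := by omega
  obtain ⟨a, b, hnd, -, hst⟩ := link3 h hadj hd
  simp only [List.nodup_cons, List.mem_cons, List.not_mem_nil, or_false, not_or,
    List.nodup_nil, and_true, not_false_eq_true] at hnd
  obtain ⟨⟨hvu, hva, hvb⟩, ⟨hua, hub⟩, hab⟩ := hnd
  have m1 : ({v, u, a} : Finset V) ∈ T := by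
    have : ({v, u, a} : Finset V) ∈ star T v := by rw [hst]; simp
    exact (Finset.mem_filter.1 this).1
  have m2 : ({v, a, b} : Finset V) ∈ T := by
    have : ({v, a, b} : Finset V) ∈ star T v := by rw [hst]; simp
    exact (Finset.mem_filter.1 this).1
  have m3 : ({v, b, u} : Finset V) ∈ T := by
    have : ({v, b, u} : Finset V) ∈ star T v := by rw [hst]; simp
    exact (Finset.mem_filter.1 this).1
  have m4 : ({u, a, b} : Finset V) ∈ T := by
    apply hF
    · exact Region2_adj m1 hua (by simp) (by simp)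
    · exact Region2_adj m2 hab (by simp) (by simp)
    · exact Region2_adj m3 hub (by simp) (by simp)
  have n12 : ({v, u, a} : Finset V) ≠ {v, a, b} := by
    intro e
    have : u ∈ ({v, a, b} : Finset V) := by rw [← e]; simp
    simp [Ne.symm hvu, hua, hub] at this
  have n13 : ({v, u, a} : Finset V) ≠ {v, b, u} := by
    intro e
    have : a ∈ ({v, b, u} : Finset V) := by rw [← e]; simp
    simp [Ne.symm hva, hab, Ne.symm hua] at this
  have n23 : ({v, a, b} : Finset V) ≠ {v, b, u} := by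
    intro e
    have : a ∈ ({v, b, u} : Finset V) := by rw [← e]; simp
    simp [Ne.symm hva, hab, Ne.symm hua] at this
  have n14 : ({v, u, a} : Finset V) ≠ {u, a, b} := by
    intro e
    have : v ∈ ({u, a, b} : Finset V) := by rw [← e]; simp
    simp [hvu, hva, hvb] at this
  have n24 : ({v, a, b} : Finset V) ≠ {u, a, b} := by
    intro e
    have : v ∈ ({u, a, b} : Finset V) := by rw [← e]; simp
    simp [hvu, hva, hvb] at this
  have n34 : ({v, b, u} : Finset V) ≠ {u, a, b} := by
    intro e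
    have : v ∈ ({u, a, b} : Finset V) := by rw [← e]; simp
    simp [hvu, hva, hvb] at this
  set X : Finset (Finset V) := {{v, u, a}, {v, a, b}, {v, b, u}, {u, a, b}} with hX
  have pvu : ∀ g ∈ T, v ∈ g → u ∈ g → g ∈ X := by
    intro g hg h1 h2
    rcases Region2_ef h.toPre hvu m1 (by simp) (by simp) m3 (by simp) (by simp) n13 hg h1 h2
      with e | e <;> rw [e] <;> simp [hX]
  have pva : ∀ g ∈ T, v ∈ g → a ∈ g → g ∈ X := by
    intro g hg h1 h2
    rcases Region2_ef h.toPre hva m1 (by simp) (by simp) m2 (by simp) (by simp) n12 hg h1 h2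
      with e | e <;> rw [e] <;> simp [hX]
  have pvb : ∀ g ∈ T, v ∈ g → b ∈ g → g ∈ X := by
    intro g hg h1 h2
    rcases Region2_ef h.toPre hvb m2 (by simp) (by simp) m3 (by simp) (by simp) n23 hg h1 h2
      with e | e <;> rw [e] <;> simp [hX]
  have pua : ∀ g ∈ T, u ∈ g → a ∈ g → g ∈ X := by
    intro g hg h1 h2
    rcases Region2_ef h.toPre hua m1 (by simp) (by simp) m4 (by simp) (by simp) n14 hg h1 h2
      with e | e <;> rw [e] <;> simp [hX]
  have pub : ∀ g ∈ T, u ∈ g → b ∈ g → g ∈ X := by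
    intro g hg h1 h2
    rcases Region2_ef h.toPre hub m3 (by simp) (by simp) m4 (by simp) (by simp) n34 hg h1 h2
      with e | e <;> rw [e] <;> simp [hX]
  have pab : ∀ g ∈ T, a ∈ g → b ∈ g → g ∈ X := by
    intro g hg h1 h2
    rcases Region2_ef h.toPre hab m2 (by simp) (by simp) m4 (by simp) (by simp) n24 hg h1 h2
      with e | e <;> rw [e] <;> simp [hX]
  have hXT : X ⊆ T := by
    intro f hf
    simp only [hX, Finset.mem_insert, Finset.mem_singleton] at hf
    rcases hf with rfl | rfl | rfl | rfl <;> assumption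
  have hXeq : X = T := by
    apply h.conn X hXT ⟨_, Finset.mem_insert_self _ _⟩
    intro f hf g hg hc
    obtain ⟨x, y, hxy, e⟩ := Finset.card_eq_two.1 hc
    have hx : x ∈ f ∧ x ∈ g := by
      rw [← Finset.mem_inter, e]; simp
    have hy : y ∈ f ∧ y ∈ g := by
      rw [← Finset.mem_inter, e]; simp
    have key : ∀ z ∈ f, z = v ∨ z = u ∨ z = a ∨ z = b := by
      intro z hz
      simp only [hX, Finset.mem_insert, Finset.mem_singleton] at hf
      clear hx hy e hc
      rcases hf with hf | hf | hf | hf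
      · rw [hf, Finset.mem_insert, Finset.mem_insert, Finset.mem_singleton] at hz
        rcases hz with hz | hz | hz
        exacts [Or.inl hz, Or.inr (Or.inl hz), Or.inr (Or.inr (Or.inl hz))]
      · rw [hf, Finset.mem_insert, Finset.mem_insert, Finset.mem_singleton] at hz
        rcases hz with hz | hz | hz
        exacts [Or.inl hz, Or.inr (Or.inr (Or.inl hz)), Or.inr (Or.inr (Or.inr hz))]
      · rw [hf, Finset.mem_insert, Finset.mem_insert, Finset.mem_singleton] at hz
        rcases hz with hz | hz | hz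
        exacts [Or.inl hz, Or.inr (Or.inr (Or.inr hz)), Or.inr (Or.inl hz)]
      · rw [hf, Finset.mem_insert, Finset.mem_insert, Finset.mem_singleton] at hz
        rcases hz with hz | hz | hz
        exacts [Or.inr (Or.inl hz), Or.inr (Or.inr (Or.inl hz)), Or.inr (Or.inr (Or.inr hz))]
    have hx1 := key x hx.1
    have hy1 := key y hy.1
    have hx2 := hx.2
    have hy2 := hy.2
    clear key hx hy hf e hc
    rcases hx1 with ex | ex | ex | ex <;> rw [ex] at hx2 hxy <;>
      rcases hy1 with ey | ey | ey | ey <;> rw [ey] at hy2 hxy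
    · exact absurd rfl hxy
    · exact pvu g hg hx2 hy2
    · exact pva g hg hx2 hy2
    · exact pvb g hg hx2 hy2
    · exact pvu g hg hy2 hx2
    · exact absurd rfl hxy
    · exact pua g hg hx2 hy2
    · exact pub g hg hx2 hy2
    · exact pva g hg hy2 hx2
    · exact pua g hg hy2 hx2
    · exact absurd rfl hxy
    · exact pab g hg hx2 hy2
    · exact pvb g hg hy2 hx2
    · exact pub g hg hy2 hx2
    · exact pab g hg hy2 hx2
    · exact absurd rfl hxy
  have : T.card ≤ 4 := by
    rw [← hXeq]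
    exact Finset.card_le_four
  omega

theorem Region2_sum_deg {T : Finset (Finset V)} (h : Pre T) :
    ∑ v ∈ verts T, deg T v = 3 * T.card := by
  have h1 : ∑ v ∈ verts T, deg T v = ∑ f ∈ T, ((verts T).filter (fun v => v ∈ f)).card := by
    unfold deg star
    exact Finset.sum_card_bipartiteAbove_eq_sum_card_bipartiteBelow (fun v f => v ∈ f)
  rw [h1, Finset.sum_congr rfl (g := fun _ => 3)]
  · rw [Finset.sum_const, smul_eq_mul, mul_comm]
  · intro f hf
    have : (verts T).filter (fun v => v ∈ f) = f := by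
      ext x
      simp only [Finset.mem_filter, verts, Finset.mem_biUnion, id]
      exact ⟨fun hx => hx.2, fun hx => ⟨⟨f, hf, hx⟩, hx⟩⟩
    rw [this, h.card3 f hf]

theorem eight_le_card {T : Finset (Finset V)} (h : Sphere T) (hF : Fac T) (h4 : 4 < T.card) :
    8 ≤ T.card := by
  have h1 := Region2_sum_deg h.toPre
  have h2 : (verts T).card * 4 ≤ ∑ v ∈ verts T, deg T v := by
    have := Finset.card_nsmul_le_sum (verts T) (fun v => deg T v) 4
      (fun v hv => four_le_deg h hF h4 hv)
    simpa using this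
  have h3 := h.euler
  omega

theorem Region2_face {T X : Finset (Finset V)} {a b c d : V} (hX : Region T X a b c d)
    {x y : V} (hadj : Adj T x y)
    (hs : s(x, y) ∈ ({s(a, b), s(b, c), s(c, d), s(d, a)} : Finset (Sym2 V))) :
    ∃ f ∈ X, x ∈ f ∧ y ∈ f := by
  have h1 := (hX.bdry.2 x y hadj).2 hs
  obtain ⟨f, hf⟩ := Finset.card_pos.1 (by rw [h1]; norm_num : 0 < (ef X x y).card)
  obtain ⟨hf1, hf2, hf3⟩ := Finset.mem_filter.1 hf
  exact ⟨f, hf1, hf2, hf3⟩

theorem Region2_eq3 {f : Finset V} (hf : f.card = 3) {x y z : V} (hxy : x ≠ y) (hxz : x ≠ z)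
    (hyz : y ≠ z) (hx : x ∈ f) (hy : y ∈ f) (hz : z ∈ f) : f = {x, y, z} := by
  symm
  apply Finset.eq_of_subset_of_card_le
  · intro w hw
    simp only [Finset.mem_insert, Finset.mem_singleton] at hw
    rcases hw with rfl | rfl | rfl <;> assumption
  · rw [hf, Finset.card_eq_three.2 ⟨x, y, z, hxy, hxz, hyz, rfl⟩]

/-- small regions: two faces, or four faces around a vertex of degree 4 -/
theorem region_small {T X : Finset (Finset V)} (h : Sphere T) (hF : Fac T) (h4 : 4 < T.card)
    {a b c d : V} (hX : Region T X a b c d) (h6 : X.card < 6) :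
    (({a, b, c} : Finset V) ∈ X ∧ ({a, c, d} : Finset V) ∈ X ∧ X.card = 2) ∨
    (({a, b, d} : Finset V) ∈ X ∧ ({b, c, d} : Finset V) ∈ X ∧ X.card = 2) ∨
    (∃ t ∈ inn X a b c d, deg T t = 4 ∧ X.card = 4 ∧ ({t, a, b} : Finset V) ∈ X ∧
      ({t, b, c} : Finset V) ∈ X ∧ ({t, c, d} : Finset V) ∈ X ∧ ({t, d, a} : Finset V) ∈ X) := by
  have he := region_euler h hX
  have hnd := hX.nodup
  simp only [List.nodup_cons, List.mem_cons, List.not_mem_nil, or_false, not_or,
    List.nodup_nil, and_true, not_false_eq_true] at hnd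
  obtain ⟨⟨hab, hac, had⟩, ⟨hbc, hbd⟩, hcd⟩ := hnd
  obtain ⟨f1, hf1, ha1, hb1⟩ := Region2_face hX hX.ab (by simp)
  obtain ⟨f2, hf2, hb2, hc2⟩ := Region2_face hX hX.bc (by simp)
  obtain ⟨f3, hf3, hc3, hd3⟩ := Region2_face hX hX.cd (by simp)
  obtain ⟨f4, hf4, hd4, ha4⟩ := Region2_face hX hX.da (by simp)
  have hXT := hX.bdry.1
  have c3 : ∀ f ∈ X, f.card = 3 := fun f hf => h.card3 f (hXT hf)
  have hcases : (inn X a b c d).card = 0 ∨ (inn X a b c d).card = 1 := by omega
  rcases hcases with h0 | h1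
  · have hX2 : X.card = 2 := by omega
    have hI : inn X a b c d = ∅ := Finset.card_eq_zero.1 h0
    have hin : ∀ f ∈ X, ∀ x ∈ f, x = a ∨ x = b ∨ x = c ∨ x = d := by
      intro f hf x hx
      by_contra hc
      have : x ∈ inn X a b c d := by
        simp only [inn, verts, Finset.mem_sdiff, Finset.mem_biUnion, id, Finset.mem_insert,
          Finset.mem_singleton]
        exact ⟨⟨f, hf, hx⟩, hc⟩
      rw [hI] at this
      exact absurd this (Finset.notMem_empty x)
    -- the third vertex of f1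
    obtain ⟨z, hz, hza, hzb⟩ : ∃ z ∈ f1, z ≠ a ∧ z ≠ b := by
      by_contra hcon
      push Not at hcon
      have hsub : f1 ⊆ {a, b} := by
        intro w hw
        by_cases hwa : w = a
        · simp [hwa]
        · simp [hcon w hw hwa]
      have := Finset.card_le_card hsub
      rw [c3 f1 hf1, Finset.card_pair hab] at this
      omega
    have huniq : ∀ f ∈ X, ∀ g ∈ X, f ≠ f1 → g ≠ f1 → f = g := by
      intro f hf g hg hfn hgn
      obtain ⟨p, q, hpq, hXpq⟩ := Finset.card_eq_two.1 hX2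
      rw [hXpq] at hf hg hf1
      simp only [Finset.mem_insert, Finset.mem_singleton] at hf hg hf1
      rcases hf with rfl | rfl <;> rcases hg with rfl | rfl <;> rcases hf1 with rfl | rfl <;>
        first | rfl | exact absurd rfl hfn | exact absurd rfl hgn
    rcases hin f1 hf1 z hz with rfl | rfl | rfl | rfl
    · exact absurd rfl hza
    · exact absurd rfl hzb
    · -- z = c
      left
      have e1 := Region2_eq3 (c3 f1 hf1) hab hac hbc ha1 hb1 hz
      have hd1 : d ∉ f1 := by
        rw [e1]; simp [Ne.symm had, Ne.symm hbd, Ne.symm hcd]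
      have e34 : f3 = f4 := huniq f3 hf3 f4 hf4 (by rintro rfl; exact hd1 hd3)
        (by rintro rfl; exact hd1 hd4)
      have ha3 : a ∈ f3 := by rw [e34]; exact ha4
      have e3 := Region2_eq3 (c3 f3 hf3) hac had hcd ha3 hc3 hd3
      exact ⟨e1 ▸ hf1, e3 ▸ hf3, hX2⟩
    · -- z = d
      right; left
      have e1 := Region2_eq3 (c3 f1 hf1) hab had hbd ha1 hb1 hz
      have hc1 : c ∉ f1 := by
        rw [e1]; simp [Ne.symm hac, Ne.symm hbc, hcd]
      have e23 : f2 = f3 := huniq f2 hf2 f3 hf3 (by rintro rfl; exact hc1 hc2)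
        (by rintro rfl; exact hc1 hc3)
      have hd2 : z ∈ f2 := by rw [e23]; exact hd3
      have e2 := Region2_eq3 (c3 f2 hf2) hbc hbd hcd hb2 hc2 hd2
      exact ⟨e1 ▸ hf1, e2 ▸ hf2, hX2⟩
  · right; right
    have hX4 : X.card = 4 := by omega
    obtain ⟨t, ht⟩ := Finset.card_eq_one.1 h1
    have hti : t ∈ inn X a b c d := by rw [ht]; simp
    have htv : t ∈ verts T := by
      have : t ∈ verts X := (Finset.mem_sdiff.1 hti).1
      simp only [verts, Finset.mem_biUnion, id] at this ⊢
      obtain ⟨f, hf, htf⟩ := this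
      exact ⟨f, hXT hf, htf⟩
    have htn : t ≠ a ∧ t ≠ b ∧ t ≠ c ∧ t ≠ d := by
      have := (Finset.mem_sdiff.1 hti).2
      simpa [not_or] using this
    obtain ⟨hta, htb, htc, htd⟩ := htn
    have hs := region_star h hX hti
    have hdeg := four_le_deg h hF h4 htv
    have hle : deg T t ≤ X.card := Finset.card_le_card hs
    have hst : star T t = X := Finset.eq_of_subset_of_card_le hs (by
      rw [hX4]; exact hdeg)
    have htf : ∀ f ∈ X, t ∈ f := by
      intro f hf
      rw [← hst] at hf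
      exact (Finset.mem_filter.1 hf).2
    refine ⟨t, hti, by omega, hX4, ?_, ?_, ?_, ?_⟩
    · rw [← Region2_eq3 (c3 f1 hf1) hta htb hab (htf f1 hf1) ha1 hb1]; exact hf1
    · rw [← Region2_eq3 (c3 f2 hf2) htb htc hbc (htf f2 hf2) hb2 hc2]; exact hf2
    · rw [← Region2_eq3 (c3 f3 hf3) htc htd hcd (htf f3 hf3) hc3 hd3]; exact hf3
    · rw [← Region2_eq3 (c3 f4 hf4) htd hta (Ne.symm had) (htf f4 hf4) hd4 ha4]; exact hf4

theorem Region2_ef_pair {f g : Finset V} (hne : f ≠ g) (x y : V) :
    (ef ({f, g} : Finset (Finset V)) x y).card = 1 ↔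
        ((x ∈ f ∧ y ∈ f) ∧ ¬ (x ∈ g ∧ y ∈ g)) ∨ (¬ (x ∈ f ∧ y ∈ f) ∧ (x ∈ g ∧ y ∈ g)) := by
  unfold ef
  rw [Finset.filter_insert, Finset.filter_singleton]
  by_cases c1 : (x ∈ f ∧ y ∈ f) <;> by_cases c2 : (x ∈ g ∧ y ∈ g)
  · rw [if_pos c1, if_pos c2, Finset.card_pair hne]
    simp only [c1, c2]; decide
  · rw [if_pos c1, if_neg c2]
    simp only [c1, c2]; simp
  · rw [if_neg c1, if_pos c2]
    simp only [c1, c2]; simp
  · rw [if_neg c1, if_neg c2]
    simp only [c1, c2]; simp

/-- two faces with a common edge form a region -/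
theorem Region2_pair {T : Finset (Finset V)} (h : Sphere T) {u v p q : V} (huv : u ≠ v)
    (hup : u ≠ p) (huq : u ≠ q) (hvp : v ≠ p) (hvq : v ≠ q) (hpq : p ≠ q)
    (h1 : ({u, v, p} : Finset V) ∈ T) (h2 : ({u, v, q} : Finset V) ∈ T) :
    Region T {{u, v, p}, {u, v, q}} p u q v := by
  have hne : ({u, v, p} : Finset V) ≠ {u, v, q} := by
    intro e
    have : p ∈ ({u, v, q} : Finset V) := by rw [← e]; simp
    simp [Ne.symm hup, Ne.symm hvp, hpq] at this
  refine ⟨?_, ?_, ?_, ?_, ?_, ?_, ?_⟩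
  · simp [Ne.symm hup, hpq, Ne.symm hvp, huq, huv, Ne.symm hvq]
  · exact Region2_adj h1 (Ne.symm hup) (by simp) (by simp)
  · exact Region2_adj h2 huq (by simp) (by simp)
  · exact Region2_adj h2 (Ne.symm hvq) (by simp) (by simp)
  · exact Region2_adj h1 hvp (by simp) (by simp)
  · intro f hf
    simp only [Finset.mem_insert, Finset.mem_singleton] at hf
    rcases hf with rfl | rfl <;> assumption
  · intro x y hxy
    have hxy' := hxy.1
    have hcard := Region2_ef_pair hne x y
    rw [hcard]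
    simp only [Finset.mem_insert, Finset.mem_singleton, Sym2.eq_iff]
    constructor
    · rintro (⟨⟨hx, hy⟩, hn⟩ | ⟨hn, hx, hy⟩)
      · rcases hx with rfl | rfl | rfl <;> rcases hy with rfl | rfl | rfl <;>
          simp_all
      · rcases hx with rfl | rfl | rfl <;> rcases hy with rfl | rfl | rfl <;>
          simp_all
    · rintro ((⟨rfl, rfl⟩ | ⟨rfl, rfl⟩) | (⟨rfl, rfl⟩ | ⟨rfl, rfl⟩) | (⟨rfl, rfl⟩ | ⟨rfl, rfl⟩) |
        (⟨rfl, rfl⟩ | ⟨rfl, rfl⟩)) <;> simp_all [Ne.symm]

theorem exists_minReg {T : Finset (Finset V)} (h : Sphere T) (hF : Fac T) (h4 : 4 < T.card) :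
    ∃ X a b c d, MinReg T X a b c d := by
  have h8 := eight_le_card h hF h4
  obtain ⟨f, hf⟩ := h.nonempty
  obtain ⟨u, v, p, huv, hup, hvp, rfl⟩ := Finset.card_eq_three.1 (h.card3 f hf)
  have hadj : Adj T u v := Region2_adj hf huv (by simp) (by simp)
  have h2 := h.two u v hadj
  have hfe : ({u, v, p} : Finset V) ∈ ef T u v := by
    simp [ef, hf]
  obtain ⟨g, hg, hgn⟩ : ∃ g ∈ ef T u v, g ≠ {u, v, p} := by
    apply Finset.exists_mem_ne
    rw [h2]; norm_num
  obtain ⟨hgT, hug, hvg⟩ := Finset.mem_filter.1 hg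
  obtain ⟨q, hq, hqu, hqv⟩ : ∃ z ∈ g, z ≠ u ∧ z ≠ v := by
    by_contra hcon
    push Not at hcon
    have hsub : g ⊆ {u, v} := by
      intro w hw
      by_cases hwa : w = u
      · simp [hwa]
      · simp [hcon w hw hwa]
    have := Finset.card_le_card hsub
    rw [h.card3 g hgT, Finset.card_pair huv] at this
    omega
  have hge := Region2_eq3 (h.card3 g hgT) huv (Ne.symm hqu) (Ne.symm hqv) hug hvg hq
  have hpq : p ≠ q := by
    rintro rfl
    exact hgn hge
  have hreg := Region2_pair h huv hup (Ne.symm hqu) hvp (Ne.symm hqv) hpq hf (hge ▸ hgT)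
  have hreg' := region_compl h hreg
  have hcard : 6 ≤ (T \ {{u, v, p}, {u, v, q}}).card := by
    have h1 := Finset.le_card_sdiff ({{u, v, p}, {u, v, q}} : Finset (Finset V)) T
    have h2 : ({{u, v, p}, {u, v, q}} : Finset (Finset V)).card ≤ 2 := Finset.card_le_two
    omega
  classical
  let P : ℕ → Prop := fun n => ∃ (X : Finset (Finset V)) (a b c d : V),
    Region T X a b c d ∧ 6 ≤ X.card ∧ X.card = n
  have hP : ∃ n, P n := ⟨_, _, _, _, _, _, hreg', hcard, rfl⟩
  obtain ⟨X, a, b, c, d, hXr, hX6, hXn⟩ := Nat.find_spec hP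
  refine ⟨X, a, b, c, d, hXr, hX6, ?_⟩
  intro Y a' b' c' d' hY hY6
  rw [hXn]
  exact Nat.find_min' hP ⟨Y, a', b', c', d', hY, hY6, rfl⟩

end Pool.Agent.TH246.PR
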