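import Pool.Agent.TH246.PR.DisPair
import Pool.Agent.TH246.PR.Region2

set_option autoImplicit false
set_option linter.unusedVariables false

namespace Pool.Agent.TH246.PR

open Finset

variable {V : Type} [DecidableEq V]

omit [DecidableEq V] in
theorem DisBd_adjSymm {T : Finset (Finset V)} {u v : V} (h : Adj T u v) : Adj T v u := by
  obtain ⟨h1, f, hf, hu, hv⟩ := h
  exact ⟨h1.symm, f, hf, hv, hu⟩

theorem DisBd_rot {T X : Finset (Finset V)} {a b c d : V} (h : Region T X a b c d) :
    Region T X b c d a := by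
  refine ⟨?_, h.bc, h.cd, h.da, h.ab, ?_⟩
  · have := h.nodup
    simp only [List.nodup_cons, List.mem_cons, List.not_mem_nil, or_false, not_or] at this ⊢
    grind
  · have e : ({s(b, c), s(c, d), s(d, a), s(a, b)} : Finset (Sym2 V)) =
        {s(a, b), s(b, c), s(c, d), s(d, a)} := by
      ext e; simp only [mem_insert, mem_singleton]; tauto
    rw [e]; exact h.bdry

theorem DisBd_two {T X : Finset (Finset V)} (h : Sphere T) (hF : Fac T)
    {a b c d : V} (hX : Region T X a b c d) (h6 : 6 ≤ X.card) : 2 ≤ (star X b).card := by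
  by_contra hlt
  push Not at hlt
  have hnd := hX.nodup
  simp only [List.nodup_cons, List.mem_cons, List.not_mem_nil, or_false, not_or] at hnd
  obtain ⟨⟨nab, nac, nad⟩, ⟨nbc, nbd⟩, ncd, -⟩ := hnd
  obtain ⟨hXT, hZ⟩ := hX.bdry
  have cab : (ef X a b).card = 1 := (hZ a b hX.ab).2 (by simp)
  have cbc : (ef X b c).card = 1 := (hZ b c hX.bc).2 (by simp)
  obtain ⟨f1, hf1⟩ := Finset.card_eq_one.1 cab
  obtain ⟨f2, hf2⟩ := Finset.card_eq_one.1 cbc
  have m1 : f1 ∈ ef X a b := by rw [hf1]; simp
  have m2 : f2 ∈ ef X b c := by rw [hf2]; simp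
  have m1' := m1
  have m2' := m2
  simp only [ef, mem_filter] at m1 m2
  have e12 : f1 = f2 := by
    have : (star X b).card ≤ 1 := by omega
    rw [Finset.card_le_one] at this
    apply this
    · simp only [star, mem_filter]; exact ⟨m1.1, m1.2.2⟩
    · simp only [star, mem_filter]; exact ⟨m2.1, m2.2.1⟩
  subst e12
  have hcard : f1.card = 3 := h.card3 f1 (hXT m1.1)
  have hf : f1 = {a, b, c} := by
    symm
    apply Finset.eq_of_subset_of_card_le
    · intro x hx
      simp only [mem_insert, mem_singleton] at hx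
      rcases hx with rfl | rfl | rfl
      · exact m1.2.1
      · exact m1.2.2
      · exact m2.2.2
    · rw [hcard, Finset.card_insert_of_notMem, Finset.card_insert_of_notMem, Finset.card_singleton]
      · simpa using nbc
      · simp [nab, nac]
  have hac : Adj T a c := ⟨nac, f1, hXT m1.1, m1.2.1, m2.2.2⟩
  have hg : ({a, c, d} : Finset V) ∈ T := hF a c d hac hX.cd (DisBd_adjSymm hX.da)
  have cacT : (ef T a c).card = 2 := h.two a c hac
  have cac : (ef X a c).card ≠ 1 := by
    intro h1
    have := (hZ a c hac).1 h1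
    simp only [mem_insert, mem_singleton, Sym2.eq_iff] at this
    grind
  have sub : ef X a c ⊆ ef T a c := by
    intro x hx
    simp only [ef, mem_filter] at hx ⊢
    exact ⟨hXT hx.1, hx.2⟩
  have pos : 0 < (ef X a c).card := by
    rw [Finset.card_pos]
    exact ⟨f1, by simp only [ef, mem_filter]; exact ⟨m1.1, m1.2.1, m2.2.2⟩⟩
  have eqX : ef X a c = ef T a c := by
    apply Finset.eq_of_subset_of_card_le sub
    omega
  have hgX : ({a, c, d} : Finset V) ∈ X := by
    have : ({a, c, d} : Finset V) ∈ ef X a c := by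
      rw [eqX]; simp only [ef, mem_filter]; exact ⟨hg, by simp, by simp⟩
    simp only [ef, mem_filter] at this
    exact this.1
  have hfg : f1 ≠ {a, c, d} := by
    intro e
    have : b ∈ ({a, c, d} : Finset V) := e ▸ m1.2.2
    simp only [mem_insert, mem_singleton] at this
    grind
  have efac : ef X a c = {f1, {a, c, d}} := by
    symm
    apply Finset.eq_of_subset_of_card_le
    · intro x hx
      simp only [mem_insert, mem_singleton] at hx
      rcases hx with rfl | rfl
      · simp only [ef, mem_filter]; exact ⟨m1.1, m1.2.1, m2.2.2⟩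
      · simp only [ef, mem_filter]; exact ⟨hgX, by simp, by simp⟩
    · rw [eqX, cacT, Finset.card_pair hfg]
  have ccd : (ef X c d).card = 1 := (hZ c d hX.cd).2 (by simp)
  have cda : (ef X d a).card = 1 := (hZ d a hX.da).2 (by simp)
  obtain ⟨f3, hf3⟩ := Finset.card_eq_one.1 ccd
  obtain ⟨f4, hf4⟩ := Finset.card_eq_one.1 cda
  have m3 : ({a, c, d} : Finset V) ∈ ef X c d := by
    simp only [ef, mem_filter]; exact ⟨hgX, by simp, by simp⟩
  have m4 : ({a, c, d} : Finset V) ∈ ef X d a := by
    simp only [ef, mem_filter]; exact ⟨hgX, by simp, by simp⟩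
  have e3 : f3 = {a, c, d} := by rw [hf3, mem_singleton] at m3; exact m3.symm
  have e4 : f4 = {a, c, d} := by rw [hf4, mem_singleton] at m4; exact m4.symm
  have hcl : ∀ f ∈ ({f1, {a, c, d}} : Finset (Finset V)), ∀ g ∈ X, (f ∩ g).card = 2 →
      g ∈ ({f1, {a, c, d}} : Finset (Finset V)) := by
    intro f hf' g hgX' hcap
    obtain ⟨p, q, hpq, hpq'⟩ := Finset.card_eq_two.1 hcap
    have hp : p ∈ f ∩ g := by rw [hpq']; simp
    have hq : q ∈ f ∩ g := by rw [hpq']; simp
    simp only [mem_inter] at hp hq
    have t1 : a ∈ g → b ∈ g → g = f1 := fun ha hb => by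
      have : g ∈ ef X a b := by simp only [ef, mem_filter]; exact ⟨hgX', ha, hb⟩
      rw [hf1, mem_singleton] at this; exact this
    have t2 : b ∈ g → c ∈ g → g = f1 := fun ha hb => by
      have : g ∈ ef X b c := by simp only [ef, mem_filter]; exact ⟨hgX', ha, hb⟩
      rw [hf2, mem_singleton] at this; exact this
    have t3 : c ∈ g → d ∈ g → g = {a, c, d} := fun ha hb => by
      have : g ∈ ef X c d := by simp only [ef, mem_filter]; exact ⟨hgX', ha, hb⟩
      rw [hf3, mem_singleton] at this; rw [this, e3]
    have t4 : d ∈ g → a ∈ g → g = {a, c, d} := fun ha hb => by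
      have : g ∈ ef X d a := by simp only [ef, mem_filter]; exact ⟨hgX', ha, hb⟩
      rw [hf4, mem_singleton] at this; rw [this, e4]
    have t5 : a ∈ g → c ∈ g → g ∈ ({f1, {a, c, d}} : Finset (Finset V)) := fun ha hb => by
      rw [← efac]; simp only [ef, mem_filter]; exact ⟨hgX', ha, hb⟩
    have u1 : ∀ g, g = f1 → g ∈ ({f1, {a, c, d}} : Finset (Finset V)) := by
      rintro _ rfl; simp
    have u2 : ∀ g, g = {a, c, d} → g ∈ ({f1, {a, c, d}} : Finset (Finset V)) := by
      rintro _ rfl; simp
    simp only [mem_insert, mem_singleton] at hf'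
    rcases hf' with rfl | rfl
    · rw [hf] at hp hq
      simp only [mem_insert, mem_singleton] at hp hq
      rcases hp with ⟨rfl | rfl | rfl, hp⟩ <;> rcases hq with ⟨rfl | rfl | rfl, hq⟩ <;>
        first
        | exact absurd rfl hpq
        | exact u1 _ (t1 hp hq)
        | exact u1 _ (t1 hq hp)
        | exact u1 _ (t2 hp hq)
        | exact u1 _ (t2 hq hp)
        | exact t5 hp hq
        | exact t5 hq hp
    · simp only [mem_insert, mem_singleton] at hp hq
      rcases hp with ⟨rfl | rfl | rfl, hp⟩ <;> rcases hq with ⟨rfl | rfl | rfl, hq⟩ <;>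
        first
        | exact absurd rfl hpq
        | exact u2 _ (t3 hp hq)
        | exact u2 _ (t3 hq hp)
        | exact u2 _ (t4 hp hq)
        | exact u2 _ (t4 hq hp)
        | exact t5 hp hq
        | exact t5 hq hp
  have hfin := region_conn h hX {f1, {a, c, d}} (by
    intro x hx
    simp only [mem_insert, mem_singleton] at hx
    rcases hx with rfl | rfl
    · exact m1.1
    · exact hgX) ⟨f1, by simp⟩ hcl
  have : X.card ≤ 2 := by rw [← hfin]; exact Finset.card_le_two
  omega

/-- a vertex of the 4-cycle has charge at most 45 at the end, with equality only if it lies in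
two faces of `X` and is adjacent to a vertex of degree 4 in the interior -/
theorem charge_bd {T X : Finset (Finset V)} (h : Sphere T) (hF : Fac T) (h4 : 4 < T.card)
    {a b c d : V} (hX : Region T X a b c d) (h6 : 6 ≤ X.card)
    (hc : NoConf T (inn X a b c d)) {y : V} (hy : y ∈ ({a, b, c, d} : Finset V)) :
    30 * (3 - ((star X y).card : ℤ)) + ∑ x ∈ verts T, give T (inn X a b c d) x y ≤ 45 ∧
    (30 * (3 - ((star X y).card : ℤ)) + ∑ x ∈ verts T, give T (inn X a b c d) x y = 45 →
      (star X y).card = 2 ∧ ∃ x ∈ inn X a b c d, Adj T x y ∧ deg T x = 4) := by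
  have hs : 2 ≤ (star X y).card := by
    simp only [mem_insert, mem_singleton] at hy
    rcases hy with rfl | rfl | rfl | rfl
    · exact DisBd_two h hF (DisBd_rot (DisBd_rot (DisBd_rot hX))) h6
    · exact DisBd_two h hF hX h6
    · exact DisBd_two h hF (DisBd_rot hX) h6
    · exact DisBd_two h hF (DisBd_rot (DisBd_rot hX)) h6
  have hXT : X ⊆ T := hX.bdry.1
  have hdouble := give_double h (I := inn X a b c d) y (star X y) (by
    intro f hf
    simp only [star, mem_filter] at hf ⊢
    exact ⟨hXT hf.1, hf.2⟩) (by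
    intro f hf x hxf hxy hxI
    have hf' := hf
    simp only [star, mem_filter] at hf
    have : f ∈ star T x := by simp only [star, mem_filter]; exact ⟨hf.1, hxf⟩
    have := region_star h hX hxI this
    simp only [star, mem_filter]; exact ⟨this, hf.2⟩)
  -- pairs in a face
  have pair : ∀ f ∈ star X y, (∑ x ∈ f.erase y, give T (inn X a b c d) x y ≤ 15) ∧
      ((∀ x ∈ inn X a b c d, Adj T x y → deg T x ≠ 4) →
        ∑ x ∈ f.erase y, give T (inn X a b c d) x y ≤ 6) := by
    intro f hf
    simp only [star, mem_filter] at hf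
    have hfT := hXT hf.1
    have hcard := h.card3 f hfT
    have hce : (f.erase y).card = 2 := by rw [Finset.card_erase_of_mem hf.2, hcard]
    obtain ⟨x, z, hxz, he⟩ := Finset.card_eq_two.1 hce
    have hx : x ∈ f.erase y := by rw [he]; simp
    have hz : z ∈ f.erase y := by rw [he]; simp
    rw [Finset.mem_erase] at hx hz
    have hfe : f = {y, x, z} := by
      rw [← Finset.insert_erase hf.2, he]
    have hfT' := hfT
    rw [hfe] at hfT'
    have gp := give_pair h hF hc hfT' hx.1.symm hz.1.symm hxz
    rw [he, Finset.sum_pair hxz]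
    refine ⟨gp.1, fun hno => gp.2 (fun hxI => hno x hxI ⟨hx.1, f, hfT, hx.2, hf.2⟩)
      (fun hzI => hno z hzI ⟨hz.1, f, hfT, hz.2, hf.2⟩)⟩
  have hsum : ∑ f ∈ star X y, ∑ x ∈ f.erase y, give T (inn X a b c d) x y ≤
      (star X y).card * 15 := by
    have := Finset.sum_le_card_nsmul (star X y)
      (fun f => ∑ x ∈ f.erase y, give T (inn X a b c d) x y) 15 (fun f hf => (pair f hf).1)
    simpa using this
  have hs' : (2 : ℤ) ≤ (star X y).card := by exact_mod_cast hs
  refine ⟨by linarith, fun heq => ?_⟩
  have hs2 : ((star X y).card : ℤ) = 2 := by linarith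
  refine ⟨by exact_mod_cast hs2, ?_⟩
  by_contra hno
  push Not at hno
  have hsum6 : ∑ f ∈ star X y, ∑ x ∈ f.erase y, give T (inn X a b c d) x y ≤
      (star X y).card * 6 := by
    have := Finset.sum_le_card_nsmul (star X y)
      (fun f => ∑ x ∈ f.erase y, give T (inn X a b c d) x y) 6 (fun f hf => (pair f hf).2
        (fun x hx hxy => hno x hx hxy))
    simpa using this
  linarith

end Pool.Agent.TH246.PR
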