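import Pool.Agent.TH246.PR.DisInt
import Pool.Agent.TH246.PR.DisBd

set_option autoImplicit false
set_option linter.unusedVariables false

namespace Pool.Agent.TH246.PR

open Finset

variable {V : Type} [DecidableEq V]

theorem Dis_four {f : Finset V} (hf : f.card = 3) {p q r s : V} (hp : p ∈ f) (hq : q ∈ f)
    (hr : r ∈ f) (hs : s ∈ f) (hpq : p ≠ q) (hpr : p ≠ r) (hps : p ≠ s) (hqr : q ≠ r)
    (hqs : q ≠ s) (hrs : r ≠ s) : False := by
  have h1 : ({p, q, r, s} : Finset V) ⊆ f := by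
    intro z hz
    simp only [mem_insert, mem_singleton] at hz
    rcases hz with rfl | rfl | rfl | rfl <;> assumption
  have h2 := card_le_card h1
  rw [card_eq_of_equiv_fin (n := 4) ?_] at h2
  · omega
  · have h3 : ({p, q, r, s} : Finset V).card = 4 := by
      rw [card_insert_of_notMem (by simp [hpq, hpr, hps]),
        card_insert_of_notMem (by simp [hqr, hqs]), card_insert_of_notMem (by simp [hrs]),
        card_singleton]
    exact Finset.equivFinOfCardEq h3

theorem Dis_mem_verts {X : Finset (Finset V)} {f : Finset V} {v : V} (hf : f ∈ X) (hv : v ∈ f) :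
    v ∈ verts X := by
  unfold verts
  rw [mem_biUnion]
  exact ⟨f, hf, hv⟩

/-- double counting -/
theorem Dis_sum_star {T X : Finset (Finset V)} (h : Sphere T) (hX : X ⊆ T) :
    ∑ y ∈ verts X, (star X y).card = 3 * X.card := by
  have h1 : ∀ y ∈ verts X, (star X y).card = ∑ f ∈ X, if y ∈ f then 1 else 0 := by
    intro y _
    unfold star
    rw [card_filter]
  rw [sum_congr rfl h1, sum_comm]
  have h2 : ∀ f ∈ X, (∑ y ∈ verts X, if y ∈ f then 1 else 0) = 3 := by
    intro f hf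
    rw [← card_filter]
    have h3 : (verts X).filter (fun y => y ∈ f) = f := by
      ext y
      rw [mem_filter]
      exact ⟨fun h => h.2, fun h => ⟨Dis_mem_verts hf h, h⟩⟩
    rw [h3]
    exact h.card3 f (hX hf)
  rw [sum_congr rfl h2, sum_const, smul_eq_mul, mul_comm]

theorem Dis_give_ne {T : Finset (Finset V)} {I : Finset V} {x y : V} (h : give T I x y ≠ 0) :
    x ∈ I ∧ Adj T x y := by
  by_contra hcon
  apply h
  unfold give
  rw [if_neg hcon]

/-- a face of the region on a boundary edge -/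
theorem Dis_face {T X : Finset (Finset V)} {Z : Finset (Sym2 V)} (hB : Bdry T X Z) {u v : V}
    (hadj : Adj T u v) (hm : s(u, v) ∈ Z) : ∃ f ∈ X, u ∈ f ∧ v ∈ f := by
  have h1 := (hB.2 u v hadj).2 hm
  have h2 : (ef X u v).Nonempty := by
    rw [← card_pos, h1]
    exact one_pos
  obtain ⟨f, hf⟩ := h2
  unfold ef at hf
  rw [mem_filter] at hf
  exact ⟨f, hf.1, hf.2⟩

theorem Dis_verts {T X : Finset (Finset V)} {a b c d : V}
    (hX : Region T X a b c d) : ({a, b, c, d} : Finset V) ⊆ verts X := by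
  obtain ⟨f, hf, ha, hb⟩ := Dis_face hX.bdry hX.ab (by simp)
  obtain ⟨g, hg, hc, hd⟩ := Dis_face hX.bdry hX.cd (by simp)
  intro z hz
  simp only [mem_insert, mem_singleton] at hz
  rcases hz with rfl | rfl | rfl | rfl
  · exact Dis_mem_verts hf ha
  · exact Dis_mem_verts hf hb
  · exact Dis_mem_verts hg hc
  · exact Dis_mem_verts hg hd

/-- the end of the discharging: all four boundary vertices are of the extremal kind -/
theorem Dis_bd {T X : Finset (Finset V)} (h : Sphere T) (hF : Fac T) (h4 : 4 < T.card)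
    {a b c d : V} (hX : Region T X a b c d) (h6 : 6 ≤ X.card) (hc : NoConf T (inn X a b c d)) :
    ∀ y ∈ ({a, b, c, d} : Finset V),
      (star X y).card = 2 ∧ ∃ x ∈ inn X a b c d, Adj T x y ∧ deg T x = 4 := by
  obtain ⟨I, hI⟩ : ∃ I, I = inn X a b c d := ⟨_, rfl⟩
  obtain ⟨W, hW⟩ : ∃ W : Finset V, W = {a, b, c, d} := ⟨_, rfl⟩
  have hXT : X ⊆ T := hX.bdry.1
  have hWX : W ⊆ verts X := by rw [hW]; exact Dis_verts hX
  have hIW : I = verts X \ W := by rw [hI, hW]; rfl
  have hWc : W.card = 4 := by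
    have hnd := hX.nodup
    simp only [List.nodup_cons, List.mem_cons, not_or, List.not_mem_nil, or_false,
      not_false_eq_true, List.nodup_nil, and_true] at hnd
    obtain ⟨⟨h1, h2, h3⟩, ⟨h5, h7⟩, h8⟩ := hnd
    rw [hW, card_insert_of_notMem (by simp [h1, h2, h3]),
        card_insert_of_notMem (by simp [h5, h7]), card_insert_of_notMem (by simp [h8]),
        card_singleton]
  have hVT : verts X ⊆ verts T := by
    unfold verts
    exact biUnion_subset_biUnion_of_subset_left _ hXT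
  have hIT : I ⊆ verts T := by
    rw [hIW]
    exact sdiff_subset.trans hVT
  have hstar : ∀ y ∈ I, (star X y).card = deg T y := by
    intro y hy
    unfold deg
    congr 1
    ext f
    constructor
    · intro hf
      unfold star at hf ⊢
      rw [mem_filter] at hf ⊢
      exact ⟨hXT hf.1, hf.2⟩
    · intro hf
      have h1 := region_star h hX (hI ▸ hy) hf
      unfold star at hf ⊢
      rw [mem_filter] at hf ⊢
      exact ⟨h1, hf.2⟩
  -- sums over the vertices of `X`
  have hsplit : ∀ F : V → ℤ, ∑ y ∈ verts X, F y = ∑ y ∈ I, F y + ∑ y ∈ W, F y := by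
    intro F
    rw [hIW, sum_sdiff hWX]
  have hsum := Dis_sum_star h hXT
  have hsum' : ∑ y ∈ I, (deg T y : ℤ) + ∑ y ∈ W, ((star X y).card : ℤ) = 3 * X.card := by
    have h1 : (∑ y ∈ verts X, ((star X y).card : ℤ)) = 3 * X.card := by exact_mod_cast hsum
    rw [hsplit] at h1
    rw [← h1]
    congr 1
    exact sum_congr rfl fun y hy => by rw [hstar y hy]
  have heul : (X.card : ℤ) = 2 * I.card + 2 := by
    have := region_euler h hX
    rw [← hI] at this
    exact_mod_cast this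
  have hch : ∑ y ∈ I, 30 * (6 - (deg T y : ℤ)) + ∑ y ∈ W, 30 * (3 - ((star X y).card : ℤ)) =
      180 := by
    rw [← mul_sum, ← mul_sum, sum_sub_distrib, sum_sub_distrib, sum_const, sum_const, hWc]
    simp only [nsmul_eq_mul]
    push_cast
    linarith
  -- conservation
  have hcons : ∑ y ∈ verts X, ∑ x ∈ verts T, give T I x y =
      ∑ y ∈ I, ∑ x ∈ verts T, give T I y x := by
    have h1 : ∑ y ∈ verts X, ∑ x ∈ verts T, give T I x y =
        ∑ y ∈ verts T, ∑ x ∈ verts T, give T I x y := by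
      refine sum_subset hVT fun y _ hy => ?_
      refine sum_eq_zero fun x _ => ?_
      by_contra hne
      obtain ⟨h2, h3⟩ := Dis_give_ne hne
      obtain ⟨_, f, hf, hx, hyf⟩ := h3
      have h5 : f ∈ star T x := by
        unfold star
        rw [mem_filter]
        exact ⟨hf, hx⟩
      exact hy (Dis_mem_verts (region_star h hX (hI ▸ h2) h5) hyf)
    rw [h1, sum_comm]
    symm
    refine sum_subset hIT fun x _ hx => ?_
    refine sum_eq_zero fun y _ => ?_
    by_contra hne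
    exact hx (Dis_give_ne hne).1
  rw [hsplit] at hcons
  -- the charges
  have hint : ∑ y ∈ I, (30 * (6 - (deg T y : ℤ)) + ∑ x ∈ verts T, give T I x y -
      ∑ x ∈ verts T, give T I y x) ≤ 0 := by
    refine sum_nonpos fun y hy => ?_
    exact charge_int h hF h4 hIT (hI ▸ hc) (fun v hv => four_le_deg h hF h4 hv) hy
  have hbd : ∀ y ∈ W, 30 * (3 - ((star X y).card : ℤ)) + ∑ x ∈ verts T, give T I x y ≤ 45 ∧
      (30 * (3 - ((star X y).card : ℤ)) + ∑ x ∈ verts T, give T I x y = 45 →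
        (star X y).card = 2 ∧ ∃ x ∈ I, Adj T x y ∧ deg T x = 4) := by
    intro y hy
    have := charge_bd h hF h4 hX h6 hc (y := y) (hW ▸ hy)
    rw [← hI] at this
    exact this
  have htot : ∑ y ∈ W, (30 * (3 - ((star X y).card : ℤ)) + ∑ x ∈ verts T, give T I x y) ≥
      180 := by
    rw [sum_sub_distrib, sum_add_distrib] at hint
    rw [sum_add_distrib]
    linarith
  have h45 : ∑ y ∈ W, (45 : ℤ) = 180 := by
    rw [sum_const, hWc]
    norm_num
  have heq : ∑ y ∈ W, (30 * (3 - ((star X y).card : ℤ)) + ∑ x ∈ verts T, give T I x y) =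
      ∑ y ∈ W, (45 : ℤ) := by
    refine le_antisymm (sum_le_sum fun y hy => (hbd y hy).1) ?_
    rw [h45]
    exact htot
  have hall := (sum_eq_sum_iff_of_le fun y hy => (hbd y hy).1).1 heq
  intro y hy
  rw [← hW] at hy
  rw [← hI]
  exact (hbd y hy).2 (hall y hy)

/-- all faces of `X` at an extremal boundary vertex contain the vertex of degree 4 -/
theorem Dis_ext {T X : Finset (Finset V)} (h : Sphere T) {a b c d : V}
    (hX : Region T X a b c d) {x y : V} (h2 : (star X y).card = 2) (hx : x ∈ inn X a b c d)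
    (hxy : Adj T x y) : ∀ f ∈ X, y ∈ f → x ∈ f := by
  have h1 : ef T x y ⊆ star X y := by
    intro f hf
    unfold ef at hf
    rw [mem_filter] at hf
    have h3 : f ∈ star T x := by
      unfold star
      rw [mem_filter]
      exact ⟨hf.1, hf.2.1⟩
    unfold star
    rw [mem_filter]
    exact ⟨region_star h hX hx h3, hf.2.2⟩
  have h3 := eq_of_subset_of_card_le h1 (by rw [h2, h.two x y hxy])
  intro f hf hy
  have h4 : f ∈ star X y := by
    unfold star
    rw [mem_filter]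
    exact ⟨hf, hy⟩
  rw [← h3] at h4
  unfold ef at h4
  rw [mem_filter] at h4
  exact h4.2.1

theorem unavoidable {T X : Finset (Finset V)} (h : Sphere T) (hF : Fac T) (h4 : 4 < T.card)
    {a b c d : V} (hX : MinReg T X a b c d) :
    (∃ v ∈ inn X a b c d, ∃ u ∈ inn X a b c d, Adj T v u ∧ deg T v = 4 ∧
      (deg T u = 4 ∨ deg T u = 5 ∨ deg T u = 6)) ∨
    (∃ v ∈ inn X a b c d, ∃ u ∈ inn X a b c d, Adj T v u ∧ deg T v = 5 ∧ deg T u = 5) ∨
    (∃ v ∈ inn X a b c d, ∃ u ∈ inn X a b c d, ∃ x ∈ inn X a b c d, Adj T v u ∧ Adj T u x ∧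
      x ≠ v ∧ ¬ Adj T v x ∧ deg T v = 5 ∧ deg T u = 6 ∧ (deg T x = 5 ∨ deg T x = 6)) ∨
    (∃ y ∈ inn X a b c d, ∃ u ∈ inn X a b c d, ∃ v ∈ inn X a b c d, Adj T y u ∧ Adj T y v ∧
      u ≠ v ∧ deg T y = 7 ∧ deg T u = 4 ∧ deg T v = 4) := by
  by_contra hcon
  have hc : NoConf T (inn X a b c d) := by
    refine ⟨?_, ?_, ?_, ?_⟩
    · intro v hv u hu hadj hd
      exact ⟨fun h' => hcon (Or.inl ⟨v, hv, u, hu, hadj, hd, Or.inl h'⟩),
        fun h' => hcon (Or.inl ⟨v, hv, u, hu, hadj, hd, Or.inr (Or.inl h')⟩),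
        fun h' => hcon (Or.inl ⟨v, hv, u, hu, hadj, hd, Or.inr (Or.inr h')⟩)⟩
    · intro v hv u hu hadj hd h'
      exact hcon (Or.inr (Or.inl ⟨v, hv, u, hu, hadj, hd, h'⟩))
    · intro v hv u hu x hx hvu hux hxv hnadj hd5 hd6
      exact ⟨fun h' => hcon (Or.inr (Or.inr (Or.inl
          ⟨v, hv, u, hu, x, hx, hvu, hux, hxv, hnadj, hd5, hd6, Or.inl h'⟩))),
        fun h' => hcon (Or.inr (Or.inr (Or.inl
          ⟨v, hv, u, hu, x, hx, hvu, hux, hxv, hnadj, hd5, hd6, Or.inr h'⟩)))⟩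
    · intro y hy u hu v hv hyu hyv huv hd7 hd4 h'
      exact hcon (Or.inr (Or.inr (Or.inr ⟨y, hy, u, hu, v, hv, hyu, hyv, huv, hd7, hd4, h'⟩)))
  have hR := hX.reg
  have hXT : X ⊆ T := hR.bdry.1
  have hall := Dis_bd h hF h4 hR hX.six hc
  have hnd := hR.nodup
  simp only [List.nodup_cons, List.mem_cons, not_or, List.not_mem_nil, or_false,
    not_false_eq_true, List.nodup_nil, and_true] at hnd
  obtain ⟨⟨hab, hac, had⟩, ⟨hbc, hbd⟩, hcd⟩ := hnd
  obtain ⟨ha2, xa, hxaI, hxaa, hxa4⟩ := hall a (by simp)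
  obtain ⟨hb2, xb, hxbI, hxbb, hxb4⟩ := hall b (by simp)
  obtain ⟨hc2, xc, hxcI, hxcc, hxc4⟩ := hall c (by simp)
  obtain ⟨hd2, xd, hxdI, hxdd, hxd4⟩ := hall d (by simp)
  have hA := Dis_ext h hR ha2 hxaI hxaa
  have hB := Dis_ext h hR hb2 hxbI hxbb
  have hC := Dis_ext h hR hc2 hxcI hxcc
  have hD := Dis_ext h hR hd2 hxdI hxdd
  have hout : ∀ x ∈ inn X a b c d, x ≠ a ∧ x ≠ b ∧ x ≠ c ∧ x ≠ d := by
    intro x hx
    unfold inn at hx
    rw [mem_sdiff] at hx
    have := hx.2
    simp only [mem_insert, mem_singleton, not_or] at this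
    exact this
  obtain ⟨f1, hf1, hf1a, hf1b⟩ := Dis_face hR.bdry hR.ab (by simp)
  obtain ⟨f2, hf2, hf2b, hf2c⟩ := Dis_face hR.bdry hR.bc (by simp)
  obtain ⟨f3, hf3, hf3c, hf3d⟩ := Dis_face hR.bdry hR.cd (by simp)
  obtain ⟨f4, hf4, hf4d, hf4a⟩ := Dis_face hR.bdry hR.da (by simp)
  have hoa := hout xa hxaI
  have hob := hout xb hxbI
  have hoc := hout xc hxcI
  have hod := hout xd hxdI
  have e1 : xa = xb := by
    by_contra hne
    exact Dis_four (h.card3 f1 (hXT hf1)) hf1a hf1b (hA f1 hf1 hf1a) (hB f1 hf1 hf1b) hab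
      hoa.1.symm hob.1.symm hoa.2.1.symm hob.2.1.symm hne
  have e2 : xb = xc := by
    by_contra hne
    exact Dis_four (h.card3 f2 (hXT hf2)) hf2b hf2c (hB f2 hf2 hf2b) (hC f2 hf2 hf2c) hbc
      hob.2.1.symm hoc.2.1.symm hob.2.2.1.symm hoc.2.2.1.symm hne
  have e3 : xc = xd := by
    by_contra hne
    exact Dis_four (h.card3 f3 (hXT hf3)) hf3c hf3d (hC f3 hf3 hf3c) (hD f3 hf3 hf3d) hcd
      hoc.2.2.1.symm hod.2.2.1.symm hoc.2.2.2.symm hod.2.2.2.symm hne
  subst e1 e2 e3
  -- the four faces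
  have hx1 := hA f1 hf1 hf1a
  have hx2 := hB f2 hf2 hf2b
  have hx3 := hC f3 hf3 hf3c
  have hx4 := hD f4 hf4 hf4d
  have n12 : f1 ≠ f2 := by
    rintro rfl
    exact Dis_four (h.card3 f1 (hXT hf1)) hf1a hf1b hf2c hx1 hab hac hoa.1.symm hbc
      hoa.2.1.symm hoa.2.2.1.symm
  have n13 : f1 ≠ f3 := by
    rintro rfl
    exact Dis_four (h.card3 f1 (hXT hf1)) hf1a hf1b hf3c hf3d hab hac had hbc hbd hcd
  have n14 : f1 ≠ f4 := by
    rintro rfl
    exact Dis_four (h.card3 f1 (hXT hf1)) hf1a hf1b hf4d hx1 hab had hoa.1.symm hbd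
      hoa.2.1.symm hoa.2.2.2.symm
  have n23 : f2 ≠ f3 := by
    rintro rfl
    exact Dis_four (h.card3 f2 (hXT hf2)) hf2b hf2c hf3d hx2 hbc hbd hoa.2.1.symm hcd
      hoa.2.2.1.symm hoa.2.2.2.symm
  have n24 : f2 ≠ f4 := by
    rintro rfl
    exact Dis_four (h.card3 f2 (hXT hf2)) hf4a hf2b hf2c hf4d hab hac had hbc hbd hcd
  have n34 : f3 ≠ f4 := by
    rintro rfl
    exact Dis_four (h.card3 f3 (hXT hf3)) hf4a hf3c hf3d hx3 hac had hoa.1.symm hcd
      hoa.2.2.1.symm hoa.2.2.2.symm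
  have hstar : ({f1, f2, f3, f4} : Finset (Finset V)) = star T xa := by
    refine eq_of_subset_of_card_le ?_ ?_
    · intro f hf
      simp only [mem_insert, mem_singleton] at hf
      unfold star
      rw [mem_filter]
      rcases hf with rfl | rfl | rfl | rfl
      · exact ⟨hXT hf1, hx1⟩
      · exact ⟨hXT hf2, hx2⟩
      · exact ⟨hXT hf3, hx3⟩
      · exact ⟨hXT hf4, hx4⟩
    · rw [card_insert_of_notMem (by simp [n12, n13, n14]),
        card_insert_of_notMem (by simp [n23, n24]), card_insert_of_notMem (by simp [n34]),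
        card_singleton]
      exact hxa4.le
  -- every face of `X` meeting `{a, b, c, d}` contains `xa`
  have hmeet : ∀ g ∈ X, ∀ z ∈ g, z = a ∨ z = b ∨ z = c ∨ z = d → xa ∈ g := by
    rintro g hg z hz (rfl | rfl | rfl | rfl)
    · exact hA g hg hz
    · exact hB g hg hz
    · exact hC g hg hz
    · exact hD g hg hz
  -- faces at `xa` have no other vertices
  have hsub : ∀ f ∈ star T xa, ∀ z ∈ f, z = xa ∨ z = a ∨ z = b ∨ z = c ∨ z = d := by
    intro f hf z hz
    rw [← hstar] at hf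
    simp only [mem_insert, mem_singleton] at hf
    by_contra hne
    push Not at hne
    obtain ⟨z1, z2, z3, z4, z5⟩ := hne
    rcases hf with rfl | rfl | rfl | rfl
    · exact Dis_four (h.card3 f (hXT hf1)) hf1a hf1b hx1 hz hab hoa.1.symm z2.symm
        hoa.2.1.symm z3.symm z1.symm
    · exact Dis_four (h.card3 f (hXT hf2)) hf2b hf2c hx2 hz hbc hoa.2.1.symm z3.symm
        hoa.2.2.1.symm z4.symm z1.symm
    · exact Dis_four (h.card3 f (hXT hf3)) hf3c hf3d hx3 hz hcd hoa.2.2.1.symm z4.symm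
        hoa.2.2.2.symm z5.symm z1.symm
    · exact Dis_four (h.card3 f (hXT hf4)) hf4a hf4d hx4 hz had hoa.1.symm z2.symm
        hoa.2.2.2.symm z5.symm z1.symm
  have hY := region_conn h hR (star T xa) (region_star h hR hxaI) ⟨f1, by
    rw [← hstar]; simp⟩ (by
    intro f hf g hg hfg
    have hne : (f ∩ g).Nonempty := by
      rw [← card_pos, hfg]
      norm_num
    obtain ⟨z, hz⟩ := hne
    rw [mem_inter] at hz
    unfold star
    rw [mem_filter]
    refine ⟨hXT hg, ?_⟩
    rcases hsub f hf z hz.1 with h1 | h1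
    · rw [← h1]; exact hz.2
    · exact hmeet g hg z hz.2 h1)
  have h6 := hX.six
  rw [← hY] at h6
  have h7 : (star T xa).card = 4 := hxa4
  omega

end Pool.Agent.TH246.PR
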