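import Pool.Agent.TH246.PR.Defs

set_option autoImplicit false
set_option linter.unusedVariables false

namespace Pool.Agent.TH246.PR

open Finset

variable {V : Type} [DecidableEq V]

/-- none of the reducible configurations occurs in `I` -/
structure NoConf (T : Finset (Finset V)) (I : Finset V) : Prop where
  k1 : ∀ v ∈ I, ∀ u ∈ I, Adj T v u → deg T v = 4 → deg T u ≠ 4 ∧ deg T u ≠ 5 ∧ deg T u ≠ 6
  k2 : ∀ v ∈ I, ∀ u ∈ I, Adj T v u → deg T v = 5 → deg T u ≠ 5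
  k3 : ∀ v ∈ I, ∀ u ∈ I, ∀ x ∈ I, Adj T v u → Adj T u x → x ≠ v → ¬ Adj T v x → deg T v = 5 →
    deg T u = 6 → deg T x ≠ 5 ∧ deg T x ≠ 6
  k4 : ∀ y ∈ I, ∀ u ∈ I, ∀ v ∈ I, Adj T y u → Adj T y v → u ≠ v → deg T y = 7 → deg T u = 4 →
    deg T v ≠ 4

open Classical in
/-- the charge (in units of 1/30) sent from `x` to `y` -/
noncomputable def give (T : Finset (Finset V)) (I : Finset V) (x y : V) : ℤ :=
  if x ∈ I ∧ Adj T x y then
    if deg T x = 4 then 15
    else if deg T x = 5 then 6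
    else if deg T x = 6 ∧ ∃ v ∈ I, Adj T x v ∧ deg T v = 5 ∧ y ≠ v ∧ ¬ Adj T y v then 2
    else 0
  else 0

end Pool.Agent.TH246.PR
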