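import Pool.Agent.TH246.PR.DisPair
import Pool.Agent.TH246.PR.LinkN
import Pool.Agent.TH246.PR.Basic

set_option autoImplicit false
set_option linter.unusedVariables false

namespace Pool.Agent.TH246.PR

open Finset

variable {V : Type} [DecidableEq V]

theorem DisInt_nonneg (T : Finset (Finset V)) (I : Finset V) (x y : V) : 0 ≤ give T I x y := by
  unfold give
  split_ifs <;> norm_num

theorem DisInt_zero {T : Finset (Finset V)} {I : Finset V} {x y : V} (h : ¬ Adj T x y) :
    give T I x y = 0 := by
  unfold give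
  rw [if_neg (fun h' => h h'.2)]

theorem DisInt_sum_nonneg (T : Finset (Finset V)) (I : Finset V) (y : V) :
    0 ≤ ∑ x ∈ verts T, give T I y x := sum_nonneg fun x _ => DisInt_nonneg T I y x

/-- a lower bound for the charge sent out -/
theorem DisInt_out {T : Finset (Finset V)} {I : Finset V} {y : V} (S : Finset V) (c : ℤ)
    (hS : ∀ x ∈ S, Adj T y x ∧ give T I y x = c) : c * S.card ≤ ∑ x ∈ verts T, give T I y x := by
  have hsub : S ⊆ verts T := fun x hx => (hS x hx).1.right_mem
  calc c * S.card = ∑ x ∈ S, give T I y x := by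
        rw [sum_congr rfl (fun x hx => (hS x hx).2), sum_const, nsmul_eq_mul, mul_comm]
    _ ≤ ∑ x ∈ verts T, give T I y x :=
        sum_le_sum_of_subset_of_nonneg hsub fun x _ _ => DisInt_nonneg T I y x

theorem DisInt_in0 {T : Finset (Finset V)} {I : Finset V} {y : V}
    (h : ∀ x ∈ I, Adj T x y → give T I x y = 0) : ∑ x ∈ verts T, give T I x y = 0 := by
  refine sum_eq_zero fun x _ => ?_
  by_cases hx : x ∈ I ∧ Adj T x y
  · exact h x hx.1 hx.2
  · unfold give
    rw [if_neg hx]

theorem DisInt_nb {T : Finset (Finset V)} (h : Sphere T) {y : V} (hy : y ∈ verts T) :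
    ∃ u, Adj T y u := by
  obtain ⟨f, hf, hyf⟩ := mem_verts.1 hy
  obtain ⟨x, z, hx, -, -, rfl⟩ := other_two (h.card3 f hf) hyf
  exact ⟨x, adj_of_mem hf hyf (by simp) hx.symm⟩

/-- degree 4 -/
theorem DisInt_four {T : Finset (Finset V)} (h : Sphere T) {I : Finset V} (hI : I ⊆ verts T)
    (hc : NoConf T I) {y : V} (hy : y ∈ I) (hd : deg T y = 4) :
    30 * (6 - (deg T y : ℤ)) + ∑ x ∈ verts T, give T I x y - ∑ x ∈ verts T, give T I y x ≤ 0 := by
  obtain ⟨u, hu⟩ := DisInt_nb h (hI hy)
  obtain ⟨a, b, c, hnd, hadj, -⟩ := link4 h hu hd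
  have hin : ∑ x ∈ verts T, give T I x y = 0 := by
    refine DisInt_in0 fun x hx hxy => ?_
    obtain ⟨h1, h2, h3⟩ := hc.k1 y hy x hx hxy.symm hd
    unfold give
    rw [if_pos ⟨hx, hxy⟩, if_neg h1, if_neg h2, if_neg (fun h' => h3 h'.1)]
  have hout := DisInt_out (T := T) (I := I) (y := y) {u, a, b, c} 15 (by
    intro x hx
    simp only [mem_insert, mem_singleton] at hx
    have hyx : Adj T y x := (hadj x).2 hx
    refine ⟨hyx, ?_⟩
    unfold give
    rw [if_pos ⟨hy, hyx⟩, if_pos hd])
  have hcard : ({u, a, b, c} : Finset V).card = 4 := by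
    simp only [List.nodup_cons, List.mem_cons, List.not_mem_nil, or_false, not_or] at hnd
    rw [card_insert_of_notMem (by simp; tauto), card_insert_of_notMem (by simp; tauto),
      card_pair (by tauto)]
  rw [hcard] at hout
  rw [hin, hd]
  push_cast at hout ⊢
  linarith

/-- degree 5 -/
theorem DisInt_five {T : Finset (Finset V)} (h : Sphere T) {I : Finset V} (hI : I ⊆ verts T)
    (hc : NoConf T I) {y : V} (hy : y ∈ I) (hd : deg T y = 5) :
    30 * (6 - (deg T y : ℤ)) + ∑ x ∈ verts T, give T I x y - ∑ x ∈ verts T, give T I y x ≤ 0 := by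
  obtain ⟨u, hu⟩ := DisInt_nb h (hI hy)
  obtain ⟨a, b, c, d, hnd, hadj, -⟩ := link5 h hu hd
  have hin : ∑ x ∈ verts T, give T I x y = 0 := by
    refine DisInt_in0 fun x hx hxy => ?_
    unfold give
    rw [if_pos ⟨hx, hxy⟩, if_neg (fun h4 => (hc.k1 x hx y hy hxy h4).2.1 hd),
      if_neg (fun h5 => hc.k2 x hx y hy hxy h5 hd)]
    rw [if_neg]
    rintro ⟨h6, v, hv, hxv, hv5, hyv, hnyv⟩
    exact (hc.k3 v hv x hx y hy hxv.symm hxy hyv (fun h' => hnyv h'.symm) hv5 h6).1 hd
  have hout := DisInt_out (T := T) (I := I) (y := y) {u, a, b, c, d} 6 (by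
    intro x hx
    simp only [mem_insert, mem_singleton] at hx
    have hyx : Adj T y x := (hadj x).2 hx
    refine ⟨hyx, ?_⟩
    unfold give
    rw [if_pos ⟨hy, hyx⟩, if_neg (by omega), if_pos hd])
  have hcard : ({u, a, b, c, d} : Finset V).card = 5 := by
    simp only [List.nodup_cons, List.mem_cons, List.not_mem_nil, or_false, not_or] at hnd
    rw [card_insert_of_notMem (by simp; tauto), card_insert_of_notMem (by simp; tauto),
      card_insert_of_notMem (by simp; tauto), card_pair (by tauto)]
  rw [hcard] at hout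
  rw [hin, hd]
  push_cast at hout ⊢
  linarith

/-- degree 6 -/
theorem DisInt_six {T : Finset (Finset V)} (h : Sphere T) (hF : Fac T) {I : Finset V}
    (hI : I ⊆ verts T) (hc : NoConf T I) {y : V} (hy : y ∈ I) (hd : deg T y = 6) :
    30 * (6 - (deg T y : ℤ)) + ∑ x ∈ verts T, give T I x y - ∑ x ∈ verts T, give T I y x ≤ 0 := by
  have hgen : ∀ x ∈ I, Adj T x y → deg T x ≠ 5 → give T I x y = 0 := by
    intro x hx hxy h5
    unfold give
    rw [if_pos ⟨hx, hxy⟩, if_neg (fun h4 => (hc.k1 x hx y hy hxy h4).2.2 hd), if_neg h5]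
    rw [if_neg]
    rintro ⟨h6, v, hv, hxv, hv5, hyv, hnyv⟩
    exact (hc.k3 v hv x hx y hy hxv.symm hxy hyv (fun h' => hnyv h'.symm) hv5 h6).2 hd
  by_cases hex : ∃ v ∈ I, Adj T y v ∧ deg T v = 5
  · obtain ⟨v, hv, hyv, hv5⟩ := hex
    have hin : ∑ x ∈ verts T, give T I x y ≤ 6 := by
      calc ∑ x ∈ verts T, give T I x y ≤ ∑ x ∈ verts T, (if x = v then (6 : ℤ) else 0) := by
            refine sum_le_sum fun x _ => ?_
            by_cases hxI : x ∈ I ∧ Adj T x y
            swap
            · unfold give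
              rw [if_neg hxI]
              split_ifs <;> norm_num
            by_cases hxv : x = v
            · subst hxv
              unfold give
              rw [if_pos hxI, if_neg (by omega), if_pos hv5, if_pos rfl]
            · rw [if_neg hxv]
              by_cases hx5 : deg T x = 5
              · exfalso
                by_cases hvx : Adj T v x
                · exact hc.k2 v hv x hxI.1 hvx hv5 hx5
                · exact (hc.k3 v hv y hy x hxI.1 hyv.symm hxI.2.symm hxv hvx hv5 hd).1 hx5
              · rw [hgen x hxI.1 hxI.2 hx5]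
        _ ≤ 6 := by
            rw [sum_ite_eq' (verts T) v]
            split_ifs <;> norm_num
    obtain ⟨a, b, c, d, e, hnd, hadj, hstar⟩ := link6 h hyv hd
    simp only [List.nodup_cons, List.mem_cons, List.not_mem_nil, or_false, not_or] at hnd
    have hnot : ∀ w, (w = b ∨ w = c ∨ w = d) → Adj T y w ∧ w ≠ v ∧ ¬ Adj T w v := by
      intro w hw
      have hyw : Adj T y w := (hadj w).2 (by tauto)
      have hwv : w ≠ v := by
        rcases hw with rfl | rfl | rfl
        · exact fun h' => hnd.2.1.2.1 h'.symm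
        · exact fun h' => hnd.2.1.2.2.1 h'.symm
        · exact fun h' => hnd.2.1.2.2.2.1 h'.symm
      refine ⟨hyw, hwv, hF.not_adj hyw hyv ?_⟩
      intro hf
      have hf' : ({y, w, v} : Finset V) ∈ star T y := mem_star.2 ⟨hf, by simp⟩
      rw [hstar] at hf'
      simp only [mem_insert, mem_singleton] at hf'
      have hwm : ∀ g : Finset V, ({y, w, v} : Finset V) = g → w ∈ g ∧ v ∈ g := by
        rintro g rfl
        simp
      rcases hf' with hf' | hf' | hf' | hf' | hf' | hf' <;> have h7 := hwm _ hf' <;>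
        simp only [mem_insert, mem_singleton] at h7 <;> rcases hw with rfl | rfl | rfl <;> tauto
    have hout := DisInt_out (T := T) (I := I) (y := y) {b, c, d} 2 (by
      intro x hx
      simp only [mem_insert, mem_singleton] at hx
      obtain ⟨h1, h2, h3⟩ := hnot x hx
      refine ⟨h1, ?_⟩
      unfold give
      rw [if_pos ⟨hy, h1⟩, if_neg (by omega), if_neg (by omega), if_pos ⟨hd, v, hv, hyv, hv5, h2, h3⟩])
    have hcard : ({b, c, d} : Finset V).card = 3 := card_three (by tauto) (by tauto) (by tauto)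
    rw [hcard] at hout
    rw [hd]
    push_cast at hout ⊢
    linarith
  · push Not at hex
    have hin : ∑ x ∈ verts T, give T I x y = 0 := by
      refine DisInt_in0 fun x hx hxy => hgen x hx hxy (hex x hx hxy.symm)
    have hout := DisInt_sum_nonneg T I y
    rw [hin, hd]
    push_cast
    linarith

/-- interior vertices have charge at most 0 at the end -/
theorem charge_int {T : Finset (Finset V)} (h : Sphere T) (hF : Fac T) (h4 : 4 < T.card)
    {I : Finset V} (hI : I ⊆ verts T) (hc : NoConf T I) (hd : ∀ v ∈ verts T, 4 ≤ deg T v)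
    {y : V} (hy : y ∈ I) :
    30 * (6 - (deg T y : ℤ)) + ∑ x ∈ verts T, give T I x y - ∑ x ∈ verts T, give T I y x ≤ 0 := by
  have hd4 := hd y (hI hy)
  rcases Nat.lt_or_ge (deg T y) 7 with hlt | hge
  · have : deg T y = 4 ∨ deg T y = 5 ∨ deg T y = 6 := by omega
    rcases this with h' | h' | h'
    · exact DisInt_four h hI hc hy h'
    · exact DisInt_five h hI hc hy h'
    · exact DisInt_six h hF hI hc hy h'
  have hout := DisInt_sum_nonneg T I y
  have hdbl := give_double h (I := I) y (star T y) subset_rfl (fun f hf _ _ _ _ => hf)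
  have hface : ∀ f ∈ star T y, ∃ x z, f = {y, x, z} ∧ y ≠ x ∧ y ≠ z ∧ x ≠ z ∧
      Adj T y x ∧ Adj T y z ∧ ∑ x ∈ f.erase y, give T I x y = give T I x y + give T I z y ∧
      give T I x y + give T I z y ≤ 15 ∧
      ((x ∈ I → deg T x ≠ 4) → (z ∈ I → deg T z ≠ 4) → give T I x y + give T I z y ≤ 6) := by
    intro f hf
    obtain ⟨hfT, hyf⟩ := mem_star.1 hf
    obtain ⟨x, z, hx, hz, hxz, rfl⟩ := other_two (h.card3 f hfT) hyf
    refine ⟨x, z, rfl, hx.symm, hz.symm, hxz, adj_of_mem hfT hyf (by simp) hx.symm,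
      adj_of_mem hfT hyf (by simp) hz.symm, ?_, give_pair h hF hc hfT hx.symm hz.symm hxz⟩
    have e : ({y, x, z} : Finset V).erase y = {x, z} := by
      rw [erase_insert]
      simp [hx.symm, hz.symm]
    rw [e, sum_pair hxz]
  rcases Nat.lt_or_ge (deg T y) 8 with hlt8 | hge8
  · have hd7 : deg T y = 7 := by omega
    by_cases hex : ∃ u ∈ I, Adj T y u ∧ deg T u = 4
    · obtain ⟨u, hu, hyu, hu4⟩ := hex
      have hb : ∑ f ∈ star T y, ∑ x ∈ f.erase y, give T I x y ≤
          ∑ f ∈ star T y, ((6 : ℤ) + if u ∈ f then 9 else 0) := by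
        refine sum_le_sum fun f hf => ?_
        obtain ⟨x, z, hfe, hx, hz, hxz, axy, azy, hs, h15, h6⟩ := hface f hf
        rw [hs]
        by_cases huf : u ∈ f
        · rw [if_pos huf]; linarith
        · rw [if_neg huf, add_zero]
          apply h6
          · intro hxI hx4
            refine hc.k4 y hy u hu x hxI hyu axy ?_ hd7 hu4 hx4
            rintro rfl
            exact huf (by rw [hfe]; simp)
          · intro hzI hz4
            refine hc.k4 y hy u hu z hzI hyu azy ?_ hd7 hu4 hz4
            rintro rfl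
            exact huf (by rw [hfe]; simp)
      rw [sum_add_distrib, sum_const, sum_ite, sum_const, sum_const_zero] at hb
      have e1 : (star T y).card = 7 := hd7
      have e2 : ((star T y).filter (fun f => u ∈ f)).card = 2 := by
        rw [← h.two y u hyu]
        congr 1
        ext f
        simp only [mem_filter, mem_star, mem_ef]
        tauto
      rw [e1, e2] at hb
      norm_num at hb
      rw [hd7]
      push_cast
      linarith
    · push Not at hex
      have hb : ∑ f ∈ star T y, ∑ x ∈ f.erase y, give T I x y ≤ ∑ f ∈ star T y, (6 : ℤ) := by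
        refine sum_le_sum fun f hf => ?_
        obtain ⟨x, z, hfe, hx, hz, hxz, axy, azy, hs, h15, h6⟩ := hface f hf
        rw [hs]
        exact h6 (fun hxI => hex x hxI axy) (fun hzI => hex z hzI azy)
      rw [sum_const] at hb
      have e1 : (star T y).card = 7 := hd7
      rw [e1] at hb
      norm_num at hb
      rw [hd7]
      push_cast
      linarith
  · have hb : ∑ f ∈ star T y, ∑ x ∈ f.erase y, give T I x y ≤ ∑ f ∈ star T y, (15 : ℤ) := by
      refine sum_le_sum fun f hf => ?_
      obtain ⟨x, z, hfe, hx, hz, hxz, axy, azy, hs, h15, h6⟩ := hface f hf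
      rw [hs]
      exact h15
    rw [sum_const, nsmul_eq_mul] at hb
    have e1 : ((star T y).card : ℤ) = (deg T y : ℤ) := rfl
    rw [e1] at hb
    have e2 : (8 : ℤ) ≤ deg T y := by exact_mod_cast hge8
    linarith

end Pool.Agent.TH246.PR
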