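import Pool.Agent.TH246.PR.DisDefs

set_option autoImplicit false
set_option linter.unusedVariables false

namespace Pool.Agent.TH246.PR

open Finset

variable {V : Type} [DecidableEq V]

omit [DecidableEq V] in
theorem DisPair_symm {T : Finset (Finset V)} {u v : V} (h : Adj T u v) : Adj T v u :=
  ⟨h.1.symm, h.2.imp fun _ hf => ⟨hf.1, hf.2.2, hf.2.1⟩⟩

theorem DisPair_vals (T : Finset (Finset V)) (I : Finset V) (x y : V) :
    (give T I x y = 15 ∧ x ∈ I ∧ deg T x = 4) ∨ (give T I x y = 6 ∧ x ∈ I ∧ deg T x = 5) ∨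
    (give T I x y = 2 ∧ x ∈ I ∧ deg T x = 6 ∧ ∃ v ∈ I, Adj T x v ∧ deg T v = 5 ∧ y ≠ v ∧
      ¬ Adj T y v) ∨ give T I x y = 0 := by
  unfold give
  split_ifs with h1 h2 h3 h4
  · exact Or.inl ⟨rfl, h1.1, h2⟩
  · exact Or.inr (Or.inl ⟨rfl, h1.1, h3⟩)
  · exact Or.inr (Or.inr (Or.inl ⟨rfl, h1.1, h4.1, h4.2⟩))
  · exact Or.inr (Or.inr (Or.inr rfl))
  · exact Or.inr (Or.inr (Or.inr rfl))

theorem DisPair_bc {T : Finset (Finset V)} {I : Finset V} (hc : NoConf T I) {x y z : V}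
    (hxy : Adj T x y) (hzx : Adj T z x) (hx : x ∈ I) (hx5 : deg T x = 5) (hz : z ∈ I)
    (hz6 : deg T z = 6) (hv : ∃ v ∈ I, Adj T z v ∧ deg T v = 5 ∧ y ≠ v ∧ ¬ Adj T y v) : False := by
  obtain ⟨v, hvI, hzv, hv5, hyv, hnyv⟩ := hv
  have hxv : x ≠ v := by
    intro h
    rw [← h] at hnyv
    exact hnyv (DisPair_symm hxy)
  have hnvx : ¬ Adj T v x := fun h => hc.k2 v hvI x hx h hv5 hx5
  exact (hc.k3 v hvI z hz x hx (DisPair_symm hzv) hzx hxv hnvx hv5 hz6).1 hx5

/-- two vertices of a face at `y` send at most 15 to `y` together, and at most 6 if none of them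
is a vertex of degree 4 in `I` -/
theorem give_pair {T : Finset (Finset V)} (h : Sphere T) (hF : Fac T) {I : Finset V}
    (hc : NoConf T I) {y x z : V} (hf : ({y, x, z} : Finset V) ∈ T) (hyx : y ≠ x) (hyz : y ≠ z)
    (hxz : x ≠ z) : give T I x y + give T I z y ≤ 15 ∧
      ((x ∈ I → deg T x ≠ 4) → (z ∈ I → deg T z ≠ 4) → give T I x y + give T I z y ≤ 6) := by
  have axy : Adj T x y := ⟨hyx.symm, _, hf, by simp, by simp⟩
  have azy : Adj T z y := ⟨hyz.symm, _, hf, by simp, by simp⟩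
  have axz : Adj T x z := ⟨hxz, _, hf, by simp, by simp⟩
  have azx : Adj T z x := DisPair_symm axz
  rcases DisPair_vals T I x y with ⟨g1, i1, d1⟩ | ⟨g1, i1, d1⟩ | ⟨g1, i1, d1, v1⟩ | g1 <;>
    rcases DisPair_vals T I z y with ⟨g2, i2, d2⟩ | ⟨g2, i2, d2⟩ | ⟨g2, i2, d2, v2⟩ | g2
  · exact absurd d2 (hc.k1 x i1 z i2 axz d1).1
  · exact absurd d2 (hc.k1 x i1 z i2 axz d1).2.1
  · exact absurd d2 (hc.k1 x i1 z i2 axz d1).2.2
  · exact ⟨by omega, fun h1 => absurd d1 (h1 i1)⟩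
  · exact absurd d1 (hc.k1 z i2 x i1 azx d2).2.1
  · exact absurd d2 (hc.k2 x i1 z i2 axz d1)
  · exact (DisPair_bc hc axy azx i1 d1 i2 d2 v2).elim
  · exact ⟨by omega, fun _ _ => by omega⟩
  · exact absurd d1 (hc.k1 z i2 x i1 azx d2).2.2
  · exact (DisPair_bc hc azy axz i2 d2 i1 d1 v1).elim
  · exact ⟨by omega, fun _ _ => by omega⟩
  · exact ⟨by omega, fun _ _ => by omega⟩
  · exact ⟨by omega, fun _ h2 => absurd d2 (h2 i2)⟩
  · exact ⟨by omega, fun _ _ => by omega⟩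
  · exact ⟨by omega, fun _ _ => by omega⟩
  · exact ⟨by omega, fun _ _ => by omega⟩

/-- double counting of the charge received, over any set of faces at `y` containing all faces
with a vertex of `I` different from `y` -/
theorem give_double {T : Finset (Finset V)} (h : Sphere T) {I : Finset V} (y : V)
    (S : Finset (Finset V)) (hS : S ⊆ star T y)
    (hI : ∀ f ∈ star T y, ∀ x ∈ f, x ≠ y → x ∈ I → f ∈ S) :
    2 * ∑ x ∈ verts T, give T I x y = ∑ f ∈ S, ∑ x ∈ f.erase y, give T I x y := by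
  have e1 : ∀ f ∈ S, ∑ x ∈ f.erase y, give T I x y =
      ∑ x ∈ verts T, if x ∈ f.erase y then give T I x y else 0 := by
    intro f hf
    rw [← Finset.sum_filter]
    apply Finset.sum_congr _ fun _ _ => rfl
    ext x
    rw [Finset.mem_filter]
    constructor
    · intro hx
      refine ⟨?_, hx⟩
      have hfT : f ∈ T := (Finset.mem_filter.1 (hS hf)).1
      exact Finset.mem_biUnion.2 ⟨f, hfT, Finset.mem_of_mem_erase hx⟩
    · exact fun hx => hx.2
  rw [Finset.sum_congr rfl e1, Finset.sum_comm, Finset.mul_sum]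
  apply Finset.sum_congr rfl
  intro x _
  rw [← Finset.sum_filter, Finset.sum_const]
  by_cases hx : x ∈ I ∧ Adj T x y
  · have e2 : S.filter (fun f => x ∈ f.erase y) = ef T x y := by
      ext f
      rw [Finset.mem_filter, Finset.mem_erase]
      unfold ef
      rw [Finset.mem_filter]
      constructor
      · rintro ⟨h1, h2, h3⟩
        have h4 := Finset.mem_filter.1 (hS h1)
        exact ⟨h4.1, h3, h4.2⟩
      · rintro ⟨h1, h2, h3⟩
        exact ⟨hI f (Finset.mem_filter.2 ⟨h1, h3⟩) x h2 hx.2.1 hx.1, hx.2.1, h2⟩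
    rw [e2, h.two x y hx.2, nsmul_eq_mul]
    rfl
  · have e3 : give T I x y = 0 := by
      unfold give
      rw [if_neg hx]
    rw [e3]
    simp

end Pool.Agent.TH246.PR
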