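import Pool.Agent.TH246.PR.Defs

/-!
# Homology of a triangulated sphere with coefficients in the field with two elements
(job PR-HOM of helper246, written by helper75)
-/

set_option autoImplicit false
set_option linter.unusedVariables false

namespace Pool.Agent.TH246.PR

open Finset

variable {V : Type} [DecidableEq V]

/-- the edges of a face -/
def Hom_eds (f : Finset V) : Finset (Sym2 V) := f.offDiag.image (Function.uncurry Sym2.mk)

/-- the edges of a complex -/
def Hom_E (T : Finset (Finset V)) : Finset (Sym2 V) := T.biUnion Hom_eds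

lemma Hom_mem_eds {f : Finset V} {u v : V} : s(u, v) ∈ Hom_eds f ↔ u ≠ v ∧ u ∈ f ∧ v ∈ f := by
  unfold Hom_eds
  rw [mem_image]
  constructor
  · rintro ⟨⟨a, b⟩, h1, h2⟩
    rw [mem_offDiag] at h1
    have h3 : s(a, b) = s(u, v) := h2
    rw [Sym2.eq_iff] at h3
    rcases h3 with ⟨rfl, rfl⟩ | ⟨rfl, rfl⟩
    · exact ⟨h1.2.2, h1.1, h1.2.1⟩
    · exact ⟨h1.2.2.symm, h1.2.1, h1.1⟩
  · rintro ⟨h1, h2, h3⟩
    exact ⟨(u, v), mem_offDiag.2 ⟨h2, h3, h1⟩, rfl⟩

lemma Hom_mem_E {T : Finset (Finset V)} {u v : V} : s(u, v) ∈ Hom_E T ↔ Adj T u v := by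
  unfold Hom_E Adj
  rw [mem_biUnion]
  constructor
  · rintro ⟨f, hf, h⟩
    rw [Hom_mem_eds] at h
    exact ⟨h.1, f, hf, h.2⟩
  · rintro ⟨h1, f, hf, h2⟩
    exact ⟨f, hf, Hom_mem_eds.2 ⟨h1, h2⟩⟩

lemma Hom_card_eds {f : Finset V} (h : f.card = 3) : (Hom_eds f).card = 3 := by
  unfold Hom_eds
  rw [Sym2.card_image_offDiag, h]
  rfl

lemma Hom_card_eds_mem {f : Finset V} (h : f.card = 3) (v : V) :
    ((Hom_eds f).filter (fun e => v ∈ e)).card = if v ∈ f then 2 else 0 := by
  split_ifs with hv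
  · have e1 : (Hom_eds f).filter (fun e => v ∈ e) = (f.erase v).image (fun u => s(v, u)) := by
      ext e
      induction e using Sym2.ind with
      | _ a b =>
        rw [mem_filter, Hom_mem_eds, mem_image, Sym2.mem_iff]
        constructor
        · rintro ⟨⟨h1, h2, h3⟩, rfl | rfl⟩
          · exact ⟨b, mem_erase.2 ⟨h1.symm, h3⟩, rfl⟩
          · exact ⟨a, mem_erase.2 ⟨h1, h2⟩, Sym2.eq_swap⟩
        · rintro ⟨u, hu, h1⟩
          rw [mem_erase] at hu
          rw [Sym2.eq_iff] at h1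
          rcases h1 with ⟨rfl, rfl⟩ | ⟨rfl, rfl⟩
          · exact ⟨⟨hu.1.symm, hv, hu.2⟩, Or.inl rfl⟩
          · exact ⟨⟨hu.1, hu.2, hv⟩, Or.inr rfl⟩
    rw [e1, card_image_of_injective, card_erase_of_mem hv, h]
    intro a b hab
    exact Sym2.congr_right.1 hab
  · rw [card_eq_zero, filter_eq_empty_iff]
    intro e he hve
    induction e using Sym2.ind with
    | _ a b =>
      rw [Hom_mem_eds] at he
      rw [Sym2.mem_iff] at hve
      rcases hve with rfl | rfl
      · exact hv he.2.1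
      · exact hv he.2.2

lemma Hom_mem_verts {T : Finset (Finset V)} {v : V} : v ∈ verts T ↔ ∃ f ∈ T, v ∈ f := by
  unfold verts
  rw [mem_biUnion]
  rfl

lemma Hom_adj_verts {T : Finset (Finset V)} {u v : V} (h : Adj T u v) :
    u ∈ verts T ∧ v ∈ verts T := by
  obtain ⟨_, f, hf, h1, h2⟩ := h
  exact ⟨Hom_mem_verts.2 ⟨f, hf, h1⟩, Hom_mem_verts.2 ⟨f, hf, h2⟩⟩

lemma Hom_filter_eds (X : Finset (Finset V)) {u v : V} (huv : u ≠ v) :
    X.filter (fun f => s(u, v) ∈ Hom_eds f) = ef X u v := by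
  unfold ef
  refine filter_congr fun f _ => ?_
  rw [Hom_mem_eds]
  tauto

lemma Hom_card_E {T : Finset (Finset V)} (h : Pre T) : 2 * (Hom_E T).card = 3 * T.card := by
  have h1 := sum_card_bipartiteAbove_eq_sum_card_bipartiteBelow
    (fun (f : Finset V) (e : Sym2 V) => e ∈ Hom_eds f) (s := T) (t := Hom_E T)
  have h2 : ∀ f ∈ T, (bipartiteAbove (fun (f : Finset V) (e : Sym2 V) => e ∈ Hom_eds f)
      (Hom_E T) f).card = 3 := by
    intro f hf
    rw [← Hom_card_eds (h.card3 f hf)]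
    congr 1
    unfold bipartiteAbove
    ext e
    rw [mem_filter]
    exact ⟨fun h => h.2, fun h => ⟨mem_biUnion.2 ⟨f, hf, h⟩, h⟩⟩
  have h3 : ∀ e ∈ Hom_E T, (bipartiteBelow (fun (f : Finset V) (e : Sym2 V) => e ∈ Hom_eds f)
      T e).card = 2 := by
    intro e he
    induction e using Sym2.ind with
    | _ u v =>
      have ha := Hom_mem_E.1 he
      unfold bipartiteBelow
      rw [Hom_filter_eds T ha.1]
      exact h.two u v ha
  rw [sum_congr rfl h2, sum_congr rfl h3, sum_const, sum_const, smul_eq_mul, smul_eq_mul] at h1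
  omega

section Lin

/-- the boundary matrix -/
def Hom_M (T : Finset (Finset V)) : Matrix {e // e ∈ Hom_E T} {f // f ∈ T} (ZMod 2) :=
  fun e f => if (e : Sym2 V) ∈ Hom_eds (f : Finset V) then 1 else 0

/-- the coboundary matrix -/
def Hom_N (T : Finset (Finset V)) : Matrix {e // e ∈ Hom_E T} {v // v ∈ verts T} (ZMod 2) :=
  fun e v => if (v : V) ∈ (e : Sym2 V) then 1 else 0

lemma Hom_NtM {T : Finset (Finset V)} (h : Pre T) : (Hom_N T).transpose * Hom_M T = 0 := by
  ext v f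
  rw [Matrix.mul_apply]
  simp only [Matrix.transpose_apply, Hom_N, Hom_M, Matrix.zero_apply]
  have h1 : ∀ e : {e // e ∈ Hom_E T}, ((if (v : V) ∈ (e : Sym2 V) then (1 : ZMod 2) else 0) *
      if (e : Sym2 V) ∈ Hom_eds (f : Finset V) then 1 else 0) =
      if ((v : V) ∈ (e : Sym2 V) ∧ (e : Sym2 V) ∈ Hom_eds (f : Finset V)) then 1 else 0 := by
    intro e
    by_cases h2 : (v : V) ∈ (e : Sym2 V) <;> by_cases h3 : (e : Sym2 V) ∈ Hom_eds (f : Finset V)
      <;> simp [h2, h3]
  rw [sum_congr rfl fun e _ => h1 e]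
  rw [sum_coe_sort (Hom_E T) (fun e : Sym2 V =>
    if ((v : V) ∈ e ∧ e ∈ Hom_eds (f : Finset V)) then (1 : ZMod 2) else 0), sum_boole]
  have h4 : (Hom_E T).filter (fun e => (v : V) ∈ e ∧ e ∈ Hom_eds (f : Finset V)) =
      (Hom_eds (f : Finset V)).filter (fun e => (v : V) ∈ e) := by
    ext e
    rw [mem_filter, mem_filter]
    exact ⟨fun h => ⟨h.2.2, h.2.1⟩, fun h => ⟨mem_biUnion.2 ⟨f.1, f.2, h.1⟩, h.2, h.1⟩⟩
  rw [h4, Hom_card_eds_mem (h.card3 _ f.2)]
  split_ifs
  · rfl
  · rfl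

lemma Hom_Mx {T : Finset (Finset V)} (x : Finset V → ZMod 2) {u v : V} (ha : Adj T u v) :
    (Hom_M T).mulVec (fun f => x f.1) ⟨s(u, v), Hom_mem_E.2 ha⟩ = ∑ f ∈ ef T u v, x f := by
  unfold Matrix.mulVec dotProduct Hom_M
  rw [← Hom_filter_eds T ha.1, sum_filter]
  rw [← sum_coe_sort T (fun f => if s(u, v) ∈ Hom_eds f then x f else 0)]
  refine sum_congr rfl fun f _ => ?_
  dsimp only
  split_ifs
  · rw [one_mul]
  · rw [zero_mul]

lemma Hom_Ny {T : Finset (Finset V)} (y : V → ZMod 2) {u v : V} (ha : Adj T u v) :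
    (Hom_N T).mulVec (fun w => y w.1) ⟨s(u, v), Hom_mem_E.2 ha⟩ = y u + y v := by
  unfold Matrix.mulVec dotProduct Hom_N
  have h1 : ∀ w : {w // w ∈ verts T}, ((if (w : V) ∈ s(u, v) then (1 : ZMod 2) else 0) * y w.1) =
      if (w : V) ∈ s(u, v) then y w.1 else 0 := by
    intro w
    split_ifs
    · rw [one_mul]
    · rw [zero_mul]
  rw [sum_congr rfl fun w _ => h1 w]
  rw [sum_coe_sort (verts T) (fun w => if w ∈ s(u, v) then y w else 0), ← sum_filter]
  have h2 : (verts T).filter (fun w => w ∈ s(u, v)) = {u, v} := by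
    ext w
    rw [mem_filter, Sym2.mem_iff, mem_insert, mem_singleton]
    constructor
    · exact fun h => h.2
    · rintro (rfl | rfl)
      · exact ⟨(Hom_adj_verts ha).1, Or.inl rfl⟩
      · exact ⟨(Hom_adj_verts ha).2, Or.inr rfl⟩
  rw [h2, sum_pair ha.1]

lemma Hom_Nty {T : Finset (Finset V)} (z : Sym2 V → ZMod 2) (v : {v // v ∈ verts T}) :
    (Hom_N T).transpose.mulVec (fun e => z e.1) v =
      ∑ e ∈ (Hom_E T).filter (fun e => v.1 ∈ e), z e := by
  unfold Matrix.mulVec dotProduct Hom_N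
  rw [sum_filter, ← sum_coe_sort (Hom_E T) (fun e => if v.1 ∈ e then z e else 0)]
  refine sum_congr rfl fun e _ => ?_
  change (if v.1 ∈ e.1 then (1 : ZMod 2) else 0) * z e.1 = _
  split_ifs
  · rw [one_mul]
  · rw [zero_mul]

lemma Hom_ext {S : Finset (Finset V)} (x : {f // f ∈ S} → ZMod 2) :
    ∃ x' : Finset V → ZMod 2, x = fun f => x' f.1 := by
  refine ⟨fun f => if hf : f ∈ S then x ⟨f, hf⟩ else 0, ?_⟩
  funext f
  dsimp only
  rw [dif_pos f.2]

lemma Hom_ext' {S : Finset V} (x : {f // f ∈ S} → ZMod 2) :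
    ∃ x' : V → ZMod 2, x = fun f => x' f.1 := by
  refine ⟨fun f => if hf : f ∈ S then x ⟨f, hf⟩ else 0, ?_⟩
  funext f
  dsimp only
  rw [dif_pos f.2]

lemma Hom_two {a b : ZMod 2} (h : a + b = 0) : a = b := by
  revert a b
  decide

lemma Hom_shared {T : Finset (Finset V)} {f g : Finset V} (hf : f ∈ T)
    (hfg : (f ∩ g).card = 2) : ∃ u v, Adj T u v ∧ u ∈ f ∧ v ∈ f ∧ u ∈ g ∧ v ∈ g := by
  obtain ⟨u, v, huv, h1⟩ := card_eq_two.1 hfg
  have hu : u ∈ f ∩ g := by rw [h1]; simp
  have hv : v ∈ f ∩ g := by rw [h1]; simp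
  rw [mem_inter] at hu hv
  exact ⟨u, v, ⟨huv, f, hf, hu.1, hv.1⟩, hu.1, hv.1, hu.2, hv.2⟩

lemma Hom_kerM {T : Finset (Finset V)} (h : Pre T) :
    Module.finrank (ZMod 2) (Hom_M T).mulVecLin.ker = 1 := by
  obtain ⟨f0, hf0⟩ := h.nonempty
  have h1 : (Hom_M T).mulVecLin.ker = Submodule.span (ZMod 2) {fun _ => 1} := by
    apply le_antisymm
    · intro x hx
      rw [LinearMap.mem_ker, Matrix.mulVecLin_apply] at hx
      obtain ⟨x', rfl⟩ := Hom_ext x
      rw [Submodule.mem_span_singleton]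
      refine ⟨x' f0, ?_⟩
      have h2 : T.filter (fun f => x' f = x' f0) = T := by
        refine h.conn _ (filter_subset _ _) ⟨f0, mem_filter.2 ⟨hf0, rfl⟩⟩ ?_
        intro f hf g hg hfg
        rw [mem_filter] at hf ⊢
        refine ⟨hg, ?_⟩
        obtain ⟨u, v, ha, h3, h4, h5, h6⟩ := Hom_shared hf.1 hfg
        have h7 := congrFun hx ⟨s(u, v), Hom_mem_E.2 ha⟩
        rw [Hom_Mx x' ha] at h7
        have hne : f ≠ g := by
          rintro rfl
          rw [inter_self, h.card3 f hf.1] at hfg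
          omega
        have h8 : ef T u v = {f, g} := by
          symm
          refine eq_of_subset_of_card_le ?_ ?_
          · intro k hk
            rw [mem_insert, mem_singleton] at hk
            unfold ef
            rw [mem_filter]
            rcases hk with rfl | rfl
            · exact ⟨hf.1, h3, h4⟩
            · exact ⟨hg, h5, h6⟩
          · rw [h.two u v ha, card_pair hne]
        rw [h8, sum_pair hne] at h7
        rw [← Hom_two h7]
        exact hf.2
      funext f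
      have h9 : f.1 ∈ T.filter (fun f => x' f = x' f0) := by
        rw [h2]
        exact f.2
      rw [mem_filter] at h9
      simp [h9.2]
    · rw [Submodule.span_singleton_le_iff_mem, LinearMap.mem_ker, Matrix.mulVecLin_apply]
      funext e
      obtain ⟨e, he⟩ := e
      induction e using Sym2.ind with
      | _ u v =>
        have ha := Hom_mem_E.1 he
        have h2 := Hom_Mx (fun _ => 1) ha
        rw [sum_const, h.two u v ha] at h2
        rw [h2]
        rfl
  rw [h1]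
  refine finrank_span_singleton ?_
  intro h2
  have := congrFun h2 ⟨f0, hf0⟩
  exact one_ne_zero this

lemma Hom_kerN {T : Finset (Finset V)} (h : Pre T) :
    Module.finrank (ZMod 2) (Hom_N T).mulVecLin.ker = 1 := by
  obtain ⟨f0, hf0⟩ := h.nonempty
  obtain ⟨v0, hv0⟩ : f0.Nonempty := by
    rw [← card_pos, h.card3 f0 hf0]
    omega
  have hv0T : v0 ∈ verts T := Hom_mem_verts.2 ⟨f0, hf0, hv0⟩
  have h1 : (Hom_N T).mulVecLin.ker = Submodule.span (ZMod 2) {fun _ => 1} := by
    apply le_antisymm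
    · intro y hy
      rw [LinearMap.mem_ker, Matrix.mulVecLin_apply] at hy
      obtain ⟨y', rfl⟩ := Hom_ext' y
      rw [Submodule.mem_span_singleton]
      refine ⟨y' v0, ?_⟩
      have hedge : ∀ u v, Adj T u v → y' u = y' v := by
        intro u v ha
        have h7 := congrFun hy ⟨s(u, v), Hom_mem_E.2 ha⟩
        rw [Hom_Ny y' ha] at h7
        exact Hom_two h7
      have hface : ∀ f ∈ T, ∀ u ∈ f, ∀ v ∈ f, y' u = y' v := by
        intro f hf u hu v hv
        by_cases huv : u = v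
        · rw [huv]
        · exact hedge u v ⟨huv, f, hf, hu, hv⟩
      have h2 : T.filter (fun f => ∀ v ∈ f, y' v = y' v0) = T := by
        refine h.conn _ (filter_subset _ _) ⟨f0, mem_filter.2 ⟨hf0, fun v hv =>
          hface f0 hf0 v hv v0 hv0⟩⟩ ?_
        intro f hf g hg hfg
        rw [mem_filter] at hf ⊢
        refine ⟨hg, fun v hv => ?_⟩
        obtain ⟨a, b, ha, h3, h4, h5, h6⟩ := Hom_shared hf.1 hfg
        rw [hface g hg v hv a h5]
        exact hf.2 a h3
      funext w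
      obtain ⟨f, hf, hwf⟩ := Hom_mem_verts.1 w.2
      have h9 : f ∈ T.filter (fun f => ∀ v ∈ f, y' v = y' v0) := by
        rw [h2]
        exact hf
      rw [mem_filter] at h9
      have := h9.2 w.1 hwf
      simp [this]
    · rw [Submodule.span_singleton_le_iff_mem, LinearMap.mem_ker, Matrix.mulVecLin_apply]
      funext e
      obtain ⟨e, he⟩ := e
      induction e using Sym2.ind with
      | _ u v =>
        have ha := Hom_mem_E.1 he
        have h2 := Hom_Ny (fun _ => 1) ha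
        rw [h2]
        rfl
  rw [h1]
  refine finrank_span_singleton ?_
  intro h2
  have := congrFun h2 ⟨v0, hv0T⟩
  exact one_ne_zero this

lemma Hom_le {T : Finset (Finset V)} (h : Pre T) :
    (Hom_M T).mulVecLin.range ≤ (Hom_N T).transpose.mulVecLin.ker := by
  rintro _ ⟨x, rfl⟩
  rw [LinearMap.mem_ker, ← LinearMap.comp_apply, ← Matrix.mulVecLin_mul, Hom_NtM h]
  simp

lemma Hom_dims {T : Finset (Finset V)} (h : Pre T) :
    Module.finrank (ZMod 2) (Hom_M T).mulVecLin.range + 1 = T.card ∧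
    Module.finrank (ZMod 2) (Hom_N T).transpose.mulVecLin.ker + (verts T).card =
      (Hom_E T).card + 1 := by
  have h1 := LinearMap.finrank_range_add_finrank_ker (Hom_M T).mulVecLin
  have h2 := LinearMap.finrank_range_add_finrank_ker (Hom_N T).mulVecLin
  have h3 := LinearMap.finrank_range_add_finrank_ker (Hom_N T).transpose.mulVecLin
  have h4 : Module.finrank (ZMod 2) (Hom_N T).transpose.mulVecLin.range =
      Module.finrank (ZMod 2) (Hom_N T).mulVecLin.range := Matrix.rank_transpose (Hom_N T)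
  rw [Hom_kerM h, Module.finrank_fintype_fun_eq_card, Fintype.card_coe] at h1
  rw [Hom_kerN h, Module.finrank_fintype_fun_eq_card, Fintype.card_coe] at h2
  rw [h4, Module.finrank_fintype_fun_eq_card, Fintype.card_coe] at h3
  exact ⟨h1, by omega⟩

/-- the number of faces of `X` at an edge, modulo 2 -/
lemma Hom_card_mod {T X : Finset (Finset V)} (hX : X ⊆ T) {u v : V} (ha : Adj T u v) :
    (Hom_M T).mulVec (fun f => if f.1 ∈ X then 1 else 0) ⟨s(u, v), Hom_mem_E.2 ha⟩ =
      ((ef X u v).card : ZMod 2) := by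
  rw [Hom_Mx (fun f => if f ∈ X then 1 else 0) ha, sum_boole]
  congr 2
  ext f
  unfold ef
  rw [mem_filter, mem_filter, mem_filter]
  exact ⟨fun h => ⟨h.2, h.1.2⟩, fun h => ⟨⟨hX h.1, h.2⟩, h.1⟩⟩

lemma Hom_ef_le {T X : Finset (Finset V)} (h : Pre T) (hX : X ⊆ T) {u v : V} (ha : Adj T u v) :
    (ef X u v).card ≤ 2 := by
  rw [← h.two u v ha]
  exact card_le_card (filter_subset_filter _ hX)

lemma Hom_odd {c : ℕ} (hc : c ≤ 2) : ((c : ZMod 2) = 1 ↔ c = 1) ∧ ((c : ZMod 2) = 0 ↔ c ≠ 1) := by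
  interval_cases c <;> decide

end Lin

/-- the inequality `V - E + F ≤ 2` -/
theorem ineq {T : Finset (Finset V)} (h : Pre T) : 2 * (verts T).card ≤ T.card + 4 := by
  obtain ⟨h1, h2⟩ := Hom_dims h
  have h3 := Submodule.finrank_mono (Hom_le h)
  have h4 := Hom_card_E h
  omega

/-- on a sphere every even set of edges is the boundary of a set of faces -/
theorem exists_bdry {T : Finset (Finset V)} (h : Sphere T) (Z : Finset (Sym2 V))
    (hZ : ∀ e ∈ Z, ∃ u v, Adj T u v ∧ e = s(u, v))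
    (he : ∀ v, Even (Z.filter (fun e => v ∈ e)).card) : ∃ X, Bdry T X Z := by
  have hp := h.toPre
  obtain ⟨h1, h2⟩ := Hom_dims hp
  have h4 := Hom_card_E hp
  have h5 := h.euler
  have h6 : (Hom_M T).mulVecLin.range = (Hom_N T).transpose.mulVecLin.ker := by
    refine Submodule.eq_of_le_of_finrank_le (Hom_le hp) ?_
    omega
  have hZE : Z ⊆ Hom_E T := by
    intro e he'
    obtain ⟨u, v, ha, rfl⟩ := hZ e he'
    exact Hom_mem_E.2 ha
  have h7 : (fun e : {e // e ∈ Hom_E T} => if e.1 ∈ Z then (1 : ZMod 2) else 0) ∈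
      (Hom_N T).transpose.mulVecLin.ker := by
    rw [LinearMap.mem_ker, Matrix.mulVecLin_apply]
    funext v
    rw [Hom_Nty (fun e => if e ∈ Z then 1 else 0) v, sum_boole]
    have h8 : ((Hom_E T).filter (fun e => v.1 ∈ e)).filter (fun e => e ∈ Z) =
        Z.filter (fun e => v.1 ∈ e) := by
      ext e
      rw [mem_filter, mem_filter, mem_filter]
      exact ⟨fun h => ⟨h.2, h.1.2⟩, fun h => ⟨⟨hZE h.1, h.2⟩, h.1⟩⟩
    rw [h8]
    exact ZMod.natCast_eq_zero_iff_even.2 (he v.1)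
  rw [← h6] at h7
  obtain ⟨x, hx⟩ := h7
  obtain ⟨x', rfl⟩ := Hom_ext x
  rw [Matrix.mulVecLin_apply] at hx
  refine ⟨T.filter (fun f => x' f = 1), filter_subset _ _, fun u v ha => ?_⟩
  have h8 : (fun f : {f // f ∈ T} => x' f.1) =
      fun f => if f.1 ∈ T.filter (fun f => x' f = 1) then 1 else 0 := by
    funext f
    have h10 : f.1 ∈ T.filter (fun f => x' f = 1) ↔ x' f.1 = 1 := by
      rw [mem_filter]
      exact ⟨fun h => h.2, fun h => ⟨f.2, h⟩⟩
    by_cases h9 : x' f.1 = 1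
    · rw [if_pos (h10.2 h9), h9]
    · rw [if_neg (fun h => h9 (h10.1 h))]
      generalize x' f.1 = a at h9
      revert a
      decide
  rw [h8] at hx
  have h9 := congrFun hx ⟨s(u, v), Hom_mem_E.2 ha⟩
  rw [Hom_card_mod (filter_subset _ _) ha] at h9
  have h10 := Hom_odd (Hom_ef_le hp (filter_subset (fun f => x' f = 1) T) ha)
  dsimp only at h9
  by_cases h11 : s(u, v) ∈ Z
  · rw [if_pos h11] at h9
    exact ⟨fun _ => h11, fun _ => h10.1.1 h9⟩
  · rw [if_neg h11] at h9
    exact ⟨fun h12 => absurd h12 (h10.2.1 h9), fun h12 => absurd h12 h11⟩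

/-- the boundary of a set of faces is even -/
theorem even_bdry {T X : Finset (Finset V)} (h : Pre T) (Z : Finset (Sym2 V))
    (hZ : ∀ e ∈ Z, ∃ u v, Adj T u v ∧ e = s(u, v)) (hX : Bdry T X Z) (v : V) :
    Even (Z.filter (fun e => v ∈ e)).card := by
  obtain ⟨hXT, hXZ⟩ := hX
  have hZE : Z ⊆ Hom_E T := by
    intro e he'
    obtain ⟨u, v, ha, rfl⟩ := hZ e he'
    exact Hom_mem_E.2 ha
  by_cases hv : v ∈ verts T
  · have h1 : (Hom_M T).mulVec (fun f => if f.1 ∈ X then 1 else 0) =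
        fun e : {e // e ∈ Hom_E T} => if e.1 ∈ Z then (1 : ZMod 2) else 0 := by
      funext e
      obtain ⟨e, he⟩ := e
      induction e using Sym2.ind with
      | _ a b =>
        have ha := Hom_mem_E.1 he
        rw [Hom_card_mod hXT ha]
        have h10 := Hom_odd (Hom_ef_le h hXT ha)
        dsimp only
        split_ifs with h11
        · exact h10.1.2 ((hXZ a b ha).2 h11)
        · exact h10.2.2 (fun h12 => h11 ((hXZ a b ha).1 h12))
    have h2 : (Hom_M T).mulVec (fun f => if f.1 ∈ X then 1 else 0) ∈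
        (Hom_N T).transpose.mulVecLin.ker := Hom_le h ⟨_, rfl⟩
    rw [h1, LinearMap.mem_ker, Matrix.mulVecLin_apply] at h2
    have h3 := congrFun h2 ⟨v, hv⟩
    rw [Hom_Nty (fun e => if e ∈ Z then 1 else 0) ⟨v, hv⟩, sum_boole] at h3
    have h8 : ((Hom_E T).filter (fun e => v ∈ e)).filter (fun e => e ∈ Z) =
        Z.filter (fun e => v ∈ e) := by
      ext e
      rw [mem_filter, mem_filter, mem_filter]
      exact ⟨fun h => ⟨h.2, h.1.2⟩, fun h => ⟨⟨hZE h.1, h.2⟩, h.1⟩⟩
    rw [h8] at h3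
    exact ZMod.natCast_eq_zero_iff_even.1 h3
  · have h1 : Z.filter (fun e => v ∈ e) = ∅ := by
      rw [filter_eq_empty_iff]
      intro e he hve
      obtain ⟨a, b, ha, rfl⟩ := hZ e he
      rw [Sym2.mem_iff] at hve
      rcases hve with rfl | rfl
      · exact hv (Hom_adj_verts ha).1
      · exact hv (Hom_adj_verts ha).2
    rw [h1]
    exact ⟨0, rfl⟩

end Pool.Agent.TH246.PR
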