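import Pool.Agent.TH246.PR.Col1
import Pool.Agent.TH246.PR.ColBase

/-!
# Undoing the contraction of a path through a vertex of degree 4
-/

set_option autoImplicit false
set_option linter.unusedVariables false

namespace Pool.Agent.TH246.PR

open Finset

variable {V : Type} [DecidableEq V]

theorem lift4 {T T' : Finset (Finset V)} {v p q r s : V} {w : V → F8}
    (hn : [v, p, q, r, s].Nodup)
    (hnb : ∀ x, Adj T v x ↔ x = p ∨ x = q ∨ x = r ∨ x = s)
    (hpq : ¬ Adj T p q) (hcom : ∀ z, Adj T z p → Adj T z q → z = v ∨ z = r ∨ z = s)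
    (hpr : Adj T p r) (hps : Adj T p s)
    (h1 : ∀ x y, x ≠ v → y ≠ v → x ≠ q → y ≠ q → Adj T x y → Adj T' x y)
    (h2 : ∀ x, x ≠ v → Adj T q x → Adj T' p x)
    (hw : Good T' w) (c0 : F8) (hc : Aff c0 (w p) (w r) (w s)) :
    Good T (Function.update (Function.update w q (w p)) v c0) := by
  intro lab hlab
  have hne : v ≠ p ∧ v ≠ q ∧ v ≠ r ∧ v ≠ s ∧ p ≠ q ∧ p ≠ r ∧ p ≠ s ∧ q ≠ r ∧ q ≠ s ∧ r ≠ s := by
    simp only [List.nodup_cons, List.mem_cons, List.not_mem_nil, not_or, or_false] at hn
    tauto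
  obtain ⟨hvp, hvq, hvr, hvs, hpq', hpr', hps', hqr, hqs, hrs⟩ := hne
  have hdet1 : det3 (w p + w r) (w p + w s) (w p + c0) = 1 := by
    simp only [Aff, det3, Pi.add_apply] at *
    grind
  have hdet2 : det3 (c0 + w p) (c0 + w r) (c0 + w s) = 1 := by
    simp only [Aff, det3, Pi.add_apply] at *
    grind
  obtain ⟨delta, hd1, hd2, hd3⟩ := solve3 _ _ _ hdet1 (lab p r + lab q r) (lab p s + lab q s)
    (lab v p + lab v q)
  obtain ⟨s', A, B, C⟩ := CB_lab (delta := delta) hlab hvp hvq hpq' hpq h1 h2 hw (by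
    intro x hx hxp hxq
    rcases hcom x hxp hxq with rfl | rfl | rfl
    · exact absurd rfl hx
    · exact hd1
    · exact hd2)
  obtain ⟨t, ht1, ht2, ht3⟩ := solve3 _ _ _ hdet2 (lab v p + dot (c0 + w p) (s' p))
    (lab v r + dot (c0 + w r) (s' r)) (lab v s + dot (c0 + w s) (s' s))
  refine CB_ext1 hlab (Function.update s' q (s' p + delta)) t ?_ ?_
  · intro x hx
    rcases (hnb x).1 hx with rfl | rfl | rfl | rfl
    · rw [Function.update_of_ne hpq', Function.update_of_ne hpq', CB_dot_add_right, ht1]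
      grind
    · rw [Function.update_self, Function.update_self, CB_dot_add_right, CB_dot_add_right, ht1]
      have : dot (c0 + w p) delta = lab v p + lab v x := by rw [add_comm c0]; exact hd3
      rw [this]
      grind
    · rw [Function.update_of_ne hqr.symm, Function.update_of_ne hqr.symm, CB_dot_add_right, ht2]
      grind
    · rw [Function.update_of_ne hqs.symm, Function.update_of_ne hqs.symm, CB_dot_add_right, ht3]
      grind
  · intro x y hx hy hxy
    exact C x y hx hy hxy

end Pool.Agent.TH246.PR
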