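import Pool.Agent.TH246.PR.Col1
import Pool.Agent.TH246.PR.ColBase

/-!
# Undoing the contraction of a path through a vertex of degree 5
-/

set_option autoImplicit false
set_option linter.unusedVariables false

namespace Pool.Agent.TH246.PR

open Finset

variable {V : Type} [DecidableEq V]

theorem lift5 {T T' : Finset (Finset V)} {v p u q b c : V} {w : V → F8}
    (hn : [v, p, u, q, b, c].Nodup)
    (hnb : ∀ x, Adj T v x ↔ x = p ∨ x = u ∨ x = q ∨ x = b ∨ x = c)
    (hpq : ¬ Adj T p q) (hcom : ∀ z, Adj T z p → Adj T z q → z = v ∨ z = u)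
    (hpu : Adj T p u) (hqb : Adj T q b) (hbc : Adj T b c) (hpc : Adj T p c)
    (h1 : ∀ x y, x ≠ v → y ≠ v → x ≠ q → y ≠ q → Adj T x y → Adj T' x y)
    (h2 : ∀ x, x ≠ v → Adj T q x → Adj T' p x)
    (hw : Good T' w) (hc : Aff (w u) (w p) (w b) (w c)) :
    Good T (Function.update (Function.update w q (w p)) v (w p + w b + w c)) := by
  intro lab hlab
  have hne : v ≠ p ∧ v ≠ u ∧ v ≠ q ∧ v ≠ b ∧ v ≠ c ∧ p ≠ u ∧ p ≠ q ∧ p ≠ b ∧ p ≠ c ∧ u ≠ q ∧
      u ≠ b ∧ u ≠ c ∧ q ≠ b ∧ q ≠ c ∧ b ≠ c := by
    simp only [List.nodup_cons, List.mem_cons, List.not_mem_nil, not_or, or_false] at hn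
    tauto
  obtain ⟨hvp, hvu, hvq, hvb, hvc, hpu', hpq', hpb', hpc', huq, hub, huc, hqb', hqc', hbc'⟩ := hne
  have hdet1 : det3 (w p + w u) (w b + w c) (w p + w b) = 1 := by
    simp only [Aff, det3, Pi.add_apply] at *
    grind
  have hdet2 : det3 (w p + w b + w c + w p) (w p + w b + w c + w b)
      (w p + w b + w c + w u) = 1 := by
    simp only [Aff, det3, Pi.add_apply] at *
    grind
  obtain ⟨delta, hd1, hd2, hd3⟩ := solve3 _ _ _ hdet1 (lab p u + lab q u) (lab v p + lab v q)
    (lab v p + lab v b + lab v c + lab b c + lab p c + lab q b)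
  obtain ⟨s', A, B, C⟩ := CB_lab (delta := delta) hlab hvp hvq hpq' hpq h1 h2 hw (by
    intro x hx hxp hxq
    rcases hcom x hxp hxq with rfl | rfl
    · exact absurd rfl hx
    · exact hd1)
  obtain ⟨t, ht1, ht2, ht3⟩ := solve3 _ _ _ hdet2
    (lab v p + dot (w p + w b + w c + w p) (s' p))
    (lab v b + dot (w p + w b + w c + w b) (s' b))
    (lab v u + dot (w p + w b + w c + w u) (s' u))
  have ebc := A b c hvb.symm hvc.symm hqb'.symm hqc'.symm hbc
  have epc := A p c hvp.symm hvc.symm hpq' hqc'.symm hpc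
  have epb := B b hvb.symm hqb
  refine CB_ext1 hlab (Function.update s' q (s' p + delta)) t ?_ ?_
  · intro x hx
    rcases (hnb x).1 hx with rfl | rfl | rfl | rfl | rfl
    · rw [Function.update_of_ne hpq', Function.update_of_ne hpq', CB_dot_add_right, ht1]
      grind
    · rw [Function.update_of_ne huq, Function.update_of_ne huq, CB_dot_add_right, ht3]
      grind
    · rw [Function.update_self, Function.update_self, CB_dot_add_right, CB_dot_add_right, ht1]
      have : dot (w p + w b + w c + w p) delta = lab v p + lab v x := by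
        rw [← hd2]
        simp only [CB_dot_add_left]
        grind
      rw [this]
      grind
    · rw [Function.update_of_ne hqb'.symm, Function.update_of_ne hqb'.symm, CB_dot_add_right, ht2]
      grind
    · rw [Function.update_of_ne hqc'.symm, Function.update_of_ne hqc'.symm]
      simp only [CB_dot_add_left, CB_dot_add_right] at *
      grind
  · intro x y hx hy hxy
    exact C x y hx hy hxy

end Pool.Agent.TH246.PR
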