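import Pool.Agent.TH246.PR.Hom

set_option autoImplicit false
set_option linter.unusedVariables false

namespace Pool.Agent.TH246.PR

open Finset

variable {V : Type} [DecidableEq V]

/-- the relabelling which replaces `v` by the new vertex -/
def LinkConn_sr (v : V) (x : V) : Option V := if x = v then none else some x

theorem LinkConn_sr_inj (v : V) : Function.Injective (LinkConn_sr v) := by
  intro x y h
  unfold LinkConn_sr at h
  split_ifs at h with h1 h2 h2
  · rw [h1, h2]
  · exact Option.some_injective _ h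

/-- the image of a face -/
def LinkConn_phi (R : Finset (Finset V)) (v : V) (f : Finset V) : Finset (Option V) :=
  if f ∈ R then f.image (LinkConn_sr v) else f.image some

theorem LinkConn_mem_sr {v a : V} {f : Finset V} :
    some a ∈ f.image (LinkConn_sr v) ↔ a ∈ f ∧ a ≠ v := by
  unfold LinkConn_sr
  rw [mem_image]
  constructor
  · rintro ⟨x, hx, h⟩
    split_ifs at h with h1
    rw [Option.some.injEq] at h
    subst h
    exact ⟨hx, h1⟩
  · rintro ⟨h1, h2⟩
    exact ⟨a, h1, if_neg h2⟩

theorem LinkConn_none_sr {v : V} {f : Finset V} : none ∈ f.image (LinkConn_sr v) ↔ v ∈ f := by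
  unfold LinkConn_sr
  rw [mem_image]
  constructor
  · rintro ⟨x, hx, h⟩
    split_ifs at h with h1
    rwa [← h1]
  · intro h
    exact ⟨v, h, if_pos rfl⟩

theorem LinkConn_mem_some {a : V} {f : Finset V} : some a ∈ f.image some ↔ a ∈ f := by
  simp

theorem LinkConn_none_some {f : Finset V} : none ∉ f.image (some : V → Option V) := by
  simp

theorem LinkConn_image_eq {v : V} {g : Finset V} (h : v ∉ g) :
    g.image some = g.image (LinkConn_sr v) := by
  apply image_congr
  intro x hx
  unfold LinkConn_sr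
  rw [if_neg]
  rintro rfl
  exact h hx

/-- two distinct faces with two common vertices -/
theorem LinkConn_card2 {f g : Finset V} (hf : f.card = 3) (hg : g.card = 3) (hne : f ≠ g) {a b : V}
    (hab : a ≠ b) (h1 : a ∈ f) (h2 : a ∈ g) (h3 : b ∈ f) (h4 : b ∈ g) : (f ∩ g).card = 2 := by
  have h5 : ({a, b} : Finset V) ⊆ f ∩ g := by
    intro x hx
    rw [mem_insert, mem_singleton] at hx
    rcases hx with rfl | rfl
    · exact mem_inter.2 ⟨h1, h2⟩
    · exact mem_inter.2 ⟨h3, h4⟩
  have h6 := card_le_card h5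
  rw [card_pair hab] at h6
  have h7 : (f ∩ g).card ≠ 3 := by
    intro h8
    have h9 : f ∩ g = f := eq_of_subset_of_card_le inter_subset_left (by omega)
    have h10 : f ∩ g = g := eq_of_subset_of_card_le inter_subset_right (by omega)
    exact hne (h9.symm.trans h10)
  have h8 := card_le_card (inter_subset_left (s₁ := f) (s₂ := g))
  omega

/-- the faces at a vertex of a sphere form one cycle: a nonempty set of them closed under sharing
an edge is everything -/
theorem link_conn {T : Finset (Finset V)} (h : Sphere T) (v : V) (S : Finset (Finset V))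
    (hS : S ⊆ star T v) (hne : S.Nonempty)
    (hcl : ∀ f ∈ S, ∀ g ∈ star T v, (f ∩ g).card = 2 → g ∈ S) : S = star T v := by
  by_contra hSne
  set R := star T v \ S with hR
  have hRne : R.Nonempty := by
    rw [hR, sdiff_nonempty]
    intro h1
    exact hSne (subset_antisymm hS h1)
  have hRcl : ∀ f ∈ R, ∀ g ∈ star T v, (f ∩ g).card = 2 → g ∈ R := by
    intro f hf g hg hfg
    rw [hR, mem_sdiff] at hf ⊢
    refine ⟨hg, fun h1 => hf.2 (hcl g h1 f hf.1 ?_)⟩
    rwa [inter_comm]
  have hRv : ∀ f ∈ R, f ∈ T ∧ v ∈ f := by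
    intro f hf
    rw [hR, mem_sdiff, star, mem_filter] at hf
    exact hf.1
  have hSv : ∀ f ∈ S, f ∈ T ∧ v ∈ f ∧ f ∉ R := by
    intro f hf
    have h1 := hS hf
    rw [star, mem_filter] at h1
    refine ⟨h1.1, h1.2, ?_⟩
    rw [hR, mem_sdiff]
    exact fun h2 => h2.2 hf
  have hstar : ∀ f ∈ T, v ∈ f → f ∉ R → f ∈ S := by
    intro f hf hv hfR
    by_contra hfS
    apply hfR
    rw [hR, mem_sdiff, star, mem_filter]
    exact ⟨⟨hf, hv⟩, hfS⟩
  set φ := LinkConn_phi R v with hφ
  have hφR : ∀ f ∈ R, φ f = f.image (LinkConn_sr v) := fun f hf => if_pos hf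
  have hφS : ∀ f, f ∉ R → φ f = f.image some := fun f hf => if_neg hf
  -- membership
  have hmem : ∀ a f, some a ∈ φ f ↔ a ∈ f ∧ ¬ (a = v ∧ f ∈ R) := by
    intro a f
    by_cases hf : f ∈ R
    · rw [hφR f hf, LinkConn_mem_sr]
      constructor
      · rintro ⟨h1, h2⟩
        exact ⟨h1, fun h3 => h2 h3.1⟩
      · rintro ⟨h1, h2⟩
        exact ⟨h1, fun h3 => h2 ⟨h3, hf⟩⟩
    · rw [hφS f hf, LinkConn_mem_some]
      constructor
      · exact fun h1 => ⟨h1, fun h2 => hf h2.2⟩
      · exact fun h1 => h1.1
  have hnone : ∀ f, none ∈ φ f ↔ f ∈ R := by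
    intro f
    by_cases hf : f ∈ R
    · rw [hφR f hf, LinkConn_none_sr]
      exact ⟨fun _ => hf, fun _ => (hRv f hf).2⟩
    · rw [hφS f hf]
      exact ⟨fun h1 => absurd h1 LinkConn_none_some, fun h1 => absurd h1 hf⟩
  have hcard : ∀ f, (φ f).card = f.card := by
    intro f
    by_cases hf : f ∈ R
    · rw [hφR f hf, card_image_of_injective _ (LinkConn_sr_inj v)]
    · rw [hφS f hf, card_image_of_injective _ (Option.some_injective V)]
  -- injectivity
  have hinv : ∀ f, (φ f).image (fun x => x.getD v) = f := by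
    intro f
    by_cases hf : f ∈ R
    · rw [hφR f hf, image_image]
      conv_rhs => rw [← image_id (s := f)]
      apply image_congr
      intro x _
      simp only [Function.comp, LinkConn_sr, id]
      split_ifs with h1
      · exact h1.symm
      · rfl
    · rw [hφS f hf, image_image]
      conv_rhs => rw [← image_id (s := f)]
      apply image_congr
      intro x _
      rfl
  have hinj : Function.Injective φ := fun f g hfg => by rw [← hinv f, hfg, hinv g]
  -- intersections
  have hint : ∀ f ∈ T, ∀ g ∈ T, (f ∩ g).card = 2 → (φ f ∩ φ g).card = 2 := by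
    have hboth : ∀ f g : Finset V, f ∈ R → g ∈ R → (φ f ∩ φ g).card = (f ∩ g).card := by
      intro f g hf hg
      rw [hφR f hf, hφR g hg, ← image_inter _ _ (LinkConn_sr_inj v),
        card_image_of_injective _ (LinkConn_sr_inj v)]
    have hmix : ∀ f g : Finset V, f ∈ R → g ∉ R → v ∉ g →
        (φ f ∩ φ g).card = (f ∩ g).card := by
      intro f g hf hg hv
      rw [hφR f hf, hφS g hg, LinkConn_image_eq hv, ← image_inter _ _ (LinkConn_sr_inj v),
        card_image_of_injective _ (LinkConn_sr_inj v)]
    intro f hf g hg hfg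
    by_cases hfR : f ∈ R
    · by_cases hgR : g ∈ R
      · rw [hboth f g hfR hgR, hfg]
      · have hv : v ∉ g := by
          intro hv
          apply hgR
          refine hRcl f hfR g ?_ hfg
          rw [star, mem_filter]
          exact ⟨hg, hv⟩
        rw [hmix f g hfR hgR hv, hfg]
    · by_cases hgR : g ∈ R
      · have hv : v ∉ f := by
          intro hv
          apply hfR
          refine hRcl g hgR f ?_ (by rwa [inter_comm])
          rw [star, mem_filter]
          exact ⟨hf, hv⟩
        rw [inter_comm, hmix g f hgR hfR hv, inter_comm, hfg]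
      · rw [hφS f hfR, hφS g hgR, ← image_inter _ _ (Option.some_injective V),
          card_image_of_injective _ (Option.some_injective V), hfg]
  -- edges at `v`
  have hedge : ∀ (Q : Finset (Finset V)), (∀ f ∈ Q, f ∈ T ∧ v ∈ f) →
      (∀ f ∈ Q, ∀ g ∈ star T v, (f ∩ g).card = 2 → g ∈ Q) → ∀ b, b ≠ v → (∃ f ∈ Q, b ∈ f) →
      (Q.filter (fun f => b ∈ f)).card = 2 := by
    intro Q hQ hQcl b hb ⟨f, hf, hbf⟩
    have hadj : Adj T v b := ⟨hb.symm, f, (hQ f hf).1, (hQ f hf).2, hbf⟩
    rw [← h.two v b hadj]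
    congr 1
    ext g
    rw [mem_filter, ef, mem_filter]
    constructor
    · rintro ⟨h1, h2⟩
      exact ⟨(hQ g h1).1, (hQ g h1).2, h2⟩
    · rintro ⟨h1, h2, h3⟩
      refine ⟨?_, h3⟩
      by_cases hfg : f = g
      · rwa [← hfg]
      · apply hQcl f hf g
        · rw [star, mem_filter]
          exact ⟨h1, h2⟩
        · exact LinkConn_card2 (h.card3 f (hQ f hf).1) (h.card3 g h1) hfg hb.symm (hQ f hf).2 h2
            hbf h3
  -- the new complex
  have hef : ∀ u u' : Option V, (ef (T.image φ) u u').card =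
      (T.filter (fun f => u ∈ φ f ∧ u' ∈ φ f)).card := by
    intro u u'
    rw [ef, filter_image, card_image_of_injective _ hinj]
  have hS2 : ∀ b, b ≠ v → (∃ f ∈ S, b ∈ f) →
      (T.filter (fun f => some v ∈ φ f ∧ some b ∈ φ f)).card = 2 := by
    intro b hb hex
    rw [← hedge S (fun f hf => ⟨(hSv f hf).1, (hSv f hf).2.1⟩) hcl b hb hex]
    congr 1
    ext f
    rw [mem_filter, mem_filter, hmem, hmem]
    constructor
    · rintro ⟨h1, ⟨h2, h3⟩, h4, h5⟩
      exact ⟨hstar f h1 h2 fun h6 => h3 ⟨rfl, h6⟩, h4⟩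
    · rintro ⟨h1, h2⟩
      obtain ⟨h3, h4, h5⟩ := hSv f h1
      exact ⟨h3, ⟨h4, fun h6 => h5 h6.2⟩, h2, fun h6 => h5 h6.2⟩
  have hR2 : ∀ b, b ≠ v → (∃ f ∈ R, b ∈ f) →
      (T.filter (fun f => none ∈ φ f ∧ some b ∈ φ f)).card = 2 := by
    intro b hb hex
    rw [← hedge R hRv hRcl b hb hex]
    congr 1
    ext f
    rw [mem_filter, mem_filter, hmem, hnone]
    constructor
    · rintro ⟨h1, h2, h3, h4⟩
      exact ⟨h2, h3⟩
    · rintro ⟨h1, h2⟩
      exact ⟨(hRv f h1).1, h1, h2, fun h3 => hb h3.1⟩
  have hcomm : ∀ u u' : Option V, (T.filter (fun f => u ∈ φ f ∧ u' ∈ φ f)) =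
      (T.filter (fun f => u' ∈ φ f ∧ u ∈ φ f)) := by
    intro u u'
    ext f
    rw [mem_filter, mem_filter, and_comm (a := u ∈ φ f)]
  have hpre : Pre (T.image φ) := by
    refine ⟨h.nonempty.image _, ?_, ?_, ?_⟩
    · intro f hf
      rw [mem_image] at hf
      obtain ⟨g, hg, rfl⟩ := hf
      rw [hcard, h.card3 g hg]
    · rintro u u' ⟨huu, f', hf', hu, hu'⟩
      rw [mem_image] at hf'
      obtain ⟨f, hf, rfl⟩ := hf'
      rw [hef]
      rcases u with _ | a
      · rcases u' with _ | b
        · exact absurd rfl huu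
        · rw [hnone] at hu
          rw [hmem] at hu'
          have hb : b ≠ v := fun hb => hu'.2 ⟨hb, hu⟩
          exact hR2 b hb ⟨f, hu, hu'.1⟩
      · rcases u' with _ | b
        · rw [hnone] at hu'
          rw [hmem] at hu
          have hb : a ≠ v := fun hb => hu.2 ⟨hb, hu'⟩
          rw [hcomm]
          exact hR2 a hb ⟨f, hu', hu.1⟩
        · rw [hmem] at hu hu'
          have hab : a ≠ b := fun h1 => huu (by rw [h1])
          by_cases ha : a = v
          · subst ha
            have hfS : f ∈ S := hstar f hf hu.1 fun h1 => hu.2 ⟨rfl, h1⟩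
            exact hS2 b hab.symm ⟨f, hfS, hu'.1⟩
          · by_cases hb : b = v
            · subst hb
              have hfS : f ∈ S := hstar f hf hu'.1 fun h1 => hu'.2 ⟨rfl, h1⟩
              rw [hcomm]
              exact hS2 a hab ⟨f, hfS, hu.1⟩
            · rw [← h.two a b ⟨hab, f, hf, hu.1, hu'.1⟩]
              congr 1
              ext g
              rw [mem_filter, ef, mem_filter, hmem, hmem]
              constructor
              · rintro ⟨h1, ⟨h2, -⟩, h3, -⟩
                exact ⟨h1, h2, h3⟩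
              · rintro ⟨h1, h2, h3⟩
                exact ⟨h1, ⟨h2, fun h4 => ha h4.1⟩, h3, fun h4 => hb h4.1⟩
    · intro X hX hXne hXcl
      have h1 : T.filter (fun f => φ f ∈ X) = T := by
        apply h.conn _ (filter_subset _ _)
        · obtain ⟨x, hx⟩ := hXne
          have h2 := hX hx
          rw [mem_image] at h2
          obtain ⟨f, hf, rfl⟩ := h2
          exact ⟨f, mem_filter.2 ⟨hf, hx⟩⟩
        · intro f hf g hg hfg
          rw [mem_filter] at hf ⊢
          refine ⟨hg, hXcl _ hf.2 _ (mem_image_of_mem _ hg) ?_⟩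
          exact hint f hf.1 g hg hfg
      apply subset_antisymm hX
      intro x hx
      rw [mem_image] at hx
      obtain ⟨f, hf, rfl⟩ := hx
      rw [← h1, mem_filter] at hf
      exact hf.2
  have hineq := ineq hpre
  have hT : (T.image φ).card ≤ T.card := card_image_le
  have hverts : (verts T).card + 1 ≤ (verts (T.image φ)).card := by
    have h1 : insert none ((verts T).image some) ⊆ verts (T.image φ) := by
      intro x hx
      rw [mem_insert] at hx
      rw [verts, mem_biUnion]
      rcases hx with rfl | hx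
      · obtain ⟨f, hf⟩ := hRne
        exact ⟨φ f, mem_image_of_mem _ (hRv f hf).1, (hnone f).2 hf⟩
      · rw [mem_image] at hx
        obtain ⟨a, ha, rfl⟩ := hx
        by_cases hav : a = v
        · subst hav
          obtain ⟨f, hf⟩ := hne
          refine ⟨φ f, mem_image_of_mem _ (hSv f hf).1, (hmem a f).2 ⟨(hSv f hf).2.1, ?_⟩⟩
          exact fun h2 => (hSv f hf).2.2 h2.2
        · rw [verts, mem_biUnion] at ha
          obtain ⟨f, hf, haf⟩ := ha
          exact ⟨φ f, mem_image_of_mem _ hf, (hmem a f).2 ⟨haf, fun h2 => hav h2.1⟩⟩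
    have h2 := card_le_card h1
    rwa [card_insert_of_notMem LinkConn_none_some,
      card_image_of_injective _ (Option.some_injective V)] at h2
  have := h.euler
  omega

end Pool.Agent.TH246.PR
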