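import Pool.Agent.TH246.PR.LinkConn

set_option autoImplicit false
set_option linter.unusedVariables false

namespace Pool.Agent.TH246.PR

open Finset

variable {V : Type} [DecidableEq V]

/-- a 3-element set containing two given elements -/
lemma LinkFun_third {f : Finset V} (hf : f.card = 3) {v x : V} (hv : v ∈ f) (hx : x ∈ f)
    (hxv : x ≠ v) : ∃ y, y ≠ v ∧ y ≠ x ∧ f = {v, x, y} := by
  have h1 : ((f.erase v).erase x).card = 1 := by
    rw [card_erase_of_mem (mem_erase.2 ⟨hxv, hx⟩), card_erase_of_mem hv, hf]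
  obtain ⟨y, hy⟩ := card_eq_one.1 h1
  have hy' : y ∈ (f.erase v).erase x := by rw [hy]; exact mem_singleton_self y
  refine ⟨y, (mem_erase.1 (mem_erase.1 hy').2).1, (mem_erase.1 hy').1, ?_⟩
  rw [← hy, insert_erase (mem_erase.2 ⟨hxv, hx⟩), insert_erase hv]

lemma LinkFun_mem_ef {T : Finset (Finset V)} {u v : V} {f : Finset V} :
    f ∈ ef T u v ↔ f ∈ T ∧ u ∈ f ∧ v ∈ f := by
  simp [ef]

lemma LinkFun_mem_star {T : Finset (Finset V)} {v : V} {f : Finset V} :
    f ∈ star T v ↔ f ∈ T ∧ v ∈ f := by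
  simp [star]

/-- the relation of being consecutive in the link of `v` -/
def LinkFun_R (T : Finset (Finset V)) (v x y : V) : Prop :=
  x ≠ v ∧ y ≠ v ∧ x ≠ y ∧ ({v, x, y} : Finset V) ∈ T

lemma LinkFun_R_symm {T : Finset (Finset V)} {v x y : V} (h : LinkFun_R T v x y) :
    LinkFun_R T v y x := by
  refine ⟨h.2.1, h.1, h.2.2.1.symm, ?_⟩
  rw [show ({v, y, x} : Finset V) = {v, x, y} by rw [pair_comm]]
  exact h.2.2.2

lemma LinkFun_trip {v y x z : V} (hx : x ≠ v) (hxy : x ≠ y)
    (h : ({v, y, x} : Finset V) = {v, y, z}) : x = z := by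
  have h1 : x ∈ ({v, y, z} : Finset V) := by rw [← h]; simp
  simp only [mem_insert, mem_singleton] at h1
  rcases h1 with h1 | h1 | h1
  · exact absurd h1 hx
  · exact absurd h1 hxy
  · exact h1

lemma LinkFun_next {T : Finset (Finset V)} (h : Pre T) {v x y : V} (hR : LinkFun_R T v x y) :
    ∃ z, z ≠ x ∧ LinkFun_R T v y z := by
  obtain ⟨hx, hy, hxy, hf⟩ := hR
  have hA : Adj T v y := ⟨hy.symm, _, hf, by simp, by simp⟩
  have h2 := h.two v y hA
  have hfm : ({v, x, y} : Finset V) ∈ ef T v y := LinkFun_mem_ef.2 ⟨hf, by simp, by simp⟩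
  obtain ⟨g, hg, hgf⟩ := exists_mem_ne (by omega : 1 < (ef T v y).card) ({v, x, y} : Finset V)
  obtain ⟨hgT, hgv, hgy⟩ := LinkFun_mem_ef.1 hg
  obtain ⟨z, hzv, hzy, hgz⟩ := LinkFun_third (h.card3 g hgT) hgv hgy hy
  refine ⟨z, ?_, hy, hzv, hzy.symm, hgz ▸ hgT⟩
  rintro rfl
  apply hgf
  rw [hgz, pair_comm]

lemma LinkFun_two {T : Finset (Finset V)} (h : Pre T) {v y x z w : V} (hx : LinkFun_R T v y x)
    (hz : LinkFun_R T v y z) (hw : LinkFun_R T v y w) (hxz : x ≠ z) : w = x ∨ w = z := by
  have hA : Adj T v y := ⟨hx.1.symm, _, hx.2.2.2, by simp, by simp⟩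
  have h2 := h.two v y hA
  have hne : ({v, y, x} : Finset V) ≠ {v, y, z} := fun he =>
    hxz (LinkFun_trip hx.2.1 hx.2.2.1.symm he)
  have hsub : ({{v, y, x}, {v, y, z}} : Finset (Finset V)) ⊆ ef T v y := by
    intro f hf
    simp only [mem_insert, mem_singleton] at hf
    rcases hf with rfl | rfl
    · exact LinkFun_mem_ef.2 ⟨hx.2.2.2, by simp, by simp⟩
    · exact LinkFun_mem_ef.2 ⟨hz.2.2.2, by simp, by simp⟩
  have heq : ({{v, y, x}, {v, y, z}} : Finset (Finset V)) = ef T v y :=
    eq_of_subset_of_card_le hsub (by rw [h2, card_pair hne])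
  have hwm : ({v, y, w} : Finset V) ∈ ef T v y := LinkFun_mem_ef.2 ⟨hw.2.2.2, by simp, by simp⟩
  rw [← heq] at hwm
  simp only [mem_insert, mem_singleton] at hwm
  rcases hwm with hwm | hwm
  · exact Or.inl (LinkFun_trip hw.2.1 hw.2.2.1.symm hwm)
  · exact Or.inr (LinkFun_trip hw.2.1 hw.2.2.1.symm hwm)

/-- walks without turning back in a graph with all degrees 2 -/
lemma LinkFun_walk {R : V → V → Prop} (hsymm : ∀ x y, R x y → R y x) (hirr : ∀ x, ¬ R x x)
    (htwo : ∀ y x z w, R y x → R y z → R y w → x ≠ z → w = x ∨ w = z) (N : Finset V) (l : ℕ → V)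
    (hN : ∀ n, l n ∈ N) (hR : ∀ n, R (l n) (l (n + 1))) (hne : ∀ n, l (n + 2) ≠ l n) :
    ∃ d, 3 ≤ d ∧ (∀ i, l (i + d) = l i) ∧ (∀ i j, i < d → j < d → l i = l j → i = j) := by
  classical
  have hex : ∃ j, ∃ i, i < j ∧ l i = l j := by
    have hni : ¬ Set.InjOn l (Set.univ : Set ℕ) := by
      intro hinj
      have hinj' : Function.Injective l := fun a b hab => hinj trivial trivial hab
      have : Set.Infinite (Set.range l) := Set.infinite_range_of_injective hinj'
      exact this (N.finite_toSet.subset (by rintro _ ⟨n, rfl⟩; exact hN n))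
    simp only [Set.InjOn, Set.mem_univ, forall_true_left, not_forall] at hni
    obtain ⟨a, b, hab, hne'⟩ := hni
    rcases lt_or_gt_of_ne hne' with h | h
    · exact ⟨b, a, h, hab⟩
    · exact ⟨a, b, h, hab.symm⟩
  obtain ⟨i, hi, hli⟩ := Nat.find_spec hex
  set d := Nat.find hex with hd
  have hmin : ∀ j < d, ∀ i < j, l i ≠ l j := by
    intro j hj i hi hl
    exact Nat.find_min hex hj ⟨i, hi, hl⟩
  have hi0 : i = 0 := by
    by_contra hi0
    obtain ⟨k, rfl⟩ := Nat.exists_eq_succ_of_ne_zero hi0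
    obtain ⟨e, he⟩ : ∃ e, d = e + 1 := ⟨d - 1, by omega⟩
    have h1 : R (l (k + 1)) (l k) := hsymm _ _ (hR k)
    have h2 : R (l (k + 1)) (l (k + 2)) := hR (k + 1)
    have h3 : R (l (k + 1)) (l e) := by
      have := hsymm _ _ (hR e)
      rw [← he, ← hli] at this
      exact this
    rcases htwo _ _ _ _ h1 h2 h3 (hne k).symm with h | h
    · exact hmin e (by omega) k (by omega) h.symm
    · by_cases hc : k + 2 < e
      · exact hmin e (by omega) (k + 2) hc h.symm
      · by_cases hc2 : k + 2 = e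
        · have h5 := hne (k + 1)
          apply h5
          have : k + 1 + 2 = d := by omega
          rw [this]
          exact hli.symm
        · have h6 : e = k + 1 := by omega
          rw [h6] at h
          exact hirr _ (h ▸ h2)
  subst hi0
  have hinj : ∀ i j, i < d → j < d → l i = l j → i = j := by
    intro i j hi hj hl
    rcases lt_trichotomy i j with h | h | h
    · exact absurd hl (hmin j hj i h)
    · exact h
    · exact absurd hl.symm (hmin i hi j h)
  have hd3 : 3 ≤ d := by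
    by_contra hc
    have h12 : d = 1 ∨ d = 2 := by omega
    rcases h12 with h | h
    · rw [h] at hli
      exact hirr _ (hli ▸ hR 0)
    · rw [h] at hli
      exact hne 0 hli.symm
  obtain ⟨e, he⟩ : ∃ e, d = e + 1 := ⟨d - 1, by omega⟩
  have hld1 : l (d + 1) = l 1 := by
    have h1 : R (l 0) (l 1) := hR 0
    have h2 : R (l 0) (l e) := by
      have := hsymm _ _ (hR e)
      rwa [← he, ← hli] at this
    have h3 : R (l 0) (l (d + 1)) := by
      have := hR d
      rwa [← hli] at this
    have h4 : l 1 ≠ l e := by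
      intro h
      have := hinj 1 e (by omega) (by omega) h
      omega
    rcases htwo _ _ _ _ h1 h2 h3 h4 with h | h
    · exact h
    · exfalso
      apply hne e
      rw [← h, he]
  have hper : ∀ n, l (n + d) = l n ∧ l (n + 1 + d) = l (n + 1) := by
    intro n
    induction n with
    | zero =>
      refine ⟨by rw [zero_add]; exact hli.symm, ?_⟩
      rw [show 0 + 1 + d = d + 1 by ring]
      exact hld1
    | succ n ih =>
      refine ⟨ih.2, ?_⟩
      have h1 : R (l (n + 1)) (l n) := hsymm _ _ (hR n)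
      have h2 : R (l (n + 1)) (l (n + 2)) := hR (n + 1)
      have h3 : R (l (n + 1)) (l (n + 2 + d)) := by
        have := hR (n + 1 + d)
        rw [ih.2] at this
        rwa [show n + 1 + d + 1 = n + 2 + d by ring] at this
      rcases htwo _ _ _ _ h1 h2 h3 (hne n).symm with h | h
      · exfalso
        apply hne (n + d)
        rw [ih.1, show n + d + 2 = n + 2 + d by ring]
        exact h
      · exact h
  exact ⟨d, hd3, fun i => (hper i).1, hinj⟩

theorem link_fun {T : Finset (Finset V)} (h : Sphere T) {v u : V} (hu : Adj T v u) :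
    ∃ l : ℕ → V, l 0 = u ∧ 3 ≤ deg T v ∧ (∀ i, l (i + deg T v) = l i) ∧
      (∀ i j, i < deg T v → j < deg T v → l i = l j → i = j) ∧
      (∀ x, Adj T v x ↔ ∃ i, i < deg T v ∧ x = l i) ∧
      (∀ f, f ∈ star T v ↔ ∃ i, i < deg T v ∧ f = {v, l i, l (i + 1)}) := by
  classical
  have hP := h.toPre
  obtain ⟨hvu, f0, hf0, hvf, huf⟩ := hu
  obtain ⟨u1, hu1v, hu1u, hf0e⟩ := LinkFun_third (hP.card3 f0 hf0) hvf huf hvu.symm
  have hR0 : LinkFun_R T v u u1 := ⟨hvu.symm, hu1v, hu1u.symm, hf0e ▸ hf0⟩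
  -- the walk on states
  let St := {p : V × V // LinkFun_R T v p.1 p.2}
  let step : St → St := fun p =>
    ⟨(p.1.2, Classical.choose (LinkFun_next hP p.2)),
      (Classical.choose_spec (LinkFun_next hP p.2)).2⟩
  have hstep1 : ∀ p : St, (step p).1.1 = p.1.2 := fun p => rfl
  have hstep2 : ∀ p : St, (step p).1.2 ≠ p.1.1 := fun p =>
    (Classical.choose_spec (LinkFun_next hP p.2)).1
  let s0 : St := ⟨(u, u1), hR0⟩
  let st : ℕ → St := fun n => step^[n] s0
  have hst : ∀ n, st (n + 1) = step (st n) := fun n => Function.iterate_succ_apply' _ _ _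
  let l : ℕ → V := fun n => (st n).1.1
  have hl1 : ∀ n, (st n).1.2 = l (n + 1) := by
    intro n
    change _ = (st (n + 1)).1.1
    rw [hst]
  have hR : ∀ n, LinkFun_R T v (l n) (l (n + 1)) := by
    intro n
    rw [← hl1 n]
    exact (st n).2
  have hne : ∀ n, l (n + 2) ≠ l n := by
    intro n
    rw [← hl1 (n + 1), hst]
    exact hstep2 (st n)
  have hN : ∀ n, l n ∈ verts T := by
    intro n
    simp only [verts, mem_biUnion, id]
    exact ⟨_, (hR n).2.2.2, by simp⟩
  obtain ⟨d, hd3, hper, hinj⟩ := LinkFun_walk (R := LinkFun_R T v)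
    (fun x y => LinkFun_R_symm) (fun x hx => hx.2.2.1 rfl)
    (fun y x z w h1 h2 h3 h4 => LinkFun_two hP h1 h2 h3 h4) (verts T) l hN hR hne
  -- the neighbours of `l i` in the link
  have hnb : ∀ i y, LinkFun_R T v (l i) y → y = l (i + 1) ∨ y = l (i + (d - 1)) := by
    intro i y hy
    have h2 : LinkFun_R T v (l i) (l (i + (d - 1))) := by
      have := LinkFun_R_symm (hR (i + (d - 1)))
      rwa [show i + (d - 1) + 1 = i + d by omega, hper i] at this
    have h3 : l (i + 1) ≠ l (i + (d - 1)) := by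
      have h4 := hne (i + (d - 1))
      rwa [show i + (d - 1) + 2 = i + 1 + d by omega, hper (i + 1)] at h4
    exact LinkFun_two hP (hR i) h2 hy h3
  have hred : ∀ i, ∃ j, j < d ∧ l i = l j := by
    intro i
    induction i using Nat.strong_induction_on with
    | _ i ih =>
      by_cases hi : i < d
      · exact ⟨i, hi, rfl⟩
      · obtain ⟨j, hj, he⟩ := ih (i - d) (by omega)
        refine ⟨j, hj, ?_⟩
        rw [← he, ← hper (i - d), Nat.sub_add_cancel (by omega)]
  have hredf : ∀ i, ∃ j, j < d ∧ ({v, l i, l (i + 1)} : Finset V) = {v, l j, l (j + 1)} := by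
    intro i
    induction i using Nat.strong_induction_on with
    | _ i ih =>
      by_cases hi : i < d
      · exact ⟨i, hi, rfl⟩
      · obtain ⟨j, hj, he⟩ := ih (i - d) (by omega)
        refine ⟨j, hj, ?_⟩
        rw [← he, ← hper (i - d), ← hper (i - d + 1), Nat.sub_add_cancel (by omega),
          show i - d + 1 + d = i + 1 by omega]
  let S : Finset (Finset V) := (range d).image (fun i => {v, l i, l (i + 1)})
  have hSmem : ∀ f, f ∈ S ↔ ∃ i, i < d ∧ f = {v, l i, l (i + 1)} := by
    intro f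
    simp only [S, mem_image, mem_range]
    constructor
    · rintro ⟨i, hi, rfl⟩
      exact ⟨i, hi, rfl⟩
    · rintro ⟨i, hi, rfl⟩
      exact ⟨i, hi, rfl⟩
  have hSall : ∀ i, ({v, l i, l (i + 1)} : Finset V) ∈ S := by
    intro i
    obtain ⟨j, hj, he⟩ := hredf i
    rw [he]
    exact (hSmem _).2 ⟨j, hj, rfl⟩
  have hSsub : S ⊆ star T v := by
    intro f hf
    obtain ⟨i, hi, rfl⟩ := (hSmem f).1 hf
    exact LinkFun_mem_star.2 ⟨(hR i).2.2.2, by simp⟩
  have hSR : ∀ i y, LinkFun_R T v (l i) y → ({v, l i, y} : Finset V) ∈ S := by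
    intro i y hy
    rcases hnb i y hy with rfl | rfl
    · exact hSall i
    · have := hSall (i + (d - 1))
      rwa [show i + (d - 1) + 1 = i + d by omega, hper i, pair_comm] at this
  have hSeq : S = star T v := by
    refine link_conn h v S hSsub ⟨_, hSall 0⟩ ?_
    intro f hf g hg hfg
    obtain ⟨i, hi, rfl⟩ := (hSmem f).1 hf
    obtain ⟨hgT, hvg⟩ := LinkFun_mem_star.1 hg
    have hx : ∃ x, x ∈ ({v, l i, l (i + 1)} : Finset V) ∩ g ∧ x ≠ v := by
      obtain ⟨x, hx, hxv⟩ := exists_mem_ne (by omega :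
        1 < (({v, l i, l (i + 1)} : Finset V) ∩ g).card) v
      exact ⟨x, hx, hxv⟩
    obtain ⟨x, hx, hxv⟩ := hx
    obtain ⟨hxf, hxg⟩ := mem_inter.1 hx
    obtain ⟨y, hyv, hyx, hge⟩ := LinkFun_third (hP.card3 g hgT) hvg hxg hxv
    have hRx : LinkFun_R T v x y := ⟨hxv, hyv, hyx.symm, hge ▸ hgT⟩
    simp only [mem_insert, mem_singleton] at hxf
    rcases hxf with hxf | hxf | hxf
    · exact absurd hxf hxv
    · rw [hge]
      subst hxf
      exact hSR i y hRx
    · rw [hge]
      subst hxf
      exact hSR (i + 1) y hRx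
  have hinjf : Set.InjOn (fun i => ({v, l i, l (i + 1)} : Finset V)) (range d : Set ℕ) := by
    intro i hi j hj hij
    simp only [coe_range, Set.mem_Iio] at hi hj
    simp only at hij
    have h1 : l i ∈ ({v, l j, l (j + 1)} : Finset V) := by rw [← hij]; simp
    have h2 : l (i + 1) ∈ ({v, l j, l (j + 1)} : Finset V) := by rw [← hij]; simp
    simp only [mem_insert, mem_singleton] at h1 h2
    rcases h1 with h1 | h1 | h1
    · exact absurd h1 (hR i).1
    · exact hinj i j hi hj h1
    · rcases h2 with h2 | h2 | h2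
      · exact absurd h2 (hR i).2.1
      · exfalso
        rcases lt_trichotomy i j with hlt | hlt | hlt
        · rcases Nat.lt_or_ge (i + 1) d with h5 | h5
          · have h6 := hinj (i + 1) j h5 hj h2
            subst h6
            exact hne i h1.symm
          · omega
        · subst hlt
          exact (hR i).2.2.1 h2.symm
        · rcases Nat.lt_or_ge (j + 1) d with h5 | h5
          · have h6 := hinj i (j + 1) hi h5 h1
            subst h6
            exact hne j h2
          · omega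
      · exact absurd (h1.trans h2.symm) (hR i).2.2.1
  have hdeg : deg T v = d := by
    unfold deg
    rw [← hSeq]
    change ((range d).image _).card = d
    rw [card_image_of_injOn hinjf, card_range]
  refine ⟨l, rfl, ?_, ?_, ?_, ?_, ?_⟩
  · rw [hdeg]; exact hd3
  · rw [hdeg]; exact hper
  · rw [hdeg]; exact hinj
  · intro x
    rw [hdeg]
    constructor
    · rintro ⟨hvx, f, hf, hvf', hxf⟩
      have hfS : f ∈ S := by
        rw [hSeq]
        exact LinkFun_mem_star.2 ⟨hf, hvf'⟩
      obtain ⟨i, hi, rfl⟩ := (hSmem f).1 hfS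
      simp only [mem_insert, mem_singleton] at hxf
      rcases hxf with hxf | hxf | hxf
      · exact absurd hxf.symm hvx
      · exact ⟨i, hi, hxf⟩
      · obtain ⟨j, hj, he⟩ := hred (i + 1)
        exact ⟨j, hj, hxf.trans he⟩
    · rintro ⟨i, hi, rfl⟩
      exact ⟨(hR i).1.symm, _, (hR i).2.2.2, by simp, by simp⟩
  · intro f
    rw [hdeg, ← hSeq]
    exact hSmem f

end Pool.Agent.TH246.PR
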