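import Pool.Agent.TH246.PR.Region2

set_option autoImplicit false
set_option linter.unusedVariables false
set_option linter.unusedSimpArgs false
set_option linter.unusedSectionVars false

namespace Pool.Agent.TH246.PR

open Finset

variable {V : Type} [DecidableEq V]

lemma NoSep_adj_symm {T : Finset (Finset V)} {u v : V} (h : Adj T u v) : Adj T v u := by
  obtain ⟨h1, f, hf, h2, h3⟩ := h
  exact ⟨h1.symm, f, hf, h3, h2⟩

lemma NoSep_mem_ef {T : Finset (Finset V)} {u v : V} {f : Finset V} :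
    f ∈ ef T u v ↔ f ∈ T ∧ u ∈ f ∧ v ∈ f := by
  simp [ef]

lemma NoSep_mem_star {T : Finset (Finset V)} {v : V} {f : Finset V} :
    f ∈ star T v ↔ f ∈ T ∧ v ∈ f := by
  simp [star]

lemma NoSep_mem_verts {T : Finset (Finset V)} {v : V} :
    v ∈ verts T ↔ ∃ f ∈ T, v ∈ f := by
  simp [verts]

lemma NoSep_rot {T X : Finset (Finset V)} {a b c d : V} (h : Region T X a b c d) :
    Region T X b c d a := by
  refine ⟨?_, h.bc, h.cd, h.da, h.ab, ?_⟩
  · have := h.nodup
    simp only [List.nodup_cons, List.mem_cons, List.not_mem_nil, or_false, not_or,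
      not_false_eq_true, List.nodup_nil, and_true] at this ⊢
    obtain ⟨⟨h1, h2, h3⟩, ⟨h4, h5⟩, h6⟩ := this
    exact ⟨⟨h4, h5, Ne.symm h1⟩, ⟨h6, Ne.symm h2⟩, Ne.symm h3⟩
  · have : ({s(b, c), s(c, d), s(d, a), s(a, b)} : Finset (Sym2 V)) =
        {s(a, b), s(b, c), s(c, d), s(d, a)} := by
      ext e
      simp only [mem_insert, mem_singleton]
      tauto
    rw [this]
    exact h.bdry

lemma NoSep_inn_rot (X : Finset (Finset V)) (a b c d : V) : inn X b c d a = inn X a b c d := by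
  unfold inn
  congr 1
  ext x
  simp only [mem_insert, mem_singleton]
  tauto

lemma NoSep_min_rot {T X : Finset (Finset V)} {a b c d : V} (h : MinReg T X a b c d) :
    MinReg T X b c d a := ⟨NoSep_rot h.reg, h.six, h.min⟩

/-- the first edge of the 4-cycle has exactly one face in the region -/
lemma NoSep_one {T X : Finset (Finset V)} {a b c d : V} (h : Region T X a b c d) :
    (ef X a b).card = 1 := (h.bdry.2 a b h.ab).2 (by simp)

lemma NoSep_uniq {T X : Finset (Finset V)} {a b c d : V} (h : Region T X a b c d)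
    {f g : Finset V} (hf : f ∈ X) (hg : g ∈ X) (haf : a ∈ f) (hbf : b ∈ f) (hag : a ∈ g)
    (hbg : b ∈ g) : f = g := by
  have h1 := NoSep_one h
  exact card_le_one.1 h1.le f (NoSep_mem_ef.2 ⟨hf, haf, hbf⟩) g (NoSep_mem_ef.2 ⟨hg, hag, hbg⟩)

lemma NoSep_in {T X : Finset (Finset V)} {a b c d : V} (h : Region T X a b c d) :
    ∃ g ∈ X, a ∈ g ∧ b ∈ g := by
  have h1 := NoSep_one h
  obtain ⟨g, hg⟩ := card_pos.1 (by omega : 0 < (ef X a b).card)
  exact ⟨g, NoSep_mem_ef.1 hg⟩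

lemma NoSep_out {T X : Finset (Finset V)} (hT : Pre T) {a b c d : V} (h : Region T X a b c d) :
    ∃ g ∈ T, a ∈ g ∧ b ∈ g ∧ g ∉ X := by
  by_contra hc
  push Not at hc
  have h1 := NoSep_one h
  have h2 := hT.two a b h.ab
  have h3 : ef T a b ⊆ ef X a b := by
    intro g hg
    obtain ⟨hgT, hag, hbg⟩ := NoSep_mem_ef.1 hg
    exact NoSep_mem_ef.2 ⟨hc g hgT hag hbg, hag, hbg⟩
  have := card_le_card h3
  omega

/-- a corner has a face outside -/
lemma NoSep_corner {T X : Finset (Finset V)} (hT : Pre T) {a b c d w : V}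
    (h : Region T X a b c d) (hw : w = a ∨ w = b ∨ w = c ∨ w = d) :
    ∃ g ∈ T, w ∈ g ∧ g ∉ X := by
  rcases hw with rfl | rfl | rfl | rfl
  · obtain ⟨g, h1, h2, h3, h4⟩ := NoSep_out hT h
    exact ⟨g, h1, h2, h4⟩
  · obtain ⟨g, h1, h2, h3, h4⟩ := NoSep_out hT h
    exact ⟨g, h1, h3, h4⟩
  · obtain ⟨g, h1, h2, h3, h4⟩ := NoSep_out hT (NoSep_rot (NoSep_rot h))
    exact ⟨g, h1, h2, h4⟩
  · obtain ⟨g, h1, h2, h3, h4⟩ := NoSep_out hT (NoSep_rot (NoSep_rot h))
    exact ⟨g, h1, h3, h4⟩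

/-- the faces at an edge -/
lemma NoSep_two {T : Finset (Finset V)} (hT : Pre T) {u w : V} (huw : u ≠ w)
    {f g k : Finset V} (hf : f ∈ T) (hg : g ∈ T) (hk : k ∈ T) (hfg : f ≠ g) (huf : u ∈ f)
    (hwf : w ∈ f) (hug : u ∈ g) (hwg : w ∈ g) (huk : u ∈ k) (hwk : w ∈ k) : k = f ∨ k = g := by
  have h2 := hT.two u w ⟨huw, f, hf, huf, hwf⟩
  have hsub : ({f, g} : Finset (Finset V)) ⊆ ef T u w := by
    intro x hx
    simp only [mem_insert, mem_singleton] at hx
    rcases hx with rfl | rfl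
    · exact NoSep_mem_ef.2 ⟨hf, huf, hwf⟩
    · exact NoSep_mem_ef.2 ⟨hg, hug, hwg⟩
  have heq : ({f, g} : Finset (Finset V)) = ef T u w :=
    eq_of_subset_of_card_le hsub (by rw [h2, card_pair hfg])
  have hkm : k ∈ ef T u w := NoSep_mem_ef.2 ⟨hk, huk, hwk⟩
  rw [← heq] at hkm
  simpa using hkm

/-- two common elements of two faces -/
lemma NoSep_inter {f g : Finset V} (h : (f ∩ g).card = 2) :
    ∃ x y, x ≠ y ∧ x ∈ f ∧ x ∈ g ∧ y ∈ f ∧ y ∈ g := by
  obtain ⟨x, y, hxy, he⟩ := card_eq_two.1 h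
  have hx : x ∈ f ∩ g := by rw [he]; simp
  have hy : y ∈ f ∩ g := by rw [he]; simp
  exact ⟨x, y, hxy, (mem_inter.1 hx).1, (mem_inter.1 hx).2, (mem_inter.1 hy).1,
    (mem_inter.1 hy).2⟩

/-- two common elements of a triple and a face -/
lemma NoSep_inter3 {x y z : V} {g : Finset V} (h : (({x, y, z} : Finset V) ∩ g).card = 2) :
    (x ∈ g ∧ y ∈ g) ∨ (y ∈ g ∧ z ∈ g) ∨ (x ∈ g ∧ z ∈ g) := by
  obtain ⟨s, t, hst, hs, hs', ht, ht'⟩ := NoSep_inter h
  simp only [mem_insert, mem_singleton] at hs ht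
  rcases hs with rfl | rfl | rfl <;> rcases ht with rfl | rfl | rfl <;>
    first
      | exact absurd rfl hst
      | tauto

lemma NoSep_even {p v q z : V} (hn : [p, v, q, z].Nodup) (w : V) :
    Even ((({s(p, v), s(v, q), s(q, z), s(z, p)} : Finset (Sym2 V)).filter
      (fun e => w ∈ e)).card) := by
  simp only [List.nodup_cons, List.mem_cons, List.not_mem_nil, or_false, not_or,
      not_false_eq_true, List.nodup_nil, and_true] at hn
  obtain ⟨⟨hpv, hpq, hpz⟩, ⟨hvq, hvz⟩, hqz⟩ := hn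
  rw [card_filter, sum_insert, sum_insert, sum_insert, sum_singleton]
  · simp only [Sym2.mem_iff]
    by_cases h1 : w = p
    · subst h1
      simp [hpv, hpq, hpz, hvq, hvz, hqz]
    · by_cases h2 : w = v
      · subst h2
        simp [hpv, hpq, hpz, hvq, hvz, hqz, h1]
      · by_cases h3 : w = q
        · subst h3
          simp [hpv, hpq, hpz, hvq, hvz, hqz, h1, h2]
        · by_cases h4 : w = z
          · subst h4
            simp [hpv, hpq, hpz, hvq, hvz, hqz, h1, h2, h3]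
          · simp [h1, h2, h3, h4]
  · simp only [mem_singleton, Sym2.eq_iff, not_or, not_and]
    exact ⟨fun h => absurd h hqz, fun h => absurd h.symm hpq⟩
  · simp only [mem_insert, mem_singleton, Sym2.eq_iff, not_or, not_and]
    exact ⟨⟨fun h => absurd h hvq, fun h => absurd h hvz⟩,
      ⟨fun h => absurd h hvz, fun h => absurd h.symm hpv⟩⟩
  · simp only [mem_insert, mem_singleton, Sym2.eq_iff, not_or, not_and]
    exact ⟨⟨fun h => absurd h hpv, fun h => absurd h hpq⟩,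
      ⟨fun h => absurd h hpq, fun h => absurd h hpz⟩,
      ⟨fun h => absurd h hpz, fun _ h => absurd h hvz⟩⟩

lemma NoSep_region {T : Finset (Finset V)} (h : Sphere T) {p v q z : V}
    (hn : [p, v, q, z].Nodup) (hpv : Adj T p v) (hvq : Adj T v q) (hqz : Adj T q z)
    (hzp : Adj T z p) : ∃ Y, Region T Y p v q z := by
  obtain ⟨Y, hY⟩ := exists_bdry h {s(p, v), s(v, q), s(q, z), s(z, p)} (by
    intro e he
    simp only [mem_insert, mem_singleton] at he
    rcases he with rfl | rfl | rfl | rfl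
    · exact ⟨_, _, hpv, rfl⟩
    · exact ⟨_, _, hvq, rfl⟩
    · exact ⟨_, _, hqz, rfl⟩
    · exact ⟨_, _, hzp, rfl⟩) (NoSep_even hn)
  exact ⟨Y, hn, hpv, hvq, hqz, hzp, hY⟩

/-- small regions give the conclusion -/
lemma NoSep_key {T Y : Finset (Finset V)} (h : Sphere T) (hF : Fac T) (h4 : 4 < T.card)
    {p v q z : V} (hY : Region T Y p v q z) (hpq : ¬ Adj T p q) (h6 : Y.card < 6) :
    ∃ t, ({v, p, t} : Finset V) ∈ T ∧ ({v, t, q} : Finset V) ∈ T ∧
      (z = t ∨ (t ∈ inn Y p v q z ∧ deg T t = 4)) := by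
  have hYT : Y ⊆ T := hY.bdry.1
  have hn := hY.nodup
  simp only [List.nodup_cons, List.mem_cons, List.not_mem_nil, or_false, not_or,
      not_false_eq_true, List.nodup_nil, and_true] at hn
  rcases region_small h hF h4 hY h6 with ⟨h1, -, -⟩ | ⟨h1, h2, -⟩ | ⟨t, h1, h2, -, h3, h5, -, -⟩
  · exact absurd ⟨hn.1.2.1, _, hYT h1, by simp, by simp⟩ hpq
  · refine ⟨z, ?_, ?_, Or.inl rfl⟩
    · rw [Finset.insert_comm]
      exact hYT h1
    · rw [pair_comm]
      exact hYT h2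
  · refine ⟨t, ?_, ?_, Or.inr ⟨h1, h2⟩⟩
    · have e : ({v, p, t} : Finset V) = {t, p, v} := by
        ext x
        simp only [mem_insert, mem_singleton]
        tauto
      rw [e]
      exact hYT h3
    · rw [Finset.insert_comm]
      exact hYT h5

theorem noSepB {T X : Finset (Finset V)} (h : Sphere T) (hF : Fac T) (h4 : 4 < T.card)
    {a b c d : V} (hX : MinReg T X a b c d) (h2 : (T \ X).card ≤ 2) {v : V} (hv : v ∈ verts T) :
    NoSep T (verts T) v := by
  intro p q hp hq hpq hnpq z hzv hzp hzq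
  have hn : [p, v, q, z].Nodup := by
    simp only [List.nodup_cons, List.mem_cons, List.not_mem_nil, or_false, not_or,
      not_false_eq_true, List.nodup_nil, and_true]
    exact ⟨⟨hp.1.symm, hpq, hzp.1.symm⟩, ⟨hq.1, hzv.symm⟩, hzq.1.symm⟩
  obtain ⟨Y, hY⟩ := NoSep_region h hn (NoSep_adj_symm hp) hq (NoSep_adj_symm hzq) hzp
  have hY' := region_compl h hY
  have fin : ∀ Y', Region T Y' p v q z → Y'.card < 6 →
      ∃ t, ({v, p, t} : Finset V) ∈ T ∧ ({v, t, q} : Finset V) ∈ T ∧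
      (z = t ∨ (t ∈ verts T ∧ deg T t = 4)) := by
    intro Y' hY' h6
    obtain ⟨t, h1, h2, h3⟩ := NoSep_key h hF h4 hY' hnpq h6
    refine ⟨t, h1, h2, ?_⟩
    rcases h3 with h3 | ⟨h3, h5⟩
    · exact Or.inl h3
    · refine Or.inr ⟨?_, h5⟩
      exact NoSep_mem_verts.2 ⟨_, h1, by simp⟩
  by_cases h6 : Y.card < 6
  · exact fin Y hY h6
  by_cases h7 : (T \ Y).card < 6
  · exact fin _ hY' h7
  exfalso
  have h8 := hX.min Y _ _ _ _ hY (by omega)
  have h9 := hX.min _ _ _ _ _ hY' (by omega)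
  have h10 := card_sdiff_add_card_eq_card hY.bdry.1
  have h11 := card_sdiff_add_card_eq_card hX.reg.bdry.1
  have h12 := hX.six
  omega

/-- a smaller region inside gives the conclusion -/
lemma NoSep_sub {T X : Finset (Finset V)} (h : Sphere T) (hF : Fac T) (h4 : 4 < T.card)
    {a b c d : V} (hX : MinReg T X a b c d) {v p q z : V} (hv : v ∈ inn X a b c d)
    {Y : Finset (Finset V)} (hY : Region T Y p v q z) (hpq : ¬ Adj T p q) (hYX : Y ⊆ X) :
    ∃ t, ({v, p, t} : Finset V) ∈ T ∧ ({v, t, q} : Finset V) ∈ T ∧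
      (z = t ∨ (t ∈ inn X a b c d ∧ deg T t = 4)) := by
  have hvX := region_star h hX.reg hv
  obtain ⟨g, hgT, hpg, hvg, hgY⟩ := NoSep_out h.toPre hY
  have hgX : g ∈ X := hvX (NoSep_mem_star.2 ⟨hgT, hvg⟩)
  have hlt : Y.card < X.card := card_lt_card ⟨hYX, fun hc => hgY (hc hgX)⟩
  have h6 : Y.card < 6 := by
    by_contra hc
    have := hX.min Y _ _ _ _ hY (by omega)
    omega
  obtain ⟨t, h1, h2, h3⟩ := NoSep_key h hF h4 hY hpq h6
  refine ⟨t, h1, h2, ?_⟩
  rcases h3 with h3 | ⟨h3, h5⟩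
  · exact Or.inl h3
  · refine Or.inr ⟨?_, h5⟩
    have hst := region_star h hY h3
    have htY : t ∈ verts Y := (mem_sdiff.1 h3).1
    obtain ⟨f, hf, htf⟩ := NoSep_mem_verts.1 htY
    refine mem_sdiff.2 ⟨NoSep_mem_verts.2 ⟨f, hYX hf, htf⟩, fun ht => ?_⟩
    simp only [mem_insert, mem_singleton] at ht
    obtain ⟨k, hkT, htk, hkX⟩ := NoSep_corner h.toPre hX.reg ht
    exact hkX (hYX (hst (NoSep_mem_star.2 ⟨hkT, htk⟩)))

/-- the case where the edges `pz` and `qz` both have a face in `X` -/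
lemma NoSep_a {T X : Finset (Finset V)} (h : Sphere T) (hF : Fac T) (h4 : 4 < T.card)
    {a b c d : V} (hX : MinReg T X a b c d) {v p q z : V} (hv : v ∈ inn X a b c d)
    (hp : Adj T v p) (hq : Adj T v q) (hpq : p ≠ q) (hnpq : ¬ Adj T p q) (hzv : z ≠ v)
    (hzp : Adj T z p) (hzq : Adj T z q) (hpz : ∃ f ∈ X, p ∈ f ∧ z ∈ f)
    (hqz : ∃ f ∈ X, q ∈ f ∧ z ∈ f) :
    ∃ t, ({v, p, t} : Finset V) ∈ T ∧ ({v, t, q} : Finset V) ∈ T ∧
      (z = t ∨ (t ∈ inn X a b c d ∧ deg T t = 4)) := by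
  have hvX := region_star h hX.reg hv
  have hn : [p, v, q, z].Nodup := by
    simp only [List.nodup_cons, List.mem_cons, List.not_mem_nil, or_false, not_or,
      not_false_eq_true, List.nodup_nil, and_true]
    exact ⟨⟨hp.1.symm, hpq, hzp.1.symm⟩, ⟨hq.1, hzv.symm⟩, hzq.1.symm⟩
  obtain ⟨Y, hY⟩ := NoSep_region h hn (NoSep_adj_symm hp) hq (NoSep_adj_symm hzq) hzp
  have hY' := region_compl h hY
  have hW := region_compl h hX.reg
  by_cases c1 : Y ⊆ X
  · exact NoSep_sub h hF h4 hX hv hY hnpq c1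
  by_cases c2 : T \ Y ⊆ X
  · exact NoSep_sub h hF h4 hX hv hY' hnpq c2
  exfalso
  obtain ⟨f1, hf1, hf1X⟩ := not_subset.1 c1
  obtain ⟨f2, hf2, hf2X⟩ := not_subset.1 c2
  have hf1T : f1 ∈ T := hY.bdry.1 hf1
  have key : ∃ f ∈ (T \ X) ∩ Y, ∃ g ∈ T \ X, (f ∩ g).card = 2 ∧ g ∉ (T \ X) ∩ Y := by
    by_contra hc
    push Not at hc
    have := region_conn h hW ((T \ X) ∩ Y) inter_subset_left
      ⟨f1, mem_inter.2 ⟨mem_sdiff.2 ⟨hf1T, hf1X⟩, hf1⟩⟩ (fun f hf g hg hfg => hc f hf g hg hfg)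
    have hf2' : f2 ∈ (T \ X) ∩ Y := by
      rw [this]
      exact mem_sdiff.2 ⟨(mem_sdiff.1 hf2).1, hf2X⟩
    exact (mem_sdiff.1 hf2).2 (mem_inter.1 hf2').2
  obtain ⟨f, hf, g, hg, hfg, hgn⟩ := key
  obtain ⟨hfW, hfY⟩ := mem_inter.1 hf
  obtain ⟨hfT, hfX⟩ := mem_sdiff.1 hfW
  obtain ⟨hgT, hgX⟩ := mem_sdiff.1 hg
  have hgY : g ∉ Y := fun hc => hgn (mem_inter.2 ⟨hg, hc⟩)
  have hfg' : f ≠ g := fun hc => hgY (hc ▸ hfY)
  obtain ⟨x, y, hxy, hxf, hxg, hyf, hyg⟩ := NoSep_inter hfg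
  have hA : Adj T x y := ⟨hxy, f, hfT, hxf, hyf⟩
  have hY1 : (ef Y x y).card = 1 := by
    apply le_antisymm
    · have h1 : (ef Y x y) ⊂ ef T x y := by
        refine ⟨fun k hk => ?_, fun hc => ?_⟩
        · obtain ⟨hk1, hk2, hk3⟩ := NoSep_mem_ef.1 hk
          exact NoSep_mem_ef.2 ⟨hY.bdry.1 hk1, hk2, hk3⟩
        · exact hgY (NoSep_mem_ef.1 (hc (NoSep_mem_ef.2 ⟨hgT, hxg, hyg⟩))).1
      have h2 := card_lt_card h1
      have h3 := h.toPre.two x y hA
      omega
    · exact card_pos.2 ⟨f, NoSep_mem_ef.2 ⟨hfY, hxf, hyf⟩⟩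
  have hZ := (hY.bdry.2 x y hA).1 hY1
  have hvf : ∀ k ∈ T, k ∉ X → v ∉ k := fun k hk hkX hvk =>
    hkX (hvX (NoSep_mem_star.2 ⟨hk, hvk⟩))
  have hout : ∀ s t, s ≠ t → s ∈ f → t ∈ f → s ∈ g → t ∈ g → ¬ ∃ k ∈ X, s ∈ k ∧ t ∈ k := by
    rintro s t hst h1 h2 h3 h5 ⟨k, hk, h7, h8⟩
    rcases NoSep_two h.toPre hst hfT hgT (hX.reg.bdry.1 hk) hfg' h1 h2 h3 h5 h7 h8 with rfl | rfl
    · exact hfX hk
    · exact hgX hk
  simp only [mem_insert, mem_singleton, Sym2.eq_iff] at hZ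
  rcases hZ with (⟨rfl, rfl⟩ | ⟨rfl, rfl⟩) | (⟨rfl, rfl⟩ | ⟨rfl, rfl⟩) | (⟨rfl, rfl⟩ | ⟨rfl, rfl⟩) |
    (⟨rfl, rfl⟩ | ⟨rfl, rfl⟩)
  · exact hvf f hfT hfX hyf
  · exact hvf f hfT hfX hxf
  · exact hvf f hfT hfX hxf
  · exact hvf f hfT hfX hyf
  · exact hout _ _ hxy hxf hyf hxg hyg hqz
  · exact hout _ _ hxy.symm hyf hxf hyg hxg hqz
  · exact hout _ _ hxy.symm hyf hxf hyg hxg hpz
  · exact hout _ _ hxy hxf hyf hxg hyg hpz

/-- the case where `p` and `q` are opposite corners -/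
lemma NoSep_b1 {T X : Finset (Finset V)} (h : Sphere T) (hF : Fac T) (h4 : 4 < T.card)
    {a b c d : V} (hX : MinReg T X a b c d) {v : V} (hv : v ∈ inn X a b c d)
    (hp : Adj T v a) (hq : Adj T v c) (hac : ¬ Adj T a c) :
    ∃ t, ({v, a, t} : Finset V) ∈ T ∧ ({v, t, c} : Finset V) ∈ T ∧
      (t ∈ inn X a b c d ∧ deg T t = 4) := by
  have hvX := region_star h hX.reg hv
  have hn := hX.reg.nodup
  simp only [List.nodup_cons, List.mem_cons, List.not_mem_nil, or_false, not_or,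
      not_false_eq_true, List.nodup_nil, and_true] at hn
  obtain ⟨⟨hab, hac', had⟩, ⟨hbc, hbd⟩, hcd⟩ := hn
  have hvn := (mem_sdiff.1 hv).2
  simp only [mem_insert, mem_singleton, not_or] at hvn
  obtain ⟨hva, hvb, hvc, hvd⟩ := hvn
  have r0 := hX.reg
  have r1 := NoSep_rot r0
  have r2 := NoSep_rot r1
  have r3 := NoSep_rot r2
  have sw : ∀ x y : V, (∃ f ∈ X, x ∈ f ∧ y ∈ f) → ∃ f ∈ X, y ∈ f ∧ x ∈ f := by
    rintro x y ⟨f, h1, h2, h3⟩
    exact ⟨f, h1, h3, h2⟩
  obtain ⟨t1, h1, h2, h3⟩ := NoSep_a h hF h4 hX hv hp hq hac' hac (z := b) (Ne.symm hvb)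
    (NoSep_adj_symm r0.ab) r0.bc (NoSep_in r0) (sw _ _ (NoSep_in r1))
  rcases h3 with h3 | h3
  swap
  · exact ⟨t1, h1, h2, h3⟩
  obtain ⟨t2, h5, h6, h7⟩ := NoSep_a h hF h4 hX hv hp hq hac' hac (z := d) (Ne.symm hvd)
    r0.da (NoSep_adj_symm r0.cd) (sw _ _ (NoSep_in r3)) (NoSep_in r2)
  rcases h7 with h7 | h7
  swap
  · exact ⟨t2, h5, h6, h7⟩
  subst h3
  subst h7
  exfalso
  have e1 : ({v, a, b} : Finset V) ≠ {v, a, d} := by
    intro he
    have : b ∈ ({v, a, d} : Finset V) := by rw [← he]; simp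
    simp only [mem_insert, mem_singleton] at this
    rcases this with h8 | h8 | h8
    · exact hvb h8.symm
    · exact hab h8.symm
    · exact hbd h8
  have e2 : ({v, b, c} : Finset V) ≠ {v, d, c} := by
    intro he
    have : b ∈ ({v, d, c} : Finset V) := by rw [← he]; simp
    simp only [mem_insert, mem_singleton] at this
    rcases this with h8 | h8 | h8
    · exact hvb h8.symm
    · exact hbd h8
    · exact hbc h8
  have e3 : ({v, a, b} : Finset V) ≠ {v, b, c} := by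
    intro he
    have : a ∈ ({v, b, c} : Finset V) := by rw [← he]; simp
    simp only [mem_insert, mem_singleton] at this
    rcases this with h8 | h8 | h8
    · exact hva h8.symm
    · exact hab h8
    · exact hac' h8
  have e4 : ({v, a, d} : Finset V) ≠ {v, d, c} := by
    intro he
    have : a ∈ ({v, d, c} : Finset V) := by rw [← he]; simp
    simp only [mem_insert, mem_singleton] at this
    rcases this with h8 | h8 | h8
    · exact hva h8.symm
    · exact had h8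
    · exact hac' h8
  have inX : ∀ x y : V, ({v, x, y} : Finset V) ∈ T → ({v, x, y} : Finset V) ∈ X := fun x y hxy =>
    hvX (NoSep_mem_star.2 ⟨hxy, by simp⟩)
  have hS : ({{v, a, b}, {v, b, c}, {v, a, d}, {v, d, c}} : Finset (Finset V)) = X := by
    refine region_conn h hX.reg _ ?_ ⟨_, mem_insert_self _ _⟩ ?_
    · intro k hk
      simp only [mem_insert, mem_singleton] at hk
      rcases hk with rfl | rfl | rfl | rfl
      · exact inX _ _ h1
      · exact inX _ _ h2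
      · exact inX _ _ h5
      · exact inX _ _ h6
    · intro f hf g hg hfg
      have hgT : g ∈ T := hX.reg.bdry.1 hg
      have sva : v ∈ g → a ∈ g → g ∈ ({{v, a, b}, {v, b, c}, {v, a, d}, {v, d, c}} :
          Finset (Finset V)) := by
        intro k1 k2
        rcases NoSep_two h.toPre hva h1 h5 hgT e1 (by simp) (by simp) (by simp) (by simp) k1 k2
          with rfl | rfl <;> simp
      have svb : v ∈ g → b ∈ g → g ∈ ({{v, a, b}, {v, b, c}, {v, a, d}, {v, d, c}} :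
          Finset (Finset V)) := by
        intro k1 k2
        rcases NoSep_two h.toPre hvb h1 h2 hgT e3 (by simp) (by simp) (by simp) (by simp) k1 k2
          with rfl | rfl <;> simp
      have svc : v ∈ g → c ∈ g → g ∈ ({{v, a, b}, {v, b, c}, {v, a, d}, {v, d, c}} :
          Finset (Finset V)) := by
        intro k1 k2
        rcases NoSep_two h.toPre hvc h2 h6 hgT e2 (by simp) (by simp) (by simp) (by simp) k1 k2
          with rfl | rfl <;> simp
      have svd : v ∈ g → d ∈ g → g ∈ ({{v, a, b}, {v, b, c}, {v, a, d}, {v, d, c}} :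
          Finset (Finset V)) := by
        intro k1 k2
        rcases NoSep_two h.toPre hvd h5 h6 hgT e4 (by simp) (by simp) (by simp) (by simp) k1 k2
          with rfl | rfl <;> simp
      simp only [mem_insert, mem_singleton] at hf
      rcases hf with rfl | rfl | rfl | rfl
      · rcases NoSep_inter3 hfg with ⟨k1, k2⟩ | ⟨k1, k2⟩ | ⟨k1, k2⟩
        · exact sva k1 k2
        · rw [NoSep_uniq r0 hg (inX _ _ h1) k1 k2 (by simp) (by simp)]
          simp
        · exact svb k1 k2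
      · rcases NoSep_inter3 hfg with ⟨k1, k2⟩ | ⟨k1, k2⟩ | ⟨k1, k2⟩
        · exact svb k1 k2
        · rw [NoSep_uniq r1 hg (inX _ _ h2) k1 k2 (by simp) (by simp)]
          simp
        · exact svc k1 k2
      · rcases NoSep_inter3 hfg with ⟨k1, k2⟩ | ⟨k1, k2⟩ | ⟨k1, k2⟩
        · exact sva k1 k2
        · rw [NoSep_uniq r3 hg (inX _ _ h5) k2 k1 (by simp) (by simp)]
          simp
        · exact svd k1 k2
      · rcases NoSep_inter3 hfg with ⟨k1, k2⟩ | ⟨k1, k2⟩ | ⟨k1, k2⟩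
        · exact svd k1 k2
        · rw [NoSep_uniq r2 hg (inX _ _ h6) k2 k1 (by simp) (by simp)]
          simp
        · exact svc k1 k2
  have hc6 := hX.six
  rw [← hS] at hc6
  have hc4 := card_le_four (a := ({v, a, b} : Finset V)) (b := {v, b, c}) (c := {v, a, d})
    (d := {v, d, c})
  omega

/-- the case where `p` and `z` are opposite corners -/
lemma NoSep_b2 {T X : Finset (Finset V)} (h : Sphere T) (hF : Fac T) {a b c d : V}
    (hX : Region T X a b c d) (h2 : 2 < (T \ X).card) (hac : Adj T a c)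
    (hno : ¬ ∃ f ∈ X, a ∈ f ∧ c ∈ f) : False := by
  have hn := hX.nodup
  simp only [List.nodup_cons, List.mem_cons, List.not_mem_nil, or_false, not_or,
      not_false_eq_true, List.nodup_nil, and_true] at hn
  obtain ⟨⟨hab, hac', had⟩, ⟨hbc, hbd⟩, hcd⟩ := hn
  have hW := region_compl h hX
  have w1 := NoSep_rot hW
  have w2 := NoSep_rot w1
  have w3 := NoSep_rot w2
  have f1 : ({a, b, c} : Finset V) ∈ T := hF a b c hX.ab hX.bc hac
  have f2 : ({a, c, d} : Finset V) ∈ T := hF a c d hac hX.cd (NoSep_adj_symm hX.da)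
  have f1X : ({a, b, c} : Finset V) ∉ X := fun hc => hno ⟨_, hc, by simp, by simp⟩
  have f2X : ({a, c, d} : Finset V) ∉ X := fun hc => hno ⟨_, hc, by simp, by simp⟩
  have e1 : ({a, b, c} : Finset V) ≠ {a, c, d} := by
    intro he
    have : b ∈ ({a, c, d} : Finset V) := by rw [← he]; simp
    simp only [mem_insert, mem_singleton] at this
    rcases this with h8 | h8 | h8
    · exact hab h8.symm
    · exact hbc h8
    · exact hbd h8
  have f1W : ({a, b, c} : Finset V) ∈ T \ X := mem_sdiff.2 ⟨f1, f1X⟩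
  have f2W : ({a, c, d} : Finset V) ∈ T \ X := mem_sdiff.2 ⟨f2, f2X⟩
  have hS : ({{a, b, c}, {a, c, d}} : Finset (Finset V)) = T \ X := by
    refine region_conn h hW _ ?_ ⟨_, mem_insert_self _ _⟩ ?_
    · intro k hk
      simp only [mem_insert, mem_singleton] at hk
      rcases hk with rfl | rfl
      · exact f1W
      · exact f2W
    · intro f hf g hg hfg
      have hgT : g ∈ T := (mem_sdiff.1 hg).1
      have sac : a ∈ g → c ∈ g → g ∈ ({{a, b, c}, {a, c, d}} : Finset (Finset V)) := by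
        intro k1 k2
        rcases NoSep_two h.toPre hac' f1 f2 hgT e1 (by simp) (by simp) (by simp) (by simp) k1 k2
          with rfl | rfl <;> simp
      simp only [mem_insert, mem_singleton] at hf
      rcases hf with rfl | rfl
      · rcases NoSep_inter3 hfg with ⟨k1, k2⟩ | ⟨k1, k2⟩ | ⟨k1, k2⟩
        · rw [NoSep_uniq hW hg f1W k1 k2 (by simp) (by simp)]
          simp
        · rw [NoSep_uniq w1 hg f1W k1 k2 (by simp) (by simp)]
          simp
        · exact sac k1 k2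
      · rcases NoSep_inter3 hfg with ⟨k1, k2⟩ | ⟨k1, k2⟩ | ⟨k1, k2⟩
        · exact sac k1 k2
        · rw [NoSep_uniq w2 hg f2W k1 k2 (by simp) (by simp)]
          simp
        · rw [NoSep_uniq w3 hg f2W k2 k1 (by simp) (by simp)]
          simp
  rw [← hS, card_pair e1] at h2
  omega

/-- the case where the edge `pz` has no face in `X` -/
lemma NoSep_b {T X : Finset (Finset V)} (h : Sphere T) (hF : Fac T) (h4 : 4 < T.card)
    {a b c d : V} (hX : MinReg T X a b c d) (h2 : 2 < (T \ X).card) {v p q z : V}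
    (hv : v ∈ inn X a b c d) (hp : Adj T v p) (hq : Adj T v q) (hpq : p ≠ q)
    (hnpq : ¬ Adj T p q) (hzv : z ≠ v) (hzp : Adj T z p) (hzq : Adj T z q)
    (hpz : ¬ ∃ f ∈ X, p ∈ f ∧ z ∈ f) :
    ∃ t, ({v, p, t} : Finset V) ∈ T ∧ ({v, t, q} : Finset V) ∈ T ∧
      (z = t ∨ (t ∈ inn X a b c d ∧ deg T t = 4)) := by
  have hvX := region_star h hX.reg hv
  have r0 := hX.reg
  have r1 := NoSep_rot r0
  have r2 := NoSep_rot r1
  have r3 := NoSep_rot r2
  have m1 := NoSep_min_rot hX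
  have m2 := NoSep_min_rot m1
  have m3 := NoSep_min_rot m2
  -- neighbours of `v` are vertices of `X`
  have nbX : ∀ x, Adj T v x → x ∈ verts X := by
    rintro x ⟨-, f, hf, hvf, hxf⟩
    exact NoSep_mem_verts.2 ⟨f, hvX (NoSep_mem_star.2 ⟨hf, hvf⟩), hxf⟩
  have corner : ∀ x, x ∈ verts X → x ∉ inn X a b c d → x = a ∨ x = b ∨ x = c ∨ x = d := by
    intro x hx hxn
    by_contra hc
    exact hxn (mem_sdiff.2 ⟨hx, by simpa only [mem_insert, mem_singleton] using hc⟩)
  obtain ⟨hzp1, f, hf, hzf, hpf⟩ := id hzp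
  have hfX : f ∉ X := fun hc => hpz ⟨f, hc, hpf, hzf⟩
  have hpn : p ∉ inn X a b c d := fun hc =>
    hfX (region_star h hX.reg hc (NoSep_mem_star.2 ⟨hf, hpf⟩))
  have hzn : z ∉ inn X a b c d := fun hc =>
    hfX (region_star h hX.reg hc (NoSep_mem_star.2 ⟨hf, hzf⟩))
  have hpc := corner p (nbX p hp) hpn
  by_cases hzX : z ∈ verts X
  · exfalso
    have hzc := corner z hzX hzn
    have sw : ∀ x y : V, (∃ f ∈ X, x ∈ f ∧ y ∈ f) → ∃ f ∈ X, y ∈ f ∧ x ∈ f := by
      rintro x y ⟨f, h1, h2, h3⟩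
      exact ⟨f, h1, h3, h2⟩
    rcases hpc with rfl | rfl | rfl | rfl <;> rcases hzc with rfl | rfl | rfl | rfl
    · exact hzp1 rfl
    · exact hpz (NoSep_in r0)
    · exact NoSep_b2 h hF r0 h2 (NoSep_adj_symm hzp) hpz
    · exact hpz (sw _ _ (NoSep_in r3))
    · exact hpz (sw _ _ (NoSep_in r0))
    · exact hzp1 rfl
    · exact hpz (NoSep_in r1)
    · exact NoSep_b2 h hF r1 h2 (NoSep_adj_symm hzp) hpz
    · exact NoSep_b2 h hF r2 h2 (NoSep_adj_symm hzp) hpz
    · exact hpz (sw _ _ (NoSep_in r1))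
    · exact hzp1 rfl
    · exact hpz (NoSep_in r2)
    · exact hpz (NoSep_in r3)
    · exact NoSep_b2 h hF r3 h2 (NoSep_adj_symm hzp) hpz
    · exact hpz (sw _ _ (NoSep_in r2))
    · exact hzp1 rfl
  · have hqn : q ∉ inn X a b c d := by
      intro hc
      obtain ⟨-, g, hg, hzg, hqg⟩ := hzq
      exact hzX (NoSep_mem_verts.2 ⟨g, region_star h hX.reg hc (NoSep_mem_star.2 ⟨hg, hqg⟩), hzg⟩)
    have hqc := corner q (nbX q hq) hqn
    have fin : (∃ t, ({v, p, t} : Finset V) ∈ T ∧ ({v, t, q} : Finset V) ∈ T ∧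
        (t ∈ inn X a b c d ∧ deg T t = 4)) → ∃ t, ({v, p, t} : Finset V) ∈ T ∧
        ({v, t, q} : Finset V) ∈ T ∧ (z = t ∨ (t ∈ inn X a b c d ∧ deg T t = 4)) := by
      rintro ⟨t, k1, k2, k3⟩
      exact ⟨t, k1, k2, Or.inr k3⟩
    apply fin
    have i1 := NoSep_inn_rot X a b c d
    have i2 := NoSep_inn_rot X b c d a
    have i3 := NoSep_inn_rot X c d a b
    rcases hpc with rfl | rfl | rfl | rfl <;> rcases hqc with rfl | rfl | rfl | rfl
    · exact absurd rfl hpq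
    · exact absurd r0.ab hnpq
    · exact NoSep_b1 h hF h4 hX hv hp hq hnpq
    · exact absurd (NoSep_adj_symm r0.da) hnpq
    · exact absurd (NoSep_adj_symm r0.ab) hnpq
    · exact absurd rfl hpq
    · exact absurd r0.bc hnpq
    · rw [← i1]
      exact NoSep_b1 h hF h4 m1 (i1 ▸ hv) hp hq hnpq
    · rw [← i1, ← i2]
      exact NoSep_b1 h hF h4 m2 (by rw [i2, i1]; exact hv) hp hq hnpq
    · exact absurd (NoSep_adj_symm r0.bc) hnpq
    · exact absurd rfl hpq
    · exact absurd r0.cd hnpq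
    · exact absurd r0.da hnpq
    · rw [← i1, ← i2, ← i3]
      exact NoSep_b1 h hF h4 m3 (by rw [i3, i2, i1]; exact hv) hp hq hnpq
    · exact absurd (NoSep_adj_symm r0.cd) hnpq
    · exact absurd rfl hpq

theorem noSepA {T X : Finset (Finset V)} (h : Sphere T) (hF : Fac T) (h4 : 4 < T.card)
    {a b c d : V} (hX : MinReg T X a b c d) (h2 : 2 < (T \ X).card) {v : V}
    (hv : v ∈ inn X a b c d) : NoSep T (inn X a b c d) v := by
  intro p q hp hq hpq hnpq z hzv hzp hzq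
  by_cases hpz : ∃ f ∈ X, p ∈ f ∧ z ∈ f
  · by_cases hqz : ∃ f ∈ X, q ∈ f ∧ z ∈ f
    · exact NoSep_a h hF h4 hX hv hp hq hpq hnpq hzv hzp hzq hpz hqz
    · obtain ⟨t, h1, h3, h5⟩ := NoSep_b h hF h4 hX h2 hv hq hp hpq.symm
        (fun hc => hnpq (NoSep_adj_symm hc)) hzv hzq hzp hqz
      refine ⟨t, ?_, ?_, h5⟩
      · rw [pair_comm]
        exact h3
      · rw [pair_comm]
        exact h1
  · exact NoSep_b h hF h4 hX h2 hv hp hq hpq hnpq hzv hzp hzq hpz

end Pool.Agent.TH246.PR
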