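import Pool.Agent.TH246.PR.Contr
import Pool.Agent.TH246.PR.LinkN
import Pool.Agent.TH246.PR.Col3

set_option autoImplicit false
set_option linter.unusedVariables false

namespace Pool.Agent.TH246.PR

open Finset

variable {V : Type} [DecidableEq V]

omit [DecidableEq V] in
theorem Red44_adjSymm {T : Finset (Finset V)} {u v : V} (h : Adj T u v) : Adj T v u := by
  obtain ⟨h1, f, hf, hu, hv⟩ := h
  exact ⟨h1.symm, f, hf, hv, hu⟩

/-- equality of explicit triples -/
theorem Red44_mem3 {x a b c : V} : x ∈ ({a, b, c} : Finset V) ↔ x = a ∨ x = b ∨ x = c := by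
  simp only [mem_insert, mem_singleton]

theorem red44_aux {T : Finset (Finset V)} (h : Sphere T) (hF : Fac T) (h8 : 8 ≤ T.card) {v u : V}
    {a x c e : V} (hnv : [v, u, a, x, c].Nodup)
    (hvn : ∀ y, Adj T v y ↔ y = u ∨ y = a ∨ y = x ∨ y = c)
    (hsv : star T v = {{v, u, a}, {v, a, x}, {v, x, c}, {v, c, u}})
    (hnu : [u, v, a, e, c].Nodup)
    (hun : ∀ y, Adj T u y ↔ y = v ∨ y = a ∨ y = e ∨ y = c)
    (hsu : star T u = {{u, v, a}, {u, a, e}, {u, e, c}, {u, c, v}})
    (ih : ∀ T' : Finset (Finset V), Sphere T' → T'.card < T.card → ∃ w : V → F8, Good T' w) :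
    ∃ w : V → F8, Good T w := by
  have hv1 : ({v, a, x} : Finset V) ∈ T := by
    have : ({v, a, x} : Finset V) ∈ star T v := by rw [hsv]; simp
    exact (mem_filter.1 this).1
  have hv2 : ({v, x, c} : Finset V) ∈ T := by
    have : ({v, x, c} : Finset V) ∈ star T v := by rw [hsv]; simp
    exact (mem_filter.1 this).1
  have hu0 : ({u, v, a} : Finset V) ∈ T := by
    have : ({u, v, a} : Finset V) ∈ star T u := by rw [hsu]; simp
    exact (mem_filter.1 this).1
  have hu1 : ({u, a, e} : Finset V) ∈ T := by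
    have : ({u, a, e} : Finset V) ∈ star T u := by rw [hsu]; simp
    exact (mem_filter.1 this).1
  have hu2 : ({u, e, c} : Finset V) ∈ T := by
    have : ({u, e, c} : Finset V) ∈ star T u := by rw [hsu]; simp
    exact (mem_filter.1 this).1
  simp only [List.nodup_cons, List.mem_cons, List.not_mem_nil, or_false, not_or,
    List.nodup_nil, and_true, not_false_eq_true] at hnv hnu
  obtain ⟨⟨nvu, nva, nvx, nvc⟩, ⟨nua, nux, nuc⟩, ⟨nax, nac⟩, nxc⟩ := hnv
  obtain ⟨⟨nuv, _, nue, _⟩, ⟨_, nve, _⟩, ⟨nae, _⟩, nec⟩ := hnu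
  have hac : ¬ Adj T a c := by
    intro hac
    have hf := hF v a c ((hvn a).2 (by simp)) hac ((hvn c).2 (by simp))
    have hf' : ({v, a, c} : Finset V) ∈ star T v := by
      simp only [star, mem_filter]; exact ⟨hf, by simp⟩
    rw [hsv] at hf'
    simp only [mem_insert, mem_singleton] at hf'
    rcases hf' with hf' | hf' | hf' | hf'
    · have : c ∈ ({v, u, a} : Finset V) := by rw [← hf']; simp
      rw [Red44_mem3] at this
      rcases this with h | h | h
      · exact nvc h.symm
      · exact nuc h.symm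
      · exact nac h.symm
    · have : c ∈ ({v, a, x} : Finset V) := by rw [← hf']; simp
      rw [Red44_mem3] at this
      rcases this with h | h | h
      · exact nvc h.symm
      · exact nac h.symm
      · exact nxc h.symm
    · have : a ∈ ({v, x, c} : Finset V) := by rw [← hf']; simp
      rw [Red44_mem3] at this
      rcases this with h | h | h
      · exact nva h.symm
      · exact nax h
      · exact nac h
    · have : a ∈ ({v, c, u} : Finset V) := by rw [← hf']; simp
      rw [Red44_mem3] at this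
      rcases this with h | h | h
      · exact nva h.symm
      · exact nac h
      · exact nua h.symm
  have hua : Adj T u a := (hun a).2 (by simp)
  have huc : Adj T u c := (hun c).2 (by simp)
  obtain ⟨hS, hcard, hadj⟩ := sphere_contr h hua (by omega) (by
    intro z hzu hza
    rcases (hun z).1 (Red44_adjSymm hzu) with rfl | rfl | rfl | rfl
    · have : ({u, a, z} : Finset V) = {u, z, a} := by
        ext y; simp only [Red44_mem3]; tauto
      rw [this]; exact hu0
    · exact absurd rfl hza.1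
    · exact hu1
    · exact absurd (Red44_adjSymm hza) hac)
  obtain ⟨w, hw⟩ := ih _ hS (by omega)
  have adjF : ∀ p q r : V, ({p, q, r} : Finset V) ∈ T → q ≠ r → Adj T q r := fun p q r hf hqr =>
    ⟨hqr, _, hf, by simp, by simp⟩
  have ax : Adj T a x := adjF v a x hv1 nax
  have xc : Adj T x c := adjF v x c hv2 nxc
  have ae : Adj T a e := adjF u a e hu1 nae
  have ec : Adj T e c := adjF u e c hu2 nec
  have ax3 : Adj (contr T u a) a x := (hadj a x).2 ⟨Ne.symm nua, Ne.symm nux, nax, Or.inl ax⟩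
  have xc3 : Adj (contr T u a) x c := (hadj x c).2 ⟨Ne.symm nux, Ne.symm nuc, nxc, Or.inl xc⟩
  have ae3 : Adj (contr T u a) a e := (hadj a e).2 ⟨Ne.symm nua, Ne.symm nue, nae, Or.inl ae⟩
  have ec3 : Adj (contr T u a) e c := (hadj e c).2 ⟨Ne.symm nue, Ne.symm nuc, nec, Or.inl ec⟩
  have ac3 : Adj (contr T u a) a c :=
    (hadj a c).2 ⟨Ne.symm nua, Ne.symm nuc, nac, Or.inr (Or.inl ⟨rfl, huc⟩)⟩
  obtain ⟨c0, hc1, hc2⟩ := exists_aff_aff (w a) (w x) (w c) (w c) (w e) (good_ne hw ax3)
    (good_ne hw xc3) (good_ne hw ac3) (good_ne hw ac3) (good_ne hw ae3) (good_ne hw ec3).symm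
  have hnb3 : ∀ y, Adj (contr T u a) v y ↔ y = a ∨ y = x ∨ y = c := by
    intro y
    rw [hadj, hvn]
    constructor
    · rintro ⟨h1, h2, h3, h4 | h4 | h4⟩
      · rcases h4 with rfl | h4
        · exact absurd rfl h2
        · exact h4
      · exact absurd h4.1 nva
      · exact Or.inl h4.1
    · rintro (rfl | rfl | rfl)
      · exact ⟨nvu, Ne.symm nua, nva, by simp⟩
      · exact ⟨nvu, Ne.symm nux, nvx, by simp⟩
      · exact ⟨nvu, Ne.symm nuc, nvc, by simp⟩
  have hw3 := rec3 (x := v) (a := a) (b := x) (c := c) (w := w) (T := contr T u a) (by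
    simp only [List.nodup_cons, List.mem_cons, List.not_mem_nil, or_false, not_or,
      List.nodup_nil, and_true, not_false_eq_true]
    exact ⟨⟨nva, nvx, nvc⟩, ⟨nax, nac⟩, nxc⟩) hnb3 hw c0 hc1
  refine ⟨_, chord (T := T) (T' := contr T u a) (u := u) (a := a) (v := v) (c := c) (e := e)
    (w := Function.update w v c0) ?_ ?_ hac ae (Red44_adjSymm ec) ?_ ac3 hw3 ?_⟩
  · simp only [List.nodup_cons, List.mem_cons, List.not_mem_nil, or_false, not_or,
      List.nodup_nil, and_true, not_false_eq_true]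
    exact ⟨⟨nua, nuv, nuc, nue⟩, ⟨Ne.symm nva, nac, nae⟩, ⟨nvc, nve⟩, Ne.symm nec⟩
  · intro y; rw [hun]; tauto
  · intro p q hp hq hpq
    exact (hadj p q).2 ⟨hp, hq, hpq.1, Or.inl hpq⟩
  · rw [Function.update_self, Function.update_of_ne (Ne.symm nva), Function.update_of_ne
      (Ne.symm nvc), Function.update_of_ne (Ne.symm nve)]
    exact hc2

theorem red44 {T : Finset (Finset V)} (h : Sphere T) (hF : Fac T) (h8 : 8 ≤ T.card) {v u : V}
    (hvu : Adj T v u) (hv : deg T v = 4) (hu : deg T u = 4)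
    (ih : ∀ T' : Finset (Finset V), Sphere T' → T'.card < T.card → ∃ w : V → F8, Good T' w) :
    ∃ w : V → F8, Good T w := by
  obtain ⟨a, x, c, hnv, hvn, hsv⟩ := link4 h hvu hv
  obtain ⟨a', e, c', hnu, hun, hsu⟩ := link4 h (Red44_adjSymm hvu) hu
  have hnv' := hnv
  have hnu' := hnu
  simp only [List.nodup_cons, List.mem_cons, List.not_mem_nil, or_false, not_or,
    List.nodup_nil, and_true, not_false_eq_true] at hnv' hnu'
  obtain ⟨⟨nvu, nva, nvx, nvc⟩, ⟨nua, nux, nuc⟩, ⟨nax, nac⟩, nxc⟩ := hnv'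
  obtain ⟨⟨nuv, nua', nue, nuc'⟩, ⟨nva', nve, nvc'⟩, ⟨nae, nac'⟩, nec⟩ := hnu'
  have mem : ∀ y, y ≠ u → y ≠ v → ∀ f ∈ T, u ∈ f → v ∈ f → y ∈ f → y = a' ∨ y = c' := by
    intro y hyu hyv f hf huf hvf hyf
    have : f ∈ star T u := by simp only [star, mem_filter]; exact ⟨hf, huf⟩
    rw [hsu] at this
    simp only [mem_insert, mem_singleton] at this
    rcases this with rfl | rfl | rfl | rfl
    · rw [Red44_mem3] at hyf; tauto
    · rw [Red44_mem3] at hvf; tauto
    · rw [Red44_mem3] at hvf; tauto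
    · rw [Red44_mem3] at hyf; tauto
  have hfa : ({v, u, a} : Finset V) ∈ T := by
    have : ({v, u, a} : Finset V) ∈ star T v := by rw [hsv]; simp
    exact (mem_filter.1 this).1
  have hfc : ({v, c, u} : Finset V) ∈ T := by
    have : ({v, c, u} : Finset V) ∈ star T v := by rw [hsv]; simp
    exact (mem_filter.1 this).1
  have ha := mem a (Ne.symm nua) (Ne.symm nva) _ hfa (by simp) (by simp) (by simp)
  have hc := mem c (Ne.symm nuc) (Ne.symm nvc) _ hfc (by simp) (by simp) (by simp)
  rcases ha with ha | ha <;> rcases hc with hc | hc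
  · exact absurd (ha.trans hc.symm) nac
  · subst ha; subst hc
    exact red44_aux h hF h8 hnv hvn hsv hnu hun hsu ih
  · subst ha; subst hc
    refine red44_aux (e := e) h hF h8 hnv hvn hsv ?_ ?_ ?_ ih
    · simp only [List.nodup_cons, List.mem_cons, List.not_mem_nil, or_false, not_or,
        List.nodup_nil, and_true, not_false_eq_true]
      exact ⟨⟨nuv, nua, nue, nuc⟩, ⟨nva, nve, nvc⟩, ⟨Ne.symm nec, nac⟩, Ne.symm nae⟩
    · intro y; rw [hun]; tauto
    · rw [hsu]
      have e1 : ({u, e, a} : Finset V) = {u, a, e} := by ext y; simp only [Red44_mem3]; tauto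
      have e2 : ({u, c, e} : Finset V) = {u, e, c} := by ext y; simp only [Red44_mem3]; tauto
      have e3 : ({u, v, c} : Finset V) = {u, c, v} := by ext y; simp only [Red44_mem3]; tauto
      have e4 : ({u, a, v} : Finset V) = {u, v, a} := by ext y; simp only [Red44_mem3]; tauto
      rw [e1, e2, e3, e4]
      ext f; simp only [mem_insert, mem_singleton]; tauto
  · exact absurd (ha.trans hc.symm) nac

end Pool.Agent.TH246.PR
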