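import Pool.Agent.TH246.PR.Col1
import Pool.Agent.TH246.PR.ColBase

/-!
# Recolouring of a vertex of degree 4
-/

set_option autoImplicit false
set_option linter.unusedVariables false

namespace Pool.Agent.TH246.PR

open Finset

variable {V : Type} [DecidableEq V]

set_option maxRecDepth 100000 in
set_option synthInstance.maxHeartbeats 400000 in
set_option synthInstance.maxSize 4000 in
theorem R4_F0 : ∀ p0 p1 p2 q0 q1 q2 r0 r1 r2 : ZMod 2,
    (p0 = 0 → p1 = 0 → p2 = 0 → False) → (q0 = 0 → q1 = 0 → q2 = 0 → False) →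
    (r0 = 0 → r1 = 0 → r2 = 0 → False) →
    (p0 = q0 → p1 = q1 → p2 = q2 → False) → (p0 = r0 → p1 = r1 → p2 = r2 → False) →
    (q0 = r0 → q1 = r1 → q2 = r2 → False) →
    p0 * (q1 * r2 + q2 * r1) + p1 * (q0 * r2 + q2 * r0) + p2 * (q0 * r1 + q1 * r0) = 1 ∨
      (p0 + q0 + r0 = 0 ∧ p1 + q1 + r1 = 0 ∧ p2 + q2 + r2 = 0) := by
  decide +kernel

theorem R4_ext {a b : F8} (h0 : a 0 = b 0) (h1 : a 1 = b 1) (h2 : a 2 = b 2) : a = b := by
  funext i
  fin_cases i
  · exact h0
  · exact h1
  · exact h2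

/-- four distinct points are affinely independent or their sum is zero -/
theorem R4_F1 {p q r s : F8} (hps : p ≠ s) (hqs : q ≠ s) (hrs : r ≠ s) (hpq : p ≠ q)
    (hpr : p ≠ r) (hqr : q ≠ r) :
    det3 (p + s) (q + s) (r + s) = 1 ∨ s = p + q + r := by
  have h := R4_F0 (p 0 + s 0) (p 1 + s 1) (p 2 + s 2) (q 0 + s 0) (q 1 + s 1) (q 2 + s 2)
    (r 0 + s 0) (r 1 + s 1) (r 2 + s 2)
    (fun h0 h1 h2 => hps (R4_ext (by grind) (by grind) (by grind)))
    (fun h0 h1 h2 => hqs (R4_ext (by grind) (by grind) (by grind)))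
    (fun h0 h1 h2 => hrs (R4_ext (by grind) (by grind) (by grind)))
    (fun h0 h1 h2 => hpq (R4_ext (by grind) (by grind) (by grind)))
    (fun h0 h1 h2 => hpr (R4_ext (by grind) (by grind) (by grind)))
    (fun h0 h1 h2 => hqr (R4_ext (by grind) (by grind) (by grind)))
  rcases h with h | ⟨h0, h1, h2⟩
  · left
    simp only [det3, Pi.add_apply]
    exact h
  · right
    refine R4_ext ?_ ?_ ?_ <;> simp only [Pi.add_apply] <;> grind

/-- Cramer -/
theorem R4_cramer (a b c y : F8) (h : det3 a b c = 1) :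
    ∃ i j k : ZMod 2, y = (fun t => i * a t + j * b t + k * c t) := by
  refine ⟨det3 y b c, det3 a y c, det3 a b y, ?_⟩
  simp only [det3] at *
  refine R4_ext ?_ ?_ ?_ <;> grind

/-- the eight points -/
theorem R4_eight {a b c d x : F8} (h : det3 (a + d) (b + d) (c + d) = 1) (ha : x ≠ a)
    (hb : x ≠ b) (hc : x ≠ c) (hd : x ≠ d) :
    x = a + b + c ∨ x = a + b + d ∨ x = a + c + d ∨ x = b + c + d := by
  obtain ⟨i, j, k, hy⟩ := R4_cramer _ _ _ (x + d) h
  have h01 : ∀ t : ZMod 2, t = 0 ∨ t = 1 := by decide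
  have e : ∀ t, x t = i * (a t + d t) + j * (b t + d t) + k * (c t + d t) + d t := by
    intro t
    have := congrFun hy t
    simp only [Pi.add_apply] at this
    grind
  rcases h01 i with rfl | rfl <;> rcases h01 j with rfl | rfl <;> rcases h01 k with rfl | rfl
  · exact absurd (funext fun t => by have := e t; grind) hd
  · exact absurd (funext fun t => by have := e t; grind) hc
  · exact absurd (funext fun t => by have := e t; grind) hb
  · right; right; right
    funext t; have := e t; simp only [Pi.add_apply]; grind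
  · exact absurd (funext fun t => by have := e t; grind) ha
  · right; right; left
    funext t; have := e t; simp only [Pi.add_apply]; grind
  · right; left
    funext t; have := e t; simp only [Pi.add_apply]; grind
  · left
    funext t; have := e t; simp only [Pi.add_apply]; grind

theorem R4_core {T : Finset (Finset V)} {x : V} {w : V → F8} (hw : Good T w) (c0 : F8)
    (H : ∀ lab : V → V → ZMod 2, (∀ u v, lab u v = lab v u) → ∃ f : V → ZMod 2, ∀ s : V → F8,
      (∀ y, Adj T x y → dot (w x + w y) (s x + s y) = f y) →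
      (∀ y z, y ≠ x → z ≠ x → Adj T y z → dot (w y + w z) (s y + s z) = lab y z) →
      ∃ t : F8, ∀ y, Adj T x y → dot (c0 + w y) (t + s y) = lab x y) :
    Good T (Function.update w x c0) := by
  classical
  intro lab hlab
  obtain ⟨f, hf⟩ := H lab hlab
  set lab' : V → V → ZMod 2 := fun u v => if u = x then f v else if v = x then f u else lab u v
    with hlab'
  have hsym : ∀ u v, lab' u v = lab' v u := by
    intro u v
    simp only [hlab']
    by_cases hx : u = x
    · by_cases hy : v = x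
      · subst hx; subst hy; rfl
      · rw [if_pos hx, if_neg hy, if_pos hx]
    · by_cases hy : v = x
      · rw [if_neg hx, if_pos hy, if_pos hy]
      · rw [if_neg hx, if_neg hy, if_neg hy, if_neg hx, hlab]
  obtain ⟨s, hs⟩ := hw lab' hsym
  obtain ⟨t, ht⟩ := hf s (fun y hy => by rw [hs x y hy]; simp [hlab'])
    (fun y z hy hz h => by rw [hs y z h]; simp [hlab', hy, hz])
  exact CB_ext1 hlab s t ht (fun y z hy hz h => by rw [hs y z h]; simp [hlab', hy, hz])

section

variable {T : Finset (Finset V)} {x a b c d : V} {w : V → F8}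

theorem R4_case1 (hn : [x, a, b, c, d].Nodup) (hab : Adj T a b) (hbc : Adj T b c)
    (hcd : Adj T c d) (hda : Adj T d a) (hw : Good T w) (h1 : w a = w c) (h2 : w b = w d) :
    False := by
  have hne : a ≠ b ∧ a ≠ c ∧ a ≠ d ∧ b ≠ c ∧ b ≠ d ∧ c ≠ d := by
    simp only [List.nodup_cons, List.mem_cons, List.not_mem_nil, not_or, or_false] at hn
    tauto
  obtain ⟨e1, e2, e3, e4, e5, e6⟩ := hne
  obtain ⟨s, hs⟩ := hw (fun u v => if (u = a ∧ v = b) ∨ (u = b ∧ v = a) then 1 else 0) (by
    intro u v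
    by_cases h : (u = a ∧ v = b) ∨ (u = b ∧ v = a)
    · rw [if_pos h, if_pos (by tauto)]
    · rw [if_neg h, if_neg (by tauto)])
  have f1 := hs a b hab
  have f2 := hs b c hbc
  have f3 := hs c d hcd
  have f4 := hs d a hda
  rw [if_pos (Or.inl ⟨rfl, rfl⟩)] at f1
  rw [if_neg (by rintro (⟨h, -⟩ | ⟨-, h⟩); exacts [e1 h.symm, e2 h.symm])] at f2
  rw [if_neg (by rintro (⟨h, -⟩ | ⟨h, -⟩); exacts [e2 h.symm, e4 h.symm])] at f3
  rw [if_neg (by rintro (⟨h, -⟩ | ⟨h, -⟩); exacts [e3 h.symm, e5 h.symm])] at f4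
  rw [← h1] at f2 f3
  rw [← h2] at f3 f4
  simp only [CB_dot_add_left, CB_dot_add_right] at *
  grind

theorem R4_case2 (hn : [x, a, b, c, d].Nodup)
    (hnb : ∀ y, Adj T x y ↔ y = a ∨ y = b ∨ y = c ∨ y = d) (hab : Adj T a b) (hbc : Adj T b c)
    (hcd : Adj T c d) (hda : Adj T d a) (hw : Good T w) (h1 : w a = w c) (h2 : w b ≠ w d) :
    ∃ c0, c0 ≠ w x ∧ Good T (Function.update w x c0) := by
  have hne : x ≠ a ∧ x ≠ b ∧ x ≠ c ∧ x ≠ d ∧ a ≠ b ∧ a ≠ c ∧ a ≠ d ∧ b ≠ c ∧ b ≠ d ∧ c ≠ d := by
    simp only [List.nodup_cons, List.mem_cons, List.not_mem_nil, not_or, or_false] at hn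
    tauto
  obtain ⟨x1, x2, x3, x4, e1, e2, e3, e4, e5, e6⟩ := hne
  have nxa := good_ne hw ((hnb a).2 (by tauto))
  have nxb := good_ne hw ((hnb b).2 (by tauto))
  have nxd := good_ne hw ((hnb d).2 (by tauto))
  have nab := good_ne hw hab
  have nda := good_ne hw hda
  have hdet : det3 (w a + w x) (w b + w x) (w d + w x) = 1 := by
    rcases R4_F1 nxa.symm nxb.symm nxd.symm nab nda.symm h2 with h | h
    · exact h
    · exfalso
      obtain ⟨s, hs⟩ := hw (fun u v => if (u = x ∧ v = a) ∨ (u = a ∧ v = x) then 1 else 0) (by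
        intro u v
        by_cases h : (u = x ∧ v = a) ∨ (u = a ∧ v = x)
        · rw [if_pos h, if_pos (by tauto)]
        · rw [if_neg h, if_neg (by tauto)])
      have g1 := hs x a ((hnb a).2 (by tauto))
      have g2 := hs x b ((hnb b).2 (by tauto))
      have g3 := hs x c ((hnb c).2 (by tauto))
      have g4 := hs x d ((hnb d).2 (by tauto))
      have f1 := hs a b hab
      have f2 := hs b c hbc
      have f3 := hs c d hcd
      have f4 := hs d a hda
      rw [if_pos (Or.inl ⟨rfl, rfl⟩)] at g1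
      rw [if_neg (by rintro (⟨-, h⟩ | ⟨h, -⟩); exacts [e1 h.symm, x1 h])] at g2
      rw [if_neg (by rintro (⟨-, h⟩ | ⟨h, -⟩); exacts [e2 h.symm, x1 h])] at g3
      rw [if_neg (by rintro (⟨-, h⟩ | ⟨h, -⟩); exacts [e3 h.symm, x1 h])] at g4
      rw [if_neg (by rintro (⟨h, -⟩ | ⟨-, h⟩); exacts [x1 h.symm, x2 h.symm])] at f1
      rw [if_neg (by rintro (⟨h, -⟩ | ⟨h, -⟩); exacts [x2 h.symm, e1 h.symm])] at f2
      rw [if_neg (by rintro (⟨h, -⟩ | ⟨h, -⟩); exacts [x3 h.symm, e2 h.symm])] at f3
      rw [if_neg (by rintro (⟨h, -⟩ | ⟨h, -⟩); exacts [x4 h.symm, e3 h.symm])] at f4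
      rw [h] at g1 g2 g3 g4
      rw [← h1] at g3 f2 f3
      simp only [CB_dot_add_left, CB_dot_add_right] at *
      grind
  refine ⟨w x + w a + w b, ?_, R4_core hw _ ?_⟩
  · intro h
    apply nab
    have hh : ∀ t, w x t + w a t + w b t = w x t := fun t => congrFun h t
    funext t
    have := hh t
    grind
  · intro lab hlab
    refine ⟨fun y => if y = c then lab x c + lab a b + lab b c else lab x y, fun s g f => ?_⟩
    have g1 := g a ((hnb a).2 (by tauto))
    have g2 := g b ((hnb b).2 (by tauto))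
    have g3 := g c ((hnb c).2 (by tauto))
    have g4 := g d ((hnb d).2 (by tauto))
    beta_reduce at g1 g2 g3 g4
    have f1 := f a b x1.symm x2.symm hab
    have f2 := f b c x2.symm x3.symm hbc
    rw [if_neg e2] at g1
    rw [if_neg e4] at g2
    rw [if_pos rfl] at g3
    rw [if_neg e6.symm] at g4
    have hdet' : det3 (w x + w a + w b + w a) (w x + w a + w b + w b)
        (w x + w a + w b + w d) = 1 := by
      simp only [det3, Pi.add_apply] at *
      grind
    obtain ⟨t, t1, t2, t3⟩ := solve3 _ _ _ hdet'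
      (lab x a + dot (w x + w a + w b + w a) (s a)) (lab x b + dot (w x + w a + w b + w b) (s b))
      (lab x d + dot (w x + w a + w b + w d) (s d))
    refine ⟨t, fun y hy => ?_⟩
    rcases (hnb y).1 hy with rfl | rfl | rfl | rfl
    · rw [CB_dot_add_right, t1]; grind
    · rw [CB_dot_add_right, t2]; grind
    · rw [← h1] at g3 f2 ⊢
      simp only [CB_dot_add_left, CB_dot_add_right] at *
      grind
    · rw [CB_dot_add_right, t3]; grind

theorem R4_case3a (hn : [x, a, b, c, d].Nodup)
    (hnb : ∀ y, Adj T x y ↔ y = a ∨ y = b ∨ y = c ∨ y = d) (hab : Adj T a b) (hbc : Adj T b c)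
    (hcd : Adj T c d) (hda : Adj T d a) (hw : Good T w) (h1 : w a ≠ w c)
    (h2 : w d = w a + w b + w c) :
    ∃ c0, c0 ≠ w x ∧ Good T (Function.update w x c0) := by
  have hne : x ≠ a ∧ x ≠ b ∧ x ≠ c ∧ x ≠ d ∧ a ≠ b ∧ a ≠ c ∧ a ≠ d ∧ b ≠ c ∧ b ≠ d ∧ c ≠ d := by
    simp only [List.nodup_cons, List.mem_cons, List.not_mem_nil, not_or, or_false] at hn
    tauto
  obtain ⟨x1, x2, x3, x4, e1, e2, e3, e4, e5, e6⟩ := hne
  have nxa := good_ne hw ((hnb a).2 (by tauto))
  have nxb := good_ne hw ((hnb b).2 (by tauto))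
  have nxc := good_ne hw ((hnb c).2 (by tauto))
  have nxd := good_ne hw ((hnb d).2 (by tauto))
  have nab := good_ne hw hab
  have nbc := good_ne hw hbc
  have hdet : det3 (w a + w x) (w b + w x) (w c + w x) = 1 := by
    rcases R4_F1 nxa.symm nxb.symm nxc.symm nab h1 nbc with h | h
    · exact h
    · exact absurd (h.trans h2.symm) nxd
  refine ⟨w x + w a + w b, ?_, R4_core hw _ ?_⟩
  · intro h
    apply nab
    have hh : ∀ t, w x t + w a t + w b t = w x t := fun t => congrFun h t
    funext t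
    have := hh t
    grind
  · intro lab hlab
    refine ⟨fun y => if y = d then lab x d + lab a b + lab c d else lab x y, fun s g f => ?_⟩
    have g1 := g a ((hnb a).2 (by tauto))
    have g2 := g b ((hnb b).2 (by tauto))
    have g3 := g c ((hnb c).2 (by tauto))
    have g4 := g d ((hnb d).2 (by tauto))
    beta_reduce at g1 g2 g3 g4
    have f1 := f a b x1.symm x2.symm hab
    have f3 := f c d x3.symm x4.symm hcd
    rw [if_neg e3] at g1
    rw [if_neg e5] at g2
    rw [if_neg e6] at g3
    rw [if_pos rfl] at g4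
    have hdet' : det3 (w x + w a + w b + w a) (w x + w a + w b + w b)
        (w x + w a + w b + w c) = 1 := by
      simp only [det3, Pi.add_apply] at *
      grind
    obtain ⟨t, t1, t2, t3⟩ := solve3 _ _ _ hdet'
      (lab x a + dot (w x + w a + w b + w a) (s a)) (lab x b + dot (w x + w a + w b + w b) (s b))
      (lab x c + dot (w x + w a + w b + w c) (s c))
    refine ⟨t, fun y hy => ?_⟩
    rcases (hnb y).1 hy with rfl | rfl | rfl | rfl
    · rw [CB_dot_add_right, t1]; grind
    · rw [CB_dot_add_right, t2]; grind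
    · rw [CB_dot_add_right, t3]; grind
    · rw [h2] at g4 f3 ⊢
      simp only [CB_dot_add_left, CB_dot_add_right] at *
      grind

theorem R4_case3b (hn : [x, a, b, c, d].Nodup)
    (hnb : ∀ y, Adj T x y ↔ y = a ∨ y = b ∨ y = c ∨ y = d) (hab : Adj T a b) (hbc : Adj T b c)
    (hcd : Adj T c d) (hda : Adj T d a) (hw : Good T w)
    (h1 : det3 (w a + w d) (w b + w d) (w c + w d) = 1)
    (h2 : w x = w a + w b + w c) :
    ∃ c0, c0 ≠ w x ∧ Good T (Function.update w x c0) := by
  have hne : x ≠ a ∧ x ≠ b ∧ x ≠ c ∧ x ≠ d ∧ a ≠ b ∧ a ≠ c ∧ a ≠ d ∧ b ≠ c ∧ b ≠ d ∧ c ≠ d := by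
    simp only [List.nodup_cons, List.mem_cons, List.not_mem_nil, not_or, or_false] at hn
    tauto
  obtain ⟨x1, x2, x3, x4, e1, e2, e3, e4, e5, e6⟩ := hne
  have nbd : w b ≠ w d := by
    intro h
    rw [h] at h1
    simp only [det3, Pi.add_apply] at h1
    grind
  refine ⟨w a + w c + w d, ?_, R4_core hw _ ?_⟩
  · intro h
    apply nbd
    rw [h2] at h
    have hh : ∀ t, w a t + w c t + w d t = w a t + w b t + w c t := fun t => congrFun h t
    funext t
    have := hh t
    grind
  · intro lab hlab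
    refine ⟨fun y => if y = b then lab a b + lab b c + lab x d + lab d a + lab c d else lab x y,
      fun s g f => ?_⟩
    have g1 := g a ((hnb a).2 (by tauto))
    have g2 := g b ((hnb b).2 (by tauto))
    have g3 := g c ((hnb c).2 (by tauto))
    have g4 := g d ((hnb d).2 (by tauto))
    beta_reduce at g1 g2 g3 g4
    have f1 := f a b x1.symm x2.symm hab
    have f2 := f b c x2.symm x3.symm hbc
    have f3 := f c d x3.symm x4.symm hcd
    have f4 := f d a x4.symm x1.symm hda
    rw [if_neg e1] at g1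
    rw [if_pos rfl] at g2
    rw [if_neg e4.symm] at g3
    have hdet' : det3 (w a + w c + w d + w a) (w a + w c + w d + w b)
        (w a + w c + w d + w c) = 1 := by
      simp only [det3, Pi.add_apply] at *
      grind
    obtain ⟨t, t1, t2, t3⟩ := solve3 _ _ _ hdet'
      (lab x a + dot (w a + w c + w d + w a) (s a)) (lab x b + dot (w a + w c + w d + w b) (s b))
      (lab x c + dot (w a + w c + w d + w c) (s c))
    refine ⟨t, fun y hy => ?_⟩
    rcases (hnb y).1 hy with rfl | rfl | rfl | rfl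
    · rw [CB_dot_add_right, t1]; grind
    · rw [CB_dot_add_right, t2]; grind
    · rw [CB_dot_add_right, t3]; grind
    · clear g g4 f
      rw [h2] at g1 g2 g3
      simp only [CB_dot_add_left, CB_dot_add_right] at *
      grind

end

theorem R4_rot {x a b c d : V} (hn : [x, a, b, c, d].Nodup) : [x, b, c, d, a].Nodup := by
  simp only [List.nodup_cons, List.mem_cons, List.not_mem_nil, not_or, or_false,
    List.nodup_nil] at hn ⊢
  tauto

theorem rec4 {T : Finset (Finset V)} {x a b c d : V} {w : V → F8} (hn : [x, a, b, c, d].Nodup)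
    (hnb : ∀ y, Adj T x y ↔ y = a ∨ y = b ∨ y = c ∨ y = d) (hab : Adj T a b) (hbc : Adj T b c)
    (hcd : Adj T c d) (hda : Adj T d a) (hw : Good T w) :
    ∃ c0, c0 ≠ w x ∧ Good T (Function.update w x c0) := by
  have hn1 := R4_rot hn
  have hn2 := R4_rot hn1
  have hn3 := R4_rot hn2
  have hnb1 : ∀ y, Adj T x y ↔ y = b ∨ y = c ∨ y = d ∨ y = a := fun y => by rw [hnb y]; tauto
  have hnb2 : ∀ y, Adj T x y ↔ y = c ∨ y = d ∨ y = a ∨ y = b := fun y => by rw [hnb y]; tauto
  have hnb3 : ∀ y, Adj T x y ↔ y = d ∨ y = a ∨ y = b ∨ y = c := fun y => by rw [hnb y]; tauto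
  have nxa := good_ne hw ((hnb a).2 (by tauto))
  have nxb := good_ne hw ((hnb b).2 (by tauto))
  have nxc := good_ne hw ((hnb c).2 (by tauto))
  have nxd := good_ne hw ((hnb d).2 (by tauto))
  have nab := good_ne hw hab
  have nbc := good_ne hw hbc
  have ncd := good_ne hw hcd
  have nda := good_ne hw hda
  by_cases hac : w a = w c
  · by_cases hbd : w b = w d
    · exact absurd (R4_case1 hn hab hbc hcd hda hw hac hbd) id
    · exact R4_case2 hn hnb hab hbc hcd hda hw hac hbd
  · by_cases hbd : w b = w d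
    · exact R4_case2 hn1 hnb1 hbc hcd hda hab hw hbd (Ne.symm hac)
    · rcases R4_F1 nda.symm hbd ncd nab hac nbc with h | h
      · rcases R4_eight h nxa nxb nxc nxd with hx | hx | hx | hx
        · exact R4_case3b hn hnb hab hbc hcd hda hw h hx
        · -- x = a + b + d, missing c
          refine R4_case3b hn3 hnb3 hda hab hbc hcd hw ?_ ?_
          · simp only [det3, Pi.add_apply] at *
            grind
          · rw [hx]; abel
        · -- missing b
          refine R4_case3b hn2 hnb2 hcd hda hab hbc hw ?_ ?_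
          · simp only [det3, Pi.add_apply] at *
            grind
          · rw [hx]; abel
        · -- missing a
          refine R4_case3b hn1 hnb1 hbc hcd hda hab hw ?_ ?_
          · simp only [det3, Pi.add_apply] at *
            grind
          · rw [hx]
      · exact R4_case3a hn hnb hab hbc hcd hda hw hac h

end Pool.Agent.TH246.PR
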