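import Pool.Agent.TH246.PR.PathContr4
import Pool.Agent.TH246.PR.LinkN
import Pool.Agent.TH246.PR.Lift4
import Pool.Agent.TH246.PR.Col3
import Pool.Agent.TH246.PR.Rec4

set_option autoImplicit false
set_option linter.unusedVariables false

namespace Pool.Agent.TH246.PR

open Finset

variable {V : Type} [DecidableEq V]

theorem Red45_ne {T : Finset (Finset V)} (h : Pre T) {a b c : V}
    (hf : ({a, b, c} : Finset V) ∈ T) : a ≠ b ∧ a ≠ c ∧ b ≠ c := by
  have h3 := h.card3 _ hf
  refine ⟨?_, ?_, ?_⟩ <;> rintro rfl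
  · have : ({a, a, c} : Finset V).card ≤ 2 := by
      rw [insert_eq_of_mem (by simp)]; exact card_le_two
    omega
  · have : ({a, b, a} : Finset V).card ≤ 2 := by
      rw [insert_eq_of_mem (by simp)]; exact card_le_two
    omega
  · have : ({a, b, b} : Finset V).card ≤ 2 := by
      have h' : ({a, b, b} : Finset V) = {a, b} := by ext; simp
      rw [h']; exact card_le_two
    omega

theorem Red45_adj {T : Finset (Finset V)} (h : Pre T) {a b c : V}
    (hf : ({a, b, c} : Finset V) ∈ T) : Adj T a b ∧ Adj T a c ∧ Adj T b c := by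
  obtain ⟨h1, h2, h3⟩ := Red45_ne h hf
  exact ⟨⟨h1, _, hf, by simp, by simp⟩, ⟨h2, _, hf, by simp, by simp⟩,
    ⟨h3, _, hf, by simp, by simp⟩⟩

theorem Red45_symm {T : Finset (Finset V)} {u v : V} (h : Adj T u v) : Adj T v u :=
  ⟨h.1.symm, by obtain ⟨f, hf, h1, h2⟩ := h.2; exact ⟨f, hf, h2, h1⟩⟩

theorem Red45_eq3 {a b c a' b' c' : V} (h : ({a, b, c} : Finset V) = {a', b', c'}) :
    (a = a' ∨ a = b' ∨ a = c') ∧ (b = a' ∨ b = b' ∨ b = c') ∧ (c = a' ∨ c = b' ∨ c = c') := by
  refine ⟨?_, ?_, ?_⟩
  · have : a ∈ ({a', b', c'} : Finset V) := by rw [← h]; simp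
    simpa using this
  · have : b ∈ ({a', b', c'} : Finset V) := by rw [← h]; simp
    simpa using this
  · have : c ∈ ({a', b', c'} : Finset V) := by rw [← h]; simp
    simpa using this

/-- making the colours of `u` and `x` different, when `u` has degree 3 or 4 -/
theorem Red45_sep {T' : Finset (Finset V)} (hS : Sphere T') {u a x : V} (hua : Adj T' u a)
    (hux : u ≠ x) (hd : deg T' u = 3 ∨ deg T' u = 4) {w : V → F8} (hw : Good T' w) :
    ∃ w' : V → F8, Good T' w' ∧ w' u ≠ w' x := by
  by_cases hwx : w u = w x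
  swap
  · exact ⟨w, hw, hwx⟩
  rcases hd with hd | hd
  · obtain ⟨b, c, hn, hnb, hst⟩ := link3 hS hua hd
    have f1 : ({u, a, b} : Finset V) ∈ T' := by
      have : ({u, a, b} : Finset V) ∈ star T' u := by rw [hst]; simp
      exact (mem_filter.mp this).1
    have f2 : ({u, b, c} : Finset V) ∈ T' := by
      have : ({u, b, c} : Finset V) ∈ star T' u := by rw [hst]; simp
      exact (mem_filter.mp this).1
    have f3 : ({u, c, a} : Finset V) ∈ T' := by
      have : ({u, c, a} : Finset V) ∈ star T' u := by rw [hst]; simp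
      exact (mem_filter.mp this).1
    have e1 := good_ne hw (Red45_adj hS.toPre f1).2.2
    have e2 := good_ne hw (Red45_adj hS.toPre f2).2.2
    have e3 := good_ne hw (Red45_symm (Red45_adj hS.toPre f3).2.2)
    obtain ⟨z, hz, hzx, -⟩ := exists_aff_ne2 (w a) (w b) (w c) (w x) (w x) e1 e2 e3
    refine ⟨Function.update w u z, rec3 hn hnb hw z hz, ?_⟩
    rw [Function.update_self, Function.update_of_ne hux.symm]
    exact hzx
  · obtain ⟨b, c, d, hn, hnb, hst⟩ := link4 hS hua hd
    have f1 : ({u, a, b} : Finset V) ∈ T' := by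
      have : ({u, a, b} : Finset V) ∈ star T' u := by rw [hst]; simp
      exact (mem_filter.mp this).1
    have f2 : ({u, b, c} : Finset V) ∈ T' := by
      have : ({u, b, c} : Finset V) ∈ star T' u := by rw [hst]; simp
      exact (mem_filter.mp this).1
    have f3 : ({u, c, d} : Finset V) ∈ T' := by
      have : ({u, c, d} : Finset V) ∈ star T' u := by rw [hst]; simp
      exact (mem_filter.mp this).1
    have f4 : ({u, d, a} : Finset V) ∈ T' := by
      have : ({u, d, a} : Finset V) ∈ star T' u := by rw [hst]; simp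
      exact (mem_filter.mp this).1
    obtain ⟨c0, hc0, hg⟩ := rec4 hn hnb (Red45_adj hS.toPre f1).2.2 (Red45_adj hS.toPre f2).2.2
      (Red45_adj hS.toPre f3).2.2 (Red45_adj hS.toPre f4).2.2 hw
    refine ⟨Function.update w u c0, hg, ?_⟩
    rw [Function.update_self, Function.update_of_ne hux.symm, ← hwx]
    exact hc0

theorem red45 {T : Finset (Finset V)} (h : Sphere T) (hF : Fac T) (h8 : 8 ≤ T.card)
    (I : Finset V) (hI : ∀ v ∈ I, NoSep T I v)
    (h44 : ∀ x ∈ I, ∀ y ∈ I, Adj T x y → deg T x = 4 → deg T y ≠ 4) {v u : V} (hvI : v ∈ I)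
    (huI : u ∈ I) (hvu : Adj T v u) (hv : deg T v = 4) (hu : deg T u = 5 ∨ deg T u = 6)
    (ih : ∀ T' : Finset (Finset V), Sphere T' → T'.card < T.card → ∃ w : V → F8, Good T' w) :
    ∃ w : V → F8, Good T w := by
  obtain ⟨a, x, c, hn, hnb, hst⟩ := link4 h hvu hv
  simp only [List.nodup_cons, List.mem_cons, List.not_mem_nil, not_or, List.nodup_nil,
    and_true, or_false, not_false_eq_true] at hn
  obtain ⟨⟨nvu, nva, nvx, nvc⟩, ⟨nua, nux, nuc⟩, ⟨nax, nac⟩, nxc⟩ := hn
  have f1 : ({v, u, a} : Finset V) ∈ T := by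
    have : ({v, u, a} : Finset V) ∈ star T v := by rw [hst]; simp
    exact (mem_filter.mp this).1
  have f2 : ({v, a, x} : Finset V) ∈ T := by
    have : ({v, a, x} : Finset V) ∈ star T v := by rw [hst]; simp
    exact (mem_filter.mp this).1
  have ava : Adj T v a := (hnb a).mpr (by simp)
  have avc : Adj T v c := (hnb c).mpr (by simp)
  have avx : Adj T v x := (hnb x).mpr (by simp)
  have aua : Adj T u a := (Red45_adj h.toPre f1).2.2
  have aax : Adj T a x := (Red45_adj h.toPre f2).2.2
  have hmem : ∀ y z, ({v, y, z} : Finset V) ∈ T → ({v, y, z} : Finset V) = {v, u, a} ∨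
      ({v, y, z} : Finset V) = {v, a, x} ∨ ({v, y, z} : Finset V) = {v, x, c} ∨
      ({v, y, z} : Finset V) = {v, c, u} := by
    intro y z hyz
    have : ({v, y, z} : Finset V) ∈ star T v := mem_filter.mpr ⟨hyz, by simp⟩
    rw [hst] at this
    simpa only [mem_insert, mem_singleton] using this
  have hac : ¬ Adj T a c := by
    intro hac
    have h1 := hF v a c ava hac avc
    rcases hmem a c h1 with h2 | h2 | h2 | h2 <;> obtain ⟨-, h3, h4⟩ := Red45_eq3 h2
    · rcases h4 with h4 | h4 | h4
      · exact nvc h4.symm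
      · exact nuc h4.symm
      · exact nac h4.symm
    · rcases h4 with h4 | h4 | h4
      · exact nvc h4.symm
      · exact nac h4.symm
      · exact nxc h4.symm
    · rcases h3 with h3 | h3 | h3
      · exact nva h3.symm
      · exact nax h3
      · exact nac h3
    · rcases h3 with h3 | h3 | h3
      · exact nva h3.symm
      · exact nac h3
      · exact nua h3.symm
  have hcom : ∀ z, Adj T z a → Adj T z c → z = v ∨ z = u ∨ z = x := by
    intro z hza hzc
    by_cases hzv : z = v
    · exact Or.inl hzv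
    right
    obtain ⟨t, ht1, ht2, ht3⟩ := hI v hvI a c ava avc nac hac z hzv hza hzc
    obtain ⟨m1, m2, m3⟩ := Red45_ne h.toPre ht1
    have ht : t = u ∨ t = x := by
      rcases hmem a t ht1 with h2 | h2 | h2 | h2 <;> obtain ⟨-, h3, h4⟩ := Red45_eq3 h2
      · rcases h4 with h4 | h4 | h4
        · exact absurd h4.symm m2
        · exact Or.inl h4
        · exact absurd h4.symm m3
      · rcases h4 with h4 | h4 | h4
        · exact absurd h4.symm m2
        · exact absurd h4.symm m3
        · exact Or.inr h4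
      · rcases h3 with h3 | h3 | h3
        · exact absurd h3.symm nva
        · exact absurd h3 nax
        · exact absurd h3 nac
      · rcases h3 with h3 | h3 | h3
        · exact absurd h3.symm nva
        · exact absurd h3 nac
        · exact absurd h3.symm nua
    rcases ht3 with ht3 | ⟨ht3, ht4⟩
    · rw [ht3]; exact ht
    · exfalso
      rcases ht with rfl | rfl
      · omega
      · exact h44 v hvI _ ht3 avx hv ht4
  obtain ⟨T', hS, hcard, -, hadj, hdu, -, -⟩ := pathcontr4 h (v := v) (p := a) (r := u) (q := c)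
    (s := x) (by
      simp only [List.nodup_cons, List.mem_cons, List.not_mem_nil, not_or, List.nodup_nil,
        and_true, or_false, not_false_eq_true]
      exact ⟨⟨nva, nvu, nvc, nvx⟩, ⟨Ne.symm nua, nac, nax⟩, ⟨nuc, nux⟩, Ne.symm nxc⟩)
    (by
      rw [hst]
      have e1 : ({v, u, a} : Finset V) = {v, a, u} := by
        ext y; simp only [mem_insert, mem_singleton]; tauto
      have e2 : ({v, a, x} : Finset V) = {v, x, a} := by
        ext y; simp only [mem_insert, mem_singleton]; tauto
      have e3 : ({v, x, c} : Finset V) = {v, c, x} := by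
        ext y; simp only [mem_insert, mem_singleton]; tauto
      have e4 : ({v, c, u} : Finset V) = {v, u, c} := by
        ext y; simp only [mem_insert, mem_singleton]; tauto
      rw [e1, e2, e3, e4]
      ext f
      simp only [mem_insert, mem_singleton]
      tauto) hac hcom h8
  obtain ⟨w0, hw0⟩ := ih T' hS (by omega)
  have hua' : Adj T' u a := (hadj u a).mpr ⟨Ne.symm nvu, Ne.symm nva, nuc, nac, nua, Or.inl aua⟩
  obtain ⟨w, hw, hwux⟩ := Red45_sep hS hua' nux (by omega) hw0
  have hax' : Adj T' a x := (hadj a x).mpr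
    ⟨Ne.symm nva, Ne.symm nvx, nac, nxc, nax, Or.inl aax⟩
  have g1 := good_ne hw (Red45_symm hua')
  have g2 := good_ne hw hax'
  obtain ⟨c0, hc0, -⟩ := exists_aff_ne2 (w a) (w u) (w x) 0 0 g1 hwux g2
  refine ⟨_, lift4 (v := v) (p := a) (q := c) (r := u) (s := x) ?_ ?_ hac hcom (Red45_symm aua)
    aax ?_ ?_ hw c0 hc0⟩
  · simp only [List.nodup_cons, List.mem_cons, List.not_mem_nil, not_or, List.nodup_nil,
      and_true, or_false, not_false_eq_true]
    exact ⟨⟨nva, nvc, nvu, nvx⟩, ⟨nac, Ne.symm nua, nax⟩, ⟨Ne.symm nuc, Ne.symm nxc⟩, nux⟩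
  · intro y
    rw [hnb y]
    tauto
  · intro y z h1 h2 h3 h4 h5
    exact (hadj y z).mpr ⟨h1, h2, h3, h4, h5.1, Or.inl h5⟩
  · intro y h1 h2
    have hya : a ≠ y := by
      rintro rfl
      exact hac (Red45_symm h2)
    exact (hadj a y).mpr ⟨Ne.symm nva, h1, nac, h2.1.symm, hya, Or.inr (Or.inl ⟨rfl, h2⟩)⟩

end Pool.Agent.TH246.PR
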