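import Pool.Agent.TH246.PR.PathContr5
import Pool.Agent.TH246.PR.LinkN
import Pool.Agent.TH246.PR.Lift5
import Pool.Agent.TH246.PR.Col3

set_option autoImplicit false
set_option linter.unusedVariables false

namespace Pool.Agent.TH246.PR

open Finset

variable {V : Type} [DecidableEq V]

theorem red55 {T : Finset (Finset V)} (h : Sphere T) (hF : Fac T) (h8 : 8 ≤ T.card)
    (I : Finset V) (hI : ∀ v ∈ I, NoSep T I v) {v u : V} (hvI : v ∈ I)
    (huI : u ∈ I) (hvu : Adj T v u) (hv : deg T v = 5) (hu : deg T u = 5)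
    (ih : ∀ T' : Finset (Finset V), Sphere T' → T'.card < T.card → ∃ w : V → F8, Good T' w) :
    ∃ w : V → F8, Good T w := by
  obtain ⟨q, b, c, p, hnd, hnbv, hst⟩ := link5 h hvu hv
  have hnd' : [v, p, u, q, b, c].Nodup := by
    simp only [List.nodup_cons, List.mem_cons, List.not_mem_nil, or_false, not_or,
      not_false_eq_true, List.nodup_nil, and_true] at hnd ⊢
    obtain ⟨⟨h1, h2, h3, h4, h5⟩, ⟨h6, h7, h8', h9⟩, ⟨h10, h11, h12⟩, ⟨h13, h14⟩, h15⟩ := hnd
    refine ⟨⟨h5, h1, h2, h3, h4⟩, ⟨Ne.symm h9, Ne.symm h12, Ne.symm h14, Ne.symm h15⟩,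
      ⟨h6, h7, h8'⟩, ⟨h10, h11⟩, h13⟩
  have hn := hnd'
  simp only [List.nodup_cons, List.mem_cons, List.not_mem_nil, or_false, not_or,
    not_false_eq_true, List.nodup_nil, and_true] at hn
  obtain ⟨⟨hvp, hvu', hvq, hvb, hvc⟩, ⟨hpu, hpq', hpb', hpc⟩, ⟨huq, hub, huc⟩, ⟨hqb, hqc'⟩, hbc⟩ := hn
  have hst' : star T v = {{v, p, u}, {v, u, q}, {v, q, b}, {v, b, c}, {v, c, p}} := by
    rw [hst]
    ext f
    simp only [Finset.mem_insert, Finset.mem_singleton]
    tauto
  have hmem : ∀ f, f ∈ T → v ∈ f → f = {v, p, u} ∨ f = {v, u, q} ∨ f = {v, q, b} ∨ f = {v, b, c} ∨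
      f = {v, c, p} := by
    intro f hf hv
    have : f ∈ star T v := by simp [star, hf, hv]
    rw [hst'] at this
    simpa using this
  have hmem' : ∀ f, (f = {v, p, u} ∨ f = {v, u, q} ∨ f = {v, q, b} ∨ f = {v, b, c} ∨
      f = {v, c, p}) → f ∈ T := by
    intro f hf
    have : f ∈ star T v := by rw [hst']; simpa using hf
    exact (Finset.mem_filter.mp this).1
  have f1 : ({v, p, u} : Finset V) ∈ T := hmem' _ (Or.inl rfl)
  have f2 : ({v, u, q} : Finset V) ∈ T := hmem' _ (Or.inr (Or.inl rfl))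
  have f3 : ({v, q, b} : Finset V) ∈ T := hmem' _ (Or.inr (Or.inr (Or.inl rfl)))
  have f4 : ({v, b, c} : Finset V) ∈ T := hmem' _ (Or.inr (Or.inr (Or.inr (Or.inl rfl))))
  have f5 : ({v, c, p} : Finset V) ∈ T := hmem' _ (Or.inr (Or.inr (Or.inr (Or.inr rfl))))
  have avp : Adj T v p := ⟨hvp, _, f1, by simp, by simp⟩
  have avq : Adj T v q := ⟨hvq, _, f2, by simp, by simp⟩
  have avb : Adj T v b := ⟨hvb, _, f3, by simp, by simp⟩
  have avc : Adj T v c := ⟨hvc, _, f4, by simp, by simp⟩
  have apu : Adj T p u := ⟨hpu, _, f1, by simp, by simp⟩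
  have aqb : Adj T q b := ⟨hqb, _, f3, by simp, by simp⟩
  have abc : Adj T b c := ⟨hbc, _, f4, by simp, by simp⟩
  have apc : Adj T p c := ⟨hpc, _, f5, by simp, by simp⟩
  -- from `{v, x, t}` a face, `t` is a cyclic neighbour
  have hp_nb : ∀ t, ({v, p, t} : Finset V) ∈ T → t ≠ v → t ≠ p → t = u ∨ t = c := by
    intro t ht htv htp
    have ht' := hmem _ ht (by simp)
    have hmemt : t ∈ ({v, p, t} : Finset V) := by simp
    have hmemp : p ∈ ({v, p, t} : Finset V) := by simp
    rcases ht' with e | e | e | e | e <;> rw [e] at hmemt hmemp <;>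
      simp only [Finset.mem_insert, Finset.mem_singleton] at hmemt hmemp <;> tauto
  have hq_nb : ∀ t, ({v, t, q} : Finset V) ∈ T → t ≠ v → t ≠ q → t = u ∨ t = b := by
    intro t ht htv htp
    have ht' := hmem _ ht (by simp)
    have hmemt : t ∈ ({v, t, q} : Finset V) := by simp
    have hmemp : q ∈ ({v, t, q} : Finset V) := by simp
    rcases ht' with e | e | e | e | e <;> rw [e] at hmemt hmemp <;>
      simp only [Finset.mem_insert, Finset.mem_singleton] at hmemt hmemp <;> tauto
  have npq : ¬ Adj T p q := by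
    intro ha
    have := hF v p q avp ha avq
    rcases hp_nb q this (Ne.symm hvq) (Ne.symm hpq') with e | e
    · exact huq e.symm
    · exact hqc' e
  have npb : ¬ Adj T p b := by
    intro ha
    have := hF v p b avp ha avb
    rcases hp_nb b this (Ne.symm hvb) (Ne.symm hpb') with e | e
    · exact hub e.symm
    · exact hbc e
  have nqc : ¬ Adj T q c := by
    intro ha
    have := hF v c q avc (PC5_adj_symm ha) avq
    rcases hq_nb c this (Ne.symm hvc) (Ne.symm hqc') with e | e
    · exact huc e.symm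
    · exact hbc e.symm
  have hcom : ∀ z, Adj T z p → Adj T z q → z = v ∨ z = u := by
    intro z hzp hzq
    by_cases hzv : z = v
    · exact Or.inl hzv
    · obtain ⟨t, ht1, ht2, ht3⟩ := hI v hvI p q avp avq hpq' npq z hzv hzp hzq
      have htv : t ≠ v := by
        rintro rfl
        have := h.card3 _ ht1
        have h2 : ({t, p, t} : Finset V) = {t, p} := by
          ext x; simp only [Finset.mem_insert, Finset.mem_singleton]; tauto
        rw [h2] at this
        have := Finset.card_le_two (a := t) (b := p)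
        omega
      have htp : t ≠ p := by
        rintro rfl
        have := h.card3 _ ht1
        have h2 : ({v, t, t} : Finset V) = {v, t} := by
          ext x; simp only [Finset.mem_insert, Finset.mem_singleton]; tauto
        rw [h2] at this
        have := Finset.card_le_two (a := v) (b := t)
        omega
      have htq : t ≠ q := by
        rintro rfl
        have := h.card3 _ ht2
        have h2 : ({v, t, t} : Finset V) = {v, t} := by
          ext x; simp only [Finset.mem_insert, Finset.mem_singleton]; tauto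
        rw [h2] at this
        have := Finset.card_le_two (a := v) (b := t)
        omega
      have htu : t = u := by
        rcases hp_nb t ht1 htv htp with e | e
        · exact e
        · rcases hq_nb t ht2 htv htq with e' | e'
          · exact e'
          · exact absurd (e'.symm.trans e) hbc
      subst htu
      rcases ht3 with e | ⟨-, e⟩
      · exact Or.inr e
      · omega
  obtain ⟨T', hS', hcard, hfaces, hadj, hdu, -⟩ :=
    pathcontr5 h hnd' hst' npq npb nqc hcom h8
  obtain ⟨w, hw⟩ := ih T' hS' (by omega)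
  have aup : Adj T' u p := (hadj u p).2 ⟨Ne.symm hvu', Ne.symm hvp, huq, hpq', Ne.symm hpu,
    Or.inl (PC5_adj_symm apu)⟩
  obtain ⟨n2, n3, hnn, hnbu, hstu⟩ := link3 hS' aup (by omega)
  have hnn' := hnn
  simp only [List.nodup_cons, List.mem_cons, List.not_mem_nil, or_false, not_or,
    not_false_eq_true, List.nodup_nil, and_true] at hnn'
  obtain ⟨⟨hup, hun2, hun3⟩, ⟨hpn2, hpn3⟩, hn23⟩ := hnn'
  have gmem : ∀ f, (f = {u, p, n2} ∨ f = {u, n2, n3} ∨ f = {u, n3, p}) → f ∈ T' := by
    intro f hf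
    have : f ∈ star T' u := by rw [hstu]; simpa using hf
    exact (Finset.mem_filter.mp this).1
  have a12 : Adj T' p n2 := ⟨hpn2, _, gmem _ (Or.inl rfl), by simp, by simp⟩
  have a23 : Adj T' n2 n3 := ⟨hn23, _, gmem _ (Or.inr (Or.inl rfl)), by simp, by simp⟩
  have a13 : Adj T' p n3 := ⟨hpn3, _, gmem _ (Or.inr (Or.inr rfl)), by simp, by simp⟩
  have apb' : Adj T' p b := (hadj p b).2 ⟨Ne.symm hvp, Ne.symm hvb, hpq', Ne.symm hqb, hpb',
    Or.inr (Or.inl ⟨rfl, aqb⟩)⟩
  have abc' : Adj T' b c := (hadj b c).2 ⟨Ne.symm hvb, Ne.symm hvc, Ne.symm hqb, Ne.symm hqc', hbc,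
    Or.inl abc⟩
  have apc' : Adj T' p c := (hadj p c).2 ⟨Ne.symm hvp, Ne.symm hvc, hpq', Ne.symm hqc', hpc,
    Or.inl apc⟩
  obtain ⟨z, hz1, hz2⟩ := exists_aff_aff (w p) (w n2) (w n3) (w b) (w c) (good_ne hw a12)
    (good_ne hw a23) (good_ne hw a13) (good_ne hw apb') (good_ne hw apc') (good_ne hw abc')
  have hw1 : Good T' (Function.update w u z) := rec3 hnn hnbu hw z hz1
  refine ⟨_, lift5 (T := T) (T' := T') (v := v) (p := p) (u := u) (q := q) (b := b) (c := c)
    (w := Function.update w u z) hnd' ?_ npq hcom apu aqb abc apc ?_ ?_ hw1 ?_⟩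
  · intro x
    rw [hnbv x]
    tauto
  · intro x y hxv hyv hxq hyq hxy
    exact (hadj x y).2 ⟨hxv, hyv, hxq, hyq, hxy.1, Or.inl hxy⟩
  · intro x hxv hqx
    have hxp : p ≠ x := by
      rintro rfl
      exact npq (PC5_adj_symm hqx)
    exact (hadj p x).2 ⟨Ne.symm hvp, hxv, hpq', Ne.symm hqx.1, hxp, Or.inr (Or.inl ⟨rfl, hqx⟩)⟩
  · have e1 : Function.update w u z u = z := by simp
    have e2 : Function.update w u z p = w p := by simp [hpu]
    have e3 : Function.update w u z b = w b := by simp [Ne.symm hub]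
    have e4 : Function.update w u z c = w c := by simp [Ne.symm huc]
    rw [e1, e2, e3, e4]
    exact hz2

end Pool.Agent.TH246.PR
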