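import Pool.Agent.TH246.PR.Contr

set_option autoImplicit false
set_option linter.unusedVariables false

namespace Pool.Agent.TH246.PR

open Finset

variable {V : Type} [DecidableEq V]

omit [DecidableEq V] in
theorem PC5_adj_symm {T : Finset (Finset V)} {x y : V} (h : Adj T x y) : Adj T y x := by
  obtain ⟨hne, f, hf, hx, hy⟩ := h
  exact ⟨hne.symm, f, hf, hy, hx⟩

/-- a counting lemma: if `T' = φ(S) ∪ {e}` and `|T'| = |S| + 1` then `φ` is injective on `S` -/
theorem PC5_inj {α β : Type} [DecidableEq β] (S : Finset α) (φ : α → β) (e : β) (T' : Finset β)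
    (h : T' = insert e (S.image φ)) (hc : T'.card = S.card + 1) : Set.InjOn φ (S : Set α) := by
  have h1 : T'.card ≤ (S.image φ).card + 1 := by
    rw [h]; exact Finset.card_insert_le _ _
  have h2 : (S.image φ).card ≤ S.card := Finset.card_image_le
  have h3 : (S.image φ).card = S.card := by omega
  exact Finset.card_image_iff.mp h3

omit [DecidableEq V] in
theorem PC5_ne {A B : Finset V} (x : V) (h1 : x ∈ A) (h2 : x ∉ B) : A ≠ B := by
  rintro rfl
  exact h2 h1

theorem PC5_mem_insert_erase {p q x : V} {f : Finset V} (hxp : x ≠ p) (hxq : x ≠ q) :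
    x ∈ insert p (f.erase q) ↔ x ∈ f := by
  simp [hxp, hxq]

/-- contraction of a path `p v q`, where `v` has degree 5 -/
theorem pathcontr5 {T : Finset (Finset V)} (h : Sphere T) {v p u q b c : V}
    (hn : [v, p, u, q, b, c].Nodup)
    (hstar : star T v = {{v, p, u}, {v, u, q}, {v, q, b}, {v, b, c}, {v, c, p}})
    (hpq : ¬ Adj T p q) (hpb : ¬ Adj T p b) (hqc : ¬ Adj T q c)
    (hcom : ∀ z, Adj T z p → Adj T z q → z = v ∨ z = u) (h8 : 8 ≤ T.card) :
    ∃ T' : Finset (Finset V), Sphere T' ∧ T'.card + 4 = T.card ∧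
      (∀ f, f ∈ T' ↔ (f ∈ T ∧ v ∉ f ∧ q ∉ f) ∨
        (∃ g ∈ T, v ∉ g ∧ q ∈ g ∧ f = insert p (g.erase q)) ∨ f = {p, b, c}) ∧
      (∀ x y, Adj T' x y ↔ x ≠ v ∧ y ≠ v ∧ x ≠ q ∧ y ≠ q ∧ x ≠ y ∧
        (Adj T x y ∨ (x = p ∧ Adj T q y) ∨ (y = p ∧ Adj T q x))) ∧
      deg T' u + 2 = deg T u ∧
      (∀ x, x ≠ v → x ≠ p → x ≠ q → x ≠ u → x ≠ b → x ≠ c → deg T' x = deg T x) := by
  simp only [List.nodup_cons, List.mem_cons, List.not_mem_nil, or_false, not_or,
    not_false_eq_true, List.nodup_nil, and_true] at hn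
  obtain ⟨⟨hvp, hvu, hvq, hvb, hvc⟩, ⟨hpu, hpq', hpb', hpc⟩, ⟨huq, hub, huc⟩, ⟨hqb, hqc'⟩, hbc⟩ := hn
  -- the faces at `v`
  have hmem : ∀ f, f ∈ T → v ∈ f → f = {v, p, u} ∨ f = {v, u, q} ∨ f = {v, q, b} ∨ f = {v, b, c} ∨
      f = {v, c, p} := by
    intro f hf hv
    have : f ∈ star T v := by simp [star, hf, hv]
    rw [hstar] at this
    simpa using this
  have hmem' : ∀ f, (f = {v, p, u} ∨ f = {v, u, q} ∨ f = {v, q, b} ∨ f = {v, b, c} ∨
      f = {v, c, p}) → f ∈ T := by
    intro f hf
    have : f ∈ star T v := by rw [hstar]; simpa using hf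
    exact (Finset.mem_filter.mp this).1
  have f1 : ({v, p, u} : Finset V) ∈ T := hmem' _ (Or.inl rfl)
  have f2 : ({v, u, q} : Finset V) ∈ T := hmem' _ (Or.inr (Or.inl rfl))
  have f3 : ({v, q, b} : Finset V) ∈ T := hmem' _ (Or.inr (Or.inr (Or.inl rfl)))
  have f4 : ({v, b, c} : Finset V) ∈ T := hmem' _ (Or.inr (Or.inr (Or.inr (Or.inl rfl))))
  have f5 : ({v, c, p} : Finset V) ∈ T := hmem' _ (Or.inr (Or.inr (Or.inr (Or.inr rfl))))
  have hadjv : ∀ z, Adj T v z → z = p ∨ z = u ∨ z = q ∨ z = b ∨ z = c := by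
    rintro z ⟨hne, f, hf, hv, hz⟩
    rcases hmem f hf hv with rfl | rfl | rfl | rfl | rfl <;>
      simp only [Finset.mem_insert, Finset.mem_singleton] at hz <;>
      rcases hz with rfl | rfl | rfl <;> simp_all
  have hpu_adj : Adj T p u := ⟨hpu, _, f1, by simp, by simp⟩
  have hpc_adj : Adj T p c := ⟨hpc, _, f5, by simp, by simp⟩
  have hqb_adj : Adj T q b := ⟨hqb, _, f3, by simp, by simp⟩
  have hvp_adj : Adj T v p := ⟨hvp, _, f1, by simp, by simp⟩
  -- first contraction
  obtain ⟨hS1, hc1, hA1⟩ := sphere_contr h hvp_adj (by omega) (by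
    intro z hzv hzp
    have hzne : z ≠ p := hzp.1
    rcases hadjv z (PC5_adj_symm hzv) with rfl | rfl | rfl | rfl | rfl
    · exact absurd rfl hzne
    · exact f1
    · exact absurd (PC5_adj_symm hzp) hpq
    · exact absurd (PC5_adj_symm hzp) hpb
    · have : ({v, p, z} : Finset V) = {v, z, p} := by
        ext a; simp only [Finset.mem_insert, Finset.mem_singleton]; tauto
      rw [this]; exact f5)
  set T1 := contr T v p with hT1
  have hm1 : ∀ f, f ∈ T1 ↔ (f ∈ T ∧ v ∉ f) ∨ f = {p, u, q} ∨ f = {p, q, b} ∨ f = {p, b, c} := by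
    intro f
    rw [hT1, contr, Finset.mem_union, Finset.mem_filter, Finset.mem_image]
    constructor
    · rintro (hf | ⟨g, hg, rfl⟩)
      · exact Or.inl hf
      · rw [Finset.mem_filter] at hg
        obtain ⟨hgT, hgv, hgp⟩ := hg
        rcases hmem g hgT hgv with rfl | rfl | rfl | rfl | rfl
        · simp at hgp
        · right; left
          ext a
          simp only [Finset.mem_insert, Finset.mem_erase, Finset.mem_singleton]
          constructor
          · tauto
          · rintro (rfl | rfl | rfl) <;> simp_all [eq_comm]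
        · right; right; left
          ext a
          simp only [Finset.mem_insert, Finset.mem_erase, Finset.mem_singleton]
          constructor
          · tauto
          · rintro (rfl | rfl | rfl) <;> simp_all [eq_comm]
        · right; right; right
          ext a
          simp only [Finset.mem_insert, Finset.mem_erase, Finset.mem_singleton]
          constructor
          · tauto
          · rintro (rfl | rfl | rfl) <;> simp_all [eq_comm]
        · simp at hgp
    · rintro (hf | rfl | rfl | rfl)
      · exact Or.inl hf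
      · right
        refine ⟨{v, u, q}, ?_, ?_⟩
        · rw [Finset.mem_filter]; refine ⟨f2, by simp, ?_⟩
          simp only [Finset.mem_insert, Finset.mem_singleton]
          rintro (h' | h' | h')
          · exact hvp h'.symm
          · exact hpu h'
          · exact hpq' h'
        · ext a
          simp only [Finset.mem_insert, Finset.mem_erase, Finset.mem_singleton]
          constructor
          · tauto
          · rintro (rfl | rfl | rfl) <;> simp_all [eq_comm]
      · right
        refine ⟨{v, q, b}, ?_, ?_⟩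
        · rw [Finset.mem_filter]; refine ⟨f3, by simp, ?_⟩
          simp only [Finset.mem_insert, Finset.mem_singleton]
          rintro (h' | h' | h')
          · exact hvp h'.symm
          · exact hpq' h'
          · exact hpb' h'
        · ext a
          simp only [Finset.mem_insert, Finset.mem_erase, Finset.mem_singleton]
          constructor
          · tauto
          · rintro (rfl | rfl | rfl) <;> simp_all [eq_comm]
      · right
        refine ⟨{v, b, c}, ?_, ?_⟩
        · rw [Finset.mem_filter]; refine ⟨f4, by simp, ?_⟩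
          simp only [Finset.mem_insert, Finset.mem_singleton]
          rintro (h' | h' | h')
          · exact hvp h'.symm
          · exact hpb' h'
          · exact hpc h'
        · ext a
          simp only [Finset.mem_insert, Finset.mem_erase, Finset.mem_singleton]
          constructor
          · tauto
          · rintro (rfl | rfl | rfl) <;> simp_all [eq_comm]
  -- second contraction
  have hpuq : ({p, u, q} : Finset V) ∈ T1 := (hm1 _).2 (Or.inr (Or.inl rfl))
  have hpqb : ({p, q, b} : Finset V) ∈ T1 := (hm1 _).2 (Or.inr (Or.inr (Or.inl rfl)))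
  have hqp1 : Adj T1 q p := ⟨fun e => hpq' e.symm, _, hpuq, by simp, by simp⟩
  obtain ⟨hS2, hc2, hA2⟩ := sphere_contr hS1 hqp1 (by omega) (by
    intro z hzq hzp
    have hzneq : z ≠ q := hzq.1
    have hznep : z ≠ p := hzp.1
    have hzq' : Adj T z q := by
      rcases (hA1 z q).1 hzq with ⟨-, -, -, h' | ⟨h', -⟩ | ⟨h', -⟩⟩
      · exact h'
      · exact absurd h' hznep
      · exact absurd h'.symm hpq'
    have hzv : z ≠ v := ((hA1 z q).1 hzq).1
    have hz : z = u ∨ z = b := by
      rcases (hA1 z p).1 hzp with ⟨-, -, -, h' | ⟨h', -⟩ | ⟨-, h'⟩⟩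
      · rcases hcom z h' hzq' with h'' | h''
        · exact absurd h'' hzv
        · exact Or.inl h''
      · exact absurd h' hznep
      · rcases hadjv z h' with h'' | h'' | h'' | h'' | h''
        · exact absurd h'' hznep
        · exact Or.inl h''
        · exact absurd h'' hzneq
        · exact Or.inr h''
        · subst h''
          exact absurd (PC5_adj_symm hzq') hqc
    rcases hz with rfl | rfl
    · have : ({q, p, z} : Finset V) = {p, z, q} := by
        ext a; simp only [Finset.mem_insert, Finset.mem_singleton]; tauto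
      rw [this]; exact hpuq
    · have : ({q, p, z} : Finset V) = {p, q, z} := by
        ext a; simp only [Finset.mem_insert, Finset.mem_singleton]; tauto
      rw [this]; exact hpqb)
  set T' := contr T1 q p with hT'
  have hqpbc : q ∉ ({p, b, c} : Finset V) := by
    simp only [Finset.mem_insert, Finset.mem_singleton]
    rintro (h' | h' | h')
    · exact hpq' h'.symm
    · exact hqb h'
    · exact hqc' h'
  have hvpbc : v ∉ ({p, b, c} : Finset V) := by
    simp only [Finset.mem_insert, Finset.mem_singleton]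
    rintro (h' | h' | h')
    · exact hvp h'
    · exact hvb h'
    · exact hvc h'
  have hpn : ∀ g ∈ T, q ∈ g → p ∉ g := fun g hg hq hp => hpq ⟨hpq', g, hg, hp, hq⟩
  have hm2 : ∀ f, f ∈ T' ↔ (f ∈ T ∧ v ∉ f ∧ q ∉ f) ∨
        (∃ g ∈ T, v ∉ g ∧ q ∈ g ∧ f = insert p (g.erase q)) ∨ f = {p, b, c} := by
    intro f
    rw [hT', contr, Finset.mem_union, Finset.mem_filter, Finset.mem_image]
    constructor
    · rintro (⟨hf, hfq⟩ | ⟨g, hg, rfl⟩)
      · rcases (hm1 f).1 hf with ⟨hfT, hfv⟩ | rfl | rfl | rfl
        · exact Or.inl ⟨hfT, hfv, hfq⟩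
        · simp at hfq
        · simp at hfq
        · exact Or.inr (Or.inr rfl)
      · rw [Finset.mem_filter] at hg
        obtain ⟨hg1, hgq, hgp⟩ := hg
        rcases (hm1 g).1 hg1 with ⟨hgT, hgv⟩ | rfl | rfl | rfl
        · exact Or.inr (Or.inl ⟨g, hgT, hgv, hgq, rfl⟩)
        · simp at hgp
        · simp at hgp
        · simp at hgp
    · rintro (⟨hf, hfv, hfq⟩ | ⟨g, hg, hgv, hgq, rfl⟩ | rfl)
      · exact Or.inl ⟨(hm1 f).2 (Or.inl ⟨hf, hfv⟩), hfq⟩
      · refine Or.inr ⟨g, ?_, rfl⟩
        rw [Finset.mem_filter]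
        exact ⟨(hm1 g).2 (Or.inl ⟨hg, hgv⟩), hgq, hpn g hg hgq⟩
      · exact Or.inl ⟨(hm1 _).2 (Or.inr (Or.inr (Or.inr rfl))), hqpbc⟩
  have hcard : T'.card + 4 = T.card := by omega
  refine ⟨T', hS2, hcard, hm2, ?_, ?_⟩
  · -- adjacency
    intro x y
    rw [hA2 x y]
    constructor
    · rintro ⟨hxq, hyq, hxy, h' | ⟨rfl, h'⟩ | ⟨rfl, h'⟩⟩
      · obtain ⟨hxv, hyv, -, h'' | ⟨rfl, h''⟩ | ⟨rfl, h''⟩⟩ := (hA1 x y).1 h'
        · exact ⟨hxv, hyv, hxq, hyq, hxy, Or.inl h''⟩
        · refine ⟨hxv, hyv, hxq, hyq, hxy, ?_⟩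
          rcases hadjv y h'' with rfl | rfl | rfl | rfl | rfl
          · exact absurd rfl hxy
          · exact Or.inl hpu_adj
          · exact absurd rfl hyq
          · exact Or.inr (Or.inl ⟨rfl, hqb_adj⟩)
          · exact Or.inl hpc_adj
        · refine ⟨hxv, hyv, hxq, hyq, hxy, ?_⟩
          rcases hadjv x h'' with rfl | rfl | rfl | rfl | rfl
          · exact absurd rfl hxy
          · exact Or.inl (PC5_adj_symm hpu_adj)
          · exact absurd rfl hxq
          · exact Or.inr (Or.inr ⟨rfl, hqb_adj⟩)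
          · exact Or.inl (PC5_adj_symm hpc_adj)
      · obtain ⟨hqv, hyv, -, h'' | ⟨h'', -⟩ | ⟨h'', -⟩⟩ := (hA1 q y).1 h'
        · exact ⟨Ne.symm hvp, hyv, hxq, hyq, hxy, Or.inr (Or.inl ⟨rfl, h''⟩)⟩
        · exact absurd h''.symm hpq'
        · exact absurd h''.symm hxy
      · obtain ⟨hqv, hxv, -, h'' | ⟨h'', -⟩ | ⟨h'', -⟩⟩ := (hA1 q x).1 h'
        · exact ⟨hxv, Ne.symm hvp, hxq, hyq, hxy, Or.inr (Or.inr ⟨rfl, h''⟩)⟩
        · exact absurd h''.symm hpq'
        · exact absurd h'' hxy
    · rintro ⟨hxv, hyv, hxq, hyq, hxy, h' | ⟨rfl, h'⟩ | ⟨rfl, h'⟩⟩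
      · exact ⟨hxq, hyq, hxy, Or.inl ((hA1 x y).2 ⟨hxv, hyv, hxy, Or.inl h'⟩)⟩
      · exact ⟨hxq, hyq, hxy, Or.inr (Or.inl ⟨rfl, (hA1 q y).2 ⟨Ne.symm hvq, hyv, h'.1, Or.inl h'⟩⟩)⟩
      · exact ⟨hxq, hyq, hxy, Or.inr (Or.inr ⟨rfl, (hA1 q x).2 ⟨Ne.symm hvq, hxv, h'.1, Or.inl h'⟩⟩)⟩
  · -- degrees
    have hstar5 : (star T v).card = 5 := by
      rw [hstar]
      have e1 : ({v, p, u} : Finset V) ∉
          ({{v, u, q}, {v, q, b}, {v, b, c}, {v, c, p}} : Finset (Finset V)) := by
        simp only [Finset.mem_insert, Finset.mem_singleton, not_or]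
        refine ⟨PC5_ne p (by simp) ?_, PC5_ne p (by simp) ?_, PC5_ne p (by simp) ?_,
          PC5_ne u (by simp) ?_⟩ <;>
          simp only [Finset.mem_insert, Finset.mem_singleton, not_or] <;>
          refine ⟨?_, ?_, ?_⟩ <;> intro h' <;> simp_all
      have e2 : ({v, u, q} : Finset V) ∉
          ({{v, q, b}, {v, b, c}, {v, c, p}} : Finset (Finset V)) := by
        simp only [Finset.mem_insert, Finset.mem_singleton, not_or]
        refine ⟨PC5_ne u (by simp) ?_, PC5_ne u (by simp) ?_, PC5_ne u (by simp) ?_⟩ <;>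
          simp only [Finset.mem_insert, Finset.mem_singleton, not_or] <;>
          refine ⟨?_, ?_, ?_⟩ <;> intro h' <;> simp_all
      have e3 : ({v, q, b} : Finset V) ∉ ({{v, b, c}, {v, c, p}} : Finset (Finset V)) := by
        simp only [Finset.mem_insert, Finset.mem_singleton, not_or]
        refine ⟨PC5_ne q (by simp) ?_, PC5_ne q (by simp) ?_⟩ <;>
          simp only [Finset.mem_insert, Finset.mem_singleton, not_or] <;>
          refine ⟨?_, ?_, ?_⟩ <;> intro h' <;> simp_all
      have e4 : ({v, b, c} : Finset V) ∉ ({{v, c, p}} : Finset (Finset V)) := by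
        simp only [Finset.mem_singleton]
        refine PC5_ne b (by simp) ?_
        simp only [Finset.mem_insert, Finset.mem_singleton, not_or]
        refine ⟨?_, ?_, ?_⟩ <;> intro h' <;> simp_all
      rw [Finset.card_insert_of_notMem e1, Finset.card_insert_of_notMem e2,
        Finset.card_insert_of_notMem e3, Finset.card_insert_of_notMem e4, Finset.card_singleton]
    set S := T.filter (fun f => v ∉ f) with hS
    have hScard : S.card + 5 = T.card := by
      have e0 := Finset.card_filter_add_card_filter_not (s := T) (fun f => v ∈ f)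
      have e : (T.filter (fun f => v ∈ f)).card = 5 := hstar5
      have e' : S.card = (T.filter (fun f => ¬ (v ∈ f))).card := rfl
      omega
    set φ : Finset V → Finset V := fun f => if q ∈ f then insert p (f.erase q) else f with hφ
    have hT'eq : T' = insert {p, b, c} (S.image φ) := by
      ext f
      rw [hm2 f, Finset.mem_insert, Finset.mem_image]
      constructor
      · rintro (⟨hf, hfv, hfq⟩ | ⟨g, hg, hgv, hgq, rfl⟩ | rfl)
        · exact Or.inr ⟨f, Finset.mem_filter.2 ⟨hf, hfv⟩, by simp [hφ, hfq]⟩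
        · exact Or.inr ⟨g, Finset.mem_filter.2 ⟨hg, hgv⟩, by simp [hφ, hgq]⟩
        · exact Or.inl rfl
      · rintro (rfl | ⟨g, hg, rfl⟩)
        · exact Or.inr (Or.inr rfl)
        · obtain ⟨hgT, hgv⟩ := Finset.mem_filter.1 hg
          by_cases hgq : q ∈ g
          · exact Or.inr (Or.inl ⟨g, hgT, hgv, hgq, by simp [hφ, hgq]⟩)
          · left
            simp only [hφ, hgq, if_false]
            exact ⟨hgT, hgv, not_false⟩
    have hinj : Set.InjOn φ (S : Set (Finset V)) :=
      PC5_inj S φ {p, b, c} T' hT'eq (by omega)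
    have hkey : ∀ x, x ≠ p → x ≠ q → x ≠ b → x ≠ c →
        deg T' x + ((star T v).filter (fun f => x ∈ f)).card = deg T x := by
      intro x hxp hxq hxb hxc
      have h1 : star T' x = (S.filter (fun f => x ∈ f)).image φ := by
        ext f
        rw [star, Finset.mem_filter, hT'eq, Finset.mem_insert, Finset.mem_image, Finset.mem_image]
        constructor
        · rintro ⟨rfl | ⟨g, hg, rfl⟩, hx⟩
          · simp [hxp, hxb, hxc] at hx
          · refine ⟨g, Finset.mem_filter.2 ⟨hg, ?_⟩, rfl⟩
            by_cases hgq : q ∈ g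
            · simp only [hφ, hgq, if_true] at hx
              exact (PC5_mem_insert_erase hxp hxq).1 hx
            · simpa only [hφ, hgq, if_false] using hx
        · rintro ⟨g, hg, rfl⟩
          obtain ⟨hgS, hgx⟩ := Finset.mem_filter.1 hg
          refine ⟨Or.inr ⟨g, hgS, rfl⟩, ?_⟩
          by_cases hgq : q ∈ g
          · simp only [hφ, hgq, if_true]
            exact (PC5_mem_insert_erase hxp hxq).2 hgx
          · simpa only [hφ, hgq, if_false] using hgx
      have h2 : deg T' x = (S.filter (fun f => x ∈ f)).card := by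
        rw [deg, h1]
        apply Finset.card_image_of_injOn
        exact hinj.mono (by
          intro f hf
          exact Finset.mem_coe.2 (Finset.mem_filter.1 (Finset.mem_coe.1 hf)).1)
      have h3 : (S.filter (fun f => x ∈ f)) = (star T x).filter (fun f => v ∉ f) := by
        rw [hS, star, Finset.filter_comm]
      have h4 : (star T v).filter (fun f => x ∈ f) = (star T x).filter (fun f => v ∈ f) := by
        rw [star, star, Finset.filter_comm]
      have h5 := Finset.card_filter_add_card_filter_not (s := star T x) (fun f => v ∈ f)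
      rw [h2, h3, h4, deg]
      omega
    constructor
    · have h1 := hkey u (Ne.symm hpu) huq hub huc
      have h2 : ((star T v).filter (fun f => u ∈ f)) = {{v, p, u}, {v, u, q}} := by
        rw [hstar]
        ext f
        simp only [Finset.mem_filter, Finset.mem_insert, Finset.mem_singleton]
        constructor
        · rintro ⟨rfl | rfl | rfl | rfl | rfl, hu⟩
          · exact Or.inl rfl
          · exact Or.inr rfl
          · simp [Ne.symm hvu, huq, hub] at hu
          · simp [Ne.symm hvu, hub, huc] at hu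
          · simp [Ne.symm hvu, huc, Ne.symm hpu] at hu
        · rintro (rfl | rfl) <;> simp
      have h3 : ({{v, p, u}, {v, u, q}} : Finset (Finset V)).card = 2 := by
        apply Finset.card_pair
        refine PC5_ne p (by simp) ?_
        simp only [Finset.mem_insert, Finset.mem_singleton, not_or]
        exact ⟨Ne.symm hvp, hpu, hpq'⟩
      rw [h2, h3] at h1
      exact h1
    · intro x hxv hxp hxq hxu hxb hxc
      have h1 := hkey x hxp hxq hxb hxc
      have h2 : ((star T v).filter (fun f => x ∈ f)) = ∅ := by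
        rw [hstar]
        ext f
        simp only [Finset.mem_filter, Finset.mem_insert, Finset.mem_singleton,
          Finset.notMem_empty, iff_false, not_and]
        rintro (rfl | rfl | rfl | rfl | rfl) <;> simp [hxv, hxp, hxq, hxu, hxb, hxc]
      rw [h2, Finset.card_empty] at h1
      exact h1

end Pool.Agent.TH246.PR
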