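import Pool.Agent.TH246.PR.PathContr4
import Pool.Agent.TH246.PR.PathContr5
import Pool.Agent.TH246.PR.LinkN
import Pool.Agent.TH246.PR.Lift4
import Pool.Agent.TH246.PR.Lift5
import Pool.Agent.TH246.PR.Col3
import Pool.Agent.TH246.PR.Rec4
import Pool.Agent.TH246.PR.Basic

set_option autoImplicit false
set_option linter.unusedVariables false

namespace Pool.Agent.TH246.PR

open Finset

variable {V : Type} [DecidableEq V]

theorem Red56_pair {v y z s t : V} (h : ({v, y, z} : Finset V) = {v, s, t}) (hy : v ≠ y)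
    (hz : v ≠ z) (hyz : y ≠ z) : (y = s ∧ z = t) ∨ (y = t ∧ z = s) := by
  have h1 : y ∈ ({v, s, t} : Finset V) := by rw [← h]; simp
  have h2 : z ∈ ({v, s, t} : Finset V) := by rw [← h]; simp
  simp only [mem_insert, mem_singleton] at h1 h2
  rcases h1 with h1 | h1 | h1
  · exact absurd h1.symm hy
  · rcases h2 with h2 | h2 | h2
    · exact absurd h2.symm hz
    · exact absurd (h1.trans h2.symm) hyz
    · exact Or.inl ⟨h1, h2⟩
  · rcases h2 with h2 | h2 | h2
    · exact absurd h2.symm hz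
    · exact Or.inr ⟨h1, h2⟩
    · exact absurd (h1.trans h2.symm) hyz

/-- the faces at a vertex of degree 5 -/
theorem Red56_f5 {T : Finset (Finset V)} (h : Pre T) {v a0 a1 a2 a3 a4 y z : V}
    (hs : star T v = {{v, a0, a1}, {v, a1, a2}, {v, a2, a3}, {v, a3, a4}, {v, a4, a0}})
    (hf : ({v, y, z} : Finset V) ∈ T) :
    (y = a0 ∧ z = a1) ∨ (y = a1 ∧ z = a0) ∨ (y = a1 ∧ z = a2) ∨ (y = a2 ∧ z = a1) ∨
    (y = a2 ∧ z = a3) ∨ (y = a3 ∧ z = a2) ∨ (y = a3 ∧ z = a4) ∨ (y = a4 ∧ z = a3) ∨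
    (y = a4 ∧ z = a0) ∨ (y = a0 ∧ z = a4) := by
  obtain ⟨h1, h2, h3⟩ := h.ne hf
  have hm : ({v, y, z} : Finset V) ∈ star T v := mem_star.2 ⟨hf, by simp⟩
  rw [hs] at hm
  simp only [mem_insert, mem_singleton] at hm
  rcases hm with hm | hm | hm | hm | hm <;> rcases Red56_pair hm h1 h2 h3 with h4 | h4 <;>
    simp [h4]

/-- the faces at a vertex of degree 6 -/
theorem Red56_f6 {T : Finset (Finset V)} (h : Pre T) {v a0 a1 a2 a3 a4 a5 y z : V}
    (hs : star T v = {{v, a0, a1}, {v, a1, a2}, {v, a2, a3}, {v, a3, a4}, {v, a4, a5},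
      {v, a5, a0}})
    (hf : ({v, y, z} : Finset V) ∈ T) :
    (y = a0 ∧ z = a1) ∨ (y = a1 ∧ z = a0) ∨ (y = a1 ∧ z = a2) ∨ (y = a2 ∧ z = a1) ∨
    (y = a2 ∧ z = a3) ∨ (y = a3 ∧ z = a2) ∨ (y = a3 ∧ z = a4) ∨ (y = a4 ∧ z = a3) ∨
    (y = a4 ∧ z = a5) ∨ (y = a5 ∧ z = a4) ∨ (y = a5 ∧ z = a0) ∨ (y = a0 ∧ z = a5) := by
  obtain ⟨h1, h2, h3⟩ := h.ne hf
  have hm : ({v, y, z} : Finset V) ∈ star T v := mem_star.2 ⟨hf, by simp⟩
  rw [hs] at hm
  simp only [mem_insert, mem_singleton] at hm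
  rcases hm with hm | hm | hm | hm | hm | hm <;> rcases Red56_pair hm h1 h2 h3 with h4 | h4 <;>
    simp [h4]

theorem Red56_adj {T : Finset (Finset V)} {v x : V} :
    Adj T v x ↔ v ≠ x ∧ ∃ f ∈ star T v, x ∈ f := by
  unfold Adj
  simp only [mem_star]
  constructor
  · rintro ⟨h1, f, h2, h3, h4⟩
    exact ⟨h1, f, ⟨h2, h3⟩, h4⟩
  · rintro ⟨h1, f, ⟨h2, h3⟩, h4⟩
    exact ⟨h1, f, h2, h3, h4⟩

theorem Red56_nb4 {T : Finset (Finset V)} {v p r q s : V} (hn : [v, p, r, q, s].Nodup)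
    (hs : star T v = {{v, p, r}, {v, r, q}, {v, q, s}, {v, s, p}}) (x : V) :
    Adj T v x ↔ x = p ∨ x = q ∨ x = r ∨ x = s := by
  simp only [List.nodup_cons, List.mem_cons, List.not_mem_nil, not_or, or_false,
    not_false_eq_true, List.nodup_nil, and_true] at hn
  obtain ⟨⟨h1, h2, h3, h4⟩, -⟩ := hn
  rw [Red56_adj, hs]
  simp only [mem_insert, mem_singleton, exists_eq_or_imp, exists_eq_left]
  constructor
  · rintro ⟨h5, h6 | h6 | h6 | h6⟩ <;> rcases h6 with h6 | h6 | h6 <;>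
      first | exact absurd h6.symm h5 | simp [h6]
  · rintro (rfl | rfl | rfl | rfl)
    · exact ⟨h1, by simp⟩
    · exact ⟨h3, by simp⟩
    · exact ⟨h2, by simp⟩
    · exact ⟨h4, by simp⟩

/-- recolouring of a vertex of degree 3 or 4 -/
theorem Red56_recol {T : Finset (Finset V)} (h : Sphere T) {x s y : V} {w : V → F8}
    (hw : Good T w) (hd : deg T x = 3 ∨ deg T x = 4) (hxy : Adj T x y) (hs : s ≠ x) :
    ∃ w' : V → F8, Good T w' ∧ w' x ≠ w' s := by
  by_cases hxs : w x = w s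
  · rcases hd with hd | hd
    · obtain ⟨a, b, hn, hnb, hst⟩ := link3 h hxy hd
      have f1 : ({x, y, a} : Finset V) ∈ T := (mem_star.1 (hst ▸ by simp : _ ∈ star T x)).1
      have f2 : ({x, a, b} : Finset V) ∈ T := (mem_star.1 (hst ▸ by simp : _ ∈ star T x)).1
      have f3 : ({x, b, y} : Finset V) ∈ T := (mem_star.1 (hst ▸ by simp : _ ∈ star T x)).1
      have e1 := good_ne hw (h.toPre.adj f1).2.2
      have e2 := good_ne hw (h.toPre.adj f2).2.2
      have e3 := good_ne hw (h.toPre.adj f3).2.2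
      obtain ⟨c0, hc0, hc1, -⟩ := exists_aff_ne2 (w y) (w a) (w b) (w s) (w s) e1 e2 e3.symm
      refine ⟨Function.update w x c0, rec3 hn hnb hw c0 hc0, ?_⟩
      rw [Function.update_self, Function.update_of_ne hs]
      exact hc1
    · obtain ⟨a, b, c, hn, hnb, hst⟩ := link4 h hxy hd
      have f1 : ({x, y, a} : Finset V) ∈ T := (mem_star.1 (hst ▸ by simp : _ ∈ star T x)).1
      have f2 : ({x, a, b} : Finset V) ∈ T := (mem_star.1 (hst ▸ by simp : _ ∈ star T x)).1
      have f3 : ({x, b, c} : Finset V) ∈ T := (mem_star.1 (hst ▸ by simp : _ ∈ star T x)).1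
      have f4 : ({x, c, y} : Finset V) ∈ T := (mem_star.1 (hst ▸ by simp : _ ∈ star T x)).1
      obtain ⟨c0, hc0, hg⟩ := rec4 hn hnb (h.toPre.adj f1).2.2 (h.toPre.adj f2).2.2
        (h.toPre.adj f3).2.2 (h.toPre.adj f4).2.2 hw
      refine ⟨Function.update w x c0, hg, ?_⟩
      rw [Function.update_self, Function.update_of_ne hs, ← hxs]
      exact hc0
  · exact ⟨w, hw, hxs⟩

/-- the second contraction -/
theorem Red56_step2 {T1 : Finset (Finset V)} (h1 : Sphere T1) (h8 : 8 ≤ T1.card)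
    {u p' r q' s p b c : V} (hn : [u, p', r, q', s].Nodup)
    (hstar : star T1 u = {{u, p', r}, {u, r, q'}, {u, q', s}, {u, s, p'}})
    (hpq : ¬ Adj T1 p' q') (hcom : ∀ z, Adj T1 z p' → Adj T1 z q' → z = u ∨ z = r ∨ z = s)
    (hd : deg T1 r = 5 ∨ deg T1 r = 6) (hp : p = p' ∨ p = s) (hb : b ≠ u) (hb' : b ≠ q')
    (hc : c ≠ u) (hc' : c ≠ q') (hpb : Adj T1 p b) (hpc : Adj T1 p c) (hbc : Adj T1 b c)
    (ih : ∀ T' : Finset (Finset V), Sphere T' → T'.card < T1.card → ∃ w : V → F8, Good T' w) :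
    ∃ w : V → F8, Good T1 w ∧ Aff (w u) (w p) (w b) (w c) := by
  obtain ⟨T2, s2, hc2, -, ha2, hdr, -, -⟩ := pathcontr4 h1 hn hstar hpq hcom h8
  have hn' := hn
  simp only [List.nodup_cons, List.mem_cons, List.not_mem_nil, not_or, or_false,
    not_false_eq_true, List.nodup_nil, and_true] at hn'
  obtain ⟨⟨n1, n2, n3, n4⟩, ⟨n5, n6, n7⟩, ⟨n8, n9⟩, n10⟩ := hn'
  obtain ⟨w0, hw0⟩ := ih T2 s2 (by omega)
  have f1 : ({u, p', r} : Finset V) ∈ T1 := (mem_star.1 (hstar ▸ by simp : _ ∈ star T1 u)).1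
  have f4 : ({u, s, p'} : Finset V) ∈ T1 := (mem_star.1 (hstar ▸ by simp : _ ∈ star T1 u)).1
  have a1 : Adj T1 p' r := (h1.toPre.adj f1).2.2
  have a2 : Adj T1 s p' := (h1.toPre.adj f4).2.2
  have e2 : ∀ x y, x ≠ u → y ≠ u → x ≠ q' → y ≠ q' → Adj T1 x y → Adj T2 x y :=
    fun x y g1 g2 g3 g4 g5 => (ha2 x y).2 ⟨g1, g2, g3, g4, g5.1, Or.inl g5⟩
  have b1 : Adj T2 p' r := e2 _ _ (Ne.symm n1) (Ne.symm n2) n6 n8 a1
  have b2 : Adj T2 s p' := e2 _ _ (Ne.symm n4) (Ne.symm n1) (Ne.symm n10) n6 a2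
  obtain ⟨w, hw, hws⟩ := Red56_recol (s := s) s2 hw0 (by omega : deg T2 r = 3 ∨ deg T2 r = 4)
    b1.symm (Ne.symm n9)
  have hpu : p ≠ u := by rcases hp with rfl | rfl <;> [exact Ne.symm n1; exact Ne.symm n4]
  have hpq' : p ≠ q' := by rcases hp with rfl | rfl <;> [exact n6; exact Ne.symm n10]
  have g1 := good_ne hw (e2 p b hpu hb hpq' hb' hpb)
  have g2 := good_ne hw (e2 p c hpu hc hpq' hc' hpc)
  have g3 := good_ne hw (e2 b c hb hc hb' hc' hbc)
  have g4 := good_ne hw b1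
  have g5 := good_ne hw b2
  obtain ⟨z0, hz1, hz2⟩ : ∃ z0, Aff z0 (w p') (w r) (w s) ∧ Aff z0 (w p) (w b) (w c) := by
    rcases hp with rfl | rfl
    · exact exists_aff_aff (w p) (w r) (w s) (w b) (w c) g4 hws g5.symm g1 g2 g3
    · obtain ⟨z0, hz1, hz2⟩ := exists_aff_aff (w p) (w p') (w r) (w b) (w c) g5 g4 hws.symm g1 g2 g3
      refine ⟨z0, ?_, hz2⟩
      have t1 := (aff_perm z0 (w p) (w p') (w r)).1.1 hz1
      exact (aff_perm z0 (w p') (w p) (w r)).2.1 t1
  have hl := lift4 (T := T1) (T' := T2) (v := u) (p := p') (q := q') (r := r) (s := s) (w := w)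
    (by
      simp only [List.nodup_cons, List.mem_cons, List.not_mem_nil, not_or, or_false,
        not_false_eq_true, List.nodup_nil, and_true]
      exact ⟨⟨n1, n3, n2, n4⟩, ⟨n6, n5, n7⟩, ⟨Ne.symm n8, n10⟩, n9⟩)
    (Red56_nb4 hn hstar) hpq hcom a1 a2.symm
    (fun x y g1 g2 g3 g4 g5 => e2 x y g1 g2 g3 g4 g5)
    (fun x g1 g2 => (ha2 p' x).2 ⟨Ne.symm n1, g1, n6, Ne.symm g2.1, by
      rintro rfl
      exact hpq g2.symm, Or.inr (Or.inl ⟨rfl, g2⟩)⟩) hw z0 hz1
  refine ⟨_, hl, ?_⟩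
  rw [Function.update_self, Function.update_of_ne hpu, Function.update_of_ne hpq',
    Function.update_of_ne hb, Function.update_of_ne hb', Function.update_of_ne hc,
    Function.update_of_ne hc']
  exact hz2

theorem Red56_nb5 {T : Finset (Finset V)} {v p u q b c : V} (hn : [v, p, u, q, b, c].Nodup)
    (hs : star T v = {{v, p, u}, {v, u, q}, {v, q, b}, {v, b, c}, {v, c, p}}) (x : V) :
    Adj T v x ↔ x = p ∨ x = u ∨ x = q ∨ x = b ∨ x = c := by
  simp only [List.nodup_cons, List.mem_cons, List.not_mem_nil, not_or, or_false,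
    not_false_eq_true, List.nodup_nil, and_true] at hn
  obtain ⟨⟨h1, h2, h3, h4, h5⟩, -⟩ := hn
  rw [Red56_adj, hs]
  simp only [mem_insert, mem_singleton, exists_eq_or_imp, exists_eq_left]
  constructor
  · rintro ⟨h5, h6 | h6 | h6 | h6 | h6⟩ <;> rcases h6 with h6 | h6 | h6 <;>
      first | exact absurd h6.symm h5 | simp [h6]
  · rintro (rfl | rfl | rfl | rfl | rfl)
    · exact ⟨h1, by simp⟩
    · exact ⟨h2, by simp⟩
    · exact ⟨h3, by simp⟩
    · exact ⟨h4, by simp⟩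
    · exact ⟨h5, by simp⟩

theorem Red56_fin9 {u v p c1 c2 c3 q b c : V} (h : [u, v, p, c1, c2, c3, q, b, c].Nodup) :
    ∃ a : Fin 9 → V, Function.Injective a ∧ u = a 0 ∧ v = a 1 ∧ p = a 2 ∧ c1 = a 3 ∧ c2 = a 4 ∧
      c3 = a 5 ∧ q = a 6 ∧ b = a 7 ∧ c = a 8 := by
  refine ⟨![u, v, p, c1, c2, c3, q, b, c], ?_, rfl, rfl, rfl, rfl, rfl, rfl, rfl, rfl, rfl⟩
  rw [← List.nodup_ofFn]
  simpa [List.ofFn_succ] using h

theorem Red56_mem_star {T : Finset (Finset V)} {v : V} {f : Finset V} {S : Finset (Finset V)}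
    (hs : star T v = S) (hf : f ∈ S) : f ∈ T := by
  rw [← hs] at hf
  exact (mem_star.1 hf).1

theorem Red56_core {T : Finset (Finset V)} (h : Sphere T) (hF : Fac T)
    (I : Finset V) (hI : ∀ v ∈ I, NoSep T I v)
    (h46 : ∀ x ∈ I, ∀ y ∈ I, Adj T x y → deg T x = 4 → deg T y ≠ 6)
    {u v p c1 c2 c3 q b c : V} (hn : [u, v, p, c1, c2, c3, q, b, c].Nodup)
    (hus : star T u = {{u, v, p}, {u, p, c1}, {u, c1, c2}, {u, c2, c3}, {u, c3, q}, {u, q, v}})
    (hvs : star T v = {{v, u, q}, {v, q, b}, {v, b, c}, {v, c, p}, {v, p, u}})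
    (hvI : v ∈ I) (huI : u ∈ I) (hu : deg T u = 6) {x : V}
    (hx : deg T x = 5 ∨ deg T x = 6) (hxc : x = c1 ∨ x = c2)
    (ih : ∀ T' : Finset (Finset V), Sphere T' → T'.card < T.card → ∃ w : V → F8, Good T' w) :
    ∃ w : V → F8, Good T w := by
  obtain ⟨a, ha, rfl, rfl, rfl, rfl, rfl, rfl, rfl, rfl, rfl⟩ := Red56_fin9 hn
  have hP := h.toPre
  -- faces
  have F012 : ({a 0, a 1, a 2} : Finset V) ∈ T := Red56_mem_star hus (by simp)
  have F023 : ({a 0, a 2, a 3} : Finset V) ∈ T := Red56_mem_star hus (by simp)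
  have F034 : ({a 0, a 3, a 4} : Finset V) ∈ T := Red56_mem_star hus (by simp)
  have F045 : ({a 0, a 4, a 5} : Finset V) ∈ T := Red56_mem_star hus (by simp)
  have F056 : ({a 0, a 5, a 6} : Finset V) ∈ T := Red56_mem_star hus (by simp)
  have F061 : ({a 0, a 6, a 1} : Finset V) ∈ T := Red56_mem_star hus (by simp)
  have G67 : ({a 1, a 6, a 7} : Finset V) ∈ T := Red56_mem_star hvs (by simp)
  have G78 : ({a 1, a 7, a 8} : Finset V) ∈ T := Red56_mem_star hvs (by simp)
  have G82 : ({a 1, a 8, a 2} : Finset V) ∈ T := Red56_mem_star hvs (by simp)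
  have A01 := (hP.adj F012).1
  have A02 := (hP.adj F012).2.1
  have A03 := (hP.adj F023).2.1
  have A04 := (hP.adj F034).2.1
  have A05 := (hP.adj F045).2.1
  have A06 := (hP.adj F056).2.1
  have A12 := (hP.adj F012).2.2
  have A16 := (hP.adj G67).1
  have A17 := (hP.adj G67).2.1
  have A18 := (hP.adj G82).1
  have A10 := A01.symm
  -- number of faces
  have hcard : 14 ≤ T.card := by
    have h1 : (Finset.univ.image a).card = 9 := by
      rw [Finset.card_image_of_injective _ ha]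
      rfl
    have h2 : Finset.univ.image a ⊆ verts T := by
      intro y hy
      obtain ⟨i, -, rfl⟩ := Finset.mem_image.1 hy
      fin_cases i
      · exact A01.left_mem
      · exact A01.right_mem
      · exact A02.right_mem
      · exact A03.right_mem
      · exact A04.right_mem
      · exact A05.right_mem
      · exact A06.right_mem
      · exact A17.right_mem
      · exact A18.right_mem
    have h3 := Finset.card_le_card h2
    have h4 := h.euler
    omega
  -- non-adjacent pairs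
  have hF6 : ∀ i j, Adj T (a 0) (a i) → Adj T (a 0) (a j) → Adj T (a i) (a j) →
      (a i = a 1 ∧ a j = a 2) ∨ (a i = a 2 ∧ a j = a 1) ∨ (a i = a 2 ∧ a j = a 3) ∨
      (a i = a 3 ∧ a j = a 2) ∨ (a i = a 3 ∧ a j = a 4) ∨ (a i = a 4 ∧ a j = a 3) ∨
      (a i = a 4 ∧ a j = a 5) ∨ (a i = a 5 ∧ a j = a 4) ∨ (a i = a 5 ∧ a j = a 6) ∨
      (a i = a 6 ∧ a j = a 5) ∨ (a i = a 6 ∧ a j = a 1) ∨ (a i = a 1 ∧ a j = a 6) :=
    fun i j h1 h2 h3 => Red56_f6 hP hus (hF _ _ _ h1 h3 h2)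
  have hF5 : ∀ i j, Adj T (a 1) (a i) → Adj T (a 1) (a j) → Adj T (a i) (a j) →
      (a i = a 0 ∧ a j = a 6) ∨ (a i = a 6 ∧ a j = a 0) ∨ (a i = a 6 ∧ a j = a 7) ∨
      (a i = a 7 ∧ a j = a 6) ∨ (a i = a 7 ∧ a j = a 8) ∨ (a i = a 8 ∧ a j = a 7) ∨
      (a i = a 8 ∧ a j = a 2) ∨ (a i = a 2 ∧ a j = a 8) ∨ (a i = a 2 ∧ a j = a 0) ∨
      (a i = a 0 ∧ a j = a 2) :=
    fun i j h1 h2 h3 => Red56_f5 hP hvs (hF _ _ _ h1 h3 h2)
  have n26 : ¬ Adj T (a 2) (a 6) := fun h3 => by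
    have := hF6 2 6 A02 A06 h3
    simp [ha.eq_iff] at this
  have n35 : ¬ Adj T (a 3) (a 5) := fun h3 => by
    have := hF6 3 5 A03 A05 h3
    simp [ha.eq_iff] at this
  have n24 : ¬ Adj T (a 2) (a 4) := fun h3 => by
    have := hF6 2 4 A02 A04 h3
    simp [ha.eq_iff] at this
  have n64 : ¬ Adj T (a 6) (a 4) := fun h3 => by
    have := hF6 6 4 A06 A04 h3
    simp [ha.eq_iff] at this
  have n27 : ¬ Adj T (a 2) (a 7) := fun h3 => by
    have := hF5 2 7 A12 A17 h3
    simp [ha.eq_iff] at this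
  have n68 : ¬ Adj T (a 6) (a 8) := fun h3 => by
    have := hF5 6 8 A16 A18 h3
    simp [ha.eq_iff] at this
  -- the first contraction
  have hcom1 : ∀ z, Adj T z (a 2) → Adj T z (a 6) → z = a 1 ∨ z = a 0 := by
    intro z hz1 hz2
    by_cases hzv : z = a 1
    · exact Or.inl hzv
    · right
      obtain ⟨t, ht1, ht2, ht3⟩ := hI (a 1) hvI (a 2) (a 6) A12 A16 (by simp [ha.eq_iff]) n26 z
        hzv hz1 hz2
      have t1 := Red56_f5 hP hvs ht1
      have t2 := Red56_f5 hP hvs ht2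
      simp [ha.eq_iff] at t1 t2
      have t3 : t = a 0 := by
        rcases t1 with rfl | rfl
        · simp [ha.eq_iff] at t2
        · rfl
      rcases ht3 with ht3 | ht3
      · exact ht3.trans t3
      · rw [t3] at ht3
        omega
  have hstar1 : star T (a 1) = {{a 1, a 2, a 0}, {a 1, a 0, a 6}, {a 1, a 6, a 7},
      {a 1, a 7, a 8}, {a 1, a 8, a 2}} := by
    rw [hvs]
    ext f
    simp only [mem_insert, mem_singleton]
    tauto
  have hnd1 : [a 1, a 2, a 0, a 6, a 7, a 8].Nodup := by simp [ha.eq_iff]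
  obtain ⟨T1, s1, hc1, hface1, hadj1, hdu, hdx⟩ := pathcontr5 h hnd1 hstar1 n26 n27 n68 hcom1
    (by omega)
  have hstar2 : star T1 (a 0) = {{a 0, a 2, a 3}, {a 0, a 3, a 4}, {a 0, a 4, a 5},
      {a 0, a 5, a 2}} := by
    ext f
    rw [mem_star, hface1]
    simp only [mem_insert, mem_singleton]
    constructor
    · rintro ⟨⟨hf, hv, hq⟩ | ⟨g, hg, hv, hq, rfl⟩ | rfl, huf⟩
      · have hfs : f ∈ star T (a 0) := mem_star.2 ⟨hf, huf⟩
        rw [hus] at hfs
        simp only [mem_insert, mem_singleton] at hfs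
        rcases hfs with rfl | rfl | rfl | rfl | rfl | rfl
        · simp at hv
        · simp
        · simp
        · simp
        · simp at hq
        · simp at hq
      · have hug : a 0 ∈ g := by
          rw [mem_insert, mem_erase] at huf
          rcases huf with h1 | h1
          · simp [ha.eq_iff] at h1
          · exact h1.2
        have hfs : g ∈ star T (a 0) := mem_star.2 ⟨hg, hug⟩
        rw [hus] at hfs
        simp only [mem_insert, mem_singleton] at hfs
        rcases hfs with rfl | rfl | rfl | rfl | rfl | rfl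
        · simp at hv
        · simp [ha.eq_iff] at hq
        · simp [ha.eq_iff] at hq
        · simp [ha.eq_iff] at hq
        · right; right; right
          ext y
          simp only [mem_insert, mem_erase, mem_singleton]
          constructor
          · rintro (h1 | ⟨h1, h2 | h2 | h2⟩)
            · exact Or.inr (Or.inr h1)
            · exact Or.inl h2
            · exact Or.inr (Or.inl h2)
            · exact absurd h2 h1
          · rintro (h1 | h1 | h1)
            · subst h1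
              exact Or.inr ⟨by simp [ha.eq_iff], Or.inl rfl⟩
            · subst h1
              exact Or.inr ⟨by simp [ha.eq_iff], Or.inr (Or.inl rfl)⟩
            · exact Or.inl h1
        · simp at hv
      · simp [ha.eq_iff] at huf
    · rintro (rfl | rfl | rfl | rfl)
      · exact ⟨Or.inl ⟨F023, by simp [ha.eq_iff], by simp [ha.eq_iff]⟩, by simp⟩
      · exact ⟨Or.inl ⟨F034, by simp [ha.eq_iff], by simp [ha.eq_iff]⟩, by simp⟩
      · exact ⟨Or.inl ⟨F045, by simp [ha.eq_iff], by simp [ha.eq_iff]⟩, by simp⟩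
      · refine ⟨Or.inr (Or.inl ⟨_, F056, by simp [ha.eq_iff], by simp, ?_⟩), by simp⟩
        ext y
        simp only [mem_insert, mem_erase, mem_singleton]
        constructor
        · rintro (h1 | h1 | h1)
          · subst h1
            exact Or.inr ⟨by simp [ha.eq_iff], Or.inl rfl⟩
          · subst h1
            exact Or.inr ⟨by simp [ha.eq_iff], Or.inr (Or.inl rfl)⟩
          · exact Or.inl h1
        · rintro (h1 | ⟨h1, h2 | h2 | h2⟩)
          · exact Or.inr (Or.inr h1)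
          · exact Or.inl h2
          · exact Or.inr (Or.inl h2)
          · exact absurd h2 h1
  -- edges of the first contraction
  have B27 : Adj T1 (a 2) (a 7) := (hadj1 _ _).2 ⟨by simp [ha.eq_iff], by simp [ha.eq_iff],
    by simp [ha.eq_iff], by simp [ha.eq_iff], by simp [ha.eq_iff],
    Or.inr (Or.inl ⟨rfl, (hP.adj G67).2.2⟩)⟩
  have B28 : Adj T1 (a 2) (a 8) := (hadj1 _ _).2 ⟨by simp [ha.eq_iff], by simp [ha.eq_iff],
    by simp [ha.eq_iff], by simp [ha.eq_iff], by simp [ha.eq_iff],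
    Or.inl (hP.adj G82).2.2.symm⟩
  have B78 : Adj T1 (a 7) (a 8) := (hadj1 _ _).2 ⟨by simp [ha.eq_iff], by simp [ha.eq_iff],
    by simp [ha.eq_iff], by simp [ha.eq_iff], by simp [ha.eq_iff],
    Or.inl (hP.adj G78).2.2⟩
  have ih1 : ∀ T' : Finset (Finset V), Sphere T' → T'.card < T1.card → ∃ w : V → F8, Good T' w :=
    fun T' g1 g2 => ih T' g1 (by omega)
  obtain ⟨w, hw, hc⟩ : ∃ w : V → F8, Good T1 w ∧ Aff (w (a 0)) (w (a 2)) (w (a 7)) (w (a 8)) := by
    rcases hxc with rfl | rfl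
    · -- `x = c1`
      refine Red56_step2 (p' := a 2) (r := a 3) (q' := a 4) (s := a 5) s1 (by omega)
        (by simp [ha.eq_iff]) hstar2 ?_ ?_ ?_ (Or.inl rfl) (by simp [ha.eq_iff])
        (by simp [ha.eq_iff]) (by simp [ha.eq_iff]) (by simp [ha.eq_iff]) B27 B28 B78 ih1
      · intro h1
        rw [hadj1] at h1
        rcases h1.2.2.2.2.2 with h2 | h2 | h2
        · exact n24 h2
        · exact n64 h2.2
        · simp [ha.eq_iff] at h2
      · intro z hz1 hz2
        by_cases hz0 : z = a 0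
        · exact Or.inl hz0
        right
        rw [hadj1] at hz1 hz2
        have hz2p : z ≠ a 2 := hz1.2.2.2.2.1
        have k1 : Adj T z (a 4) := by
          rcases hz2.2.2.2.2.2 with h2 | h2 | h2
          · exact h2
          · exact absurd h2.1 hz2p
          · simp [ha.eq_iff] at h2
        rcases hz1.2.2.2.2.2 with h2 | h2 | h2
        · obtain ⟨t, ht1, ht2, ht3⟩ := hI (a 0) huI (a 2) (a 4) A02 A04 (by simp [ha.eq_iff]) n24 z
            hz0 h2 k1
          have t1 := Red56_f6 hP hus ht1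
          have t2 := Red56_f6 hP hus ht2
          simp [ha.eq_iff] at t1 t2
          have t3 : t = a 3 := by
            rcases t1 with rfl | rfl
            · simp [ha.eq_iff] at t2
            · rfl
          rcases ht3 with ht3 | ht3
          · exact Or.inl (ht3.trans t3)
          · rw [t3] at ht3
            omega
        · exact absurd h2.1 hz2p
        · obtain ⟨t, ht1, ht2, ht3⟩ := hI (a 0) huI (a 6) (a 4) A06 A04 (by simp [ha.eq_iff]) n64 z
            hz0 h2.2.symm k1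
          have t1 := Red56_f6 hP hus ht1
          have t2 := Red56_f6 hP hus ht2
          simp [ha.eq_iff] at t1 t2
          have t3 : t = a 5 := by
            rcases t1 with rfl | rfl
            · rfl
            · simp [ha.eq_iff] at t2
          rcases ht3 with ht3 | ht3
          · exact Or.inr (ht3.trans t3)
          · rw [t3] at ht3
            exact absurd hu (h46 (a 5) ht3.1 (a 0) huI A05.symm ht3.2)
      · rw [hdx (a 3) (by simp [ha.eq_iff]) (by simp [ha.eq_iff]) (by simp [ha.eq_iff])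
          (by simp [ha.eq_iff]) (by simp [ha.eq_iff]) (by simp [ha.eq_iff])]
        exact hx
    · -- `x = c2`
      have hstar3 : star T1 (a 0) = {{a 0, a 3, a 4}, {a 0, a 4, a 5}, {a 0, a 5, a 2},
          {a 0, a 2, a 3}} := by
        rw [hstar2]
        ext f
        simp only [mem_insert, mem_singleton]
        tauto
      refine Red56_step2 (p' := a 3) (r := a 4) (q' := a 5) (s := a 2) s1 (by omega)
        (by simp [ha.eq_iff]) hstar3 ?_ ?_ ?_ (Or.inr rfl) (by simp [ha.eq_iff])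
        (by simp [ha.eq_iff]) (by simp [ha.eq_iff]) (by simp [ha.eq_iff]) B27 B28 B78 ih1
      · intro h1
        rw [hadj1] at h1
        rcases h1.2.2.2.2.2 with h2 | h2 | h2
        · exact n35 h2
        · simp [ha.eq_iff] at h2
        · simp [ha.eq_iff] at h2
      · intro z hz1 hz2
        by_cases hz0 : z = a 0
        · exact Or.inl hz0
        by_cases hz2p : z = a 2
        · exact Or.inr (Or.inr hz2p)
        right; left
        rw [hadj1] at hz1 hz2
        have k1 : Adj T z (a 3) := by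
          rcases hz1.2.2.2.2.2 with h2 | h2 | h2
          · exact h2
          · exact absurd h2.1 hz2p
          · simp [ha.eq_iff] at h2
        have k2 : Adj T z (a 5) := by
          rcases hz2.2.2.2.2.2 with h2 | h2 | h2
          · exact h2
          · exact absurd h2.1 hz2p
          · simp [ha.eq_iff] at h2
        obtain ⟨t, ht1, ht2, ht3⟩ := hI (a 0) huI (a 3) (a 5) A03 A05 (by simp [ha.eq_iff]) n35 z
          hz0 k1 k2
        have t1 := Red56_f6 hP hus ht1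
        have t2 := Red56_f6 hP hus ht2
        simp [ha.eq_iff] at t1 t2
        have t3 : t = a 4 := by
          rcases t1 with rfl | rfl
          · simp [ha.eq_iff] at t2
          · rfl
        rcases ht3 with ht3 | ht3
        · exact ht3.trans t3
        · rw [t3] at ht3
          omega
      · rw [hdx (a 4) (by simp [ha.eq_iff]) (by simp [ha.eq_iff]) (by simp [ha.eq_iff])
          (by simp [ha.eq_iff]) (by simp [ha.eq_iff]) (by simp [ha.eq_iff])]
        exact hx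
  exact ⟨_, lift5 hnd1 (Red56_nb5 hnd1 hstar1) n26 hcom1 A02.symm (hP.adj G67).2.2
    (hP.adj G78).2.2 (hP.adj G82).2.2.symm
    (fun x y g1 g2 g3 g4 g5 => (hadj1 x y).2 ⟨g1, g2, g3, g4, g5.1, Or.inl g5⟩)
    (fun x g1 g2 => (hadj1 (a 2) x).2 ⟨by simp [ha.eq_iff], g1, by simp [ha.eq_iff], g2.1.symm, by
      rintro rfl
      exact n26 g2.symm, Or.inr (Or.inl ⟨rfl, g2⟩)⟩) hw hc⟩

theorem Red56_rev5 {v a0 a1 a2 a3 a4 : V} : ({{v, a0, a1}, {v, a1, a2}, {v, a2, a3}, {v, a3, a4},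
    {v, a4, a0}} : Finset (Finset V)) = {{v, a0, a4}, {v, a4, a3}, {v, a3, a2}, {v, a2, a1},
    {v, a1, a0}} := by
  have e : ∀ x y, ({v, x, y} : Finset V) = {v, y, x} := fun x y => (face_perm v x y).1
  rw [e a0 a1, e a1 a2, e a2 a3, e a3 a4, e a4 a0]
  ext f
  simp only [mem_insert, mem_singleton]
  tauto

theorem Red56_rev6 {v a0 a1 a2 a3 a4 a5 : V} : ({{v, a0, a1}, {v, a1, a2}, {v, a2, a3},
    {v, a3, a4}, {v, a4, a5}, {v, a5, a0}} : Finset (Finset V)) = {{v, a0, a5}, {v, a5, a4},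
    {v, a4, a3}, {v, a3, a2}, {v, a2, a1}, {v, a1, a0}} := by
  have e : ∀ x y, ({v, x, y} : Finset V) = {v, y, x} := fun x y => (face_perm v x y).1
  rw [e a0 a1, e a1 a2, e a2 a3, e a3 a4, e a4 a5, e a5 a0]
  ext f
  simp only [mem_insert, mem_singleton]
  tauto

theorem Red56_wrap {T : Finset (Finset V)} (h : Sphere T) (hF : Fac T)
    (I : Finset V) (hI : ∀ v ∈ I, NoSep T I v)
    (h46 : ∀ x ∈ I, ∀ y ∈ I, Adj T x y → deg T x = 4 → deg T y ≠ 6)
    {u v p c1 c2 c3 q b c : V} (hnu : [u, v, p, c1, c2, c3, q].Nodup)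
    (hnv : [v, u, q, b, c, p].Nodup)
    (hus : star T u = {{u, v, p}, {u, p, c1}, {u, c1, c2}, {u, c2, c3}, {u, c3, q}, {u, q, v}})
    (hvs : star T v = {{v, u, q}, {v, q, b}, {v, b, c}, {v, c, p}, {v, p, u}})
    (hvI : v ∈ I) (huI : u ∈ I) (hu : deg T u = 6) {x : V}
    (hx : deg T x = 5 ∨ deg T x = 6) (hxc : x = c1 ∨ x = c2 ∨ x = c3)
    (ih : ∀ T' : Finset (Finset V), Sphere T' → T'.card < T.card → ∃ w : V → F8, Good T' w) :
    ∃ w : V → F8, Good T w := by
  have hP := h.toPre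
  simp only [List.nodup_cons, List.mem_cons, List.not_mem_nil, not_or, or_false,
    not_false_eq_true, List.nodup_nil, and_true] at hnu hnv
  obtain ⟨⟨u1, u2, u3, u4, u5, u6⟩, ⟨u7, u8, u9, u10, u11⟩, ⟨u12, u13, u14, u15⟩, ⟨u16, u17, u18⟩,
    ⟨u19, u20⟩, u21⟩ := hnu
  obtain ⟨⟨v1, v2, v3, v4, v5⟩, ⟨v6, v7, v8, v9⟩, ⟨v10, v11, v12⟩, ⟨v13, v14⟩, v15⟩ := hnv
  have F012 : ({u, v, p} : Finset V) ∈ T := Red56_mem_star hus (by simp)
  have F023 : ({u, p, c1} : Finset V) ∈ T := Red56_mem_star hus (by simp)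
  have F034 : ({u, c1, c2} : Finset V) ∈ T := Red56_mem_star hus (by simp)
  have F045 : ({u, c2, c3} : Finset V) ∈ T := Red56_mem_star hus (by simp)
  have G78 : ({v, b, c} : Finset V) ∈ T := Red56_mem_star hvs (by simp)
  have A1 := (hP.adj F023).2.1
  have A2 := (hP.adj F034).2.1
  have A3 := (hP.adj F045).2.1
  have nb : ¬ Adj T u b := by
    intro h1
    have h2 := Red56_f5 hP hvs (hF v u b (hP.adj F012).1.symm h1 (hP.adj G78).1)
    simp only [v6, v7, v8, v9, Ne.symm v10, v14, Ne.symm v7, false_and, and_false, or_false] at h2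
  have nc : ¬ Adj T u c := by
    intro h1
    have h2 := Red56_f5 hP hvs (hF v u c (hP.adj F012).1.symm h1 (hP.adj G78).2.1)
    simp only [v6, v7, v8, v9, Ne.symm v11, v15, false_and, and_false, or_false] at h2
  have m1 : c1 ≠ b := by rintro rfl; exact nb A1
  have m2 : c2 ≠ b := by rintro rfl; exact nb A2
  have m3 : c3 ≠ b := by rintro rfl; exact nb A3
  have m4 : c1 ≠ c := by rintro rfl; exact nc A1
  have m5 : c2 ≠ c := by rintro rfl; exact nc A2
  have m6 : c3 ≠ c := by rintro rfl; exact nc A3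
  have hcase : (x = c1 ∨ x = c2) ∨ x = c3 := by tauto
  rcases hcase with hxc | hxc
  · refine Red56_core h hF I hI h46 (b := b) (c := c) ?_ hus hvs hvI huI hu hx hxc ih
    simp only [List.nodup_cons, List.mem_cons, List.not_mem_nil, not_or, or_false,
      not_false_eq_true, List.nodup_nil, and_true]
    refine ⟨⟨u1, u2, u3, u4, u5, u6, v7, v8⟩, ⟨u7, u8, u9, u10, u11, v3, v4⟩,
      ⟨u12, u13, u14, u15, Ne.symm v14, Ne.symm v15⟩, ⟨u16, u17, u18, m1, m4⟩,
      ⟨u19, u20, m2, m5⟩, ⟨u21, m3, m6⟩, ⟨v10, v11⟩, v13⟩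
  · refine Red56_core h hF I hI h46 (u := u) (v := v) (p := q) (c1 := c3) (c2 := c2) (c3 := c1)
      (q := p) (b := c) (c := b) ?_ (hus.trans Red56_rev6) (hvs.trans Red56_rev5) hvI huI hu hx
      (Or.inl hxc) ih
    simp only [List.nodup_cons, List.mem_cons, List.not_mem_nil, not_or, or_false,
      not_false_eq_true, List.nodup_nil, and_true]
    refine ⟨⟨u1, u6, u5, u4, u3, u2, v8, v7⟩, ⟨u11, u10, u9, u8, u7, v4, v3⟩,
      ⟨Ne.symm u21, Ne.symm u20, Ne.symm u18, Ne.symm u15, v11, v10⟩,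
      ⟨Ne.symm u19, Ne.symm u17, Ne.symm u14, m6, m3⟩,
      ⟨Ne.symm u16, Ne.symm u13, m5, m2⟩, ⟨Ne.symm u12, m4, m1⟩, ⟨Ne.symm v15, Ne.symm v14⟩,
      Ne.symm v13⟩

theorem red56 {T : Finset (Finset V)} (h : Sphere T) (hF : Fac T) (h8 : 8 ≤ T.card)
    (I : Finset V) (hI : ∀ v ∈ I, NoSep T I v)
    (h46 : ∀ x ∈ I, ∀ y ∈ I, Adj T x y → deg T x = 4 → deg T y ≠ 6) {v u x : V} (hvI : v ∈ I)
    (huI : u ∈ I) (hxI : x ∈ I) (hvu : Adj T v u) (hux : Adj T u x) (hxv : x ≠ v)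
    (hvx : ¬ Adj T v x) (hv : deg T v = 5) (hu : deg T u = 6) (hx : deg T x = 5 ∨ deg T x = 6)
    (ih : ∀ T' : Finset (Finset V), Sphere T' → T'.card < T.card → ∃ w : V → F8, Good T' w) :
    ∃ w : V → F8, Good T w := by
  have hP := h.toPre
  obtain ⟨p, c1, c2, c3, q, hnu, hun, hus⟩ := link6 h hvu.symm hu
  obtain ⟨a', b', c', d', hnv, hvn, hvs⟩ := link5 h hvu hv
  have hnu' := hnu
  have hnv' := hnv
  simp only [List.nodup_cons, List.mem_cons, List.not_mem_nil, not_or, or_false,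
    not_false_eq_true, List.nodup_nil, and_true] at hnu' hnv'
  obtain ⟨⟨u1, u2, u3, u4, u5, u6⟩, ⟨u7, u8, u9, u10, u11⟩, ⟨u12, u13, u14, u15⟩, ⟨u16, u17, u18⟩,
    ⟨u19, u20⟩, u21⟩ := hnu'
  obtain ⟨⟨v1, v2, v3, v4, v5⟩, ⟨v6, v7, v8, v9⟩, ⟨v10, v11, v12⟩, ⟨v13, v14⟩, v15⟩ := hnv'
  have F1 : ({u, v, p} : Finset V) ∈ T := Red56_mem_star hus (by simp)
  have F2 : ({u, q, v} : Finset V) ∈ T := Red56_mem_star hus (by simp)
  have F1' : ({v, u, p} : Finset V) ∈ T := by rw [← (face_perm u v p).2.1]; exact F1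
  have F2' : ({v, u, q} : Finset V) ∈ T := by rw [← (face_perm u q v).2.2.2.1]; exact F2
  have e1 := Red56_f5 hP hvs F1'
  have e2 := Red56_f5 hP hvs F2'
  simp only [v6, v7, v8, v9, false_and, false_or, true_and] at e1 e2
  have hxc : x = c1 ∨ x = c2 ∨ x = c3 := by
    rcases (hun x).1 hux with h1 | h1 | h1 | h1 | h1 | h1
    · exact absurd h1 hxv
    · rw [h1] at hvx
      exact absurd (hP.adj F1').2.1 hvx
    · exact Or.inl h1
    · exact Or.inr (Or.inl h1)
    · exact Or.inr (Or.inr h1)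
    · rw [h1] at hvx
      exact absurd (hP.adj F2').2.1 hvx
  rcases e1 with e1 | e1 <;> rcases e2 with e2 | e2
  · exact absurd (e1.trans e2.symm) u15
  · subst e1
    subst e2
    refine Red56_wrap h hF I hI h46 hnu ?_ hus (hvs.trans Red56_rev5) hvI huI hu hx hxc ih
    simp only [List.nodup_cons, List.mem_cons, List.not_mem_nil, not_or, or_false,
      not_false_eq_true, List.nodup_nil, and_true]
    exact ⟨⟨v1, v5, v4, v3, v2⟩, ⟨v9, v8, v7, v6⟩, ⟨Ne.symm v15, Ne.symm v14, Ne.symm v12⟩,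
      ⟨Ne.symm v13, Ne.symm v11⟩, Ne.symm v10⟩
  · subst e1
    subst e2
    exact Red56_wrap h hF I hI h46 hnu hnv hus hvs hvI huI hu hx hxc ih
  · exact absurd (e1.trans e2.symm) u15

end Pool.Agent.TH246.PR
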