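import Pool.Agent.TH246.PR.PathContr4
import Pool.Agent.TH246.PR.LinkN
import Pool.Agent.TH246.PR.Lift4
import Pool.Agent.TH246.PR.Col3
import Pool.Agent.TH246.PR.Basic

set_option autoImplicit false
set_option linter.unusedVariables false

namespace Pool.Agent.TH246.PR

open Finset

variable {V : Type} [DecidableEq V]

/-- the link of a vertex of degree 4 through two given faces at a common edge -/
theorem Red7_link4 {T : Finset (Finset V)} (h : Sphere T) {v p r q : V} (hpq : p ≠ q)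
    (h1 : ({v, r, p} : Finset V) ∈ T) (h2 : ({v, r, q} : Finset V) ∈ T) (hd : deg T v = 4) :
    ∃ s, [v, p, r, q, s].Nodup ∧ (∀ x, Adj T v x ↔ x = p ∨ x = q ∨ x = r ∨ x = s) ∧
      star T v = {{v, p, r}, {v, r, q}, {v, q, s}, {v, s, p}} := by
  obtain ⟨a, b, c, hn, hnb, hst⟩ := link4 h (h.toPre.adj h1).1 hd
  have hmem : ∀ f, f ∈ star T v → f ∈ T := fun f hf => (mem_star.1 hf).1
  have ha : ({v, r, a} : Finset V) ∈ T := hmem _ (by rw [hst]; simp)
  have hc : ({v, r, c} : Finset V) ∈ T := by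
    have : ({v, c, r} : Finset V) ∈ T := hmem _ (by rw [hst]; simp)
    rwa [(face_perm v r c).1]
  simp only [List.nodup_cons, List.mem_cons, not_or, List.not_mem_nil, not_false_eq_true,
    List.nodup_nil, and_true] at hn
  obtain ⟨⟨n1, n2, n3, n4⟩, ⟨n5, n6, n7⟩, ⟨n8, n9⟩, n10⟩ := hn
  rcases h.toPre.three ha hc h1 with e | e | e
  · exact absurd e n9
  · subst e
    have e2 : c = q := by
      rcases h.toPre.three ha hc h2 with e | e | e
      · exact absurd e n9
      · exact absurd e hpq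
      · exact e
    subst e2
    refine ⟨b, ?_, ?_, ?_⟩
    · simp only [List.nodup_cons, List.mem_cons, not_or, List.not_mem_nil, not_false_eq_true,
        List.nodup_nil, and_true]
      exact ⟨⟨n2, n1, n4, n3⟩, ⟨Ne.symm n5, n9, n8⟩, ⟨n7, n6⟩, Ne.symm n10⟩
    · intro x
      rw [hnb]
      tauto
    · rw [hst, (face_perm v r a).1, (face_perm v c r).1, (face_perm v a b).1,
        (face_perm v b c).1]
      ext f
      simp only [mem_insert, mem_singleton]
      tauto
  · subst e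
    have e2 : a = q := by
      rcases h.toPre.three ha hc h2 with e | e | e
      · exact absurd e n9
      · exact e
      · exact absurd e hpq
    subst e2
    refine ⟨b, ?_, ?_, ?_⟩
    · simp only [List.nodup_cons, List.mem_cons, not_or, List.not_mem_nil, not_false_eq_true,
        List.nodup_nil, and_true]
      exact ⟨⟨n4, n1, n2, n3⟩, ⟨Ne.symm n7, Ne.symm n9, Ne.symm n10⟩, ⟨n5, n6⟩, n8⟩
    · intro x
      rw [hnb]
      tauto
    · rw [hst]
      ext f
      simp only [mem_insert, mem_singleton]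
      tauto

/-- the third vertices of the two faces at an edge -/
theorem Red7_face {T : Finset (Finset V)} (h : Pre T) {v r p q t : V} (hpq : p ≠ q)
    (h1 : ({v, r, p} : Finset V) ∈ T) (h2 : ({v, r, q} : Finset V) ∈ T)
    (h3 : ({v, r, t} : Finset V) ∈ T) : t = p ∨ t = q := by
  rcases h.three h1 h2 h3 with e | e | e
  · exact absurd e hpq
  · exact Or.inl e.symm
  · exact Or.inr e.symm


/-- a vertex of degree 7 with link `x 0, …, x 6`, where `x 0` and `x j` (`j = 2` or `3`) have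
degree 4 -/
theorem Red7_core {T : Finset (Finset V)} (h : Sphere T) (hF : Fac T)
    (I : Finset V) (hI : ∀ v ∈ I, NoSep T I v)
    (h44 : ∀ x ∈ I, ∀ y ∈ I, Adj T x y → deg T x = 4 → deg T y ≠ 4) {y : V} (hyI : y ∈ I)
    (x : Fin 7 → V) (hx : Function.Injective x)
    (hxf : ∀ i, ({y, x i, x (i + 1)} : Finset V) ∈ T) (a j b : Fin 7)
    (haj : (a = 1 ∧ j = 2 ∧ b = 3) ∨ (a = 2 ∧ j = 3 ∧ b = 4)) (huI : x 0 ∈ I) (hvI : x j ∈ I)
    (hy : deg T y = 7) (hu : deg T (x 0) = 4) (hv : deg T (x j) = 4)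
    (ih : ∀ T' : Finset (Finset V), Sphere T' → T'.card < T.card → ∃ w : V → F8, Good T' w) :
    ∃ w : V → F8, Good T w := by
  have hP := h.toPre
  have hyx : ∀ i, y ≠ x i := fun i => (hP.ne (hxf i)).1
  have hyadj : ∀ i, Adj T y (x i) := fun i => (hP.adj (hxf i)).1
  have e1 : ∀ i : Fin 7, i - 1 + 1 = i := by decide
  have e2 : ∀ i : Fin 7, i + 1 ≠ i - 1 := by decide
  have hxf' : ∀ i, ({y, x i, x (i - 1)} : Finset V) ∈ T := by
    intro i
    have := hxf (i - 1)
    rw [e1] at this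
    rwa [(face_perm _ _ _).1]
  have hface : ∀ i t, ({y, x i, t} : Finset V) ∈ T → t = x (i + 1) ∨ t = x (i - 1) := by
    intro i t ht
    refine Red7_face hP ?_ (hxf i) (hxf' i) ht
    intro e
    exact e2 i (hx e)
  have hnadj : ∀ i k, k ≠ i → k ≠ i + 1 → k ≠ i - 1 → ¬ Adj T (x i) (x k) := by
    intro i k h1 h2 h3 hA
    rcases hface i _ (hF y (x i) (x k) (hyadj i) hA (hyadj k)) with e | e
    · exact h2 (hx e)
    · exact h3 (hx e)
  have hcard : 12 ≤ T.card := by
    have h1 : insert y (univ.image x) ⊆ verts T := by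
      intro z hz
      simp only [mem_insert, mem_image, mem_univ, true_and] at hz
      rcases hz with rfl | ⟨i, rfl⟩
      · exact (hyadj 0).left_mem
      · exact (hyadj i).right_mem
    have h2 : (insert y (univ.image x)).card = 8 := by
      rw [card_insert_of_notMem, card_image_of_injective _ hx, card_univ, Fintype.card_fin]
      simp only [mem_image, mem_univ, true_and, not_exists]
      exact fun i e => hyx i e.symm
    have h3 := card_le_card h1
    have h4 := h.euler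
    omega
  -- the faces at `y` next to `x 0`
  have f01 : ({y, x 0, x 1} : Finset V) ∈ T := hxf 0
  have f06 : ({y, x 6, x 0} : Finset V) ∈ T := hxf 6
  obtain ⟨s1, hn1, hnb1, hst1⟩ := Red7_link4 h (v := x 0) (p := x 1) (r := y) (q := x 6)
    (fun e => absurd (hx e) (by decide)) (by rwa [(face_perm _ _ _).2.1])
    (by rwa [(face_perm _ _ _).2.2.1]) hu
  have hmem1 : ∀ f, f ∈ star T (x 0) → f ∈ T := fun f hf => (mem_star.1 hf).1
  have g1 : ({x 0, x 1, y} : Finset V) ∈ T := hmem1 _ (by rw [hst1]; simp)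
  have g2 : ({x 0, x 1, s1} : Finset V) ∈ T := by
    have : ({x 0, s1, x 1} : Finset V) ∈ T := hmem1 _ (by rw [hst1]; simp)
    rwa [(face_perm _ _ _).1]
  have hys1 : y ≠ s1 := by
    intro e; rw [← e] at hn1; simp at hn1
  have n4 : ∀ v ∈ I, deg T v = 4 → ∀ p q z, Adj T v p → Adj T v q → p ≠ q → ¬ Adj T p q →
      z ≠ v → Adj T z p → Adj T z q → ({v, p, z} : Finset V) ∈ T := by
    intro v hv hd p q z hvp hvq hpq hpq' hzv hzp hzq
    obtain ⟨t, ht1, ht2, ht | ⟨htI, htd⟩⟩ := hI v hv p q hvp hvq hpq hpq' z hzv hzp hzq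
    · rwa [ht]
    · exact absurd htd (h44 v hv t htI (hP.adj ht2).1 hd)
  have hcom1 : ∀ z, Adj T z (x 1) → Adj T z (x 6) → z = x 0 ∨ z = y ∨ z = s1 := by
    intro z hz1 hz6
    by_cases hz0 : z = x 0
    · exact Or.inl hz0
    · right
      exact Red7_face hP hys1 g1 g2 (n4 (x 0) huI hu (x 1) (x 6) z
        (by rw [hnb1]; simp) (by rw [hnb1]; simp) (fun e => absurd (hx e) (by decide))
        (hnadj 1 6 (by decide) (by decide) (by decide)) hz0 hz1 hz6)
  obtain ⟨T1, hS1, hc1, hf1, ha1, hdr1, hds1, hdx1⟩ := pathcontr4 h hn1 hst1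
    (hnadj 1 6 (by decide) (by decide) (by decide)) hcom1 (by omega)
  have hj0 : ¬ Adj T (x 0) (x j) := by
    apply hnadj
    all_goals rcases haj with ⟨-, rfl, -⟩ | ⟨-, rfl, -⟩ <;> decide
  have hjs1 : x j ≠ s1 := by
    intro e
    apply hj0
    rw [hnb1]
    tauto
  have ne01 : ∀ i, i = a ∨ i = j ∨ i = b → x i ≠ x 0 ∧ x i ≠ x 6 := by
    intro i hi
    constructor <;> intro e <;> have := hx e <;> subst this <;>
      rcases haj with ⟨rfl, rfl, rfl⟩ | ⟨rfl, rfl, rfl⟩ <;> revert hi <;> decide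
  have hdv : deg T1 (x j) = 4 := by
    rw [hdx1 (x j) (ne01 j (by simp)).1 _ (ne01 j (by simp)).2 (hyx j).symm hjs1, hv]
    intro e
    have := hx e
    rcases haj with ⟨rfl, rfl, rfl⟩ | ⟨rfl, rfl, rfl⟩ <;> revert this <;> decide
  have inT1 : ∀ f ∈ T, x 0 ∉ f → x 6 ∉ f → f ∈ T1 := fun f hf h1 h2 =>
    (hf1 f).2 (Or.inl ⟨hf, h1, h2⟩)
  have k1 : ({x j, y, x a} : Finset V) ∈ T1 := by
    apply inT1
    · have : ({y, x a, x (a + 1)} : Finset V) ∈ T := hxf a
      have e : a + 1 = j := by rcases haj with ⟨rfl, rfl, rfl⟩ | ⟨rfl, rfl, rfl⟩ <;> decide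
      rw [e] at this
      rwa [(face_perm _ _ _).2.2.1]
    · simp only [mem_insert, mem_singleton, not_or]
      exact ⟨(ne01 j (by simp)).1.symm, (hyx 0).symm, (ne01 a (by simp)).1.symm⟩
    · simp only [mem_insert, mem_singleton, not_or]
      exact ⟨(ne01 j (by simp)).2.symm, (hyx 6).symm, (ne01 a (by simp)).2.symm⟩
  have k2 : ({x j, y, x b} : Finset V) ∈ T1 := by
    apply inT1
    · have : ({y, x j, x (j + 1)} : Finset V) ∈ T := hxf j
      have e : j + 1 = b := by rcases haj with ⟨rfl, rfl, rfl⟩ | ⟨rfl, rfl, rfl⟩ <;> decide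
      rw [e] at this
      rwa [(face_perm _ _ _).2.1]
    · simp only [mem_insert, mem_singleton, not_or]
      exact ⟨(ne01 j (by simp)).1.symm, (hyx 0).symm, (ne01 b (by simp)).1.symm⟩
    · simp only [mem_insert, mem_singleton, not_or]
      exact ⟨(ne01 j (by simp)).2.symm, (hyx 6).symm, (ne01 b (by simp)).2.symm⟩
  have hab : x a ≠ x b := by
    intro e
    have := hx e
    rcases haj with ⟨rfl, rfl, rfl⟩ | ⟨rfl, rfl, rfl⟩ <;> revert this <;> decide
  have haj' : x a ≠ x j := by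
    intro e
    have := hx e
    rcases haj with ⟨rfl, rfl, rfl⟩ | ⟨rfl, rfl, rfl⟩ <;> revert this <;> decide
  have hbj' : x b ≠ x j := by
    intro e
    have := hx e
    rcases haj with ⟨rfl, rfl, rfl⟩ | ⟨rfl, rfl, rfl⟩ <;> revert this <;> decide
  obtain ⟨s2, hn2, hnb2, hst2⟩ := Red7_link4 hS1 (v := x j) (p := x a) (r := y) (q := x b)
    hab k1 k2 hdv
  have hP1 := hS1.toPre
  have hmem2 : ∀ f, f ∈ star T1 (x j) → f ∈ T1 := fun f hf => (mem_star.1 hf).1
  have g3 : ({x j, x a, y} : Finset V) ∈ T1 := hmem2 _ (by rw [hst2]; simp)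
  have g4 : ({x j, x a, s2} : Finset V) ∈ T1 := by
    have : ({x j, s2, x a} : Finset V) ∈ T1 := hmem2 _ (by rw [hst2]; simp)
    rwa [(face_perm _ _ _).1]
  have hys2 : y ≠ s2 := by
    intro e; rw [← e] at hn2; simp at hn2
  have h6b : ¬ Adj T (x 6) (x b) := by
    apply hnadj
    all_goals rcases haj with ⟨-, -, rfl⟩ | ⟨-, -, rfl⟩ <;> decide
  have h6a : ¬ Adj T (x 6) (x a) := by
    apply hnadj
    all_goals rcases haj with ⟨rfl, -, -⟩ | ⟨rfl, -, -⟩ <;> decide
  have hb1 : x b ≠ x 1 := by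
    intro e
    have := hx e
    rcases haj with ⟨rfl, rfl, rfl⟩ | ⟨rfl, rfl, rfl⟩ <;> revert this <;> decide
  have hab' : ¬ Adj T (x a) (x b) := by
    apply hnadj
    all_goals rcases haj with ⟨rfl, -, rfl⟩ | ⟨rfl, -, rfl⟩ <;> decide
  have hpq2 : ¬ Adj T1 (x a) (x b) := by
    rw [ha1]
    rintro ⟨-, -, -, -, -, hA | ⟨hA, hB⟩ | ⟨hA, hB⟩⟩
    · exact hab' hA
    · exact h6b hB
    · exact hb1 hA
  have hvadj : Adj T (x j) (x a) ∧ Adj T (x j) (x b) := by
    constructor
    · have : ({y, x a, x (a + 1)} : Finset V) ∈ T := hxf a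
      have e : a + 1 = j := by rcases haj with ⟨rfl, rfl, rfl⟩ | ⟨rfl, rfl, rfl⟩ <;> decide
      rw [e] at this
      exact (hP.adj this).2.2.symm
    · have : ({y, x j, x (j + 1)} : Finset V) ∈ T := hxf j
      have e : j + 1 = b := by rcases haj with ⟨rfl, rfl, rfl⟩ | ⟨rfl, rfl, rfl⟩ <;> decide
      rw [e] at this
      exact (hP.adj this).2.2
  have hcom2 : ∀ z, Adj T1 z (x a) → Adj T1 z (x b) → z = x j ∨ z = y ∨ z = s2 := by
    intro z hz1 hz2
    by_cases hzj : z = x j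
    · exact Or.inl hzj
    right
    rw [ha1] at hz1 hz2
    obtain ⟨hz0, -, hz6, -, hza, hz1⟩ := hz1
    have hzb : Adj T z (x b) := by
      rcases hz2.2.2.2.2.2 with hA | ⟨hA, hB⟩ | ⟨hA, hB⟩
      · exact hA
      · exact absurd hB h6b
      · exact absurd hA hb1
    rcases hz1 with hA | ⟨hA, hB⟩ | ⟨hA, hB⟩
    · have hf := n4 (x j) hvI hv (x a) (x b) z hvadj.1 hvadj.2 hab hab' hzj hA hzb
      refine Red7_face hP1 hys2 g3 g4 (inT1 _ hf ?_ ?_)
      · simp only [mem_insert, mem_singleton, not_or]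
        exact ⟨(ne01 j (by simp)).1.symm, (ne01 a (by simp)).1.symm, fun e => hz0 e.symm⟩
      · simp only [mem_insert, mem_singleton, not_or]
        exact ⟨(ne01 j (by simp)).2.symm, (ne01 a (by simp)).2.symm, fun e => hz6 e.symm⟩
    · exact absurd hB h6a
    · left
      by_contra hzy
      obtain ⟨t, ht1, ht2, -⟩ := hI y hyI (x 6) (x b) (hyadj 6) (hyadj b)
        (ne01 b (by simp)).2.symm h6b z hzy hB.symm hzb
      have ht2' : ({y, x b, t} : Finset V) ∈ T := by
        rwa [(face_perm _ _ _).1]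
      have hba : b = 3 := by
        have := hx hA
        rcases haj with ⟨rfl, rfl, rfl⟩ | ⟨rfl, rfl, rfl⟩ <;> revert this <;> decide
      subst hba
      rcases hface 6 t ht1 with e | e <;> rcases hface 3 t ht2' with e' | e' <;>
        exact absurd (hx (e.symm.trans e')) (by decide)
  obtain ⟨T2, hS2, hc2, hf2, ha2, hdr2, hds2, hdx2⟩ := pathcontr4 hS1 hn2 hst2 hpq2 hcom2
    (by omega)
  obtain ⟨w, hw⟩ := ih T2 hS2 (by omega)
  have hP2 := hS2.toPre
  have adj1ya : Adj T1 y (x a) := (hP1.adj g3).2.2.symm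
  have adj2ya : Adj T2 y (x a) := by
    rw [ha2]
    exact ⟨hyx j, haj', hyx b, hab, hyx a, Or.inl adj1ya⟩
  obtain ⟨a', b', hn3, hnb3, hst3⟩ := link3 hS2 adj2ya (by omega)
  have hmem3 : ∀ f, f ∈ star T2 y → f ∈ T2 := fun f hf => (mem_star.1 hf).1
  have q1 := hP2.adj (hmem3 _ (by rw [hst3]; simp : ({y, x a, a'} : Finset V) ∈ star T2 y))
  have q2 := hP2.adj (hmem3 _ (by rw [hst3]; simp : ({y, a', b'} : Finset V) ∈ star T2 y))
  have q3 := hP2.adj (hmem3 _ (by rw [hst3]; simp : ({y, b', x a} : Finset V) ∈ star T2 y))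
  obtain ⟨z, hz, hzs1, hzs2⟩ := exists_aff_ne2 (w (x a)) (w a') (w b') (w s1) (w s2)
    (good_ne hw q1.2.2) (good_ne hw q2.2.2) (good_ne hw q3.2.2).symm
  have hw2 := rec3 hn3 hnb3 hw z hz
  generalize hw2e : Function.update w y z = w2 at hw2
  have w2y : w2 y = z := by rw [← hw2e]; simp
  have w2n : ∀ v, v ≠ y → w2 v = w v := by
    intro v hv; rw [← hw2e]; simp [hv]
  have adj1as : Adj T1 (x a) s2 := (hP1.adj g4).2.2
  have hs2j : s2 ≠ x j := by
    intro e; rw [← e] at hn2; simp at hn2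
  have hs2a : s2 ≠ x a := by
    intro e; rw [← e] at hn2; simp at hn2
  have hs2b : s2 ≠ x b := by
    intro e; rw [← e] at hn2; simp at hn2
  have adj2as : Adj T2 (x a) s2 := by
    rw [ha2]
    exact ⟨haj', hs2j, hab, hs2b, hs2a.symm, Or.inl adj1as⟩
  obtain ⟨c0, hc0, -, -⟩ := exists_aff_ne2 (w2 (x a)) (w2 y) (w2 s2) 0 0
    (good_ne hw2 adj2ya.symm) (by rw [w2y, w2n s2 hys2.symm]; exact hzs2) (good_ne hw2 adj2as)
  have hn2' : [x j, x a, x b, y, s2].Nodup := by
    refine List.Perm.nodup ?_ hn2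
    exact List.Perm.cons _ (List.Perm.cons _ (List.Perm.swap _ _ _))
  have hw1 := lift4 (T := T1) (T' := T2) (v := x j) (p := x a) (q := x b) (r := y) (s := s2)
    (w := w2) hn2' hnb2 hpq2 hcom2 adj1ya.symm adj1as
    (by
      intro u1 u2 h1 h2 h3 h4 h5
      rw [ha2]
      exact ⟨h1, h2, h3, h4, h5.1, Or.inl h5⟩)
    (by
      intro u1 h1 h2
      rw [ha2]
      refine ⟨haj', h1, hab, h2.1.symm, ?_, Or.inr (Or.inl ⟨rfl, h2⟩)⟩
      rintro rfl
      exact hpq2 h2.symm)
    hw2 c0 hc0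
  generalize hw1e : Function.update (Function.update w2 (x b) (w2 (x a))) (x j) c0 = w1 at hw1
  have w1n : ∀ v, v ≠ x j → v ≠ x b → w1 v = w2 v := by
    intro v h1 h2; rw [← hw1e]; simp [h1, h2]
  have w1y : w1 y = z := by rw [w1n y (hyx j) (hyx b), w2y]
  -- `s1` is not adjacent to `y`
  have hys1' : ¬ Adj T y s1 := by
    intro hA
    have hf := hF (x 0) y s1 (hyadj 0).symm hA (by rw [hnb1]; simp)
    have h1 : ({x 0, y, x 1} : Finset V) ∈ T := by rwa [(face_perm _ _ _).1]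
    have h2 : ({x 0, y, x 6} : Finset V) ∈ T := by rwa [(face_perm _ _ _).2.2.1]
    rcases Red7_face hP (fun e => absurd (hx e) (by decide)) h1 h2 hf with e | e
    · rw [e] at hn1; simp at hn1
    · rw [e] at hn1; simp at hn1
  have hs1b : s1 ≠ x b := fun e => hys1' (e ▸ hyadj b)
  have w1s : w1 s1 = w s1 := by rw [w1n s1 hjs1.symm hs1b, w2n s1 hys1.symm]
  have hs10 : s1 ≠ x 0 := by
    intro e; rw [← e] at hn1; simp at hn1
  have hs11 : s1 ≠ x 1 := by
    intro e; rw [← e] at hn1; simp at hn1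
  have hs16 : s1 ≠ x 6 := by
    intro e; rw [← e] at hn1; simp at hn1
  have h10 : x 1 ≠ x 0 := fun e => absurd (hx e) (by decide)
  have h16 : x 1 ≠ x 6 := fun e => absurd (hx e) (by decide)
  have adj1y : Adj T1 (x 1) y := by
    rw [ha1]
    exact ⟨h10, hyx 0, h16, hyx 6, (hyx 1).symm, Or.inl (hyadj 1).symm⟩
  have adj1s : Adj T1 (x 1) s1 := by
    rw [ha1]
    exact ⟨h10, hs10, h16, hs16, hs11.symm, Or.inl (hP.adj g2).2.2⟩
  obtain ⟨c1, hc1', -, -⟩ := exists_aff_ne2 (w1 (x 1)) (w1 y) (w1 s1) 0 0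
    (good_ne hw1 adj1y) (by rw [w1y, w1s]; exact hzs1) (good_ne hw1 adj1s)
  have hn1' : [x 0, x 1, x 6, y, s1].Nodup := by
    refine List.Perm.nodup ?_ hn1
    exact List.Perm.cons _ (List.Perm.cons _ (List.Perm.swap _ _ _))
  exact ⟨_, lift4 (T := T) (T' := T1) (v := x 0) (p := x 1) (q := x 6) (r := y) (s := s1)
    (w := w1) hn1' hnb1 (hnadj 1 6 (by decide) (by decide) (by decide)) hcom1 (hyadj 1).symm
    (hP.adj g2).2.2
    (by
      intro u1 u2 h1 h2 h3 h4 h5
      rw [ha1]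
      exact ⟨h1, h2, h3, h4, h5.1, Or.inl h5⟩)
    (by
      intro u1 h1 h2
      rw [ha1]
      refine ⟨h10, h1, h16, h2.1.symm, ?_, Or.inr (Or.inl ⟨rfl, h2⟩)⟩
      rintro rfl
      exact hnadj 6 1 (by decide) (by decide) (by decide) h2)
    hw1 c1 hc1'⟩

theorem red7 {T : Finset (Finset V)} (h : Sphere T) (hF : Fac T) (h8 : 8 ≤ T.card)
    (I : Finset V) (hI : ∀ v ∈ I, NoSep T I v)
    (h44 : ∀ x ∈ I, ∀ y ∈ I, Adj T x y → deg T x = 4 → deg T y ≠ 4) {y u v : V} (hyI : y ∈ I)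
    (huI : u ∈ I) (hvI : v ∈ I) (hyu : Adj T y u) (hyv : Adj T y v) (huv : u ≠ v)
    (hy : deg T y = 7) (hu : deg T u = 4) (hv : deg T v = 4)
    (ih : ∀ T' : Finset (Finset V), Sphere T' → T'.card < T.card → ∃ w : V → F8, Good T' w) :
    ∃ w : V → F8, Good T w := by
  obtain ⟨a, b, c, d, e, f, hn, hnb, hst⟩ := link7 h hyu hy
  have hmem : ∀ g, g ∈ star T y → g ∈ T := fun g hg => (mem_star.1 hg).1
  have f1 : ({y, u, a} : Finset V) ∈ T := hmem _ (by rw [hst]; simp)
  have f2 : ({y, a, b} : Finset V) ∈ T := hmem _ (by rw [hst]; simp)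
  have f3 : ({y, b, c} : Finset V) ∈ T := hmem _ (by rw [hst]; simp)
  have f4 : ({y, c, d} : Finset V) ∈ T := hmem _ (by rw [hst]; simp)
  have f5 : ({y, d, e} : Finset V) ∈ T := hmem _ (by rw [hst]; simp)
  have f6 : ({y, e, f} : Finset V) ∈ T := hmem _ (by rw [hst]; simp)
  have f7 : ({y, f, u} : Finset V) ∈ T := hmem _ (by rw [hst]; simp)
  have i1 : Function.Injective ![u, a, b, c, d, e, f] := by
    have h1 : [u, a, b, c, d, e, f].Nodup := (List.nodup_cons.1 hn).2
    have h2 := List.nodup_iff_injective_get.1 h1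
    intro i j hij
    have : [u, a, b, c, d, e, f].get i = [u, a, b, c, d, e, f].get j := by
      fin_cases i <;> fin_cases j <;> exact hij
    exact h2 this
  have i2 : Function.Injective ![u, f, e, d, c, b, a] := by
    have h3 : Function.Injective (fun i : Fin 7 => -i) := neg_injective
    have h4 : ![u, f, e, d, c, b, a] = ![u, a, b, c, d, e, f] ∘ (fun i : Fin 7 => -i) := by
      funext i
      fin_cases i <;> rfl
    rw [h4]
    exact i1.comp h3
  have j1 : ∀ i, ({y, ![u, a, b, c, d, e, f] i, ![u, a, b, c, d, e, f] (i + 1)} : Finset V) ∈ T := by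
    intro i
    fin_cases i
    · exact f1
    · exact f2
    · exact f3
    · exact f4
    · exact f5
    · exact f6
    · exact f7
  have j2 : ∀ i, ({y, ![u, f, e, d, c, b, a] i, ![u, f, e, d, c, b, a] (i + 1)} : Finset V) ∈ T := by
    intro i
    fin_cases i
    · have := f7
      rw [(face_perm _ _ _).1] at this
      exact this
    · have := f6
      rw [(face_perm _ _ _).1] at this
      exact this
    · have := f5
      rw [(face_perm _ _ _).1] at this
      exact this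
    · have := f4
      rw [(face_perm _ _ _).1] at this
      exact this
    · have := f3
      rw [(face_perm _ _ _).1] at this
      exact this
    · have := f2
      rw [(face_perm _ _ _).1] at this
      exact this
    · have := f1
      rw [(face_perm _ _ _).1] at this
      exact this
  rcases (hnb v).1 hyv with rfl | rfl | rfl | rfl | rfl | rfl | rfl
  · exact absurd rfl huv
  · exact absurd hv (h44 u huI _ hvI (h.toPre.adj f1).2.2 hu)
  · exact Red7_core h hF I hI h44 hyI _ i1 j1 1 2 3 (by simp) huI hvI hy hu hv ih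
  · exact Red7_core h hF I hI h44 hyI _ i1 j1 2 3 4 (by simp) huI hvI hy hu hv ih
  · exact Red7_core h hF I hI h44 hyI _ i2 j2 2 3 4 (by simp) huI hvI hy hu hv ih
  · exact Red7_core h hF I hI h44 hyI _ i2 j2 1 2 3 (by simp) huI hvI hy hu hv ih
  · exact absurd hv (h44 u huI _ hvI (h.toPre.adj f7).2.2.symm hu)

end Pool.Agent.TH246.PR
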