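import Pool.Agent.TH246.PR.Split
import Pool.Agent.TH246.PR.NoSep
import Pool.Agent.TH246.PR.Dis
import Pool.Agent.TH246.PR.Red44
import Pool.Agent.TH246.PR.Red45
import Pool.Agent.TH246.PR.Red55
import Pool.Agent.TH246.PR.Red56
import Pool.Agent.TH246.PR.Red7
import Pool.Agent.TH246.PR.Col4

set_option autoImplicit false
set_option linter.unusedVariables false

namespace Pool.Agent.TH246.PR

open Finset

variable {V : Type} [DecidableEq V]

theorem inn_subset (T X : Finset (Finset V)) (hX : X ⊆ T) (a b c d : V) :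
    inn X a b c d ⊆ verts T := by
  intro x hx
  unfold inn verts at *
  rw [mem_sdiff, mem_biUnion] at hx
  obtain ⟨⟨f, hf, hxf⟩, -⟩ := hx
  exact mem_biUnion.2 ⟨f, hX hf, hxf⟩

/-- **Rigid colourings of triangulated spheres.** -/
theorem main {T : Finset (Finset V)} (h : Sphere T) : ∃ w : V → F8, Good T w := by
  induction' hn : T.card using Nat.strong_induction_on with n ih generalizing T
  have ih' : ∀ T' : Finset (Finset V), Sphere T' → T'.card < T.card → ∃ w : V → F8, Good T' w :=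
    fun T' h' hlt => ih T'.card (hn ▸ hlt) h' rfl
  by_cases h4 : T.card ≤ 4
  · exact base h h4
  push Not at h4
  by_cases hF : Fac T
  · have h8 := eight_le_card h hF h4
    obtain ⟨X, a, b, c, d, hX⟩ := exists_minReg h hF h4
    obtain ⟨I, hsub, hI⟩ : ∃ I : Finset V, inn X a b c d ⊆ I ∧ ∀ v ∈ I, NoSep T I v := by
      by_cases h2 : 2 < (T \ X).card
      · exact ⟨_, subset_rfl, fun v hv => noSepA h hF h4 hX h2 hv⟩
      · exact ⟨verts T, inn_subset T X hX.reg.bdry.1 a b c d,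
          fun v hv => noSepB h hF h4 hX (not_lt.1 h2) hv⟩
    by_cases h44 : ∃ v ∈ I, ∃ u ∈ I, Adj T v u ∧ deg T v = 4 ∧ deg T u = 4
    · obtain ⟨v, -, u, -, hvu, hv, hu⟩ := h44
      exact red44 h hF h8 hvu hv hu ih'
    have h44' : ∀ x ∈ I, ∀ y ∈ I, Adj T x y → deg T x = 4 → deg T y ≠ 4 :=
      fun x hx y hy hxy h1 h2 => h44 ⟨x, hx, y, hy, hxy, h1, h2⟩
    by_cases h45 : ∃ v ∈ I, ∃ u ∈ I, Adj T v u ∧ deg T v = 4 ∧ (deg T u = 5 ∨ deg T u = 6)
    · obtain ⟨v, hvI, u, huI, hvu, hv, hu⟩ := h45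
      exact red45 h hF h8 I hI h44' hvI huI hvu hv hu ih'
    have h46' : ∀ x ∈ I, ∀ y ∈ I, Adj T x y → deg T x = 4 → deg T y ≠ 6 :=
      fun x hx y hy hxy h1 h2 => h45 ⟨x, hx, y, hy, hxy, h1, Or.inr h2⟩
    rcases unavoidable h hF h4 hX with hc | hc | hc | hc
    · obtain ⟨v, hvI, u, huI, hvu, hv, hu⟩ := hc
      rcases hu with hu | hu
      · exact red44 h hF h8 hvu hv hu ih'
      · exact red45 h hF h8 I hI h44' (hsub hvI) (hsub huI) hvu hv hu ih'
    · obtain ⟨v, hvI, u, huI, hvu, hv, hu⟩ := hc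
      exact red55 h hF h8 I hI (hsub hvI) (hsub huI) hvu hv hu ih'
    · obtain ⟨v, hvI, u, huI, x, hxI, hvu, hux, hxv, hvx, hv, hu, hx⟩ := hc
      exact red56 h hF h8 I hI h46' (hsub hvI) (hsub huI) (hsub hxI) hvu hux hxv hvx hv hu hx ih'
    · obtain ⟨y, hyI, u, huI, v, hvI, hyu, hyv, huv, hy, hu, hv⟩ := hc
      exact red7 h hF h8 I hI h44' (hsub hyI) (hsub huI) (hsub hvI) hyu hyv huv hy hu hv ih'
  · unfold Fac at hF
    push Not at hF
    obtain ⟨a, b, c, hab, hbc, hac, hf⟩ := hF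
    obtain ⟨T1, T2, s1, s2, l1, l2, f1, f2, hadj, hv⟩ := split h hab hbc hac hf
    exact sum3 f1 f2 hab.1 hbc.1 hac.1 hadj hv (ih' T1 s1 l1) (ih' T2 s2 l2)

end Pool.Agent.TH246.PR
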