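import Pool.Agent.TH246.PR.MapDefs

set_option autoImplicit false
set_option linter.unusedVariables false
set_option linter.unusedSectionVars false

namespace Pool.Agent.TH246.PR

open Finset

variable {V D : Type}

namespace MapCx

lemma v_ne_y (M : PMap V D) (a : V) (d : D) : (W.v a : W M) ≠ W.y d := by
  intro h; simp [W.v, W.y] at h
lemma v_ne_z (M : PMap V D) (a : V) (d : D) : (W.v a : W M) ≠ W.z d := by
  intro h; simp [W.v, W.z] at h
lemma v_ne_c (M : PMap V D) (a : V) (d : D) : (W.v a : W M) ≠ W.c d := by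
  intro h; simp [W.v, W.c] at h
lemma y_ne_z (M : PMap V D) (d d' : D) : (W.y d : W M) ≠ W.z d' := by
  intro h; simp [W.y, W.z] at h
lemma y_ne_c (M : PMap V D) (d d' : D) : (W.y d : W M) ≠ W.c d' := by
  intro h; simp [W.y, W.c] at h
lemma z_ne_c (M : PMap V D) (d d' : D) : (W.z d : W M) ≠ W.c d' := by
  intro h; simp [W.z, W.c] at h
lemma v_inj (M : PMap V D) (a b : V) : (W.v a : W M) = W.v b ↔ a = b := by
  simp [W.v]
lemma y_inj (M : PMap V D) (a b : D) : (W.y a : W M) = W.y b ↔ a = b := by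
  simp [W.y]
lemma z_inj (M : PMap V D) (a b : D) : (W.z a : W M) = W.z b ↔ a = b := by
  simp [W.z]
lemma c_phi (M : PMap V D) (d : D) : (W.c (M.φ d) : W M) = W.c d := by
  unfold W.c
  have : (Quotient.mk (Equiv.Perm.SameCycle.setoid M.φ) (M.φ d)) =
      Quotient.mk (Equiv.Perm.SameCycle.setoid M.φ) d := by
    apply Quotient.sound
    show M.φ.SameCycle (M.φ d) d
    exact (Equiv.Perm.sameCycle_apply_left).2 (Equiv.Perm.SameCycle.refl _ _)
  rw [this]

lemma phi_ne (M : PMap V D) (d : D) : M.φ d ≠ d := by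
  intro h
  have h1 := M.tφ d
  rw [h] at h1
  exact M.tne d h1.symm

/-- the faces -/
noncomputable def fc (M : PMap V D) : Fin 5 → D → Finset (W M)
  | 0, d => {W.v (M.t d), W.v (M.t (M.inv d)), W.y d}
  | 1, d => {W.v (M.t (M.inv d)), W.y d, W.z d}
  | 2, d => {W.v (M.t (M.inv d)), W.z d, W.y (M.φ d)}
  | 3, d => {W.y d, W.z d, W.c d}
  | 4, d => {W.z d, W.y (M.φ d), W.c d}

lemma v_mem (M : PMap V D) (a : V) (d : D) :
    ((W.v a : W M) ∈ fc M 0 d ↔ a = M.t d ∨ a = M.t (M.inv d)) ∧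
    ((W.v a : W M) ∈ fc M 1 d ↔ a = M.t (M.inv d)) ∧
    ((W.v a : W M) ∈ fc M 2 d ↔ a = M.t (M.inv d)) ∧
    ((W.v a : W M) ∉ fc M 3 d) ∧ ((W.v a : W M) ∉ fc M 4 d) := by
  simp only [fc, mem_insert, mem_singleton, v_inj, v_ne_y, v_ne_z, v_ne_c, or_false, not_false_eq_true,
    and_self]

lemma y_mem (M : PMap V D) (e : D) (d : D) :
    ((W.y e : W M) ∈ fc M 0 d ↔ e = d) ∧
    ((W.y e : W M) ∈ fc M 1 d ↔ e = d) ∧
    ((W.y e : W M) ∈ fc M 2 d ↔ e = M.φ d) ∧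
    ((W.y e : W M) ∈ fc M 3 d ↔ e = d) ∧ ((W.y e : W M) ∈ fc M 4 d ↔ e = M.φ d) := by
  have h1 : ∀ (a : V) (d : D), (W.y d : W M) ≠ W.v a := fun a d => (v_ne_y M a d).symm
  simp only [fc, mem_insert, mem_singleton, y_inj, h1, y_ne_z, y_ne_c, or_false, false_or,
    and_self]

lemma z_mem (M : PMap V D) (e : D) (d : D) :
    ((W.z e : W M) ∉ fc M 0 d) ∧
    ((W.z e : W M) ∈ fc M 1 d ↔ e = d) ∧
    ((W.z e : W M) ∈ fc M 2 d ↔ e = d) ∧
    ((W.z e : W M) ∈ fc M 3 d ↔ e = d) ∧ ((W.z e : W M) ∈ fc M 4 d ↔ e = d) := by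
  have h1 : ∀ (a : V) (d : D), (W.z d : W M) ≠ W.v a := fun a d => (v_ne_z M a d).symm
  have h2 : ∀ (a d : D), (W.z d : W M) ≠ W.y a := fun a d => (y_ne_z M a d).symm
  simp only [fc, mem_insert, mem_singleton, z_inj, h1, h2, z_ne_c, or_false, false_or,
    and_self, not_false_eq_true]

lemma c_mem (M : PMap V D) (e : D) (d : D) :
    ((W.c e : W M) ∉ fc M 0 d) ∧ ((W.c e : W M) ∉ fc M 1 d) ∧ ((W.c e : W M) ∉ fc M 2 d) ∧
    ((W.c e : W M) ∈ fc M 3 d ↔ (W.c e : W M) = W.c d) ∧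
    ((W.c e : W M) ∈ fc M 4 d ↔ (W.c e : W M) = W.c d) := by
  have h1 : ∀ (a : V) (d : D), (W.c d : W M) ≠ W.v a := fun a d => (v_ne_c M a d).symm
  have h2 : ∀ (a d : D), (W.c d : W M) ≠ W.y a := fun a d => (y_ne_c M a d).symm
  have h3 : ∀ (a d : D), (W.c d : W M) ≠ W.z a := fun a d => (z_ne_c M a d).symm
  simp only [fc, mem_insert, mem_singleton, h1, h2, h3, or_false, false_or,
    and_self, not_false_eq_true]

lemma mem_cx [Fintype D] (M : PMap V D) (f : Finset (W M)) :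
    f ∈ cx M ↔ ∃ i d, f = fc M i d := by
  unfold cx
  simp only [mem_biUnion, mem_univ, true_and, mem_insert, mem_singleton]
  constructor
  · rintro ⟨d, h | h | h | h | h⟩
    · exact ⟨0, d, h⟩
    · exact ⟨1, d, h⟩
    · exact ⟨2, d, h⟩
    · exact ⟨3, d, h⟩
    · exact ⟨4, d, h⟩
  · rintro ⟨i, d, h⟩
    refine ⟨d, ?_⟩
    fin_cases i
    · exact Or.inl h
    · exact Or.inr (Or.inl h)
    · exact Or.inr (Or.inr (Or.inl h))
    · exact Or.inr (Or.inr (Or.inr (Or.inl h)))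
    · exact Or.inr (Or.inr (Or.inr (Or.inr h)))

lemma fc_mem [Fintype D] (M : PMap V D) (i : Fin 5) (d : D) : fc M i d ∈ cx M :=
  (mem_cx M _).2 ⟨i, d, rfl⟩

lemma fc_card (M : PMap V D) (i : Fin 5) (d : D) : (fc M i d).card = 3 := by
  have h0 : M.t d ≠ M.t (M.inv d) := (M.tne d).symm
  fin_cases i
  · show ({W.v (M.t d), W.v (M.t (M.inv d)), W.y d} : Finset (W M)).card = 3
    rw [card_eq_three]
    exact ⟨_, _, _, by rwa [Ne, v_inj], v_ne_y _ _ _, v_ne_y _ _ _, rfl⟩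
  · show ({W.v (M.t (M.inv d)), W.y d, W.z d} : Finset (W M)).card = 3
    rw [card_eq_three]
    exact ⟨_, _, _, v_ne_y _ _ _, v_ne_z _ _ _, y_ne_z _ _ _, rfl⟩
  · show ({W.v (M.t (M.inv d)), W.z d, W.y (M.φ d)} : Finset (W M)).card = 3
    rw [card_eq_three]
    exact ⟨_, _, _, v_ne_z _ _ _, v_ne_y _ _ _, (y_ne_z _ _ _).symm, rfl⟩
  · show ({W.y d, W.z d, W.c d} : Finset (W M)).card = 3
    rw [card_eq_three]
    exact ⟨_, _, _, y_ne_z _ _ _, y_ne_c _ _ _, z_ne_c _ _ _, rfl⟩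
  · show ({W.z d, W.y (M.φ d), W.c d} : Finset (W M)).card = 3
    rw [card_eq_three]
    exact ⟨_, _, _, (y_ne_z _ _ _).symm, z_ne_c _ _ _, y_ne_c _ _ _, rfl⟩

lemma fc_inj (M : PMap V D) (i i' : Fin 5) (d d' : D) (h : fc M i d = fc M i' d') :
    i = i' ∧ d = d' := by
  have hz : ∀ e, ((W.z e : W M) ∈ fc M i d ↔ (W.z e : W M) ∈ fc M i' d') := fun e => by rw [h]
  have hy : ∀ e, ((W.y e : W M) ∈ fc M i d ↔ (W.y e : W M) ∈ fc M i' d') := fun e => by rw [h]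
  have hc : ∀ e, ((W.c e : W M) ∈ fc M i d ↔ (W.c e : W M) ∈ fc M i' d') := fun e => by rw [h]
  have hne := phi_ne M d'
  have hne' : d' ≠ M.φ d' := hne.symm
  have a1 := hz d
  have a2 := hz d'
  have a3 := hy d
  have a4 := hc d
  have a5 := hc d'
  clear hz hy hc h
  fin_cases i <;> fin_cases i' <;>
    simp only [Fin.zero_eta, Fin.mk_one, Fin.reduceFinMk, z_mem, y_mem, c_mem] at a1 a2 a3 a4 a5 ⊢ <;>
    grind

lemma ef_comm [Fintype D] (M : PMap V D) (u v : W M) : ef (cx M) u v = ef (cx M) v u := by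
  unfold ef
  refine filter_congr fun f _ => ?_
  rw [and_comm]

lemma edge [Fintype D] (M : PMap V D) (i1 i2 : Fin 5) (d1 d2 : D) (u v : W M)
    (hne : ¬ (i1 = i2 ∧ d1 = d2)) (h1u : u ∈ fc M i1 d1) (h1v : v ∈ fc M i1 d1)
    (h2u : u ∈ fc M i2 d2) (h2v : v ∈ fc M i2 d2)
    (hall : ∀ i d, u ∈ fc M i d → v ∈ fc M i d → (i = i1 ∧ d = d1) ∨ (i = i2 ∧ d = d2)) :
    (ef (cx M) u v).card = 2 := by
  have h : ef (cx M) u v = {fc M i1 d1, fc M i2 d2} := by
    ext f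
    unfold ef
    rw [mem_filter, mem_insert, mem_singleton, mem_cx]
    constructor
    · rintro ⟨⟨i, d, rfl⟩, hu, hv⟩
      rcases hall i d hu hv with ⟨rfl, rfl⟩ | ⟨rfl, rfl⟩
      · exact Or.inl rfl
      · exact Or.inr rfl
    · rintro (rfl | rfl)
      · exact ⟨⟨_, _, rfl⟩, h1u, h1v⟩
      · exact ⟨⟨_, _, rfl⟩, h2u, h2v⟩
  rw [h, card_pair]
  intro hc
  exact hne (fc_inj M _ _ _ _ hc)

lemma e1 [Fintype D] (M : PMap V D) (d : D) :
    (ef (cx M) (W.v (M.t d)) (W.v (M.t (M.inv d)))).card = 2 := by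
  have hi := M.inv2 d
  have ht := M.tne d
  refine edge M 0 0 d (M.inv d) _ _ ?_ ((v_mem M _ _).1.2 (Or.inl rfl))
    ((v_mem M _ _).1.2 (Or.inr rfl)) ((v_mem M _ _).1.2 (Or.inr (by rw [hi])))
    ((v_mem M _ _).1.2 (Or.inl rfl)) ?_
  · rintro ⟨-, h⟩
    rw [← h] at ht
    exact ht rfl
  · intro i d'
    have s1 := M.simple d d'
    have s2 := M.simple (M.inv d) d'
    rw [hi] at s2
    fin_cases i <;> simp only [Fin.zero_eta, Fin.mk_one, Fin.reduceFinMk, v_mem] <;> grind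

lemma e2 [Fintype D] (M : PMap V D) (d : D) :
    (ef (cx M) (W.v (M.t (M.inv d))) (W.y (M.φ d))).card = 2 := by
  have ht := M.tφ d
  have ht' := M.tne (M.φ d)
  refine edge M 0 2 (M.φ d) d _ _ (by simp) ((v_mem M _ _).1.2 (Or.inl ht.symm))
    ((y_mem M _ _).1.2 rfl) ((v_mem M _ _).2.2.1.2 rfl) ((y_mem M _ _).2.2.1.2 rfl) ?_
  intro i d'
  have h1 : M.φ d = M.φ d' → d = d' := fun h => M.φ.injective h
  fin_cases i <;> simp only [Fin.zero_eta, Fin.mk_one, Fin.reduceFinMk, v_mem, y_mem] <;> grind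

lemma e3 [Fintype D] (M : PMap V D) (d : D) :
    (ef (cx M) (W.v (M.t (M.inv d))) (W.y d)).card = 2 := by
  have ht' := M.tne d
  refine edge M 0 1 d d _ _ (by simp) ((v_mem M _ _).1.2 (Or.inr rfl))
    ((y_mem M _ _).1.2 rfl) ((v_mem M _ _).2.1.2 rfl) ((y_mem M _ _).2.1.2 rfl) ?_
  intro i d'
  have ht := M.tφ d'
  fin_cases i <;> simp only [Fin.zero_eta, Fin.mk_one, Fin.reduceFinMk, v_mem, y_mem] <;> grind

lemma e4 [Fintype D] (M : PMap V D) (d : D) :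
    (ef (cx M) (W.y d) (W.z d)).card = 2 := by
  have ht' := phi_ne M d
  refine edge M 1 3 d d _ _ (by simp) ((y_mem M _ _).2.1.2 rfl)
    ((z_mem M _ _).2.1.2 rfl) ((y_mem M _ _).2.2.2.1.2 rfl) ((z_mem M _ _).2.2.2.1.2 rfl) ?_
  intro i d'
  fin_cases i <;> simp only [Fin.zero_eta, Fin.mk_one, Fin.reduceFinMk, z_mem, y_mem] <;> grind

lemma e5 [Fintype D] (M : PMap V D) (d : D) :
    (ef (cx M) (W.v (M.t (M.inv d))) (W.z d)).card = 2 := by
  refine edge M 1 2 d d _ _ (by simp) ((v_mem M _ _).2.1.2 rfl)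
    ((z_mem M _ _).2.1.2 rfl) ((v_mem M _ _).2.2.1.2 rfl) ((z_mem M _ _).2.2.1.2 rfl) ?_
  intro i d'
  fin_cases i <;> simp only [Fin.zero_eta, Fin.mk_one, Fin.reduceFinMk, z_mem, v_mem] <;> grind

lemma e6 [Fintype D] (M : PMap V D) (d : D) :
    (ef (cx M) (W.z d) (W.y (M.φ d))).card = 2 := by
  have ht' := phi_ne M d
  refine edge M 2 4 d d _ _ (by simp) ((z_mem M _ _).2.2.1.2 rfl)
    ((y_mem M _ _).2.2.1.2 rfl) ((z_mem M _ _).2.2.2.2.2 rfl) ((y_mem M _ _).2.2.2.2.2 rfl) ?_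
  intro i d'
  fin_cases i <;> simp only [Fin.zero_eta, Fin.mk_one, Fin.reduceFinMk, z_mem, y_mem] <;> grind

lemma e7 [Fintype D] (M : PMap V D) (d : D) :
    (ef (cx M) (W.y (M.φ d)) (W.c d)).card = 2 := by
  have hinj := M.φ.injective
  refine edge M 3 4 (M.φ d) d _ _ (by simp) ((y_mem M _ _).2.2.2.1.2 rfl)
    ((c_mem M _ _).2.2.2.1.2 (c_phi M d).symm) ((y_mem M _ _).2.2.2.2.2 rfl)
    ((c_mem M _ _).2.2.2.2.2 rfl) ?_
  intro i d'
  have h1 := @hinj d d'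
  fin_cases i <;> simp only [Fin.zero_eta, Fin.mk_one, Fin.reduceFinMk, c_mem, y_mem] <;> grind

lemma e8 [Fintype D] (M : PMap V D) (d : D) :
    (ef (cx M) (W.z d) (W.c d)).card = 2 := by
  refine edge M 3 4 d d _ _ (by simp) ((z_mem M _ _).2.2.2.1.2 rfl)
    ((c_mem M _ _).2.2.2.1.2 rfl) ((z_mem M _ _).2.2.2.2.2 rfl)
    ((c_mem M _ _).2.2.2.2.2 rfl) ?_
  intro i d'
  fin_cases i <;> simp only [Fin.zero_eta, Fin.mk_one, Fin.reduceFinMk, c_mem, z_mem] <;> grind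

lemma two [Fintype D] (M : PMap V D) (u v : W M) (h : Adj (cx M) u v) :
    (ef (cx M) u v).card = 2 := by
  obtain ⟨huv, f, hf, hu, hv⟩ := h
  rw [mem_cx] at hf
  obtain ⟨i, d, rfl⟩ := hf
  have hφ : M.φ (M.φ.symm d) = d := M.φ.apply_symm_apply d
  have htφ := M.tφ (M.φ.symm d)
  have htφ' := M.tφ d
  have hcφ := c_phi M (M.φ.symm d)
  have E2 := e2 M (M.φ.symm d)
  have E7 := e7 M (M.φ.symm d)
  rw [hφ] at E2 E7 htφ hcφ
  rw [← htφ] at E2
  rw [← hcφ] at E7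
  have E1 := e1 M d
  have E2' := e2 M d
  have E3 := e3 M d
  have E4 := e4 M d
  have E5 := e5 M d
  have E6 := e6 M d
  have E7' := e7 M d
  have E8 := e8 M d
  fin_cases i
  · replace hu : u ∈ ({W.v (M.t d), W.v (M.t (M.inv d)), W.y d} : Finset (W M)) := hu
    replace hv : v ∈ ({W.v (M.t d), W.v (M.t (M.inv d)), W.y d} : Finset (W M)) := hv
    simp only [mem_insert, mem_singleton] at hu hv
    rcases hu with rfl | rfl | rfl <;> rcases hv with rfl | rfl | rfl <;>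
      first | exact absurd rfl huv | assumption | (rw [ef_comm]; assumption)
  · replace hu : u ∈ ({W.v (M.t (M.inv d)), W.y d, W.z d} : Finset (W M)) := hu
    replace hv : v ∈ ({W.v (M.t (M.inv d)), W.y d, W.z d} : Finset (W M)) := hv
    simp only [mem_insert, mem_singleton] at hu hv
    rcases hu with rfl | rfl | rfl <;> rcases hv with rfl | rfl | rfl <;>
      first | exact absurd rfl huv | assumption | (rw [ef_comm]; assumption)
  · replace hu : u ∈ ({W.v (M.t (M.inv d)), W.z d, W.y (M.φ d)} : Finset (W M)) := hu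
    replace hv : v ∈ ({W.v (M.t (M.inv d)), W.z d, W.y (M.φ d)} : Finset (W M)) := hv
    simp only [mem_insert, mem_singleton] at hu hv
    rcases hu with rfl | rfl | rfl <;> rcases hv with rfl | rfl | rfl <;>
      first | exact absurd rfl huv | assumption | (rw [ef_comm]; assumption)
  · replace hu : u ∈ ({W.y d, W.z d, W.c d} : Finset (W M)) := hu
    replace hv : v ∈ ({W.y d, W.z d, W.c d} : Finset (W M)) := hv
    simp only [mem_insert, mem_singleton] at hu hv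
    rcases hu with rfl | rfl | rfl <;> rcases hv with rfl | rfl | rfl <;>
      first | exact absurd rfl huv | assumption | (rw [ef_comm]; assumption)
  · replace hu : u ∈ ({W.z d, W.y (M.φ d), W.c d} : Finset (W M)) := hu
    replace hv : v ∈ ({W.z d, W.y (M.φ d), W.c d} : Finset (W M)) := hv
    simp only [mem_insert, mem_singleton] at hu hv
    rcases hu with rfl | rfl | rfl <;> rcases hv with rfl | rfl | rfl <;>
      first | exact absurd rfl huv | assumption | (rw [ef_comm]; assumption)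

lemma inter_card (M : PMap V D) (i i' : Fin 5) (d d' : D) (hne : ¬ (i = i' ∧ d = d'))
    (u v : W M) (huv : u ≠ v) (h1 : u ∈ fc M i d) (h2 : v ∈ fc M i d) (h3 : u ∈ fc M i' d')
    (h4 : v ∈ fc M i' d') : (fc M i d ∩ fc M i' d').card = 2 := by
  apply le_antisymm
  · by_contra hcon
    push Not at hcon
    have c1 := fc_card M i d
    have c2 := fc_card M i' d'
    have e1 : fc M i d ∩ fc M i' d' = fc M i d :=
      eq_of_subset_of_card_le inter_subset_left (by omega)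
    have e2 : fc M i d ∩ fc M i' d' = fc M i' d' :=
      eq_of_subset_of_card_le inter_subset_right (by omega)
    exact hne (fc_inj M _ _ _ _ (e1.symm.trans e2))
  · have : ({u, v} : Finset (W M)) ⊆ fc M i d ∩ fc M i' d' := by
      intro x hx
      rw [mem_insert, mem_singleton] at hx
      rw [mem_inter]
      rcases hx with rfl | rfl
      · exact ⟨h1, h3⟩
      · exact ⟨h2, h4⟩
    calc 2 = ({u, v} : Finset (W M)).card := (card_pair huv).symm
      _ ≤ _ := card_le_card this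

lemma conn [Fintype D] (M : PMap V D) (X : Finset (Finset (W M))) (hX : X ⊆ cx M)
    (hne : X.Nonempty) (hcl : ∀ f ∈ X, ∀ g ∈ cx M, (f ∩ g).card = 2 → g ∈ X) : X = cx M := by
  have step : ∀ (i i' : Fin 5) (d d' : D), ¬ (i = i' ∧ d = d') → ∀ (u v : W M), u ≠ v →
      u ∈ fc M i d → v ∈ fc M i d → u ∈ fc M i' d' → v ∈ fc M i' d' →
      (fc M i d ∈ X ↔ fc M i' d' ∈ X) := by
    intro i i' d d' hne u v huv h1 h2 h3 h4
    constructor
    · intro h
      exact hcl _ h _ (fc_mem M _ _) (inter_card M i i' d d' hne u v huv h1 h2 h3 h4)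
    · intro h
      exact hcl _ h _ (fc_mem M _ _) (inter_card M i' i d' d (fun h => hne ⟨h.1.symm, h.2.symm⟩)
        u v huv h3 h4 h1 h2)
  have s01 : ∀ d, (fc M 0 d ∈ X ↔ fc M 1 d ∈ X) := fun d =>
    step 0 1 d d (by simp) (W.v (M.t (M.inv d))) (W.y d) (v_ne_y _ _ _)
      ((v_mem M _ _).1.2 (Or.inr rfl)) ((y_mem M _ _).1.2 rfl) ((v_mem M _ _).2.1.2 rfl)
      ((y_mem M _ _).2.1.2 rfl)
  have s12 : ∀ d, (fc M 1 d ∈ X ↔ fc M 2 d ∈ X) := fun d =>
    step 1 2 d d (by simp) (W.v (M.t (M.inv d))) (W.z d) (v_ne_z _ _ _)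
      ((v_mem M _ _).2.1.2 rfl) ((z_mem M _ _).2.1.2 rfl) ((v_mem M _ _).2.2.1.2 rfl)
      ((z_mem M _ _).2.2.1.2 rfl)
  have s13 : ∀ d, (fc M 1 d ∈ X ↔ fc M 3 d ∈ X) := fun d =>
    step 1 3 d d (by simp) (W.y d) (W.z d) (y_ne_z _ _ _)
      ((y_mem M _ _).2.1.2 rfl) ((z_mem M _ _).2.1.2 rfl) ((y_mem M _ _).2.2.2.1.2 rfl)
      ((z_mem M _ _).2.2.2.1.2 rfl)
  have s34 : ∀ d, (fc M 3 d ∈ X ↔ fc M 4 d ∈ X) := fun d =>
    step 3 4 d d (by simp) (W.z d) (W.c d) (z_ne_c _ _ _)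
      ((z_mem M _ _).2.2.2.1.2 rfl) ((c_mem M _ _).2.2.2.1.2 rfl) ((z_mem M _ _).2.2.2.2.2 rfl)
      ((c_mem M _ _).2.2.2.2.2 rfl)
  have s20 : ∀ d, (fc M 2 d ∈ X ↔ fc M 0 (M.φ d) ∈ X) := fun d =>
    step 2 0 d (M.φ d) (by simp) (W.v (M.t (M.inv d))) (W.y (M.φ d)) (v_ne_y _ _ _)
      ((v_mem M _ _).2.2.1.2 rfl) ((y_mem M _ _).2.2.1.2 rfl)
      ((v_mem M _ _).1.2 (Or.inl (M.tφ d).symm)) ((y_mem M _ _).1.2 rfl)
  have s00 : ∀ d, (fc M 0 d ∈ X ↔ fc M 0 (M.inv d) ∈ X) := fun d =>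
    step 0 0 d (M.inv d) (by
        rintro ⟨-, h⟩
        have := M.tne d
        rw [← h] at this
        exact this rfl) (W.v (M.t d)) (W.v (M.t (M.inv d)))
      (by rw [Ne, v_inj]; exact (M.tne d).symm)
      ((v_mem M _ _).1.2 (Or.inl rfl)) ((v_mem M _ _).1.2 (Or.inr rfl))
      ((v_mem M _ _).1.2 (Or.inr (by rw [M.inv2 d]))) ((v_mem M _ _).1.2 (Or.inl rfl))
  have hall : ∀ i d, (fc M i d ∈ X ↔ fc M 0 d ∈ X) := by
    intro i d
    fin_cases i
    · exact Iff.rfl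
    · exact (s01 d).symm
    · exact (s12 d).symm.trans (s01 d).symm
    · exact (s13 d).symm.trans (s01 d).symm
    · exact (s34 d).symm.trans ((s13 d).symm.trans (s01 d).symm)
  obtain ⟨f, hf⟩ := hne
  obtain ⟨i0, d0, rfl⟩ := (mem_cx M f).1 (hX hf)
  have hS := M.conn {d | fc M 0 d ∈ X} ⟨d0, (hall i0 d0).1 hf⟩ (by
    intro d hd
    have hd' : fc M 0 d ∈ X := hd
    constructor
    · show fc M 0 (M.φ d) ∈ X
      exact (s20 d).1 ((s12 d).1 ((s01 d).1 hd'))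
    · show fc M 0 (M.inv d) ∈ X
      exact (s00 d).1 hd')
  apply Subset.antisymm hX
  intro g hg
  obtain ⟨i, d, rfl⟩ := (mem_cx M g).1 hg
  rw [hall i d]
  have : d ∈ {d | fc M 0 d ∈ X} := by rw [hS]; exact Set.mem_univ _
  exact this

end MapCx

open MapCx

theorem cx_pre [Fintype V] [Fintype D] [Nonempty D] (M : PMap V D) :
    Pre (cx M) ∧ (cx M).card = 5 * Fintype.card D ∧
      (verts (cx M)).card = Fintype.card V + 2 * Fintype.card D + Nat.card (Orb M) := by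
  classical
  refine ⟨⟨?_, ?_, ?_, ?_⟩, ?_, ?_⟩
  · exact ⟨fc M 0 (Classical.arbitrary D), fc_mem M _ _⟩
  · intro f hf
    obtain ⟨i, d, rfl⟩ := (mem_cx M f).1 hf
    exact fc_card M i d
  · exact two M
  · exact conn M
  · have h : cx M = (univ : Finset (Fin 5 × D)).image (fun p => fc M p.1 p.2) := by
      ext f
      rw [mem_cx, mem_image]
      constructor
      · rintro ⟨i, d, rfl⟩
        exact ⟨(i, d), mem_univ _, rfl⟩
      · rintro ⟨p, -, rfl⟩
        exact ⟨p.1, p.2, rfl⟩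
    rw [h, card_image_of_injective, card_univ, Fintype.card_prod, Fintype.card_fin]
    rintro ⟨i, d⟩ ⟨i', d'⟩ hp
    obtain ⟨h1, h2⟩ := fc_inj M _ _ _ _ hp
    exact Prod.ext h1 h2
  · have : Fintype (Orb M) := Fintype.ofFinite _
    obtain ⟨e⟩ : Nonempty (W M ≃ V ⊕ (D × Bool) ⊕ Orb M) :=
      ⟨⟨fun w => w.val, fun x => ⟨x⟩, fun w => rfl, fun x => rfl⟩⟩
    have : Fintype (W M) := Fintype.ofEquiv _ e.symm
    have h : verts (cx M) = univ := by
      apply eq_univ_of_forall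
      intro w
      unfold verts
      rw [mem_biUnion]
      obtain ⟨x⟩ := w
      rcases x with v | ⟨d, b⟩ | q
      · obtain ⟨d, hd⟩ := M.surj v
        refine ⟨fc M 0 d, fc_mem M _ _, ?_⟩
        show (W.v v : W M) ∈ fc M 0 d
        exact (v_mem M _ _).1.2 (Or.inl hd.symm)
      · cases b
        · refine ⟨fc M 1 d, fc_mem M _ _, ?_⟩
          show (W.z d : W M) ∈ fc M 1 d
          exact (z_mem M _ _).2.1.2 rfl
        · refine ⟨fc M 0 d, fc_mem M _ _, ?_⟩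
          show (W.y d : W M) ∈ fc M 0 d
          exact (y_mem M _ _).1.2 rfl
      · induction q using Quotient.inductionOn with
        | h d =>
          refine ⟨fc M 3 d, fc_mem M _ _, ?_⟩
          show (W.c d : W M) ∈ fc M 3 d
          exact (c_mem M _ _).2.2.2.1.2 rfl
    rw [h, card_univ, Fintype.card_congr e, Fintype.card_sum, Fintype.card_sum, Fintype.card_prod,
      Fintype.card_bool, Nat.card_eq_fintype_card]
    ring

theorem cx_adj [Fintype D] (M : PMap V D) (d : D) :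
    Adj (cx M) (W.v (M.t d)) (W.v (M.t (M.inv d))) := by
  refine ⟨by rw [Ne, v_inj]; exact (M.tne d).symm, fc M 0 d, fc_mem M _ _,
    (v_mem M _ _).1.2 (Or.inl rfl), (v_mem M _ _).1.2 (Or.inr rfl)⟩

end Pool.Agent.TH246.PR
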