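import Pool.Agent.TH246.PR.Defs

set_option autoImplicit false
set_option linter.unusedVariables false

namespace Pool.Agent.TH246.PR

open Finset

/-- a connected combinatorial map with vertex set `V` and set of darts `D`: `inv` reverses a dart,
`φ d` is the next dart on the face of `d`, `t d` is the tail of `d`; the map has no loops and no
multiple edges -/
structure PMap (V D : Type) where
  inv : Equiv.Perm D
  φ : Equiv.Perm D
  t : D → V
  inv2 : ∀ d, inv (inv d) = d
  tne : ∀ d, t (inv d) ≠ t d
  simple : ∀ d d', t d = t d' → t (inv d) = t (inv d') → d = d'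
  tφ : ∀ d, t (φ d) = t (inv d)
  rot : ∀ d d', t d = t d' → (φ * inv).SameCycle d d'
  surj : ∀ v, ∃ d, t d = v
  conn : ∀ S : Set D, S.Nonempty → (∀ d ∈ S, φ d ∈ S ∧ inv d ∈ S) → S = Set.univ

variable {V D : Type}

/-- the faces: the orbits of `φ` -/
abbrev Orb (M : PMap V D) : Type := Quotient (Equiv.Perm.SameCycle.setoid M.φ)

/-- the vertices of the triangulated surface of a map: the vertices, two new vertices for each
dart, and one new vertex for each face -/
structure W (M : PMap V D) : Type where
  val : V ⊕ (D × Bool) ⊕ Orb M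

noncomputable instance (M : PMap V D) : DecidableEq (W M) := Classical.decEq _

/-- the vertex `v` -/
def W.v {M : PMap V D} (v : V) : W M := ⟨Sum.inl v⟩
/-- the first new vertex at the dart `d`, in the face to which `d` belongs -/
def W.y {M : PMap V D} (d : D) : W M := ⟨Sum.inr (Sum.inl (d, true))⟩
/-- the second new vertex at the dart `d` -/
def W.z {M : PMap V D} (d : D) : W M := ⟨Sum.inr (Sum.inl (d, false))⟩
/-- the centre of the face of the dart `d` -/
def W.c {M : PMap V D} (d : D) : W M := ⟨Sum.inr (Sum.inr (Quotient.mk _ d))⟩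

/-- the triangulated surface of a map -/
noncomputable def cx [Fintype D] (M : PMap V D) : Finset (Finset (W M)) :=
  univ.biUnion fun d : D =>
    {{W.v (M.t d), W.v (M.t (M.inv d)), W.y d},
     {W.v (M.t (M.inv d)), W.y d, W.z d},
     {W.v (M.t (M.inv d)), W.z d, W.y (M.φ d)},
     {W.y d, W.z d, W.c d},
     {W.z d, W.y (M.φ d), W.c d}}

end Pool.Agent.TH246.PR
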