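import Pool.Agent.TH246.PR.Contr

set_option autoImplicit false
set_option linter.unusedVariables false

namespace Pool.Agent.TH246.PR

open Finset

variable {V : Type} [DecidableEq V]

theorem PathContr4_adj_symm {T : Finset (Finset V)} {u v : V} (h : Adj T u v) : Adj T v u := by
  obtain ⟨h1, f, hf, hu, hv⟩ := h
  exact ⟨h1.symm, f, hf, hv, hu⟩

/-- counting the faces at a vertex after contraction of a path, given the description of the
faces of the new complex -/
theorem PathContr4_count {T T' : Finset (Finset V)} {v p q : V}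
    (hc : T'.card + (star T v).card = T.card)
    (hT' : ∀ f, f ∈ T' → (f ∈ T ∧ v ∉ f ∧ q ∉ f) ∨
        (∃ g ∈ T, v ∉ g ∧ q ∈ g ∧ f = insert p (g.erase q)))
    (hT : ∀ f ∈ T, v ∉ f → (if q ∈ f then insert p (f.erase q) else f) ∈ T')
    {x : V} (hxp : x ≠ p) (hxq : x ≠ q) :
    deg T' x + ((star T v).filter (fun f => x ∈ f)).card = deg T x := by
  classical
  set φ : Finset V → Finset V := fun f => if q ∈ f then insert p (f.erase q) else f with hφ
  set F0 := T.filter (fun f => v ∉ f) with hF0
  have himg : F0.image φ = T' := by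
    ext f
    constructor
    · intro hf
      obtain ⟨g, hg, rfl⟩ := mem_image.1 hf
      exact hT g (mem_filter.1 hg).1 (mem_filter.1 hg).2
    · intro hf
      rcases hT' f hf with ⟨h1, h2, h3⟩ | ⟨g, hg, h1, h2, h3⟩
      · refine mem_image.2 ⟨f, mem_filter.2 ⟨h1, h2⟩, ?_⟩
        simp [hφ, h3]
      · refine mem_image.2 ⟨g, mem_filter.2 ⟨hg, h1⟩, ?_⟩
        simp [hφ, h2, h3]
  have hcard : (star T v).card + F0.card = T.card := by
    have := Finset.card_filter_add_card_filter_not (s := T) (fun f => v ∈ f)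
    simpa [star, hF0] using this
  have hinj : Set.InjOn φ F0 := by
    apply Finset.injOn_of_card_image_eq
    rw [himg]
    omega
  have hx : ∀ f, x ∈ φ f ↔ x ∈ f := by
    intro f
    by_cases h : q ∈ f
    · simp [hφ, h, hxp, hxq]
    · simp [hφ, h]
  have hstar' : star T' x = (F0.filter (fun f => x ∈ f)).image φ := by
    ext f
    rw [star, mem_filter, ← himg, mem_image, mem_image]
    constructor
    · rintro ⟨⟨g, hg, rfl⟩, h2⟩
      exact ⟨g, mem_filter.2 ⟨hg, (hx g).1 h2⟩, rfl⟩
    · rintro ⟨g, hg, rfl⟩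
      exact ⟨⟨g, (mem_filter.1 hg).1, rfl⟩, (hx g).2 (mem_filter.1 hg).2⟩
  have hdeg' : deg T' x = (F0.filter (fun f => x ∈ f)).card := by
    rw [deg, hstar']
    apply Finset.card_image_of_injOn
    exact hinj.mono (by intro f hf; exact (mem_filter.1 hf).1)
  rw [hdeg', deg]
  have := Finset.card_filter_add_card_filter_not (s := star T x) (fun f => v ∈ f)
  rw [← this, add_comm]
  congr 2
  · ext f
    simp only [star, mem_filter]
    tauto
  · ext f
    simp only [star, hF0, mem_filter]
    tauto

/-- contraction of a path `p v q`, where `v` has degree 4 -/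
theorem pathcontr4 {T : Finset (Finset V)} (h : Sphere T) {v p r q s : V}
    (hn : [v, p, r, q, s].Nodup)
    (hstar : star T v = {{v, p, r}, {v, r, q}, {v, q, s}, {v, s, p}})
    (hpq : ¬ Adj T p q) (hcom : ∀ z, Adj T z p → Adj T z q → z = v ∨ z = r ∨ z = s)
    (h8 : 8 ≤ T.card) :
    ∃ T' : Finset (Finset V), Sphere T' ∧ T'.card + 4 = T.card ∧
      (∀ f, f ∈ T' ↔ (f ∈ T ∧ v ∉ f ∧ q ∉ f) ∨
        (∃ g ∈ T, v ∉ g ∧ q ∈ g ∧ f = insert p (g.erase q))) ∧
      (∀ x y, Adj T' x y ↔ x ≠ v ∧ y ≠ v ∧ x ≠ q ∧ y ≠ q ∧ x ≠ y ∧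
        (Adj T x y ∨ (x = p ∧ Adj T q y) ∨ (y = p ∧ Adj T q x))) ∧
      deg T' r + 2 = deg T r ∧ deg T' s + 2 = deg T s ∧
      (∀ x, x ≠ v → x ≠ p → x ≠ q → x ≠ r → x ≠ s → deg T' x = deg T x) := by
  simp only [List.nodup_cons, List.mem_cons, List.not_mem_nil, not_or, or_false, not_false_eq_true,
    List.nodup_nil, and_true] at hn
  obtain ⟨⟨hvp, hvr, hvq, hvs⟩, ⟨hpr, hpq', hps⟩, ⟨hrq, hrs⟩, hqs⟩ := hn
  have hmem : ∀ f, f ∈ star T v ↔ f = {v, p, r} ∨ f = {v, r, q} ∨ f = {v, q, s} ∨ f = {v, s, p} := by
    intro f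
    rw [hstar]
    simp
  have hT : ∀ f, f ∈ star T v → f ∈ T := fun f hf => (mem_filter.1 hf).1
  have f1 : ({v, p, r} : Finset V) ∈ T := hT _ ((hmem _).2 (Or.inl rfl))
  have f2 : ({v, r, q} : Finset V) ∈ T := hT _ ((hmem _).2 (Or.inr (Or.inl rfl)))
  have f3 : ({v, q, s} : Finset V) ∈ T := hT _ ((hmem _).2 (Or.inr (Or.inr (Or.inl rfl))))
  have f4 : ({v, s, p} : Finset V) ∈ T := hT _ ((hmem _).2 (Or.inr (Or.inr (Or.inr rfl))))
  have hvadj : ∀ z, Adj T v z → z = p ∨ z = r ∨ z = q ∨ z = s := by
    rintro z ⟨hvz, f, hf, h1, h2⟩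
    have hfs : f ∈ star T v := mem_filter.2 ⟨hf, h1⟩
    rcases (hmem f).1 hfs with rfl | rfl | rfl | rfl <;>
    · simp only [mem_insert, mem_singleton] at h2
      rcases h2 with rfl | rfl | rfl <;> first | exact absurd rfl hvz | tauto
  have avp : Adj T v p := ⟨hvp, _, f1, by simp, by simp⟩
  have avq : Adj T v q := ⟨hvq, _, f3, by simp, by simp⟩
  have apr : Adj T p r := ⟨hpr, _, f1, by simp, by simp⟩
  have aps : Adj T p s := ⟨hps, _, f4, by simp, by simp⟩
  have aqr : Adj T q r := ⟨Ne.symm hrq, _, f2, by simp, by simp⟩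
  have aqs : Adj T q s := ⟨hqs, _, f3, by simp, by simp⟩
  obtain ⟨hS1, hc1, ha1⟩ := sphere_contr h avp (by omega) (by
    intro z hz1 hz2
    rcases hvadj z (PathContr4_adj_symm hz1) with rfl | rfl | rfl | rfl
    · exact absurd rfl hz2.1
    · exact f1
    · exact absurd (PathContr4_adj_symm hz2) hpq
    · convert f4 using 1
      ext a; simp; tauto)
  set T1 := contr T v p with hT1
  have hm1 : ∀ f, f ∈ T1 ↔ (f ∈ T ∧ v ∉ f) ∨ f = {p, r, q} ∨ f = {p, q, s} := by
    intro f
    rw [hT1, contr, mem_union, mem_filter, mem_image]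
    refine or_congr_right ?_
    constructor
    · rintro ⟨g, hg, rfl⟩
      obtain ⟨hg1, hg2, hg3⟩ := mem_filter.1 hg
      rcases (hmem g).1 (mem_filter.2 ⟨hg1, hg2⟩) with rfl | rfl | rfl | rfl
      · simp at hg3
      · left
        ext a
        simp only [mem_insert, mem_erase, mem_singleton]
        constructor
        · rintro (rfl | ⟨h1, rfl | rfl | rfl⟩) <;> tauto
        · rintro (rfl | rfl | rfl)
          · left; rfl
          · right; exact ⟨Ne.symm hvr, by tauto⟩
          · right; exact ⟨Ne.symm hvq, by tauto⟩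
      · right
        ext a
        simp only [mem_insert, mem_erase, mem_singleton]
        constructor
        · rintro (rfl | ⟨h1, rfl | rfl | rfl⟩) <;> tauto
        · rintro (rfl | rfl | rfl)
          · left; rfl
          · right; exact ⟨Ne.symm hvq, by tauto⟩
          · right; exact ⟨Ne.symm hvs, by tauto⟩
      · simp at hg3
    · rintro (rfl | rfl)
      · refine ⟨{v, r, q}, mem_filter.2 ⟨f2, by simp, by simp [hpr, hpq', Ne.symm hvp]⟩, ?_⟩
        ext a
        simp only [mem_insert, mem_erase, mem_singleton]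
        constructor
        · rintro (rfl | ⟨h1, rfl | rfl | rfl⟩) <;> tauto
        · rintro (rfl | rfl | rfl)
          · left; rfl
          · right; exact ⟨Ne.symm hvr, by tauto⟩
          · right; exact ⟨Ne.symm hvq, by tauto⟩
      · refine ⟨{v, q, s}, mem_filter.2 ⟨f3, by simp, by simp [hps, hpq', Ne.symm hvp]⟩, ?_⟩
        ext a
        simp only [mem_insert, mem_erase, mem_singleton]
        constructor
        · rintro (rfl | ⟨h1, rfl | rfl | rfl⟩) <;> tauto
        · rintro (rfl | rfl | rfl)
          · left; rfl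
          · right; exact ⟨Ne.symm hvq, by tauto⟩
          · right; exact ⟨Ne.symm hvs, by tauto⟩
  have aqp1 : Adj T1 q p := (ha1 q p).2 ⟨Ne.symm hvq, Ne.symm hvp, Ne.symm hpq', Or.inr (Or.inr ⟨rfl, avq⟩)⟩
  obtain ⟨hS2, hc2, ha2⟩ := sphere_contr hS1 aqp1 (by omega) (by
    intro z hz1 hz2
    have hzp : z ≠ p := hz2.1
    have hzq : z ≠ q := hz1.1
    have key : z = r ∨ z = s := by
      obtain ⟨hzv, -, -, hz1'⟩ := (ha1 z q).1 hz1
      obtain ⟨-, -, -, hz2'⟩ := (ha1 z p).1 hz2
      have hzq' : Adj T z q := by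
        rcases hz1' with h | ⟨h, -⟩ | ⟨h, -⟩
        · exact h
        · exact absurd h hzp
        · exact absurd h.symm hpq'
      rcases hz2' with h | ⟨h, -⟩ | ⟨-, h⟩
      · rcases hcom z h hzq' with h | h | h
        · exact absurd h hzv
        · exact Or.inl h
        · exact Or.inr h
      · exact absurd h hzp
      · rcases hvadj z h with h | h | h | h
        · exact absurd h hzp
        · exact Or.inl h
        · exact absurd h hzq
        · exact Or.inr h
    rcases key with rfl | rfl
    · refine (hm1 _).2 (Or.inr (Or.inl ?_))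
      ext a; simp; tauto
    · refine (hm1 _).2 (Or.inr (Or.inr ?_))
      ext a; simp; tauto)
  set T2 := contr T1 q p with hT2
  have hpg : ∀ g ∈ T, q ∈ g → p ∉ g := by
    intro g hg h1 h2
    exact hpq ⟨hpq', g, hg, h2, h1⟩
  have hm2 : ∀ f, f ∈ T2 ↔ (f ∈ T ∧ v ∉ f ∧ q ∉ f) ∨
        (∃ g ∈ T, v ∉ g ∧ q ∈ g ∧ f = insert p (g.erase q)) := by
    intro f
    rw [hT2, contr, mem_union, mem_filter, mem_image]
    constructor
    · rintro (⟨h1, h2⟩ | ⟨g, hg, rfl⟩)
      · rcases (hm1 f).1 h1 with ⟨h3, h4⟩ | rfl | rfl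
        · exact Or.inl ⟨h3, h4, h2⟩
        · simp at h2
        · simp at h2
      · obtain ⟨hg1, hg2, hg3⟩ := mem_filter.1 hg
        rcases (hm1 g).1 hg1 with ⟨h3, h4⟩ | rfl | rfl
        · exact Or.inr ⟨g, h3, h4, hg2, rfl⟩
        · simp at hg3
        · simp at hg3
    · rintro (⟨h1, h2, h3⟩ | ⟨g, hg, h1, h2, rfl⟩)
      · exact Or.inl ⟨(hm1 f).2 (Or.inl ⟨h1, h2⟩), h3⟩
      · exact Or.inr ⟨g, mem_filter.2 ⟨(hm1 g).2 (Or.inl ⟨hg, h1⟩), h2, hpg g hg h2⟩, rfl⟩
  have hc4 : (star T v).card = 4 := by
    rw [hstar]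
    rw [card_insert_of_notMem, card_insert_of_notMem, card_insert_of_notMem, card_singleton]
    · intro h
      have := mem_singleton.1 h
      have h2 : q ∈ ({v, s, p} : Finset V) := this ▸ (by simp)
      simp only [mem_insert, mem_singleton] at h2
      rcases h2 with h | h | h
      · exact hvq h.symm
      · exact hqs h
      · exact hpq' h.symm
    · intro h
      have h3 : r ∈ ({v, q, s} : Finset V) ∨ r ∈ ({v, s, p} : Finset V) := by
        simp only [mem_insert, mem_singleton] at h
        rcases h with h | h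
        · left; rw [← h]; simp
        · right; rw [← h]; simp
      simp only [mem_insert, mem_singleton] at h3
      rcases h3 with (h | h | h) | (h | h | h)
      · exact hvr h.symm
      · exact hrq h
      · exact hrs h
      · exact hvr h.symm
      · exact hrs h
      · exact hpr h.symm
    · intro h
      simp only [mem_insert, mem_singleton] at h
      rcases h with h | h | h
      · have h3 : p ∈ ({v, r, q} : Finset V) := by rw [← h]; simp
        simp only [mem_insert, mem_singleton] at h3
        rcases h3 with h | h | h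
        · exact hvp h.symm
        · exact hpr h
        · exact hpq' h
      · have h3 : p ∈ ({v, q, s} : Finset V) := by rw [← h]; simp
        simp only [mem_insert, mem_singleton] at h3
        rcases h3 with h | h | h
        · exact hvp h.symm
        · exact hpq' h
        · exact hps h
      · have h3 : r ∈ ({v, s, p} : Finset V) := by rw [← h]; simp
        simp only [mem_insert, mem_singleton] at h3
        rcases h3 with h | h | h
        · exact hvr h.symm
        · exact hrs h
        · exact hpr h.symm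
  have hcnt : ∀ x, x ≠ p → x ≠ q →
      deg T2 x + ((star T v).filter (fun f => x ∈ f)).card = deg T x := by
    intro x hxp hxq
    refine PathContr4_count (p := p) (q := q) (by omega) (fun f hf => (hm2 f).1 hf) ?_ hxp hxq
    intro f hf hvf
    by_cases hq : q ∈ f
    · rw [if_pos hq]
      exact (hm2 _).2 (Or.inr ⟨f, hf, hvf, hq, rfl⟩)
    · rw [if_neg hq]
      exact (hm2 _).2 (Or.inl ⟨hf, hvf, hq⟩)
  refine ⟨T2, hS2, by omega, hm2, ?_, ?_, ?_, ?_⟩
  · intro x y
    rw [ha2 x y]
    constructor
    · rintro ⟨hxq, hyq, hxy, h⟩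
      rcases h with h | ⟨rfl, h⟩ | ⟨rfl, h⟩
      · obtain ⟨h1, h2, h3, h4⟩ := (ha1 x y).1 h
        refine ⟨h1, h2, hxq, hyq, hxy, Or.inl ?_⟩
        rcases h4 with h4 | ⟨rfl, h4⟩ | ⟨rfl, h4⟩
        · exact h4
        · rcases hvadj y h4 with rfl | rfl | rfl | rfl
          · exact absurd rfl hxy
          · exact apr
          · exact absurd rfl hyq
          · exact aps
        · rcases hvadj x h4 with rfl | rfl | rfl | rfl
          · exact absurd rfl hxy
          · exact PathContr4_adj_symm apr
          · exact absurd rfl hxq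
          · exact PathContr4_adj_symm aps
      · obtain ⟨h1, h2, h3, h4⟩ := (ha1 q y).1 h
        refine ⟨Ne.symm hvp, h2, hxq, hyq, hxy, Or.inr (Or.inl ⟨rfl, ?_⟩)⟩
        rcases h4 with h4 | ⟨h4, -⟩ | ⟨h4, -⟩
        · exact h4
        · exact absurd h4.symm hpq'
        · exact absurd h4.symm hxy
      · obtain ⟨h1, h2, h3, h4⟩ := (ha1 q x).1 h
        refine ⟨h2, Ne.symm hvp, hxq, hyq, hxy, Or.inr (Or.inr ⟨rfl, ?_⟩)⟩
        rcases h4 with h4 | ⟨h4, -⟩ | ⟨h4, -⟩
        · exact h4
        · exact absurd h4.symm hpq'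
        · exact absurd h4 hxy
    · rintro ⟨hxv, hyv, hxq, hyq, hxy, h⟩
      refine ⟨hxq, hyq, hxy, ?_⟩
      rcases h with h | ⟨rfl, h⟩ | ⟨rfl, h⟩
      · exact Or.inl ((ha1 x y).2 ⟨hxv, hyv, hxy, Or.inl h⟩)
      · exact Or.inr (Or.inl ⟨rfl, (ha1 q y).2 ⟨Ne.symm hvq, hyv, Ne.symm hyq, Or.inl h⟩⟩)
      · exact Or.inr (Or.inr ⟨rfl, (ha1 q x).2 ⟨Ne.symm hvq, hxv, Ne.symm hxq, Or.inl h⟩⟩)
  · have h1 := hcnt r (Ne.symm hpr) hrq
    have h2 : (star T v).filter (fun f => r ∈ f) = {{v, p, r}, {v, r, q}} := by
      rw [hstar]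
      ext f
      simp only [mem_filter, mem_insert, mem_singleton]
      constructor
      · rintro ⟨rfl | rfl | rfl | rfl, h⟩
        · tauto
        · tauto
        · exfalso
          simp only [mem_insert, mem_singleton] at h
          rcases h with h | h | h
          · exact hvr h.symm
          · exact hrq h
          · exact hrs h
        · exfalso
          simp only [mem_insert, mem_singleton] at h
          rcases h with h | h | h
          · exact hvr h.symm
          · exact hrs h
          · exact hpr h.symm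
      · rintro (rfl | rfl)
        · exact ⟨Or.inl rfl, by simp⟩
        · exact ⟨Or.inr (Or.inl rfl), by simp⟩
    rw [h2, card_pair] at h1
    · exact h1
    · intro h
      have h3 : p ∈ ({v, r, q} : Finset V) := by rw [← h]; simp
      simp only [mem_insert, mem_singleton] at h3
      rcases h3 with h | h | h
      · exact hvp h.symm
      · exact hpr h
      · exact hpq' h
  · have h1 := hcnt s (Ne.symm hps) (Ne.symm hqs)
    have h2 : (star T v).filter (fun f => s ∈ f) = {{v, q, s}, {v, s, p}} := by
      rw [hstar]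
      ext f
      simp only [mem_filter, mem_insert, mem_singleton]
      constructor
      · rintro ⟨rfl | rfl | rfl | rfl, h⟩
        · exfalso
          simp only [mem_insert, mem_singleton] at h
          rcases h with h | h | h
          · exact hvs h.symm
          · exact hps h.symm
          · exact hrs h.symm
        · exfalso
          simp only [mem_insert, mem_singleton] at h
          rcases h with h | h | h
          · exact hvs h.symm
          · exact hrs h.symm
          · exact hqs h.symm
        · tauto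
        · tauto
      · rintro (rfl | rfl)
        · exact ⟨Or.inr (Or.inr (Or.inl rfl)), by simp⟩
        · exact ⟨Or.inr (Or.inr (Or.inr rfl)), by simp⟩
    rw [h2, card_pair] at h1
    · exact h1
    · intro h
      have h3 : q ∈ ({v, s, p} : Finset V) := by rw [← h]; simp
      simp only [mem_insert, mem_singleton] at h3
      rcases h3 with h | h | h
      · exact hvq h.symm
      · exact hqs h
      · exact hpq' h.symm
  · intro x hxv hxp hxq hxr hxs
    have h1 := hcnt x hxp hxq
    have h2 : (star T v).filter (fun f => x ∈ f) = ∅ := by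
      rw [hstar]
      apply filter_eq_empty_iff.2
      intro f hf h
      simp only [mem_insert, mem_singleton] at hf
      rcases hf with rfl | rfl | rfl | rfl <;>
      · simp only [mem_insert, mem_singleton] at h
        tauto
    rw [h2, card_empty] at h1
    omega

end Pool.Agent.TH246.PR
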