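import Pool.Agent.TH246.PR.MapCx
import Pool.Agent.TH246.PR.Main
import Pool.Agent.TH246.PR.Hom
import Pool.Agent.H239R2.Cover.PlanarDefs

set_option autoImplicit false
set_option linter.unusedVariables false
set_option maxHeartbeats 4000000

namespace Pool.Agent.TH246.PR

open Finset
open Pool.Agent.H239R2.Planar (revPerm IsRotation facePerm Face IsPlanar)

theorem Planar_card_fiber {α β : Type} [Finite α] [Fintype β] (f : α → β) :
    Nat.card α = ∑ b, Nat.card {a // f a = b} := by
  rw [← Nat.card_congr (Equiv.sigmaFiberEquiv f), Nat.card_sigma]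

section

variable {V : Type} (G : SimpleGraph V) (σ : Equiv.Perm G.Dart)

theorem Planar_comp_rev (d : G.Dart) :
    G.connectedComponentMk d.symm.fst = G.connectedComponentMk d.fst :=
  SimpleGraph.ConnectedComponent.sound (d.symm.adj.reachable)

theorem Planar_comp_face (hσ : IsRotation G σ) (d : G.Dart) :
    G.connectedComponentMk (facePerm G σ d).fst = G.connectedComponentMk d.fst := by
  have h1 : (facePerm G σ d).fst = d.symm.fst := hσ.1 d.symm
  rw [h1]
  exact Planar_comp_rev G d

theorem Planar_comp_zpow (hσ : IsRotation G σ) (d : G.Dart) (i : ℤ) :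
    G.connectedComponentMk ((facePerm G σ ^ i) d).fst = G.connectedComponentMk d.fst := by
  induction i using Int.induction_on with
  | zero => simp
  | succ i ih =>
    rw [add_comm, zpow_add, zpow_one, Equiv.Perm.mul_apply, Planar_comp_face G σ hσ, ih]
  | pred i ih =>
    rw [sub_eq_add_neg, add_comm, zpow_add, zpow_neg_one, Equiv.Perm.mul_apply]
    rw [← ih]
    have h := Planar_comp_face G σ hσ ((facePerm G σ)⁻¹ ((facePerm G σ ^ (-(i:ℤ))) d))
    rw [← h]
    simp

/-- the component of a face -/
def Planar_compF (hσ : IsRotation G σ) : Face G σ → G.ConnectedComponent :=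
  Quotient.lift (fun d => G.connectedComponentMk d.fst) (by
    intro d d' h
    obtain ⟨i, hi⟩ := h
    show G.connectedComponentMk d.fst = G.connectedComponentMk d'.fst
    rw [← hi, Planar_comp_zpow G σ hσ])

theorem Planar_nbr {C : G.ConnectedComponent} (hC : ∃ d : G.Dart, G.connectedComponentMk d.fst = C)
    (v : V) (hv : G.connectedComponentMk v = C) : ∃ d : G.Dart, d.fst = v := by
  obtain ⟨d, hd⟩ := hC
  by_cases h : d.fst = v
  · exact ⟨d, h⟩
  · have hr : G.Reachable v d.fst := SimpleGraph.ConnectedComponent.exact (hv.trans hd.symm)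
    obtain ⟨p⟩ := hr
    cases p with
    | nil => exact absurd rfl h
    | cons hadj q => exact ⟨⟨(v, _), hadj⟩, rfl⟩

/-- the map of a component -/
noncomputable def Planar_map [Finite G.Dart] (hσ : IsRotation G σ) (C : G.ConnectedComponent)
    (hC : ∃ d : G.Dart, G.connectedComponentMk d.fst = C) :
    PMap {v : V // G.connectedComponentMk v = C}
      {d : G.Dart // G.connectedComponentMk d.fst = C} where
  inv := (revPerm G).subtypePerm (fun d => by
    show G.connectedComponentMk d.symm.fst = C ↔ _
    rw [Planar_comp_rev])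
  φ := (facePerm G σ).subtypePerm (fun d => by
    rw [Planar_comp_face G σ hσ])
  t d := ⟨d.1.fst, d.2⟩
  inv2 d := Subtype.ext (d.1.symm_symm)
  tne d := by
    intro h
    have h1 : d.1.symm.fst = d.1.fst := congrArg Subtype.val h
    have h2 : G.Adj d.1.fst d.1.symm.fst := d.1.adj
    rw [h1] at h2
    exact G.loopless.irrefl _ h2
  simple d d' h h' := by
    have h1 : d.1.fst = d'.1.fst := congrArg Subtype.val h
    have h2 : d.1.snd = d'.1.snd := congrArg Subtype.val h'
    apply Subtype.ext
    exact SimpleGraph.Dart.ext _ _ (Prod.ext h1 h2)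
  tφ d := Subtype.ext (hσ.1 d.1.symm)
  rot d d' h := by
    have h1 : d.1.fst = d'.1.fst := congrArg Subtype.val h
    have hp : ∀ x, G.connectedComponentMk (σ x).fst = C ↔ G.connectedComponentMk x.fst = C := by
      intro x
      rw [hσ.1 x]
    have heq : ∀ (A B : Equiv.Perm {d : G.Dart // G.connectedComponentMk d.fst = C}),
        (∀ x, (A (B x)).1 = σ x.1) → A * B = σ.subtypePerm hp := by
      intro A B hAB
      apply Equiv.ext
      intro x
      apply Subtype.ext
      exact hAB x
    rw [heq _ _ (fun x => by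
      show σ ((x.1.symm).symm) = σ x.1
      rw [SimpleGraph.Dart.symm_symm]), Equiv.Perm.sameCycle_subtypePerm]
    exact hσ.2 _ _ h1
  surj v := by
    obtain ⟨d, hd⟩ := Planar_nbr G hC v.1 v.2
    exact ⟨⟨d, by rw [hd]; exact v.2⟩, Subtype.ext hd⟩
  conn S hS hcl := by
    have hcl' : ∀ d ∈ S, ∀ d' : {d : G.Dart // G.connectedComponentMk d.fst = C},
        d'.1.fst = d.1.fst → d' ∈ S := by
      intro d hd d' h
      obtain ⟨i, hi⟩ := (hσ.2 _ _ h.symm).exists_nat_pow_eq
      have key : ∀ (i : ℕ) (x : {d : G.Dart // G.connectedComponentMk d.fst = C}), x ∈ S →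
          ∃ y ∈ S, y.1 = (σ ^ i) x.1 := by
        intro i
        induction i with
        | zero => intro x hx; exact ⟨x, hx, rfl⟩
        | succ i ih =>
          intro x hx
          obtain ⟨y, hy, hy2⟩ := ih x hx
          refine ⟨_, (hcl _ (hcl y hy).2).1, ?_⟩
          rw [pow_succ', Equiv.Perm.mul_apply, ← hy2]
          show σ ((y.1.symm).symm) = σ y.1
          rw [SimpleGraph.Dart.symm_symm]
      obtain ⟨y, hy, hy2⟩ := key i d hd
      have : y = d' := Subtype.ext (hy2.trans hi)
      rwa [← this]
    obtain ⟨d0, hd0⟩ := hS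
    have walk : ∀ (u v : V) (p : G.Walk u v),
        (∃ d ∈ S, d.1.fst = u) → ∀ d' : {d : G.Dart // G.connectedComponentMk d.fst = C},
        d'.1.fst = v → d' ∈ S := by
      intro u v p
      induction p with
      | nil =>
        rintro ⟨d, hd, rfl⟩ d' hd'
        exact hcl' d hd d' hd'
      | @cons u w v hadj q ih =>
        rintro ⟨d, hd, hdu⟩ d' hd'
        apply ih _ d' hd'
        have hCu : G.connectedComponentMk u = C := by rw [← hdu]; exact d.2
        have h1 := hcl' d hd ⟨⟨(u, w), hadj⟩, hCu⟩ hdu.symm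
        have h2 := (hcl _ h1).2
        exact ⟨_, h2, rfl⟩
    ext d
    simp only [Set.mem_univ, iff_true]
    have hr : G.Reachable d0.1.fst d.1.fst :=
      SimpleGraph.ConnectedComponent.exact (d0.2.trans d.2.symm)
    obtain ⟨p⟩ := hr
    exact walk _ _ p ⟨d0, hd0, rfl⟩ d rfl

theorem Planar_F [Finite G.Dart] (hσ : IsRotation G σ) (C : G.ConnectedComponent)
    (hC : ∃ d : G.Dart, G.connectedComponentMk d.fst = C) :
    Nat.card (Orb (Planar_map G σ hσ C hC)) =
      Nat.card {x : Face G σ // Planar_compF G σ hσ x = C} := by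
  have hp : ∀ d, G.connectedComponentMk (facePerm G σ d).fst = C ↔
      G.connectedComponentMk d.fst = C := by
    intro d
    rw [Planar_comp_face G σ hσ]
  have hφ : (Planar_map G σ hσ C hC).φ = (facePerm G σ).subtypePerm hp := rfl
  let f : Orb (Planar_map G σ hσ C hC) → {x : Face G σ // Planar_compF G σ hσ x = C} :=
    Quotient.lift (fun x : {d : G.Dart // G.connectedComponentMk d.fst = C} =>
      (⟨Quotient.mk _ x.1, x.2⟩ : {x : Face G σ // Planar_compF G σ hσ x = C})) (by
        intro x y h
        have h' : (Planar_map G σ hσ C hC).φ.SameCycle x y := h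
        rw [hφ, Equiv.Perm.sameCycle_subtypePerm] at h'
        exact Subtype.ext (Quotient.sound h'))
  apply Nat.card_congr (Equiv.ofBijective f ⟨?_, ?_⟩)
  · intro x y
    induction x using Quotient.inductionOn with | _ x => ?_
    induction y using Quotient.inductionOn with | _ y => ?_
    intro h
    apply Quotient.sound
    have h1 : (Quotient.mk (Equiv.Perm.SameCycle.setoid (facePerm G σ)) x.1) =
      Quotient.mk _ y.1 := congrArg Subtype.val h
    have h2 : (facePerm G σ).SameCycle x.1 y.1 := Quotient.exact h1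
    show (Planar_map G σ hσ C hC).φ.SameCycle x y
    rw [hφ, Equiv.Perm.sameCycle_subtypePerm]
    exact h2
  · rintro ⟨x, hx⟩
    induction x using Quotient.inductionOn with | _ x => ?_
    exact ⟨Quotient.mk _ ⟨x, hx⟩, rfl⟩

theorem Planar_le_edge [Finite V] [Finite G.Dart] (hσ : IsRotation G σ)
    (C : G.ConnectedComponent)
    (hC : ∃ d : G.Dart, G.connectedComponentMk d.fst = C) :
    (2 * Nat.card {v : V // G.connectedComponentMk v = C} +
      2 * Nat.card {x : Face G σ // Planar_compF G σ hσ x = C} +
      2 * Nat.card {v : {v : V // ∀ w, ¬ G.Adj v w} // G.connectedComponentMk v.1 = C} ≤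
      Nat.card {d : G.Dart // G.connectedComponentMk d.fst = C} + 4) ∧
    (2 * Nat.card {v : V // G.connectedComponentMk v = C} +
      2 * Nat.card {x : Face G σ // Planar_compF G σ hσ x = C} +
      2 * Nat.card {v : {v : V // ∀ w, ¬ G.Adj v w} // G.connectedComponentMk v.1 = C} =
      Nat.card {d : G.Dart // G.connectedComponentMk d.fst = C} + 4 →
      ∃ w : V → F8, ∀ c : V → V → ZMod 2, (∀ u v, c u v = c v u) →
      ∃ s : V → F8, ∀ u v, G.Adj u v → G.connectedComponentMk u = C →
        dot (w u + w v) (s u + s v) = c u v) := by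
  classical
  have hiso : Nat.card {v : {v : V // ∀ w, ¬ G.Adj v w} // G.connectedComponentMk v.1 = C} = 0 := by
    have : IsEmpty {v : {v : V // ∀ w, ¬ G.Adj v w} // G.connectedComponentMk v.1 = C} := by
      refine ⟨fun v => ?_⟩
      obtain ⟨d, hd⟩ := Planar_nbr G hC v.1.1 v.2
      exact v.1.2 d.snd (hd ▸ d.adj)
    exact Nat.card_of_isEmpty
  have : Fintype {v : V // G.connectedComponentMk v = C} := Fintype.ofFinite _
  have : Fintype {d : G.Dart // G.connectedComponentMk d.fst = C} := Fintype.ofFinite _
  have : Nonempty {d : G.Dart // G.connectedComponentMk d.fst = C} := by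
    obtain ⟨d, hd⟩ := hC
    exact ⟨⟨d, hd⟩⟩
  obtain ⟨M, hM⟩ : ∃ M, M = Planar_map G σ hσ C hC := ⟨_, rfl⟩
  have hF := Planar_F G σ hσ C hC
  rw [← hM] at hF
  obtain ⟨h1, h2, h3⟩ := cx_pre M
  have h4 := ineq h1
  rw [h2, h3, hF] at h4
  rw [hiso, Nat.card_eq_fintype_card (α := {v : V // G.connectedComponentMk v = C}),
    Nat.card_eq_fintype_card (α := {d : G.Dart // G.connectedComponentMk d.fst = C})]
  refine ⟨by omega, ?_⟩
  intro h5
  have hS : Sphere (cx M) := ⟨h1, by rw [h2, h3, hF]; omega⟩
  obtain ⟨w, hw⟩ := main hS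
  refine ⟨fun v => if h : G.connectedComponentMk v = C then w (W.v ⟨v, h⟩) else 0, ?_⟩
  intro c hc
  obtain ⟨s, hs⟩ := hw (fun x y => match x.val, y.val with
    | Sum.inl u, Sum.inl v => c u.1 v.1
    | _, _ => 0) (by
      rintro ⟨x⟩ ⟨y⟩
      rcases x with x | x <;> rcases y with y | y
      · exact hc x.1 y.1
      all_goals rfl)
  refine ⟨fun v => if h : G.connectedComponentMk v = C then s (W.v ⟨v, h⟩) else 0, ?_⟩
  intro u v huv hu
  have hv : G.connectedComponentMk v = C := by
    rw [← hu]
    exact SimpleGraph.ConnectedComponent.sound huv.symm.reachable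
  have h6 := cx_adj M ⟨⟨(u, v), huv⟩, hu⟩
  have h7 : M.t ⟨⟨(u, v), huv⟩, hu⟩ = ⟨u, hu⟩ := by rw [hM]; rfl
  have h8 : M.t (M.inv ⟨⟨(u, v), huv⟩, hu⟩) = ⟨v, hv⟩ := by rw [hM]; rfl
  rw [h7, h8] at h6
  have h9 := hs _ _ h6
  simp only [dif_pos hu, dif_pos hv]
  exact h9

theorem Planar_le [Finite V] [Finite G.Dart] (hσ : IsRotation G σ)
    (C : G.ConnectedComponent) :
    (2 * Nat.card {v : V // G.connectedComponentMk v = C} +
      2 * Nat.card {x : Face G σ // Planar_compF G σ hσ x = C} +
      2 * Nat.card {v : {v : V // ∀ w, ¬ G.Adj v w} // G.connectedComponentMk v.1 = C} ≤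
      Nat.card {d : G.Dart // G.connectedComponentMk d.fst = C} + 4) ∧
    (2 * Nat.card {v : V // G.connectedComponentMk v = C} +
      2 * Nat.card {x : Face G σ // Planar_compF G σ hσ x = C} +
      2 * Nat.card {v : {v : V // ∀ w, ¬ G.Adj v w} // G.connectedComponentMk v.1 = C} =
      Nat.card {d : G.Dart // G.connectedComponentMk d.fst = C} + 4 →
      ∃ w : V → F8, ∀ c : V → V → ZMod 2, (∀ u v, c u v = c v u) →
      ∃ s : V → F8, ∀ u v, G.Adj u v → G.connectedComponentMk u = C →
        dot (w u + w v) (s u + s v) = c u v) := by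
  classical
  by_cases hC : ∃ d : G.Dart, G.connectedComponentMk d.fst = C
  · exact Planar_le_edge G σ hσ C hC
  · have hsub : ∀ u v : V, G.connectedComponentMk u = C → G.connectedComponentMk v = C →
        u = v := by
      intro u v hu hv
      have hr : G.Reachable u v := SimpleGraph.ConnectedComponent.exact (hu.trans hv.symm)
      obtain ⟨p⟩ := hr
      cases p with
      | nil => rfl
      | cons hadj q => exact absurd ⟨⟨(u, _), hadj⟩, hu⟩ hC
    have h1 : Nat.card {v : V // G.connectedComponentMk v = C} ≤ 1 := by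
      have : Subsingleton {v : V // G.connectedComponentMk v = C} :=
        ⟨fun a b => Subtype.ext (hsub _ _ a.2 b.2)⟩
      exact Finite.card_le_one_iff_subsingleton.2 inferInstance
    have h2 : Nat.card {v : {v : V // ∀ w, ¬ G.Adj v w} // G.connectedComponentMk v.1 = C} ≤ 1 := by
      have : Subsingleton {v : {v : V // ∀ w, ¬ G.Adj v w} // G.connectedComponentMk v.1 = C} :=
        ⟨fun a b => Subtype.ext (Subtype.ext (hsub _ _ a.2 b.2))⟩
      exact Finite.card_le_one_iff_subsingleton.2 inferInstance
    have h3 : Nat.card {x : Face G σ // Planar_compF G σ hσ x = C} = 0 := by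
      have : IsEmpty {x : Face G σ // Planar_compF G σ hσ x = C} := by
        refine ⟨?_⟩
        rintro ⟨x, hx⟩
        induction x using Quotient.inductionOn with | _ x => ?_
        exact hC ⟨x, hx⟩
      exact Nat.card_of_isEmpty
    refine ⟨by omega, fun _ => ⟨fun _ => 0, fun c hc => ⟨fun _ => 0, ?_⟩⟩⟩
    intro u v huv hu
    exact absurd ⟨⟨(u, v), huv⟩, hu⟩ hC

end

theorem Planar_card_dart {V : Type} [Finite V] (G : SimpleGraph V) :
    Nat.card G.Dart = 2 * Nat.card G.edgeSet := by
  classical
  have : Fintype V := Fintype.ofFinite V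
  rw [Nat.card_eq_fintype_card, SimpleGraph.dart_card_eq_twice_card_edges,
    Nat.card_eq_fintype_card, SimpleGraph.edgeFinset_card]

/-- every finite planar graph has a rigid colouring -/
theorem planar_good {V : Type} [Finite V] (G : SimpleGraph V)
    (hG : Pool.Agent.H239R2.Planar.IsPlanar G) :
    ∃ w : V → F8, ∀ c : V → V → ZMod 2, (∀ u v, c u v = c v u) →
      ∃ s : V → F8, ∀ u v, G.Adj u v → dot (w u + w v) (s u + s v) = c u v := by
  classical
  obtain ⟨σ, hσ, hE⟩ := hG
  have : Fintype V := Fintype.ofFinite V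
  have : Fintype G.ConnectedComponent := Fintype.ofFinite _
  have : Finite G.Dart := inferInstance
  have e1 := Planar_card_fiber (fun v : V => G.connectedComponentMk v)
  have e2 := Planar_card_fiber (fun d : G.Dart => G.connectedComponentMk d.fst)
  have e3 := Planar_card_fiber (Planar_compF G σ hσ)
  have e4 := Planar_card_fiber
    (fun v : {v : V // ∀ w, ¬ G.Adj v w} => G.connectedComponentMk v.1)
  have e5 : Nat.card G.ConnectedComponent = ∑ _C : G.ConnectedComponent, 1 := by
    rw [Nat.card_eq_fintype_card]; simp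
  have e6 := Planar_card_dart G
  have hle := fun C => (Planar_le G σ hσ C).1
  have heq := fun C => (Planar_le G σ hσ C).2
  have hsum : ∑ C : G.ConnectedComponent,
      (2 * Nat.card {v : V // G.connectedComponentMk v = C} +
      2 * Nat.card {x : Face G σ // Planar_compF G σ hσ x = C} +
      2 * Nat.card {v : {v : V // ∀ w, ¬ G.Adj v w} // G.connectedComponentMk v.1 = C}) =
      ∑ C : G.ConnectedComponent,
        (Nat.card {d : G.Dart // G.connectedComponentMk d.fst = C} + 4) := by
    rw [Finset.sum_add_distrib, Finset.sum_add_distrib, Finset.sum_add_distrib,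
      ← Finset.mul_sum, ← Finset.mul_sum, ← Finset.mul_sum, ← e1, ← e2, ← e3, ← e4, e6]
    have e7 : ∑ _C : G.ConnectedComponent, 4 = 4 * Nat.card G.ConnectedComponent := by
      rw [Nat.card_eq_fintype_card]; simp [mul_comm]
    rw [e7]
    omega
  have hterm := (Finset.sum_eq_sum_iff_of_le (fun C _ => hle C)).1 hsum
  have hgood := fun C => heq C (hterm C (Finset.mem_univ C))
  choose w hw using hgood
  refine ⟨fun v => w (G.connectedComponentMk v) v, ?_⟩
  intro c hc
  choose s hs using fun C => hw C c hc
  refine ⟨fun v => s (G.connectedComponentMk v) v, ?_⟩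
  intro u v huv
  have h1 : G.connectedComponentMk v = G.connectedComponentMk u :=
    SimpleGraph.ConnectedComponent.sound huv.symm.reachable
  have h2 := hs (G.connectedComponentMk u) u v huv rfl
  simp only [h1]
  exact h2

end Pool.Agent.TH246.PR
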