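import Pool.Agent.TH246.PR.LinkConn

set_option autoImplicit false
set_option linter.unusedVariables false

namespace Pool.Agent.TH246.PR

open Finset

variable {V : Type} [DecidableEq V]

theorem Region_ef_mono {X T : Finset (Finset V)} (h : X ⊆ T) (u v : V) : ef X u v ⊆ ef T u v :=
  filter_subset_filter _ h

theorem Region_ef_sdiff (X T : Finset (Finset V)) (u v : V) :
    ef (T \ X) u v = ef T u v \ ef X u v := by
  ext f
  simp only [ef, mem_filter, mem_sdiff]
  tauto

theorem Region_ef_sdiff_card {X T : Finset (Finset V)} (h : X ⊆ T) (u v : V) :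
    (ef (T \ X) u v).card + (ef X u v).card = (ef T u v).card := by
  rw [Region_ef_sdiff, card_sdiff_add_card_eq_card (Region_ef_mono h u v)]

/-- the other face at an edge -/
theorem Region_other {T Y : Finset (Finset V)} (h : Pre T) (hY : Y ⊆ T) {f g : Finset V}
    (hf : f ∈ Y) (hg : g ∈ T) {u v : V} (huv : u ≠ v) (h1 : u ∈ f) (h2 : v ∈ f) (h3 : u ∈ g)
    (h4 : v ∈ g) (hne : (ef Y u v).card ≠ 1) : g ∈ Y := by
  have hadj : Adj T u v := ⟨huv, f, hY hf, h1, h2⟩
  have h5 := h.two u v hadj
  have h6 : f ∈ ef Y u v := mem_filter.2 ⟨hf, h1, h2⟩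
  have h7 : 0 < (ef Y u v).card := card_pos.2 ⟨f, h6⟩
  have h8 := card_le_card (Region_ef_mono hY u v)
  have h9 : ef Y u v = ef T u v :=
    eq_of_subset_of_card_le (Region_ef_mono hY u v) (by omega)
  have h10 : g ∈ ef T u v := mem_filter.2 ⟨hg, h3, h4⟩
  rw [← h9] at h10
  exact (mem_filter.1 h10).1

/-- two common vertices -/
theorem Region_pair {f g : Finset V} (h : (f ∩ g).card = 2) : ∃ u v, u ≠ v ∧ u ∈ f ∧ v ∈ f ∧
    u ∈ g ∧ v ∈ g := by
  obtain ⟨u, v, huv, h1⟩ := card_eq_two.1 h
  have hu : u ∈ f ∩ g := by rw [h1]; simp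
  have hv : v ∈ f ∩ g := by rw [h1]; simp
  rw [mem_inter] at hu hv
  exact ⟨u, v, huv, hu.1, hv.1, hu.2, hv.2⟩

/-- a set of faces without boundary is everything -/
theorem Region_closed {T Y : Finset (Finset V)} (h : Pre T) (hY : Y ⊆ T) (hne : Y.Nonempty)
    (hb : ∀ u v, Adj T u v → (ef Y u v).card ≠ 1) : Y = T := by
  apply h.conn Y hY hne
  intro f hf g hg hfg
  obtain ⟨u, v, huv, h1, h2, h3, h4⟩ := Region_pair hfg
  exact Region_other h hY hf hg huv h1 h2 h3 h4 (hb u v ⟨huv, f, hY hf, h1, h2⟩)

theorem region_compl {T X : Finset (Finset V)} (h : Sphere T) {a b c d : V}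
    (hX : Region T X a b c d) : Region T (T \ X) a b c d := by
  refine ⟨hX.nodup, hX.ab, hX.bc, hX.cd, hX.da, sdiff_subset, ?_⟩
  intro u v huv
  rw [← hX.bdry.2 u v huv]
  have h1 := Region_ef_sdiff_card hX.bdry.1 u v
  have h2 := h.two u v huv
  omega

/-- the corner lemma -/
theorem Region_corner {Z Z' : Finset (Sym2 V)} {a b c : V} (hZ' : Z' ⊆ Z)
    (hab : s(a, b) ∈ Z) (hbc : s(b, c) ∈ Z) (hac : s(a, b) ≠ s(b, c))
    (hb : ∀ e ∈ Z, b ∈ e → e = s(a, b) ∨ e = s(b, c))
    (he : Even (Z'.filter (fun e => b ∈ e)).card) : s(a, b) ∈ Z' ↔ s(b, c) ∈ Z' := by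
  by_cases h1 : s(a, b) ∈ Z'
  · by_cases h2 : s(b, c) ∈ Z'
    · exact iff_of_true h1 h2
    · exfalso
      have : Z'.filter (fun e => b ∈ e) = {s(a, b)} := by
        ext e
        rw [mem_filter, mem_singleton]
        constructor
        · rintro ⟨h3, h4⟩
          rcases hb e (hZ' h3) h4 with h5 | h5
          · exact h5
          · rw [h5] at h3
            exact absurd h3 h2
        · rintro rfl
          exact ⟨h1, Sym2.mem_mk_right a b⟩
      rw [this, card_singleton] at he
      exact absurd he (by decide)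
  · by_cases h2 : s(b, c) ∈ Z'
    · exfalso
      have : Z'.filter (fun e => b ∈ e) = {s(b, c)} := by
        ext e
        rw [mem_filter, mem_singleton]
        constructor
        · rintro ⟨h3, h4⟩
          rcases hb e (hZ' h3) h4 with h5 | h5
          · rw [h5] at h3
            exact absurd h3 h1
          · exact h5
        · rintro rfl
          exact ⟨h2, Sym2.mem_mk_left b c⟩
      rw [this, card_singleton] at he
      exact absurd he (by decide)
    · exact iff_of_false h1 h2

/-- a region is strongly connected -/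
theorem region_conn {T X : Finset (Finset V)} (h : Sphere T) {a b c d : V}
    (hX : Region T X a b c d) (Y : Finset (Finset V)) (hY : Y ⊆ X) (hne : Y.Nonempty)
    (hcl : ∀ f ∈ Y, ∀ g ∈ X, (f ∩ g).card = 2 → g ∈ Y) : Y = X := by
  classical
  have hXT := hX.bdry.1
  have hYT := hY.trans hXT
  set Z : Finset (Sym2 V) := {s(a, b), s(b, c), s(c, d), s(d, a)} with hZ
  set Z' : Finset (Sym2 V) := Z.filter (fun e => (Y.filter (fun f => ∀ x ∈ e, x ∈ f)).card = 1)
    with hZ'
  have hZ'Z : Z' ⊆ Z := filter_subset _ _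
  have hmem : ∀ u v, s(u, v) ∈ Z' ↔ s(u, v) ∈ Z ∧ (ef Y u v).card = 1 := by
    intro u v
    rw [hZ', mem_filter, ef]
    simp only [Sym2.ball]
  have hadjZ : ∀ e ∈ Z, ∃ u v, Adj T u v ∧ e = s(u, v) := by
    intro e he
    rw [hZ] at he
    simp only [mem_insert, mem_singleton] at he
    rcases he with rfl | rfl | rfl | rfl
    · exact ⟨a, b, hX.ab, rfl⟩
    · exact ⟨b, c, hX.bc, rfl⟩
    · exact ⟨c, d, hX.cd, rfl⟩
    · exact ⟨d, a, hX.da, rfl⟩
  have hBd : Bdry T Y Z' := by
    refine ⟨hYT, fun u v huv => ?_⟩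
    rw [hmem]
    refine ⟨fun h1 => ⟨?_, h1⟩, fun h1 => h1.2⟩
    rw [← hX.bdry.2 u v huv]
    by_contra hcon
    obtain ⟨f, hf⟩ := card_pos.1 (by omega : 0 < (ef Y u v).card)
    have hf' := mem_filter.1 hf
    -- both faces are in X
    have h3 : ef Y u v = ef X u v := by
      apply subset_antisymm (Region_ef_mono hY u v)
      intro g hg
      have hg' := mem_filter.1 hg
      refine mem_filter.2 ⟨?_, hg'.2⟩
      by_cases hfg : f = g
      · rw [← hfg]
        exact hf'.1
      · exact hcl f hf'.1 g hg'.1 (LinkConn_card2 (h.card3 f (hYT hf'.1)) (h.card3 g (hXT hg'.1))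
          hfg huv.1 hf'.2.1 hg'.2.1 hf'.2.2 hg'.2.2)
    rw [h3] at h1
    exact hcon h1
  have heven := even_bdry h.toPre Z' (fun e he => hadjZ e (hZ'Z he)) hBd
  -- distinctness
  have hnd := hX.nodup
  simp only [List.nodup_cons, List.mem_cons, List.not_mem_nil, or_false, not_or,
    List.nodup_nil, and_true, not_false_eq_true] at hnd
  obtain ⟨⟨nab, nac, nad⟩, ⟨nbc, nbd⟩, ncd⟩ := hnd
  have mab : s(a, b) ∈ Z := by rw [hZ]; simp
  have mbc : s(b, c) ∈ Z := by rw [hZ]; simp
  have mcd : s(c, d) ∈ Z := by rw [hZ]; simp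
  have mda : s(d, a) ∈ Z := by rw [hZ]; simp
  have c1 : s(a, b) ∈ Z' ↔ s(b, c) ∈ Z' := by
    apply Region_corner hZ'Z mab mbc _ _ (heven b)
    · rw [Ne, Sym2.eq_iff]
      tauto
    · intro e he hb
      rw [hZ] at he
      simp only [mem_insert, mem_singleton] at he
      rcases he with rfl | rfl | rfl | rfl
      · exact Or.inl rfl
      · exact Or.inr rfl
      · rw [Sym2.mem_iff] at hb
        tauto
      · rw [Sym2.mem_iff] at hb
        rcases hb with hb | hb
        · exact absurd hb nbd
        · exact absurd hb.symm nab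
  have c2 : s(b, c) ∈ Z' ↔ s(c, d) ∈ Z' := by
    apply Region_corner hZ'Z mbc mcd _ _ (heven c)
    · rw [Ne, Sym2.eq_iff]
      tauto
    · intro e he hb
      rw [hZ] at he
      simp only [mem_insert, mem_singleton] at he
      rcases he with rfl | rfl | rfl | rfl
      · rw [Sym2.mem_iff] at hb
        rcases hb with hb | hb
        · exact absurd hb.symm nac
        · exact absurd hb.symm nbc
      · exact Or.inl rfl
      · exact Or.inr rfl
      · rw [Sym2.mem_iff] at hb
        rcases hb with hb | hb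
        · exact absurd hb ncd
        · exact absurd hb.symm nac
  have c3 : s(c, d) ∈ Z' ↔ s(d, a) ∈ Z' := by
    apply Region_corner hZ'Z mcd mda _ _ (heven d)
    · rw [Ne, Sym2.eq_iff]
      rintro (⟨h1, h2⟩ | ⟨h1, h2⟩)
      · exact ncd h1
      · exact nac h1.symm
    · intro e he hb
      rw [hZ] at he
      simp only [mem_insert, mem_singleton] at he
      rcases he with rfl | rfl | rfl | rfl
      · rw [Sym2.mem_iff] at hb
        rcases hb with hb | hb
        · exact absurd hb.symm nad
        · exact absurd hb.symm nbd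
      · rw [Sym2.mem_iff] at hb
        rcases hb with hb | hb
        · exact absurd hb.symm nbd
        · exact absurd hb.symm ncd
      · exact Or.inl rfl
      · exact Or.inr rfl
  have hXb : (ef X a b).card = 1 := (hX.bdry.2 a b hX.ab).2 mab
  by_cases hcase : s(a, b) ∈ Z'
  · -- the boundary of `Y` is that of `X`
    have hall : ∀ e ∈ Z, e ∈ Z' := by
      intro e he
      rw [hZ] at he
      simp only [mem_insert, mem_singleton] at he
      have h2 := c1.1 hcase
      have h3 := c2.1 h2
      have h4 := c3.1 h3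
      rcases he with rfl | rfl | rfl | rfl
      · exact hcase
      · exact h2
      · exact h3
      · exact h4
    apply subset_antisymm hY
    by_contra hcon
    rw [← sdiff_nonempty] at hcon
    have hW : X \ Y = T := by
      apply Region_closed h.toPre (sdiff_subset.trans hXT) hcon
      intro u v huv h1
      have h2 := Region_ef_sdiff_card hY u v
      have h3 := card_le_card (Region_ef_mono hXT u v)
      have h4 := h.two u v huv
      by_cases h5 : s(u, v) ∈ Z
      · have h6 := (hmem u v).1 (hall _ h5)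
        have h7 := (hX.bdry.2 u v huv).2 h5
        omega
      · have h6 : (ef Y u v).card ≠ 1 := fun h7 => h5 (hZ'Z ((hBd.2 u v huv).1 h7))
        have h7 : (ef X u v).card ≠ 1 := fun h8 => h5 ((hX.bdry.2 u v huv).1 h8)
        have h8 : (ef Y u v).card ≠ 2 ∨ (ef Y u v).card = 2 := by tauto
        omega
    obtain ⟨f, hf⟩ := hne
    have h1 := hYT hf
    rw [← hW, mem_sdiff] at h1
    exact h1.2 hf
  · exfalso
    have hnone : ∀ e ∈ Z, e ∉ Z' := by
      intro e he
      rw [hZ] at he
      simp only [mem_insert, mem_singleton] at he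
      have h2 : s(b, c) ∉ Z' := fun h2 => hcase (c1.2 h2)
      have h3 : s(c, d) ∉ Z' := fun h3 => h2 (c2.2 h3)
      have h4 : s(d, a) ∉ Z' := fun h4 => h3 (c3.2 h4)
      rcases he with rfl | rfl | rfl | rfl
      · exact hcase
      · exact h2
      · exact h3
      · exact h4
    have hYall : Y = T := by
      apply Region_closed h.toPre hYT hne
      intro u v huv h1
      have h2 := (hBd.2 u v huv).1 h1
      exact hnone _ (hZ'Z h2) h2
    have hXall : X = T := subset_antisymm hXT (by rw [← hYall]; exact hY)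
    rw [hXall, h.two a b hX.ab] at hXb
    omega

theorem region_star {T X : Finset (Finset V)} (h : Sphere T) {a b c d : V}
    (hX : Region T X a b c d) {v : V} (hv : v ∈ inn X a b c d) : star T v ⊆ X := by
  have hXT := hX.bdry.1
  rw [inn, mem_sdiff, verts, mem_biUnion] at hv
  obtain ⟨⟨f0, hf0, hvf0⟩, hvn⟩ := hv
  have hvf0' : v ∈ f0 := hvf0
  have hS : star T v ∩ X = star T v := by
    apply link_conn h v _ inter_subset_left
    · exact ⟨f0, mem_inter.2 ⟨mem_filter.2 ⟨hXT hf0, hvf0'⟩, hf0⟩⟩
    · intro f hf g hg hfg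
      rw [mem_inter, star, mem_filter] at hf
      have hg' := hg
      rw [star, mem_filter] at hg'
      refine mem_inter.2 ⟨hg, ?_⟩
      -- the other common vertex
      obtain ⟨x, hx, hxv⟩ : ∃ x ∈ f ∩ g, x ≠ v := by
        by_contra hcon
        push Not at hcon
        have : f ∩ g ⊆ {v} := fun x hx => mem_singleton.2 (hcon x hx)
        have := card_le_card this
        rw [card_singleton] at this
        omega
      rw [mem_inter] at hx
      refine Region_other h.toPre hXT hf.2 hg'.1 hxv.symm hf.1.2 hx.1 hg'.2 hx.2 ?_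
      intro h1
      have h2 := (hX.bdry.2 v x ⟨hxv.symm, f, hf.1.1, hf.1.2, hx.1⟩).1 h1
      simp only [mem_insert, mem_singleton, Sym2.eq_iff] at h2 hvn
      tauto
  rw [← hS]
  exact inter_subset_right

end Pool.Agent.TH246.PR
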