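import Pool.Agent.TH246.PR.Region

/-!
# Euler's formula for regions bounded by a 4-cycle
-/

set_option autoImplicit false
set_option linter.unusedVariables false

namespace Pool.Agent.TH246.PR

open Finset

variable {V : Type} [DecidableEq V]

/-- the copy of a face in `Option V` -/
def RE_phi (f : Finset V) : Finset (Option V) := f.map Function.Embedding.some

/-- the new faces -/
def RE_N (x y : V) : Finset (Option V) := {none, some x, some y}

/-- the region with a cone over its boundary -/
def RE_cap (X : Finset (Finset V)) (a b c d : V) : Finset (Finset (Option V)) :=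
  X.image RE_phi ∪ {RE_N a b, RE_N b c, RE_N c d, RE_N d a}

theorem RE_mem_phi {f : Finset V} {x : V} : some x ∈ RE_phi f ↔ x ∈ f := by
  simp [RE_phi]

theorem RE_none_phi {f : Finset V} : (none : Option V) ∉ RE_phi f := by
  simp [RE_phi]

theorem RE_phi_inj : Function.Injective (RE_phi (V := V)) :=
  Finset.map_injective _

theorem RE_mem_N {x y : V} {t : Option V} :
    t ∈ RE_N x y ↔ t = none ∨ t = some x ∨ t = some y := by
  simp [RE_N]

theorem RE_mem_cap {X : Finset (Finset V)} {a b c d : V} {g : Finset (Option V)} :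
    g ∈ RE_cap X a b c d ↔ (∃ f ∈ X, RE_phi f = g) ∨ g = RE_N a b ∨ g = RE_N b c ∨
      g = RE_N c d ∨ g = RE_N d a := by
  simp only [RE_cap, Finset.mem_union, Finset.mem_image, Finset.mem_insert,
    Finset.mem_singleton]

theorem RE_cap_rot (X : Finset (Finset V)) (a b c d : V) :
    RE_cap X a b c d = RE_cap X b c d a := by
  ext g
  rw [RE_mem_cap, RE_mem_cap]
  generalize (∃ f ∈ X, RE_phi f = g) = P
  generalize (g = RE_N a b) = P1
  generalize (g = RE_N b c) = P2
  generalize (g = RE_N c d) = P3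
  generalize (g = RE_N d a) = P4
  tauto

theorem RE_region_rot {T X : Finset (Finset V)} {a b c d : V} (h : Region T X a b c d) :
    Region T X b c d a := by
  refine ⟨?_, h.bc, h.cd, h.da, h.ab, ?_⟩
  · have := h.nodup
    simp only [List.nodup_cons, List.mem_cons, List.not_mem_nil, not_or, or_false,
      List.nodup_nil] at this ⊢
    tauto
  · have e : ({s(b, c), s(c, d), s(d, a), s(a, b)} : Finset (Sym2 V)) =
        {s(a, b), s(b, c), s(c, d), s(d, a)} := by
      ext t
      simp only [Finset.mem_insert, Finset.mem_singleton]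
      tauto
    rw [e]
    exact h.bdry

theorem RE_ne {T X : Finset (Finset V)} {a b c d : V} (h : Region T X a b c d) :
    a ≠ b ∧ a ≠ c ∧ a ≠ d ∧ b ≠ c ∧ b ≠ d ∧ c ≠ d := by
  have := h.nodup
  simp only [List.nodup_cons, List.mem_cons, List.not_mem_nil, not_or, or_false,
    List.nodup_nil] at this
  tauto

/-- the face of a region at a boundary edge -/
theorem RE_face {T X : Finset (Finset V)} {a b c d : V} (h : Region T X a b c d) :
    (ef X a b).card = 1 :=
  (h.bdry.2 a b h.ab).2 (by simp)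

theorem RE_ef_face {X : Finset (Finset V)} {a b : V} (h : (ef X a b).card = 1) :
    ∃ f ∈ X, a ∈ f ∧ b ∈ f := by
  obtain ⟨f, hf⟩ := Finset.card_eq_one.1 h
  have : f ∈ ef X a b := by rw [hf]; exact Finset.mem_singleton_self f
  simp only [ef, Finset.mem_filter] at this
  exact ⟨f, this.1, this.2⟩

theorem RE_ef_symm (X : Finset (Finset V)) (u v : V) : ef X u v = ef X v u := by
  unfold ef
  ext f
  simp only [Finset.mem_filter]
  tauto

/-- the two faces at an edge from the apex -/
theorem RE_apex {T X : Finset (Finset V)} {a b c d : V} (h : Region T X a b c d) :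
    (ef (RE_cap X a b c d) none (some a)).card = 2 := by
  obtain ⟨ab, ac, ad, bc, bd, cd⟩ := RE_ne h
  have e : ef (RE_cap X a b c d) none (some a) = {RE_N a b, RE_N d a} := by
    ext g
    simp only [ef, Finset.mem_filter, Finset.mem_insert, Finset.mem_singleton, RE_mem_cap]
    constructor
    · rintro ⟨⟨f, -, rfl⟩ | rfl | rfl | rfl | rfl, h1, h2⟩
      · exact absurd h1 RE_none_phi
      · exact Or.inl rfl
      · rw [RE_mem_N] at h2
        simp [ab, ac] at h2
      · rw [RE_mem_N] at h2
        simp [ac, ad] at h2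
      · exact Or.inr rfl
    · rintro (rfl | rfl)
      · exact ⟨Or.inr (Or.inl rfl), by simp [RE_N], by simp [RE_N]⟩
      · exact ⟨Or.inr (Or.inr (Or.inr (Or.inr rfl))), by simp [RE_N], by simp [RE_N]⟩
  rw [e, Finset.card_pair]
  intro heq
  have : some b ∈ RE_N d a := by rw [← heq]; simp [RE_N]
  rw [RE_mem_N] at this
  simp [bd, ab.symm] at this

/-- the two faces at a boundary edge -/
theorem RE_bd {T X : Finset (Finset V)} {a b c d : V} (h : Region T X a b c d) :
    (ef (RE_cap X a b c d) (some a) (some b)).card = 2 := by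
  obtain ⟨ab, ac, ad, bc, bd, cd⟩ := RE_ne h
  have e : ef (RE_cap X a b c d) (some a) (some b) =
      insert (RE_N a b) ((ef X a b).image RE_phi) := by
    ext g
    simp only [ef, Finset.mem_filter, Finset.mem_insert, Finset.mem_image, RE_mem_cap]
    constructor
    · rintro ⟨⟨f, hf, rfl⟩ | rfl | rfl | rfl | rfl, h1, h2⟩
      · exact Or.inr ⟨f, ⟨hf, RE_mem_phi.1 h1, RE_mem_phi.1 h2⟩, rfl⟩
      · exact Or.inl rfl
      · rw [RE_mem_N] at h1
        simp [ab, ac] at h1
      · rw [RE_mem_N] at h1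
        simp [ac, ad] at h1
      · rw [RE_mem_N] at h2
        simp [bd, ab.symm] at h2
    · rintro (rfl | ⟨f, ⟨hf, h1, h2⟩, rfl⟩)
      · exact ⟨Or.inr (Or.inl rfl), by simp [RE_N], by simp [RE_N]⟩
      · exact ⟨Or.inl ⟨f, hf, rfl⟩, RE_mem_phi.2 h1, RE_mem_phi.2 h2⟩
  rw [e, Finset.card_insert_of_notMem, Finset.card_image_of_injective _ RE_phi_inj, RE_face h]
  intro hmem
  obtain ⟨f, -, hf⟩ := Finset.mem_image.1 hmem
  have : (none : Option V) ∈ RE_phi f := by rw [hf]; simp [RE_N]
  exact RE_none_phi this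

/-- the faces at an edge not on the boundary -/
theorem RE_off {X : Finset (Finset V)} {a b c d x y : V} (hxy : x ≠ y)
    (hz : s(x, y) ∉ ({s(a, b), s(b, c), s(c, d), s(d, a)} : Finset (Sym2 V))) :
    ef (RE_cap X a b c d) (some x) (some y) = (ef X x y).image RE_phi := by
  have key : ∀ u v : V, s(x, y) ≠ s(u, v) → some x ∈ RE_N u v → some y ∈ RE_N u v → False := by
    intro u v h h1 h2
    rw [RE_mem_N] at h1 h2
    simp only [reduceCtorEq, Option.some.injEq, false_or] at h1 h2
    apply h
    rcases h1 with rfl | rfl <;> rcases h2 with rfl | rfl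
    · exact absurd rfl hxy
    · rfl
    · exact Sym2.eq_swap
    · exact absurd rfl hxy
  simp only [Finset.mem_insert, Finset.mem_singleton, not_or] at hz
  obtain ⟨z1, z2, z3, z4⟩ := hz
  ext g
  simp only [ef, Finset.mem_filter, Finset.mem_image, RE_mem_cap]
  constructor
  · rintro ⟨⟨f, hf, rfl⟩ | rfl | rfl | rfl | rfl, h1, h2⟩
    · exact ⟨f, ⟨hf, RE_mem_phi.1 h1, RE_mem_phi.1 h2⟩, rfl⟩
    · exact (key _ _ z1 h1 h2).elim
    · exact (key _ _ z2 h1 h2).elim
    · exact (key _ _ z3 h1 h2).elim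
    · exact (key _ _ z4 h1 h2).elim
  · rintro ⟨f, ⟨hf, h1, h2⟩, rfl⟩
    exact ⟨Or.inl ⟨f, hf, rfl⟩, RE_mem_phi.2 h1, RE_mem_phi.2 h2⟩

theorem RE_two {T X : Finset (Finset V)} (hT : Pre T) {a b c d : V} (h : Region T X a b c d)
    (u v : Option V) (hadj : Adj (RE_cap X a b c d) u v) :
    (ef (RE_cap X a b c d) u v).card = 2 := by
  have h1 := RE_region_rot h
  have h2 := RE_region_rot h1
  have h3 := RE_region_rot h2
  have r1 := RE_cap_rot X a b c d
  have r2 := RE_cap_rot X b c d a
  have r3 := RE_cap_rot X c d a b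
  -- apex edges
  have apex : ∀ x : V, Adj (RE_cap X a b c d) none (some x) →
      (ef (RE_cap X a b c d) none (some x)).card = 2 := by
    rintro x ⟨-, g, hg, hn, hx⟩
    have hx4 : x = a ∨ x = b ∨ x = c ∨ x = d := by
      rcases RE_mem_cap.1 hg with ⟨f, -, rfl⟩ | rfl | rfl | rfl | rfl
      · exact absurd hn RE_none_phi
      all_goals
        rw [RE_mem_N] at hx
        simp only [reduceCtorEq, Option.some.injEq, false_or] at hx
        tauto
    rcases hx4 with rfl | rfl | rfl | rfl
    · exact RE_apex h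
    · rw [r1]; exact RE_apex h1
    · rw [r1, r2]; exact RE_apex h2
    · rw [r1, r2, r3]; exact RE_apex h3
  rcases u with _ | x
  · rcases v with _ | y
    · exact absurd rfl hadj.1
    · exact apex y hadj
  · rcases v with _ | y
    · rw [RE_ef_symm]
      obtain ⟨hne, g, hg, h4, h5⟩ := hadj
      exact apex x ⟨hne.symm, g, hg, h5, h4⟩
    · have hxy : x ≠ y := fun e => hadj.1 (by rw [e])
      by_cases hz : s(x, y) ∈ ({s(a, b), s(b, c), s(c, d), s(d, a)} : Finset (Sym2 V))
      · simp only [Finset.mem_insert, Finset.mem_singleton, Sym2.eq_iff] at hz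
        rcases hz with (⟨rfl, rfl⟩ | ⟨rfl, rfl⟩) | (⟨rfl, rfl⟩ | ⟨rfl, rfl⟩) |
          (⟨rfl, rfl⟩ | ⟨rfl, rfl⟩) | (⟨rfl, rfl⟩ | ⟨rfl, rfl⟩)
        · exact RE_bd h
        · rw [RE_ef_symm]; exact RE_bd h
        · rw [r1]; exact RE_bd h1
        · rw [RE_ef_symm, r1]; exact RE_bd h1
        · rw [r1, r2]; exact RE_bd h2
        · rw [RE_ef_symm, r1, r2]; exact RE_bd h2
        · rw [r1, r2, r3]; exact RE_bd h3
        · rw [RE_ef_symm, r1, r2, r3]; exact RE_bd h3
      · have e := RE_off (X := X) hxy hz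
        obtain ⟨-, g, hg, hgx, hgy⟩ := hadj
        have hmem : g ∈ ef (RE_cap X a b c d) (some x) (some y) := by
          simp only [ef, Finset.mem_filter]
          exact ⟨hg, hgx, hgy⟩
        rw [e] at hmem ⊢
        obtain ⟨f, hf, rfl⟩ := Finset.mem_image.1 hmem
        rw [Finset.card_image_of_injective _ RE_phi_inj]
        have hfX : f ∈ X ∧ x ∈ f ∧ y ∈ f := by simpa [ef] using hf
        have hadjT : Adj T x y := ⟨hxy, f, h.bdry.1 hfX.1, hfX.2.1, hfX.2.2⟩
        have c1 : (ef X x y).card ≠ 1 := fun hc => hz ((h.bdry.2 x y hadjT).1 hc)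
        have c2 : (ef X x y).card ≤ 2 := by
          rw [← hT.two x y hadjT]
          apply Finset.card_le_card
          unfold ef
          exact Finset.filter_subset_filter _ h.bdry.1
        have c3 : 0 < (ef X x y).card := Finset.card_pos.2 ⟨f, hf⟩
        omega

/-- the intersection of a face of the region with a new face -/
theorem RE_inter {f : Finset V} {a b : V} (hab : a ≠ b) (ha : a ∈ f) (hb : b ∈ f) :
    (RE_phi f ∩ RE_N a b).card = 2 := by
  have e : RE_phi f ∩ RE_N a b = {some a, some b} := by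
    ext t
    simp only [Finset.mem_inter, RE_mem_N, Finset.mem_insert, Finset.mem_singleton]
    constructor
    · rintro ⟨h1, rfl | rfl | rfl⟩
      · exact absurd h1 RE_none_phi
      · exact Or.inl rfl
      · exact Or.inr rfl
    · rintro (rfl | rfl)
      · exact ⟨RE_mem_phi.2 ha, by simp⟩
      · exact ⟨RE_mem_phi.2 hb, by simp⟩
  rw [e, Finset.card_pair]
  simpa using hab

theorem RE_inter_phi (f g : Finset V) : (RE_phi f ∩ RE_phi g).card = (f ∩ g).card := by
  unfold RE_phi
  rw [← Finset.map_inter, Finset.card_map]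

theorem RE_pre {T X : Finset (Finset V)} (hS : Sphere T) {a b c d : V}
    (h : Region T X a b c d) : Pre (RE_cap X a b c d) := by
  have h1 := RE_region_rot h
  have h2 := RE_region_rot h1
  have h3 := RE_region_rot h2
  obtain ⟨ab, ac, ad, bc, bd, cd⟩ := RE_ne h
  obtain ⟨f1, f1X, f1a, f1b⟩ := RE_ef_face (RE_face h)
  obtain ⟨f2, f2X, f2b, f2c⟩ := RE_ef_face (RE_face h1)
  obtain ⟨f3, f3X, f3c, f3d⟩ := RE_ef_face (RE_face h2)
  obtain ⟨f4, f4X, f4d, f4a⟩ := RE_ef_face (RE_face h3)
  have cN : ∀ x y : V, x ≠ y → (RE_N x y).card = 3 := by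
    intro x y hxy
    unfold RE_N
    rw [Finset.card_insert_of_notMem (by simp), Finset.card_pair (by simpa using hxy)]
  have mN1 : RE_N a b ∈ RE_cap X a b c d := RE_mem_cap.2 (Or.inr (Or.inl rfl))
  have mN2 : RE_N b c ∈ RE_cap X a b c d := RE_mem_cap.2 (Or.inr (Or.inr (Or.inl rfl)))
  have mN3 : RE_N c d ∈ RE_cap X a b c d := RE_mem_cap.2 (Or.inr (Or.inr (Or.inr (Or.inl rfl))))
  have mN4 : RE_N d a ∈ RE_cap X a b c d := RE_mem_cap.2 (Or.inr (Or.inr (Or.inr (Or.inr rfl))))
  refine ⟨⟨_, mN1⟩, ?_, RE_two hS.toPre h, ?_⟩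
  · intro g hg
    rcases RE_mem_cap.1 hg with ⟨f, hf, rfl⟩ | rfl | rfl | rfl | rfl
    · unfold RE_phi
      rw [Finset.card_map]
      exact hS.card3 f (h.bdry.1 hf)
    · exact cN _ _ ab
    · exact cN _ _ bc
    · exact cN _ _ cd
    · exact cN _ _ ad.symm
  · intro Y' hY' hne hcl
    have i1 := RE_inter ab f1a f1b
    have i2 := RE_inter bc f2b f2c
    have i3 := RE_inter cd f3c f3d
    have i4 := RE_inter ad.symm f4d f4a
    have i1' := i1; rw [Finset.inter_comm] at i1'
    have i2' := i2; rw [Finset.inter_comm] at i2'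
    have i3' := i3; rw [Finset.inter_comm] at i3'
    have i4' := i4; rw [Finset.inter_comm] at i4'
    have mX : ∀ f ∈ X, RE_phi f ∈ RE_cap X a b c d := fun f hf =>
      RE_mem_cap.2 (Or.inl ⟨f, hf, rfl⟩)
    set Y : Finset (Finset V) := X.filter (fun f => RE_phi f ∈ Y') with hY
    have hYne : Y.Nonempty := by
      obtain ⟨g, hg⟩ := hne
      rcases RE_mem_cap.1 (hY' hg) with ⟨f, hf, rfl⟩ | rfl | rfl | rfl | rfl
      · exact ⟨f, Finset.mem_filter.2 ⟨hf, hg⟩⟩
      · exact ⟨f1, Finset.mem_filter.2 ⟨f1X, hcl _ hg _ (mX _ f1X) i1'⟩⟩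
      · exact ⟨f2, Finset.mem_filter.2 ⟨f2X, hcl _ hg _ (mX _ f2X) i2'⟩⟩
      · exact ⟨f3, Finset.mem_filter.2 ⟨f3X, hcl _ hg _ (mX _ f3X) i3'⟩⟩
      · exact ⟨f4, Finset.mem_filter.2 ⟨f4X, hcl _ hg _ (mX _ f4X) i4'⟩⟩
    have hYX : Y = X := by
      refine region_conn hS h Y (Finset.filter_subset _ _) hYne ?_
      intro f hf g hg hfg
      have hf' := (Finset.mem_filter.1 hf).2
      exact Finset.mem_filter.2 ⟨hg, hcl _ hf' _ (mX g hg) (by rw [RE_inter_phi]; exact hfg)⟩
    have hall : ∀ f ∈ X, RE_phi f ∈ Y' := fun f hf => by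
      rw [← hYX] at hf
      exact (Finset.mem_filter.1 hf).2
    refine Finset.Subset.antisymm hY' ?_
    intro g hg
    rcases RE_mem_cap.1 hg with ⟨f, hf, rfl⟩ | rfl | rfl | rfl | rfl
    · exact hall f hf
    · exact hcl _ (hall f1 f1X) _ hg i1
    · exact hcl _ (hall f2 f2X) _ hg i2
    · exact hcl _ (hall f3 f3X) _ hg i3
    · exact hcl _ (hall f4 f4X) _ hg i4

theorem RE_mem_verts {W : Type} [DecidableEq W] {X : Finset (Finset W)} {x : W} :
    x ∈ verts X ↔ ∃ f ∈ X, x ∈ f := by
  simp [verts]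

theorem RE_card_cap {T X : Finset (Finset V)} {a b c d : V} (h : Region T X a b c d) :
    (RE_cap X a b c d).card = X.card + 4 := by
  obtain ⟨ab, ac, ad, bc, bd, cd⟩ := RE_ne h
  unfold RE_cap
  rw [Finset.card_union_of_disjoint, Finset.card_image_of_injective _ RE_phi_inj]
  · congr 1
    have n12 : RE_N a b ≠ RE_N b c := fun e => by
      have : some a ∈ RE_N b c := by rw [← e]; simp [RE_N]
      rw [RE_mem_N] at this
      simp [ab, ac] at this
    have n13 : RE_N a b ≠ RE_N c d := fun e => by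
      have : some a ∈ RE_N c d := by rw [← e]; simp [RE_N]
      rw [RE_mem_N] at this
      simp [ad, ac] at this
    have n14 : RE_N a b ≠ RE_N d a := fun e => by
      have : some b ∈ RE_N d a := by rw [← e]; simp [RE_N]
      rw [RE_mem_N] at this
      simp [bd, ab.symm] at this
    have n23 : RE_N b c ≠ RE_N c d := fun e => by
      have : some b ∈ RE_N c d := by rw [← e]; simp [RE_N]
      rw [RE_mem_N] at this
      simp [bd, bc] at this
    have n24 : RE_N b c ≠ RE_N d a := fun e => by
      have : some b ∈ RE_N d a := by rw [← e]; simp [RE_N]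
      rw [RE_mem_N] at this
      simp [bd, ab.symm] at this
    have n34 : RE_N c d ≠ RE_N d a := fun e => by
      have : some c ∈ RE_N d a := by rw [← e]; simp [RE_N]
      rw [RE_mem_N] at this
      simp [cd, ac.symm] at this
    rw [Finset.card_insert_of_notMem, Finset.card_insert_of_notMem, Finset.card_pair n34]
    · simp [n23, n24]
    · simp [n12, n13, n14]
  · rw [Finset.disjoint_left]
    intro g hg hg'
    obtain ⟨f, -, rfl⟩ := Finset.mem_image.1 hg
    simp only [Finset.mem_insert, Finset.mem_singleton] at hg'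
    rcases hg' with e | e | e | e
    all_goals
      have : (none : Option V) ∈ RE_phi f := by rw [e]; simp [RE_N]
      exact RE_none_phi this

theorem RE_corners {T X : Finset (Finset V)} {a b c d : V} (h : Region T X a b c d) :
    ({a, b, c, d} : Finset V) ⊆ verts X := by
  obtain ⟨f1, f1X, f1a, f1b⟩ := RE_ef_face (RE_face h)
  obtain ⟨f3, f3X, f3c, f3d⟩ := RE_ef_face (RE_face (RE_region_rot (RE_region_rot h)))
  intro x hx
  simp only [Finset.mem_insert, Finset.mem_singleton] at hx
  rw [RE_mem_verts]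
  rcases hx with rfl | rfl | rfl | rfl
  · exact ⟨f1, f1X, f1a⟩
  · exact ⟨f1, f1X, f1b⟩
  · exact ⟨f3, f3X, f3c⟩
  · exact ⟨f3, f3X, f3d⟩

theorem RE_card4 {T X : Finset (Finset V)} {a b c d : V} (h : Region T X a b c d) :
    ({a, b, c, d} : Finset V).card = 4 := by
  obtain ⟨ab, ac, ad, bc, bd, cd⟩ := RE_ne h
  rw [Finset.card_insert_of_notMem, Finset.card_insert_of_notMem, Finset.card_pair cd]
  · simp [bc, bd]
  · simp [ab, ac, ad]

theorem RE_card_inn {T X : Finset (Finset V)} {a b c d : V} (h : Region T X a b c d) :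
    (inn X a b c d).card + 4 = (verts X).card := by
  unfold inn
  rw [← RE_card4 h]
  exact Finset.card_sdiff_add_card_eq_card (RE_corners h)

theorem RE_verts_cap {T X : Finset (Finset V)} {a b c d : V} (h : Region T X a b c d) :
    (verts (RE_cap X a b c d)).card = (verts X).card + 1 := by
  have hc := RE_corners h
  have e : verts (RE_cap X a b c d) = insert none ((verts X).map Function.Embedding.some) := by
    ext t
    rw [RE_mem_verts]
    rcases t with _ | x
    · simp only [Finset.mem_insert, true_or, iff_true]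
      exact ⟨RE_N a b, RE_mem_cap.2 (Or.inr (Or.inl rfl)), by simp [RE_N]⟩
    · simp only [Finset.mem_insert, reduceCtorEq, false_or, Finset.mem_map,
        Function.Embedding.some_apply, Option.some.injEq, exists_eq_right, RE_mem_verts]
      constructor
      · rintro ⟨g, hg, hx⟩
        rcases RE_mem_cap.1 hg with ⟨f, hf, rfl⟩ | rfl | rfl | rfl | rfl
        · exact ⟨f, hf, RE_mem_phi.1 hx⟩
        all_goals
          rw [RE_mem_N] at hx
          simp only [reduceCtorEq, Option.some.injEq, false_or] at hx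
          apply RE_mem_verts.1
          apply hc
          simp only [Finset.mem_insert, Finset.mem_singleton]
          tauto
      · rintro ⟨f, hf, hx⟩
        exact ⟨RE_phi f, RE_mem_cap.2 (Or.inl ⟨f, hf, rfl⟩), RE_mem_phi.2 hx⟩
  rw [e, Finset.card_insert_of_notMem (by simp), Finset.card_map]

theorem RE_le {T X : Finset (Finset V)} (hS : Sphere T) {a b c d : V}
    (h : Region T X a b c d) : 2 * (inn X a b c d).card + 2 ≤ X.card := by
  have h1 := ineq (RE_pre hS h)
  rw [RE_card_cap h, RE_verts_cap h, ← RE_card_inn h] at h1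
  omega

theorem region_euler {T X : Finset (Finset V)} (h : Sphere T) {a b c d : V}
    (hX : Region T X a b c d) : X.card = 2 * (inn X a b c d).card + 2 := by
  have hX' := region_compl h hX
  have h1 := RE_le h hX
  have h2 := RE_le h hX'
  have h3 : X.card + (T \ X).card = T.card := by
    rw [add_comm]
    exact Finset.card_sdiff_add_card_eq_card hX.bdry.1
  have h4 := h.euler
  have h5 : (verts T).card ≤ (inn X a b c d).card + (inn (T \ X) a b c d).card + 4 := by
    have hsub : verts T ⊆ (inn X a b c d ∪ inn (T \ X) a b c d) ∪ {a, b, c, d} := by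
      intro x hx
      obtain ⟨f, hf, hxf⟩ := RE_mem_verts.1 hx
      simp only [inn, Finset.mem_union, Finset.mem_sdiff]
      by_cases hx4 : x ∈ ({a, b, c, d} : Finset V)
      · exact Or.inr hx4
      · left
        by_cases hfX : f ∈ X
        · exact Or.inl ⟨RE_mem_verts.2 ⟨f, hfX, hxf⟩, hx4⟩
        · exact Or.inr ⟨RE_mem_verts.2 ⟨f, Finset.mem_sdiff.2 ⟨hf, hfX⟩, hxf⟩, hx4⟩
    calc (verts T).card ≤ _ := Finset.card_le_card hsub
      _ ≤ (inn X a b c d ∪ inn (T \ X) a b c d).card + ({a, b, c, d} : Finset V).card :=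
          Finset.card_union_le _ _
      _ ≤ _ := by
          rw [RE_card4 hX]
          have := Finset.card_union_le (inn X a b c d) (inn (T \ X) a b c d)
          omega
  have h6 : (inn X a b c d).card + (inn (T \ X) a b c d).card + 4 ≤ (verts T).card := by
    have hd : Disjoint (inn X a b c d) (inn (T \ X) a b c d) := by
      rw [Finset.disjoint_left]
      intro x h1 h2
      have s1 := region_star h hX h1
      have s2 := region_star h hX' h2
      have hxv : x ∈ verts X := (Finset.mem_sdiff.1 h1).1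
      obtain ⟨f, hf, hxf⟩ := RE_mem_verts.1 hxv
      have hfs : f ∈ star T x := Finset.mem_filter.2 ⟨hX.bdry.1 hf, hxf⟩
      exact (Finset.mem_sdiff.1 (s2 hfs)).2 hf
    have hd2 : Disjoint (inn X a b c d ∪ inn (T \ X) a b c d) ({a, b, c, d} : Finset V) := by
      rw [Finset.disjoint_left]
      intro x hx h4
      simp only [inn, Finset.mem_union, Finset.mem_sdiff] at hx
      tauto
    rw [← RE_card4 hX, ← Finset.card_union_of_disjoint hd, ← Finset.card_union_of_disjoint hd2]
    apply Finset.card_le_card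
    intro x hx
    rw [RE_mem_verts]
    simp only [inn, Finset.mem_union, Finset.mem_sdiff] at hx
    rcases hx with (⟨hx, -⟩ | ⟨hx, -⟩) | hx
    · obtain ⟨f, hf, hxf⟩ := RE_mem_verts.1 hx
      exact ⟨f, hX.bdry.1 hf, hxf⟩
    · obtain ⟨f, hf, hxf⟩ := RE_mem_verts.1 hx
      exact ⟨f, (Finset.mem_sdiff.1 hf).1, hxf⟩
    · obtain ⟨f, hf, hxf⟩ := RE_mem_verts.1 (RE_corners hX hx)
      exact ⟨f, hX.bdry.1 hf, hxf⟩
  omega

end Pool.Agent.TH246.PR
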