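import Pool.Agent.TH246.PR.LinkConn

set_option autoImplicit false
set_option linter.unusedVariables false

namespace Pool.Agent.TH246.PR

open Finset

variable {V : Type} [DecidableEq V]

lemma Split_ef_sub {T X : Finset (Finset V)} (hX : X ⊆ T) (u v : V) : ef X u v ⊆ ef T u v :=
  filter_subset_filter _ hX

lemma Split_mem_ef {T : Finset (Finset V)} {u v : V} {f : Finset V} :
    f ∈ ef T u v ↔ f ∈ T ∧ u ∈ f ∧ v ∈ f := by
  simp [ef]

/-- an edge which is not in the boundary: all the faces -/
lemma Split_full {T X : Finset (Finset V)} (h : Pre T) {Z : Finset (Sym2 V)} (hX : Bdry T X Z)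
    {u v : V} (huv : Adj T u v) (hZ : s(u, v) ∉ Z) {f : Finset V} (hf : f ∈ X) (hu : u ∈ f)
    (hv : v ∈ f) : ef X u v = ef T u v := by
  have h1 : (ef X u v).card ≠ 1 := fun h1 => hZ ((hX.2 u v huv).1 h1)
  have h2 := h.two u v huv
  have h3 : (ef X u v).card ≤ 2 := h2 ▸ card_le_card (Split_ef_sub hX.1 u v)
  have h4 : 0 < (ef X u v).card := card_pos.mpr ⟨f, Split_mem_ef.mpr ⟨hf, hu, hv⟩⟩
  exact eq_of_subset_of_card_le (Split_ef_sub hX.1 u v) (by omega)

lemma Split_compl {T X : Finset (Finset V)} (h : Pre T) {Z : Finset (Sym2 V)}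
    (hX : Bdry T X Z) : Bdry T (T \ X) Z := by
  refine ⟨sdiff_subset, fun u v huv => ?_⟩
  have h1 : ef (T \ X) u v = ef T u v \ ef X u v := by
    ext f
    simp only [Split_mem_ef, mem_sdiff]
    tauto
  have h2 := card_sdiff_of_subset (Split_ef_sub hX.1 u v)
  have h3 := card_le_card (Split_ef_sub hX.1 u v)
  have h4 := h.two u v huv
  rw [h1, ← hX.2 u v huv]
  omega

lemma Split_Z {a b c u v : V} (huv : u ≠ v) (hu : u ∈ ({a, b, c} : Finset V))
    (hv : v ∈ ({a, b, c} : Finset V)) :
    s(u, v) ∈ ({s(a, b), s(b, c), s(a, c)} : Finset (Sym2 V)) := by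
  simp only [mem_insert, mem_singleton] at hu hv ⊢
  rcases hu with rfl | rfl | rfl <;> rcases hv with rfl | rfl | rfl <;>
    simp_all [Sym2.eq_swap]

lemma Split_Z' {a b c u v : V} (h : s(u, v) ∈ ({s(a, b), s(b, c), s(a, c)} : Finset (Sym2 V))) :
    u ∈ ({a, b, c} : Finset V) ∧ v ∈ ({a, b, c} : Finset V) := by
  simp only [mem_insert, mem_singleton, Sym2.eq_iff] at h ⊢
  tauto

lemma Split_inter {f g : Finset V} (h : (f ∩ g).card = 2) :
    ∃ u v, u ≠ v ∧ u ∈ f ∧ v ∈ f ∧ u ∈ g ∧ v ∈ g ∧ f ∩ g = {u, v} := by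
  obtain ⟨u, v, huv, he⟩ := card_eq_two.mp h
  have hu : u ∈ f ∩ g := by rw [he]; simp
  have hv : v ∈ f ∩ g := by rw [he]; simp
  rw [mem_inter] at hu hv
  exact ⟨u, v, huv, hu.1, hv.1, hu.2, hv.2, he⟩

lemma Split_adjZ {T : Finset (Finset V)} {a b c : V} (hab : Adj T a b) (hbc : Adj T b c)
    (hac : Adj T a c) {u v : V} (huv : u ≠ v) (hu : u ∈ ({a, b, c} : Finset V))
    (hv : v ∈ ({a, b, c} : Finset V)) : Adj T u v := by
  have sym : ∀ {x y : V}, Adj T x y → Adj T y x := by
    rintro x y ⟨h1, f, hf, hx, hy⟩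
    exact ⟨h1.symm, f, hf, hy, hx⟩
  simp only [mem_insert, mem_singleton] at hu hv
  rcases hu with rfl | rfl | rfl <;> rcases hv with rfl | rfl | rfl
  · exact absurd rfl huv
  · exact hab
  · exact hac
  · exact sym hab
  · exact absurd rfl huv
  · exact hbc
  · exact sym hac
  · exact sym hbc
  · exact absurd rfl huv

/-- two different sets with three elements and two common elements -/
lemma Split_two {f g : Finset V} (hf : f.card = 3) (hg : g.card = 3) (hfg : f ≠ g) {u v : V}
    (huv : u ≠ v) (hu : u ∈ f) (hv : v ∈ f) (hu' : u ∈ g) (hv' : v ∈ g) :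
    (f ∩ g).card = 2 := by
  have h1 : ({u, v} : Finset V) ⊆ f ∩ g := by
    intro x hx
    simp only [mem_insert, mem_singleton] at hx
    rcases hx with rfl | rfl <;> simp [*]
  have h2 : 2 ≤ (f ∩ g).card := by
    have := card_le_card h1
    rwa [card_pair huv] at this
  have h3 : (f ∩ g).card ≠ 3 := by
    intro h3
    have h4 : f ∩ g = f := eq_of_subset_of_card_le inter_subset_left (by omega)
    have h5 : f ∩ g = g := eq_of_subset_of_card_le inter_subset_right (by omega)
    exact hfg (h4.symm.trans h5)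
  have h6 : (f ∩ g).card ≤ f.card := card_le_card inter_subset_left
  omega

lemma Split_pre {T X : Finset (Finset V)} (h : Pre T) {a b c : V} (hab : Adj T a b)
    (hbc : Adj T b c) (hac : Adj T a c) (hf : ({a, b, c} : Finset V) ∉ T)
    (hX : Bdry T X {s(a, b), s(b, c), s(a, c)}) : Pre (insert {a, b, c} X) := by
  have hF3 : ({a, b, c} : Finset V).card = 3 := card_eq_three.mpr ⟨a, b, c, hab.1, hac.1, hbc.1, rfl⟩
  have hFX : ({a, b, c} : Finset V) ∉ X := fun h1 => hf (hX.1 h1)
  -- a closed set without the new face is empty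
  have key : ∀ W ⊆ insert ({a, b, c} : Finset V) X,
      (∀ f ∈ W, ∀ g ∈ insert ({a, b, c} : Finset V) X, (f ∩ g).card = 2 → g ∈ W) →
      ({a, b, c} : Finset V) ∉ W → W = ∅ := by
    intro W hW hcl hFW
    by_contra hne
    have hWX : W ⊆ X := by
      intro f hfW
      rcases mem_insert.mp (hW hfW) with rfl | h1
      · exact absurd hfW hFW
      · exact h1
    have hWT := h.conn W (hWX.trans hX.1) (nonempty_iff_ne_empty.mpr hne) (by
      intro f hfW g hg hfg
      obtain ⟨u, v, huv, hu, hv, hu', hv', -⟩ := Split_inter hfg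
      have hadj : Adj T u v := ⟨huv, f, hX.1 (hWX hfW), hu, hv⟩
      have hZ : s(u, v) ∉ ({s(a, b), s(b, c), s(a, c)} : Finset (Sym2 V)) := by
        intro hZ
        have hZ' := Split_Z' hZ
        have h2 : f ≠ {a, b, c} := by
          rintro rfl
          exact hFW hfW
        have h3 := Split_two (h.card3 f (hX.1 (hWX hfW))) hF3 h2 huv hu hv hZ'.1 hZ'.2
        exact hFW (hcl f hfW _ (mem_insert_self _ _) h3)
      have h4 := Split_full h hX hadj hZ (hWX hfW) hu hv
      have h5 : g ∈ ef X u v := by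
        rw [h4]
        exact Split_mem_ef.mpr ⟨hg, hu', hv'⟩
      exact hcl f hfW g (mem_insert_of_mem (Split_mem_ef.mp h5).1) hfg)
    have h6 : (ef X a b).card = 1 := (hX.2 a b hab).2 (by simp)
    have h7 := h.two a b hab
    have h8 : ef T a b ⊆ ef X a b := Split_ef_sub (hWT ▸ hWX) a b
    have := card_le_card h8
    omega
  refine ⟨⟨_, mem_insert_self _ _⟩, ?_, ?_, ?_⟩
  · intro f hfm
    rcases mem_insert.mp hfm with rfl | h1
    · exact hF3
    · exact h.card3 f (hX.1 h1)
  · rintro u v ⟨huv, f, hfm, hu, hv⟩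
    by_cases hZ : s(u, v) ∈ ({s(a, b), s(b, c), s(a, c)} : Finset (Sym2 V))
    · have hZ' := Split_Z' hZ
      have hadj : Adj T u v := Split_adjZ hab hbc hac huv hZ'.1 hZ'.2
      have h1 := (hX.2 u v hadj).2 hZ
      have h2 : ef (insert {a, b, c} X) u v = insert {a, b, c} (ef X u v) := by
        ext g
        simp only [Split_mem_ef, mem_insert]
        constructor
        · rintro ⟨h3 | h3, h4, h5⟩
          · exact Or.inl h3
          · exact Or.inr ⟨h3, h4, h5⟩
        · rintro (rfl | ⟨h3, h4, h5⟩)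
          · exact ⟨Or.inl rfl, hZ'.1, hZ'.2⟩
          · exact ⟨Or.inr h3, h4, h5⟩
      rw [h2, card_insert_of_notMem (fun h3 => hFX (Split_mem_ef.mp h3).1), h1]
    · have hnF : ¬ (u ∈ ({a, b, c} : Finset V) ∧ v ∈ ({a, b, c} : Finset V)) := by
        rintro ⟨h1, h2⟩
        exact hZ (Split_Z huv h1 h2)
      have hfX : f ∈ X := by
        rcases mem_insert.mp hfm with rfl | h1
        · exact absurd ⟨hu, hv⟩ hnF
        · exact h1
      have hadj : Adj T u v := ⟨huv, f, hX.1 hfX, hu, hv⟩
      have h4 := Split_full h hX hadj hZ hfX hu hv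
      have h2 : ef (insert {a, b, c} X) u v = ef X u v := by
        ext g
        simp only [Split_mem_ef, mem_insert]
        constructor
        · rintro ⟨rfl | h3, h4, h5⟩
          · exact absurd ⟨h4, h5⟩ hnF
          · exact ⟨h3, h4, h5⟩
        · rintro ⟨h3, h4, h5⟩
          exact ⟨Or.inr h3, h4, h5⟩
      rw [h2, h4]
      exact h.two u v hadj
  · intro W hW hWne hcl
    by_cases hFW : ({a, b, c} : Finset V) ∈ W
    · have h1 := key (insert {a, b, c} X \ W) sdiff_subset (by
        intro f hfm g hg hfg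
        rw [mem_sdiff] at hfm ⊢
        refine ⟨hg, fun hgW => hfm.2 (hcl g hgW f hfm.1 ?_)⟩
        rw [inter_comm]
        exact hfg) (fun h2 => (mem_sdiff.mp h2).2 hFW)
      rw [sdiff_eq_empty_iff_subset] at h1
      exact Subset.antisymm hW h1
    · exact absurd (key W hW hcl hFW) hWne.ne_empty

lemma Split_common {T X : Finset (Finset V)} (h : Sphere T) {a b c : V}
    (hX : Bdry T X {s(a, b), s(b, c), s(a, c)}) {x : V} (hx : x ∉ ({a, b, c} : Finset V))
    {f g : Finset V} (hf : f ∈ X) (hxf : x ∈ f) (hg : g ∈ T) (hxg : x ∈ g) : g ∈ X := by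
  have h1 := link_conn h x ((star T x).filter (fun f => f ∈ X)) (filter_subset _ _)
    ⟨f, by simp [star, hf, hxf, hX.1 hf]⟩ (by
      intro f' hf' g' hg' hfg
      rw [mem_filter] at hf' ⊢
      refine ⟨hg', ?_⟩
      simp only [star, mem_filter] at hf' hg'
      obtain ⟨u, v, huv, hu, hv, hu', hv', he⟩ := Split_inter hfg
      have hxi : x ∈ f' ∩ g' := mem_inter.mpr ⟨hf'.1.2, hg'.2⟩
      have hadj : Adj T u v := ⟨huv, f', hf'.1.1, hu, hv⟩
      have hZ : s(u, v) ∉ ({s(a, b), s(b, c), s(a, c)} : Finset (Sym2 V)) := by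
        intro hZ
        have hZ' := Split_Z' hZ
        rw [he] at hxi
        simp only [mem_insert, mem_singleton] at hxi
        rcases hxi with rfl | rfl
        · exact hx hZ'.1
        · exact hx hZ'.2
      have h4 := Split_full h.toPre hX hadj hZ hf'.2 hu hv
      have h5 : g' ∈ ef X u v := by
        rw [h4]
        exact Split_mem_ef.mpr ⟨hg'.1, hu', hv'⟩
      exact (Split_mem_ef.mp h5).1)
  have h2 : g ∈ (star T x).filter (fun f => f ∈ X) := by
    rw [h1]
    simp [star, hg, hxg]
  exact (mem_filter.mp h2).2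

lemma Split_card {T X : Finset (Finset V)} (h : Pre T) {a b c : V} (hab : Adj T a b)
    (hbc : Adj T b c) (hac : Adj T a c) (hf : ({a, b, c} : Finset V) ∉ T)
    (hX : Bdry T X {s(a, b), s(b, c), s(a, c)}) : 2 ≤ X.card := by
  by_contra hcon
  have h1 : (ef X a b).card = 1 := (hX.2 a b hab).2 (by simp)
  have h2 : (ef X b c).card = 1 := (hX.2 b c hbc).2 (by simp)
  obtain ⟨f, hf1⟩ : (ef X a b).Nonempty := card_pos.mp (by omega)
  obtain ⟨g, hg1⟩ : (ef X b c).Nonempty := card_pos.mp (by omega)
  rw [Split_mem_ef] at hf1 hg1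
  have h3 : f = g := by
    have : X.card ≤ 1 := by omega
    exact card_le_one.mp this f hf1.1 g hg1.1
  subst h3
  have h4 : ({a, b, c} : Finset V) ⊆ f := by
    intro x hx
    simp only [mem_insert, mem_singleton] at hx
    rcases hx with rfl | rfl | rfl
    · exact hf1.2.1
    · exact hf1.2.2
    · exact hg1.2.2
  have hF3 : ({a, b, c} : Finset V).card = 3 := card_eq_three.mpr ⟨a, b, c, hab.1, hac.1, hbc.1, rfl⟩
  have h5 : ({a, b, c} : Finset V) = f :=
    eq_of_subset_of_card_le h4 (by rw [hF3, h.card3 f (hX.1 hf1.1)])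
  rw [h5] at hf
  exact hf (hX.1 hf1.1)

lemma Split_verts_mem {T : Finset (Finset V)} {x : V} : x ∈ verts T ↔ ∃ f ∈ T, x ∈ f := by
  simp [verts]

theorem split {T : Finset (Finset V)} (h : Sphere T) {a b c : V} (hab : Adj T a b)
    (hbc : Adj T b c) (hac : Adj T a c) (hf : ({a, b, c} : Finset V) ∉ T) :
    ∃ T1 T2 : Finset (Finset V), Sphere T1 ∧ Sphere T2 ∧ T1.card < T.card ∧ T2.card < T.card ∧
      ({a, b, c} : Finset V) ∈ T1 ∧ ({a, b, c} : Finset V) ∈ T2 ∧
      (∀ u v, Adj T u v → Adj T1 u v ∨ Adj T2 u v) ∧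
      (∀ x, x ∈ verts T1 → x ∈ verts T2 → x = a ∨ x = b ∨ x = c) := by
  have hne1 := hab.1
  have hne2 := hbc.1
  have hne3 := hac.1
  obtain ⟨X, hX⟩ := exists_bdry h {s(a, b), s(b, c), s(a, c)} (by
    intro e he
    simp only [mem_insert, mem_singleton] at he
    rcases he with rfl | rfl | rfl
    · exact ⟨a, b, hab, rfl⟩
    · exact ⟨b, c, hbc, rfl⟩
    · exact ⟨a, c, hac, rfl⟩) (by
    intro v
    by_cases h1 : v = a
    · subst h1
      have : ({s(v, b), s(b, c), s(v, c)} : Finset (Sym2 V)).filter (fun e => v ∈ e) =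
          {s(v, b), s(v, c)} := by
        ext e
        simp only [mem_filter, mem_insert, mem_singleton]
        constructor
        · rintro ⟨rfl | rfl | rfl, h2⟩
          · exact Or.inl rfl
          · simp [hne1, hne3] at h2
          · exact Or.inr rfl
        · rintro (rfl | rfl) <;> simp
      rw [this, card_pair (by
        intro h4
        rcases Sym2.eq_iff.mp h4 with ⟨-, h5⟩ | ⟨h5, -⟩
        · exact hne2 h5
        · exact hne3 h5)]
      decide
    · by_cases h2 : v = b
      · subst h2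
        have : ({s(a, v), s(v, c), s(a, c)} : Finset (Sym2 V)).filter (fun e => v ∈ e) =
            {s(a, v), s(v, c)} := by
          ext e
          simp only [mem_filter, mem_insert, mem_singleton]
          constructor
          · rintro ⟨rfl | rfl | rfl, h2⟩
            · exact Or.inl rfl
            · exact Or.inr rfl
            · simp [hne2, h1] at h2
          · rintro (rfl | rfl) <;> simp
        rw [this, card_pair (by
          intro h4
          rcases Sym2.eq_iff.mp h4 with ⟨h5, -⟩ | ⟨h5, -⟩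
          · exact hne1 h5
          · exact hne3 h5)]
        decide
      · by_cases h3 : v = c
        · subst h3
          have : ({s(a, b), s(b, v), s(a, v)} : Finset (Sym2 V)).filter (fun e => v ∈ e) =
              {s(b, v), s(a, v)} := by
            ext e
            simp only [mem_filter, mem_insert, mem_singleton]
            constructor
            · rintro ⟨rfl | rfl | rfl, h2'⟩
              · simp [h2, h1] at h2'
              · exact Or.inl rfl
              · exact Or.inr rfl
            · rintro (rfl | rfl) <;> simp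
          rw [this, card_pair (by simp [hne1.symm, hne2])]
          decide
        · have : ({s(a, b), s(b, c), s(a, c)} : Finset (Sym2 V)).filter (fun e => v ∈ e) = ∅ := by
            ext e
            simp only [mem_filter, mem_insert, mem_singleton, notMem_empty, iff_false]
            rintro ⟨rfl | rfl | rfl, h2'⟩ <;> simp [h1, h2, h3] at h2'
          rw [this]
          simp)
  have hY := Split_compl h.toPre hX
  have hP1 := Split_pre h.toPre hab hbc hac hf hX
  have hP2 := Split_pre h.toPre hab hbc hac hf hY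
  have hc1 := Split_card h.toPre hab hbc hac hf hX
  have hc2 := Split_card h.toPre hab hbc hac hf hY
  have hi1 := ineq hP1
  have hi2 := ineq hP2
  have hFX : ({a, b, c} : Finset V) ∉ X := fun h1 => hf (hX.1 h1)
  have hFY : ({a, b, c} : Finset V) ∉ T \ X := fun h1 => hf (mem_sdiff.mp h1).1
  have hF3 : ({a, b, c} : Finset V).card = 3 := card_eq_three.mpr ⟨a, b, c, hne1, hne3, hne2, rfl⟩
  have hcT : X.card + (T \ X).card = T.card := by
    have h1 := card_sdiff_of_subset hX.1
    have h2 := card_le_card hX.1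
    omega
  have hcap : ∀ x, x ∈ verts (insert {a, b, c} X) → x ∈ verts (insert {a, b, c} (T \ X)) →
      x ∈ ({a, b, c} : Finset V) := by
    intro x hx1 hx2
    by_contra hx
    obtain ⟨f, hf1, hxf⟩ := Split_verts_mem.mp hx1
    obtain ⟨g, hg1, hxg⟩ := Split_verts_mem.mp hx2
    have hfX : f ∈ X := by
      rcases mem_insert.mp hf1 with rfl | h1
      · exact absurd hxf hx
      · exact h1
    have hgY : g ∈ T \ X := by
      rcases mem_insert.mp hg1 with rfl | h1
      · exact absurd hxg hx
      · exact h1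
    rw [mem_sdiff] at hgY
    exact hgY.2 (Split_common h hX hx hfX hxf hgY.1 hxg)
  have hvi : verts (insert {a, b, c} X) ∩ verts (insert {a, b, c} (T \ X)) = {a, b, c} := by
    ext x
    constructor
    · intro hx
      rw [mem_inter] at hx
      exact hcap x hx.1 hx.2
    · intro hx
      rw [mem_inter]
      exact ⟨Split_verts_mem.mpr ⟨_, mem_insert_self _ _, hx⟩,
        Split_verts_mem.mpr ⟨_, mem_insert_self _ _, hx⟩⟩
  have hvu : verts (insert {a, b, c} X) ∪ verts (insert {a, b, c} (T \ X)) = verts T := by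
    have hFv : ∀ x ∈ ({a, b, c} : Finset V), x ∈ verts T := by
      intro x hx
      simp only [mem_insert, mem_singleton] at hx
      obtain ⟨-, f, hf1, hfa, hfb⟩ := hab
      obtain ⟨-, g, hg1, hgb, hgc⟩ := hbc
      rcases hx with rfl | rfl | rfl
      · exact Split_verts_mem.mpr ⟨f, hf1, hfa⟩
      · exact Split_verts_mem.mpr ⟨f, hf1, hfb⟩
      · exact Split_verts_mem.mpr ⟨g, hg1, hgc⟩
    ext x
    rw [mem_union]
    constructor
    · rintro (hx | hx)
      · obtain ⟨f, hf1, hxf⟩ := Split_verts_mem.mp hx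
        rcases mem_insert.mp hf1 with rfl | h1
        · exact hFv x hxf
        · exact Split_verts_mem.mpr ⟨f, hX.1 h1, hxf⟩
      · obtain ⟨f, hf1, hxf⟩ := Split_verts_mem.mp hx
        rcases mem_insert.mp hf1 with rfl | h1
        · exact hFv x hxf
        · exact Split_verts_mem.mpr ⟨f, (mem_sdiff.mp h1).1, hxf⟩
    · intro hx
      obtain ⟨f, hf1, hxf⟩ := Split_verts_mem.mp hx
      by_cases h1 : f ∈ X
      · exact Or.inl (Split_verts_mem.mpr ⟨f, mem_insert_of_mem h1, hxf⟩)
      · exact Or.inr (Split_verts_mem.mpr ⟨f, mem_insert_of_mem (mem_sdiff.mpr ⟨hf1, h1⟩), hxf⟩)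
  have hcv := card_union_add_card_inter (verts (insert {a, b, c} X))
    (verts (insert {a, b, c} (T \ X)))
  rw [hvi, hvu, hF3] at hcv
  have hk1 := card_insert_of_notMem hFX
  have hk2 := card_insert_of_notMem hFY
  have heu := h.euler
  refine ⟨insert {a, b, c} X, insert {a, b, c} (T \ X), ⟨hP1, by omega⟩, ⟨hP2, by omega⟩,
    by omega, by omega, mem_insert_self _ _, mem_insert_self _ _, ?_, ?_⟩
  · rintro u v ⟨huv, f, hf1, hu, hv⟩
    by_cases h1 : f ∈ X
    · exact Or.inl ⟨huv, f, mem_insert_of_mem h1, hu, hv⟩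
    · exact Or.inr ⟨huv, f, mem_insert_of_mem (mem_sdiff.mpr ⟨hf1, h1⟩), hu, hv⟩
  · intro x hx1 hx2
    have := hcap x hx1 hx2
    simpa only [mem_insert, mem_singleton] using this

end Pool.Agent.TH246.PR
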